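import Mathlib

-- part Pool.Agent.Lib.MP_727bc7_co.Count
section

/-! Combinatorial bound: a rigid transitive system of commuting involutions on a finite set `T`
has at most `|T|` nontrivial colours. -/

namespace Pool.Agent.Lib.MP_727bc7_co

open Set

section Count
variable {T : Type*}

/-- reachability using the colours in `K` -/
def Reach (r : ℤ → T → T) (K : Set ℤ) : T → T → Prop :=
  Relation.ReflTransGen (fun x y => ∃ i ∈ K, y = r i x)

/-- the orbit of `x` under the colours in `K` -/
def orb (r : ℤ → T → T) (K : Set ℤ) (x : T) : Set T := {y | Reach r K x y}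

structure Sys (r : ℤ → T → T) : Prop where
  invol : ∀ i x, r i (r i x) = x
  comm : ∀ i j, i + 2 ≤ j → ∀ x, r i (r j x) = r j (r i x)
  trans : ∀ x y, Reach r univ x y
  rigid : ∀ E : T → T → Prop, (∀ x y, E x y → ∀ i, E (r i x) (r i y)) →
    (∀ x y, E x y → ∀ a, Reach r {i | i ≠ a ∧ i ≠ a + 2} x y) → ∀ x y, E x y → x = y

variable {r : ℤ → T → T}

theorem Reach.refl (K : Set ℤ) (x : T) : Reach r K x x := Relation.ReflTransGen.refl

theorem Reach.trans {K : Set ℤ} {x y z : T} (h1 : Reach r K x y) (h2 : Reach r K y z) :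
    Reach r K x z := Relation.ReflTransGen.trans h1 h2

theorem Reach.step {K : Set ℤ} {i : ℤ} (hi : i ∈ K) (x : T) : Reach r K x (r i x) :=
  Relation.ReflTransGen.single ⟨i, hi, rfl⟩

theorem Reach.tail {K : Set ℤ} {x y : T} (h : Reach r K x y) {i : ℤ} (hi : i ∈ K) :
    Reach r K x (r i y) := h.trans (Reach.step hi y)

theorem Reach.mono {K K' : Set ℤ} (hK : K ⊆ K') {x y : T} (h : Reach r K x y) :
    Reach r K' x y := by
  induction h with
  | refl => exact Reach.refl _ _
  | tail _ h2 ih => obtain ⟨i, hi, rfl⟩ := h2; exact Reach.tail ih (hK hi)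

theorem Reach.symm (hinv : ∀ i x, r i (r i x) = x) {K : Set ℤ} {x y : T} (h : Reach r K x y) :
    Reach r K y x := by
  induction h with
  | refl => exact Reach.refl _ _
  | tail _ h2 ih =>
    obtain ⟨i, hi, rfl⟩ := h2
    rename_i b _
    have : Reach r K (r i b) b := by
      have := Reach.step (r := r) hi (r i b)
      rwa [hinv] at this
    exact this.trans ih

theorem Reach.induct {K : Set ℤ} {x y : T} (h : Reach r K x y) (P : T → Prop) (h0 : P x)
    (hs : ∀ z, P z → ∀ i ∈ K, P (r i z)) : P y := by
  induction h with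
  | refl => exact h0
  | tail _ h2 ih => obtain ⟨i, hi, rfl⟩ := h2; exact hs _ ih i hi

theorem Reach.map {K : Set ℤ} (φ : T → T) (hφ : ∀ j ∈ K, ∀ z, φ (r j z) = r j (φ z)) {x y : T}
    (h : Reach r K x y) : Reach r K (φ x) (φ y) := by
  refine h.induct (fun z => Reach r K (φ x) (φ z)) (Reach.refl _ _) ?_
  intro z hz i hi
  rw [hφ i hi]
  exact hz.tail hi

theorem Reach.exists_perm (hinv : ∀ i x, r i (r i x) = x) {K K' : Set ℤ}
    (hc : ∀ i ∈ K', ∀ j ∈ K, ∀ z, r i (r j z) = r j (r i z)) {x y : T} (h : Reach r K' x y) :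
    ∃ φ : Equiv.Perm T, φ x = y ∧ ∀ j ∈ K, ∀ z, φ (r j z) = r j (φ z) := by
  refine h.induct (fun y => ∃ φ : Equiv.Perm T, φ x = y ∧ ∀ j ∈ K, ∀ z, φ (r j z) = r j (φ z))
    ⟨Equiv.refl _, rfl, fun _ _ _ => rfl⟩ ?_
  rintro z ⟨φ, h1, h2⟩ i hi
  refine ⟨φ.trans ⟨r i, r i, hinv i, hinv i⟩, by simp [h1], ?_⟩
  intro j hj w
  simp [h2 j hj, hc i hi j hj]

theorem orb_eq (hinv : ∀ i x, r i (r i x) = x) {K : Set ℤ} {x y : T} (h : Reach r K x y) :
    orb r K x = orb r K y := by
  ext z
  exact ⟨fun hz => (h.symm hinv).trans hz, fun hz => h.trans hz⟩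

theorem reach_of_orb_eq {K : Set ℤ} {x y : T} (h : orb r K x = orb r K y) : Reach r K x y := by
  have : y ∈ orb r K y := Reach.refl _ _
  rw [← h] at this
  exact this

/-- number of `K`-orbits met by `B` -/
noncomputable def cnt (r : ℤ → T → T) (K : Set ℤ) (B : Set T) : ℕ := (orb r K '' B).ncard

theorem cnt_drop [Finite T] (hinv : ∀ i x, r i (r i x) = x) {K K' : Set ℤ} (hK : K ⊆ K')
    (B : Set T) (D : Set (Set T)) (hD : D ⊆ orb r K '' B)
    (h : ∀ x ∈ B, orb r K x ∈ D → ∃ y ∈ B, orb r K y ∉ D ∧ Reach r K' x y) :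
    cnt r K' B + D.ncard ≤ cnt r K B := by
  classical
  let F : Set T → Set T := fun S => {z | ∃ y ∈ S, Reach r K' y z}
  have hF : ∀ x, F (orb r K x) = orb r K' x := by
    intro x
    ext z
    constructor
    · rintro ⟨y, hy, hz⟩
      exact (Reach.mono hK hy).trans hz
    · intro hz
      exact ⟨x, Reach.refl _ _, hz⟩
  have h1 : orb r K' '' B ⊆ F '' (orb r K '' B \ D) := by
    rintro _ ⟨x, hx, rfl⟩
    by_cases hxD : orb r K x ∈ D
    · obtain ⟨y, hy, hyD, hxy⟩ := h x hx hxD
      exact ⟨orb r K y, ⟨⟨y, hy, rfl⟩, hyD⟩, by rw [hF, orb_eq hinv hxy]⟩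
    · exact ⟨orb r K x, ⟨⟨x, hx, rfl⟩, hxD⟩, hF x⟩
  have h2 : (orb r K' '' B).ncard ≤ (orb r K '' B \ D).ncard :=
    (Set.ncard_le_ncard h1 (Set.toFinite _)).trans (Set.ncard_image_le (Set.toFinite _))
  have h3 := Set.ncard_sdiff_add_ncard_of_subset hD (Set.toFinite _)
  unfold cnt
  omega

theorem cnt_le [Finite T] (K : Set ℤ) (B : Set T) : cnt r K B ≤ B.ncard :=
  Set.ncard_image_le (Set.toFinite _)

theorem cnt_pos [Finite T] (K : Set ℤ) {B : Set T} (hB : B.Nonempty) : 0 < cnt r K B := by
  unfold cnt
  rw [Set.ncard_pos (Set.toFinite _)]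
  exact hB.image _

theorem chain_le (a : ℤ → ℕ) (s t : ℤ) (hst : s ≤ t) (h : ∀ j, s ≤ j → j < t → a (j + 1) < a j) :
    (a t : ℤ) + (t - s) ≤ a s := by
  induction t, hst using Int.leInduction with
  | base => simp
  | succ n hn ih =>
    have h1 := ih (fun j h1 h2 => h j h1 (by omega))
    have h2 := h n hn (by omega)
    omega

/-- colour `j` is left stable -/
def LS (r : ℤ → T → T) (j : ℤ) : Prop := ∀ x, Reach r (Iio j) x (r j x)

theorem Sys.comm' (h : Sys r) {i j : ℤ} (hij : i + 2 ≤ j ∨ j + 2 ≤ i) (x : T) :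
    r i (r j x) = r j (r i x) := by
  rcases hij with hij | hij
  · exact h.comm i j hij x
  · exact (h.comm j i hij x).symm

theorem Sys.ls_cong (h : Sys r) {p : ℤ} (hp : LS r p) {x y : T} (hxy : Reach r (Iio p) x y)
    (i : ℤ) : Reach r (Iio p) (r i x) (r i y) := by
  rcases lt_trichotomy i p with hi | hi | hi
  · have hi' : i ∈ Iio p := hi
    exact (((Reach.step hi' x).symm h.invol).trans hxy).tail hi'
  · subst hi
    exact (((hp x).symm h.invol).trans hxy).trans (hp y)
  · refine hxy.map (r i) ?_
    intro j hj z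
    exact h.comm' (Or.inr (by simp at hj; omega)) z

theorem Sys.decomp (h : Sys r) {p : ℤ} (hp : LS r p) (x y : T) :
    ∃ m, Reach r (Ioi p) x m ∧ Reach r (Iio p) m y := by
  refine (h.trans x y).induct (fun y => ∃ m, Reach r (Ioi p) x m ∧ Reach r (Iio p) m y)
    ⟨x, Reach.refl _ _, Reach.refl _ _⟩ ?_
  rintro z ⟨m, h1, h2⟩ i -
  rcases lt_trichotomy i p with hi | hi | hi
  · exact ⟨m, h1, h2.tail hi⟩
  · subst hi
    exact ⟨m, h1, h2.trans (hp z)⟩
  · exact ⟨r i m, h1.tail hi, h.ls_cong hp h2 i⟩

theorem Sys.exists_perm (h : Sys r) {p : ℤ} {x y : T} (hxy : Reach r (Ioi p) x y) :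
    ∃ φ : Equiv.Perm T, φ x = y ∧ ∀ j ∈ Iio p, ∀ z, φ (r j z) = r j (φ z) := by
  refine hxy.exists_perm h.invol ?_
  intro i hi j hj z
  simp at hi hj
  exact h.comm' (Or.inr (by omega)) z

theorem perm_symm_comm {K : Set ℤ} (φ : Equiv.Perm T)
    (hφ : ∀ j ∈ K, ∀ z, φ (r j z) = r j (φ z)) :
    ∀ j ∈ K, ∀ z, φ.symm (r j z) = r j (φ.symm z) := by
  intro j hj z
  apply φ.injective
  rw [hφ j hj]
  simp

/-- one essential step inside an invariant set drops the number of orbits -/
theorem cnt_step [Finite T] (hinv : ∀ i x, r i (r i x) = x) (j : ℤ) (B : Set T) (m : T)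
    (hm : m ∈ B) (hm' : r j m ∈ B) (hne : ¬ Reach r (Iio j) m (r j m)) :
    cnt r (Iio (j + 1)) B < cnt r (Iio j) B := by
  have := cnt_drop (r := r) hinv (K := Iio j) (K' := Iio (j + 1))
    (fun i hi => by simp at hi ⊢; omega) B {orb r (Iio j) m}
    (by rintro _ rfl; exact ⟨m, hm, rfl⟩) (by
      intro x hx hxD
      refine ⟨r j m, hm', ?_, ?_⟩
      · intro hc
        exact hne (reach_of_orb_eq (Set.mem_singleton_iff.mp hc).symm)
      · have h1 : Reach r (Iio j) x m := reach_of_orb_eq (Set.mem_singleton_iff.mp hxD)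
        exact (h1.mono (fun i hi => by simp at hi ⊢; omega)).tail (by simp))
  simp at this
  omega

theorem Sys.block_bound [Finite T] (h : Sys r) {u p : ℤ} (hup : u ≤ p) (hp : LS r p)
    (hess : ∀ j, u ≤ j → j < p → ¬ LS r j) (x0 : T) :
    p - u + 1 ≤ (orb r (Iio p) x0).ncard := by
  have h1 := chain_le (fun j => cnt r (Iio j) (orb r (Iio p) x0)) u p hup (by
    intro j hj1 hj2
    have := hess j hj1 hj2
    unfold LS at this
    push Not at this
    obtain ⟨t, ht⟩ := this
    obtain ⟨m, hm1, hm2⟩ := h.decomp hp t x0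
    obtain ⟨φ, hφ1, hφ2⟩ := h.exists_perm hm1
    have hmB : m ∈ orb r (Iio p) x0 := hm2.symm h.invol
    refine cnt_step h.invol j _ m hmB (Reach.tail hmB hj2) ?_
    intro hc
    apply ht
    have := hc.map φ.symm (fun i hi => perm_symm_comm φ hφ2 i (by simp at hi ⊢; omega))
    rw [perm_symm_comm φ hφ2 j hj2, ← hφ1] at this
    simpa using this)
  have h2 := cnt_le (r := r) (Iio u) (orb r (Iio p) x0)
  have h3 := cnt_pos (r := r) (Iio p) (B := orb r (Iio p) x0) ⟨x0, Reach.refl _ _⟩
  omega

theorem Sys.block_half [Finite T] (h : Sys r) {p : ℤ} (hp : LS r p) (x0 y : T)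
    (hy : ¬ Reach r (Iio p) x0 y) : 2 * (orb r (Iio p) x0).ncard ≤ Nat.card T := by
  obtain ⟨m, hm1, hm2⟩ := h.decomp hp x0 y
  obtain ⟨φ, hφ1, hφ2⟩ := h.exists_perm hm1
  have hdisj : Disjoint (orb r (Iio p) x0) (φ '' orb r (Iio p) x0) := by
    rw [Set.disjoint_left]
    rintro z hz ⟨w, hw, rfl⟩
    apply hy
    have h1 : Reach r (Iio p) m (φ w) := by
      have := Reach.map φ hφ2 hw
      rwa [hφ1] at this
    exact (Reach.trans hz (h1.symm h.invol)).trans hm2
  have h1 := Set.ncard_union_eq hdisj (Set.toFinite _) (Set.toFinite _)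
  rw [Set.ncard_image_of_injective _ φ.injective] at h1
  have h2 := Set.ncard_le_card (orb r (Iio p) x0 ∪ φ '' orb r (Iio p) x0)
  omega

/-- reversing the colours -/
def rev (r : ℤ → T → T) : ℤ → T → T := fun i => r (-i)

theorem reach_rev {K K' : Set ℤ} (hK : ∀ i, i ∈ K' ↔ -i ∈ K) {x y : T} :
    Reach (rev r) K x y ↔ Reach r K' x y := by
  constructor
  · intro h
    refine h.induct (fun y => Reach r K' x y) (Reach.refl _ _) ?_
    intro z hz i hi
    exact hz.tail (i := -i) (by rw [hK]; simpa using hi)
  · intro h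
    refine h.induct (fun y => Reach (rev r) K x y) (Reach.refl _ _) ?_
    intro z hz i hi
    have := hz.tail (i := -i) ((hK i).1 hi)
    simpa [rev] using this

theorem Sys.rev (h : Sys r) : Sys (rev r) where
  invol := fun i x => h.invol _ x
  comm := fun i j hij x => h.comm' (Or.inr (by omega)) x
  trans := fun x y => (reach_rev (K' := univ) (by simp)).2 (h.trans x y)
  rigid := by
    intro E h1 h2
    refine h.rigid E (fun x y hxy i => ?_) (fun x y hxy a => ?_)
    · have := h1 x y hxy (-i)
      simpa [MP_727bc7_co.rev] using this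
    · refine (reach_rev (K := {i | i ≠ (-a - 2) ∧ i ≠ (-a - 2) + 2}) ?_).1 (h2 x y hxy (-a - 2))
      intro i
      simp only [mem_ofPred_eq]
      omega

theorem exists_half [Finite T] (f : T → T) (hf : ∀ x, f (f x) = x) :
    ∃ X1 : Set T, (∀ x ∈ X1, f x ≠ x ∧ f x ∉ X1) ∧ {x | f x ≠ x}.ncard = 2 * X1.ncard := by
  classical
  obtain ⟨n, ⟨e⟩⟩ := Finite.exists_equiv_fin T
  refine ⟨{x | e x < e (f x)}, ?_, ?_⟩
  · intro x hx
    simp only [mem_ofPred_eq] at hx ⊢
    refine ⟨fun h => ?_, ?_⟩
    · rw [h] at hx; exact lt_irrefl _ hx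
    · rw [hf]; exact not_lt.2 hx.le
  · have h1 : {x | f x ≠ x} = {x | e x < e (f x)} ∪ f '' {x | e x < e (f x)} := by
      ext x
      simp only [mem_ofPred_eq, mem_union, mem_image]
      constructor
      · intro hx
        rcases lt_trichotomy (e x) (e (f x)) with h | h | h
        · exact Or.inl h
        · exact absurd (e.injective h).symm hx
        · exact Or.inr ⟨f x, by rwa [hf], hf x⟩
      · rintro (h | ⟨y, hy, rfl⟩)
        · intro h2; rw [h2] at h; exact lt_irrefl _ h
        · rw [hf]; intro h2; rw [← h2] at hy; exact lt_irrefl _ hy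
    have hinj : Function.Injective f := Function.LeftInverse.injective hf
    rw [h1, Set.ncard_union_eq _ (Set.toFinite _) (Set.toFinite _),
      Set.ncard_image_of_injective _ hinj]
    · omega
    · rw [Set.disjoint_left]
      rintro x hx ⟨y, hy, rfl⟩
      simp only [mem_ofPred_eq, hf] at hx hy
      exact lt_asymm hx hy

theorem cnt_first [Finite T] (hinv : ∀ i x, r i (r i x) = x) {K : Set ℤ} {u : ℤ} (hu : u ∈ K)
    (X1 : Set T) (hX : ∀ x ∈ X1, r u x ∉ X1) : cnt r K univ + X1.ncard ≤ Nat.card T := by
  have h1 : orb r K '' univ ⊆ orb r K '' (univ \ X1) := by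
    rintro _ ⟨x, -, rfl⟩
    by_cases hx : x ∈ X1
    · exact ⟨r u x, ⟨trivial, hX x hx⟩, (orb_eq hinv (Reach.step hu x)).symm⟩
    · exact ⟨x, ⟨trivial, hx⟩, rfl⟩
  have h2 : cnt r K univ ≤ (univ \ X1).ncard :=
    (Set.ncard_le_ncard h1 (Set.toFinite _)).trans (Set.ncard_image_le (Set.toFinite _))
  have h3 := Set.ncard_sdiff_add_ncard_of_subset (Set.subset_univ X1) (Set.toFinite _)
  rw [Set.ncard_univ] at h3
  omega

end Count

end Pool.Agent.Lib.MP_727bc7_co
end

-- part Pool.Agent.Lib.MP_727bc7_co.Count2
section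

namespace Pool.Agent.Lib.MP_727bc7_co

open Set

section Count
variable {T : Type*} {r : ℤ → T → T}

theorem chain_two (b : ℤ → ℕ) (s t : ℤ) (hst : s ≤ t)
    (h : ∀ j, s ≤ j → j < t → b (j + 1) + 2 ≤ b j) : (b t : ℤ) + 2 * (t - s) ≤ b s := by
  induction t, hst using Int.leInduction with
  | base => simp
  | succ n hn ih =>
    have h1 := ih (fun j h1 h2 => h j h1 (by omega))
    have h2 := h n hn (by omega)
    omega

theorem card_le_of_Icc (N : Finset ℤ) (u w : ℤ) (huw : u ≤ w) (hb : ∀ i ∈ N, u ≤ i ∧ i ≤ w) :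
    (N.card : ℤ) ≤ w - u + 1 := by
  have h1 : N ⊆ Finset.Icc u w := fun i hi => Finset.mem_Icc.2 (hb i hi)
  have h2 := Finset.card_le_card h1
  rw [Int.card_Icc] at h2
  omega

theorem reach_triv {K : Set ℤ} {x y : T} (h : Reach r K x y) (hx : ∀ i ∈ K, r i x = x) :
    y = x := by
  refine h.induct (fun y => y = x) rfl ?_
  rintro z rfl i hi
  exact hx i hi

theorem Sys.case_trans [Finite T] (h : Sys r) {u p w : ℤ} (N : Finset ℤ)
    (hN1 : ∀ i ∈ N, ∃ x, r i x ≠ x) (hN2 : ∀ i ∉ N, ∀ x, r i x = x) (hu : u ∈ N) (hw : w ∈ N)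
    (hb : ∀ i ∈ N, u ≤ i ∧ i ≤ w) (hup : u < p) (hess : ∀ j, u < j → j < p → ¬ LS r j)
    (htr : ∀ x y, Reach r (Iio p) x y) : N.card ≤ Nat.card T := by
  classical
  have hlo : ∀ i, i < u → ∀ x, r i x = x := fun i hi =>
    hN2 i (fun hc => by have := (hb i hc).1; omega)
  have hhi : ∀ i, w < i → ∀ x, r i x = x := fun i hi =>
    hN2 i (fun hc => by have := (hb i hc).2; omega)
  obtain ⟨t0, ht0⟩ := hN1 u hu
  have hcard := card_le_of_Icc N u w (hb u hu).2 hb
  have hess' : ∀ j, u ≤ j → j < p → cnt r (Iio (j + 1)) univ < cnt r (Iio j) univ := by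
    intro j hj1 hj2
    have : ¬ LS r j := by
      rcases hj1.eq_or_lt with hj | hj
      · subst hj
        intro hc
        exact ht0 (reach_triv (hc t0) (fun i hi => hlo i hi t0))
      · exact hess j hj hj2
    unfold LS at this
    push Not at this
    obtain ⟨t, ht⟩ := this
    exact cnt_step h.invol j univ t trivial trivial ht
  have hpos := cnt_pos (r := r) (Iio p) (B := univ) ⟨t0, trivial⟩
  by_cases hwp : w ≤ p
  · have h1 := chain_le (fun j => cnt r (Iio j) univ) u p hup.le hess'
    have h2 := cnt_le (r := r) (Iio u) univ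
    rw [Set.ncard_univ] at h2
    omega
  push Not at hwp
  -- transport along the transitive left group
  have htrans : ∀ x y, ∃ φ : Equiv.Perm T, φ x = y ∧ ∀ j ∈ Ioi p, ∀ z, φ (r j z) = r j (φ z) := by
    intro x y
    refine (htr x y).exists_perm h.invol ?_
    intro i hi j hj z
    simp at hi hj
    exact h.comm' (Or.inl (by omega)) z
  have hfree : ∀ i, p < i → (∃ x, r i x ≠ x) → ∀ x, r i x ≠ x := by
    rintro i hi ⟨z, hz⟩ x hx
    obtain ⟨φ, hφ1, hφ2⟩ := htrans x z
    apply hz
    rw [← hφ1, ← hφ2 i hi, hx]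
  have hwfree := hfree w hwp (hN1 w hw)
  have hress : ∀ i, p < i → i < w → ∀ t, ¬ Reach r (Ioi i) t (r i t) := by
    intro i hi1 hi2
    have hex : ∃ t, ¬ Reach r (Ioi i) t (r i t) := by
      by_contra hc
      push Not at hc
      have := h.rigid (Reach r (Ioi i)) (by
        intro x y hxy j
        rcases lt_trichotomy j i with hj | hj | hj
        · refine hxy.map (r j) ?_
          intro l hl z
          simp at hl
          exact h.comm' (Or.inl (by omega)) z
        · subst hj
          exact (((hc x).symm h.invol).trans hxy).trans (hc y)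
        · have hj' : j ∈ Ioi i := hj
          exact (((Reach.step hj' x).symm h.invol).trans hxy).tail hj') (by
        intro x y hxy a
        by_cases ha : a + 2 ≤ i
        · refine hxy.mono ?_
          intro l hl
          simp at hl ⊢
          omega
        · refine (htr x y).mono ?_
          intro l hl
          simp at hl ⊢
          omega) t0 (r w t0) (Reach.step (show w ∈ Ioi i from hi2) t0)
      exact hwfree t0 this.symm
    obtain ⟨t, ht⟩ := hex
    intro x hx
    obtain ⟨φ, hφ1, hφ2⟩ := htrans x t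
    apply ht
    have := hx.map φ (fun j hj => hφ2 j (by simp at hj ⊢; omega))
    rwa [hφ2 i hi1, hφ1] at this
  have hgrow : ∀ t i, p + 1 ≤ i → i < w →
      (orb r (Ici (i + 1)) t).ncard + 2 ≤ (orb r (Ici i) t).ncard := by
    intro t i hi1 hi2
    have hI : Ici (i + 1) = Ioi i := by ext l; simp
    have hn1 : r i t ∉ orb r (Ici (i + 1)) t := by
      rw [hI]; exact hress i (by omega) hi2 t
    have hn2 : r w (r i t) ∉ orb r (Ici (i + 1)) t := by
      intro hc
      apply hn1
      have := Reach.tail hc (show w ∈ Ici (i + 1) by simp; omega)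
      rwa [h.invol] at this
    have hsub : insert (r w (r i t)) (insert (r i t) (orb r (Ici (i + 1)) t)) ⊆
        orb r (Ici i) t := by
      rintro z (rfl | rfl | hz)
      · exact (Reach.step (show i ∈ Ici i by simp) t).tail (show w ∈ Ici i by simp; omega)
      · exact Reach.step (show i ∈ Ici i by simp) t
      · exact Reach.mono (fun l hl => by simp at hl ⊢; omega) hz
    have h1 := Set.ncard_le_ncard hsub (Set.toFinite _)
    rw [Set.ncard_insert_of_notMem (by
      rintro (hc | hc)
      · exact hwfree _ hc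
      · exact hn2 hc) (Set.toFinite _), Set.ncard_insert_of_notMem hn1 (Set.toFinite _)] at h1
    omega
  have hbw : ∀ t, 2 ≤ (orb r (Ici w) t).ncard := by
    intro t
    have hsub : ({t, r w t} : Set T) ⊆ orb r (Ici w) t := by
      rintro z (rfl | rfl)
      · exact Reach.refl _ _
      · exact Reach.step (show w ∈ Ici w by simp) t
    have h1 := Set.ncard_le_ncard hsub (Set.toFinite _)
    rwa [Set.ncard_pair (hwfree t).symm] at h1
  obtain ⟨X1, hX1, hX1c⟩ := exists_half (r u) (h.invol u)
  have hXinv : ∀ j, j ≠ u + 1 → ∀ x, r u x ≠ x → r u (r j x) ≠ r j x := by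
    intro j hj x hx hc
    rcases lt_trichotomy j u with h1 | h1 | h1
    · rw [hlo j h1] at hc; exact hx hc
    · subst h1
      rw [h.invol] at hc; exact hx hc.symm
    · rw [h.comm u j (by omega)] at hc
      apply hx
      have := congrArg (r j) hc
      rwa [h.invol, h.invol] at this
  have hfirst := cnt_first (r := r) h.invol (K := Iio (u + 1)) (u := u) (by simp) X1
    (fun x hx => (hX1 x hx).2)
  have hchain1 := chain_le (fun j => cnt r (Iio j) univ) (u + 1) p (by omega)
    (fun j h1 h2 => hess' j (by omega) h2)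
  by_cases hX : ∀ x, r u x ≠ x
  · have hk : Nat.card T = 2 * X1.ncard := by
      rw [← hX1c, ← Set.ncard_univ]
      congr 1
      ext x
      simp [hX x]
    by_cases hw2 : p + 2 ≤ w
    · have hnc : ∃ t, r w (r (w - 1) t) ≠ r (w - 1) (r w t) := by
        by_contra hc
        push Not at hc
        have := h.rigid (Reach r (Ici w)) (by
          intro x y hxy j
          refine hxy.map (r j) ?_
          intro l hl z
          simp at hl
          rcases hl.eq_or_lt with hl | hl
          · subst hl
            by_cases hj1 : j = w - 1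
            · subst hj1; exact (hc z).symm
            by_cases hj2 : j = w
            · subst hj2; rfl
            by_cases hj3 : w < j
            · rw [hhi j hj3, hhi j hj3]
            exact h.comm' (Or.inl (by omega)) z
          · rw [hhi l hl, hhi l hl]) (by
          intro x y hxy a
          by_cases ha : a + 2 < w
          · refine hxy.mono ?_
            intro l hl
            simp at hl ⊢
            omega
          · refine (htr x y).mono ?_
            intro l hl
            simp at hl ⊢
            omega) t0 (r w t0) (Reach.step (show w ∈ Ici w by simp) t0)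
        exact hwfree t0 this.symm
      obtain ⟨t, ht⟩ := hnc
      have hbfree : ∀ x, r (w - 1) x ≠ x := by
        refine hfree (w - 1) (by omega) ⟨t0, fun hc => ?_⟩
        apply hress (w - 1) (by omega) (by omega) t0
        rw [hc]
        exact Reach.refl _ _
      have hab : r w t ≠ r (w - 1) t := by
        intro hc
        apply ht
        rw [← hc, h.invol, hc, h.invol]
      have h5 : 5 ≤ (orb r (Ici (w - 1)) t).ncard := by
        have ha : w ∈ Ici (w - 1) := by simp
        have hb' : w - 1 ∈ Ici (w - 1) := by simp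
        have hsub : ({r w (r (w - 1) t), r (w - 1) (r w t), r w t, r (w - 1) t, t} : Set T) ⊆
            orb r (Ici (w - 1)) t := by
          rintro z (rfl | rfl | rfl | rfl | rfl)
          · exact (Reach.step hb' t).tail ha
          · exact (Reach.step ha t).tail hb'
          · exact Reach.step ha t
          · exact Reach.step hb' t
          · exact Reach.refl _ _
        have h1 := Set.ncard_le_ncard hsub (Set.toFinite _)
        have hinj : ∀ i x y, r i x = r i y → x = y := fun i x y hxy => by
          have := congrArg (r i) hxy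
          rwa [h.invol, h.invol] at this
        rw [Set.ncard_insert_of_notMem (by
            rintro (hc | hc | hc | hc)
            · exact ht hc
            · exact hbfree t (hinj _ _ _ hc)
            · exact hwfree _ hc
            · apply hab
              have := congrArg (r w) hc
              rw [h.invol] at this
              exact this.symm) (Set.toFinite _),
          Set.ncard_insert_of_notMem (by
            rintro (hc | hc | hc)
            · exact hbfree _ hc
            · exact hwfree t (hinj _ _ _ hc)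
            · apply hab
              have := congrArg (r (w - 1)) hc
              rwa [h.invol] at this) (Set.toFinite _),
          Set.ncard_insert_of_notMem (by
            rintro (hc | hc)
            · exact hab hc
            · exact hwfree t hc) (Set.toFinite _),
          Set.ncard_pair (hbfree t)] at h1
        omega
      have h6 := chain_two (fun j => (orb r (Ici j) t).ncard) (p + 1) (w - 1) (by omega)
        (fun j h1 h2 => hgrow t j h1 (by omega))
      have h7 := Set.ncard_le_card (orb r (Ici (p + 1)) t)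
      omega
    · by_cases hm : 2 ≤ X1.ncard
      · omega
      have hp : p = u + 1 := by omega
      have hw' : w = u + 2 := by omega
      have hk2 : Nat.card T = 2 := by omega
      by_cases hu1 : u + 1 ∈ N
      · exfalso
        have hall : ∀ i ∈ N, ∀ x y, Reach r {i} x y := by
          intro i hi
          obtain ⟨z, hz⟩ := hN1 i hi
          have hz2 : ∀ x, Reach r {i} z x := by
            intro x
            by_contra hc
            have hx1 : x ≠ z := by rintro rfl; exact hc (Reach.refl _ _)
            have hx2 : x ≠ r i z := by rintro rfl; exact hc (Reach.step (by simp) z)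
            have h1 := Set.ncard_le_card ({x, z, r i z} : Set T)
            rw [Set.ncard_insert_of_notMem (by
              rintro (hc | hc)
              · exact hx1 hc
              · exact hx2 hc) (Set.toFinite _), Set.ncard_pair hz.symm] at h1
            omega
          intro x y
          exact ((hz2 x).symm h.invol).trans (hz2 y)
        have := h.rigid (fun _ _ => True) (fun _ _ _ _ => trivial) (by
          intro x y _ a
          by_cases ha : a = u ∨ a + 2 = u
          · refine (hall (u + 1) hu1 x y).mono ?_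
            intro l hl
            simp at hl ⊢
            omega
          · refine (hall u hu x y).mono ?_
            intro l hl
            simp at hl ⊢
            omega) t0 (r u t0) trivial
        exact ht0 this.symm
      · have hsub : N ⊆ {u, u + 2} := by
          intro i hi
          have := hb i hi
          have h2 : i ≠ u + 1 := by rintro rfl; exact hu1 hi
          simp
          omega
        have h1 := Finset.card_le_card hsub
        have h2 : ({u, u + 2} : Finset ℤ).card ≤ 2 := Finset.card_le_two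
        omega
  · push Not at hX
    obtain ⟨x0, hx0⟩ := hX
    have hex : u + 1 < p ∧ ∃ t, r u t ≠ t ∧ r u (r (u + 1) t) = r (u + 1) t := by
      by_contra hc
      have := (htr t0 x0).induct (fun z => r u z ≠ z) ht0 (by
        intro z hz i hi
        by_cases hi1 : i = u + 1
        · subst hi1
          intro hc2
          exact hc ⟨hi, z, hz, hc2⟩
        · exact hXinv i hi1 z hz)
      exact this hx0
    obtain ⟨hup2, t, ht1, ht2⟩ := hex
    have ht1' : r u (r w t) ≠ r w t := hXinv w (by omega) t ht1
    have ht2' : r u (r (u + 1) (r w t)) = r (u + 1) (r w t) := by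
      rw [h.comm (u + 1) w (by omega), h.comm u w (by omega), ht2]
    have hsingle : ∀ x, r u x = x → ∀ y, Reach r (Iio (u + 1)) x y → y = x := by
      intro x hx y hy
      refine reach_triv hy ?_
      intro i hi
      simp at hi
      rcases lt_trichotomy i u with h1 | h1 | h1
      · exact hlo i h1 x
      · rw [h1]; exact hx
      · omega
    have hne : r (u + 1) t ≠ r (u + 1) (r w t) := by
      intro hc
      have := congrArg (r (u + 1)) hc
      rw [h.invol, h.invol] at this
      exact hwfree t this.symm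
    have hdrop := cnt_drop (r := r) h.invol (K := Iio (u + 1)) (K' := Iio (u + 1 + 1))
      (fun i hi => by simp at hi ⊢; omega) univ
      {orb r (Iio (u + 1)) (r (u + 1) t), orb r (Iio (u + 1)) (r (u + 1) (r w t))}
      (by rintro _ (rfl | rfl) <;> exact ⟨_, trivial, rfl⟩) (by
        have hnot : ∀ y, r u y ≠ y → orb r (Iio (u + 1)) y ∉
            ({orb r (Iio (u + 1)) (r (u + 1) t), orb r (Iio (u + 1)) (r (u + 1) (r w t))} :
              Set (Set T)) := by
          rintro y hy (hc | hc)
          · have := hsingle _ ht2 y (reach_of_orb_eq hc.symm)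
            rw [this] at hy; exact hy ht2
          · have := hsingle _ ht2' y (reach_of_orb_eq (Set.mem_singleton_iff.mp hc).symm)
            rw [this] at hy; exact hy ht2'
        rintro x - (hx | hx)
        · refine ⟨t, trivial, hnot t ht1, ?_⟩
          have := hsingle _ ht2 x (reach_of_orb_eq hx.symm)
          rw [this]
          exact (Reach.step (by simp) t).symm h.invol
        · refine ⟨r w t, trivial, hnot _ ht1', ?_⟩
          have := hsingle _ ht2' x (reach_of_orb_eq (Set.mem_singleton_iff.mp hx).symm)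
          rw [this]
          exact (Reach.step (by simp) _).symm h.invol)
    rw [Set.ncard_pair (by
      intro hc
      exact hne (hsingle _ ht2 _ (reach_of_orb_eq hc)).symm)] at hdrop
    have hchain2 := chain_le (fun j => cnt r (Iio j) univ) (u + 1 + 1) p (by omega)
      (fun j h1 h2 => hess' j (by omega) h2)
    have h6 := chain_two (fun j => (orb r (Ici j) t0).ncard) (p + 1) w (by omega)
      (fun j h1 h2 => hgrow t0 j h1 h2)
    have h7 : (orb r (Ici (p + 1)) t0).ncard ≤ {x | r u x ≠ x}.ncard := by
      refine Set.ncard_le_ncard ?_ (Set.toFinite _)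
      intro z hz
      refine Reach.induct hz (fun z => r u z ≠ z) ht0 ?_
      intro y hy i hi
      simp at hi
      exact hXinv i (by omega) y hy
    have h8 := hbw t0
    omega

/-- action of a word -/
def act (r : ℤ → T → T) (l : List ℤ) (x : T) : T := List.foldr (fun i z => r i z) x l

/-- the largest congruence refining the partitions indexed by `S` -/
def core (r : ℤ → T → T) (S : Set ℤ) (x y : T) : Prop :=
  ∀ l : List ℤ, ∀ a ∈ S, Reach r {i | i ≠ a ∧ i ≠ a + 2} (act r l x) (act r l y)

theorem core_cong {S : Set ℤ} {x y : T} (h : core r S x y) (i : ℤ) :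
    core r S (r i x) (r i y) := by
  intro l a ha
  have := h (l ++ [i]) a ha
  simpa [act, List.foldr_append] using this

theorem core_reach {S : Set ℤ} {x y : T} (h : core r S x y) {a : ℤ} (ha : a ∈ S) :
    Reach r {i | i ≠ a ∧ i ≠ a + 2} x y := h [] a ha

theorem le_core {S : Set ℤ} (E : T → T → Prop) (h1 : ∀ x y, E x y → ∀ i, E (r i x) (r i y))
    (h2 : ∀ x y, E x y → ∀ a ∈ S, Reach r {i | i ≠ a ∧ i ≠ a + 2} x y) {x y : T} (h : E x y) :
    core r S x y := by
  intro l a ha
  refine h2 _ _ ?_ a ha
  induction l with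
  | nil => exact h
  | cons i l ih => exact h1 _ _ ih i

/-- `core` as a setoid -/
def coreSetoid (h : Sys r) (S : Set ℤ) : Setoid T where
  r := core r S
  iseqv := ⟨fun _ _ _ _ => Reach.refl _ _, fun h1 l a ha => (h1 l a ha).symm h.invol,
    fun h1 h2 l a ha => (h1 l a ha).trans (h2 l a ha)⟩

/-- induced action on the quotient -/
def qr (h : Sys r) (S : Set ℤ) (i : ℤ) : Quotient (coreSetoid h S) → Quotient (coreSetoid h S) :=
  Quotient.map (r i) (fun _ _ hxy => core_cong hxy i)

theorem qr_mk (h : Sys r) (S : Set ℤ) (i : ℤ) (x : T) :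
    qr h S i (Quotient.mk _ x) = Quotient.mk _ (r i x) := rfl

theorem reach_qr (h : Sys r) (S : Set ℤ) {K : Set ℤ} {x y : T} (hxy : Reach r K x y) :
    Reach (qr h S) K (Quotient.mk _ x) (Quotient.mk _ y) := by
  refine hxy.induct (fun y => Reach (qr h S) K (Quotient.mk _ x) (Quotient.mk _ y))
    (Reach.refl _ _) ?_
  intro z hz i hi
  exact hz.tail hi

theorem reach_lift (h : Sys r) (S : Set ℤ) {K : Set ℤ} {x : T} {q : Quotient (coreSetoid h S)}
    (hq : Reach (qr h S) K (Quotient.mk _ x) q) :
    ∃ z, Reach r K x z ∧ Quotient.mk _ z = q := by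
  refine hq.induct (fun q => ∃ z, Reach r K x z ∧ Quotient.mk _ z = q)
    ⟨x, Reach.refl _ _, rfl⟩ ?_
  rintro _ ⟨z, hz, rfl⟩ i hi
  exact ⟨r i z, hz.tail hi, rfl⟩

theorem sys_qr (h : Sys r) (S : Set ℤ) : Sys (qr h S) where
  invol := by
    intro i x
    induction x using Quotient.inductionOn
    rw [qr_mk, qr_mk, h.invol]
  comm := by
    intro i j hij x
    induction x using Quotient.inductionOn
    rw [qr_mk, qr_mk, qr_mk, qr_mk, h.comm i j hij]
  trans := by
    intro x y
    induction x using Quotient.inductionOn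
    induction y using Quotient.inductionOn
    exact reach_qr h S (h.trans _ _)
  rigid := by
    intro E h1 h2 x y hxy
    induction x using Quotient.inductionOn
    induction y using Quotient.inductionOn
    rename_i x y
    apply Quotient.sound
    refine le_core (r := r) (S := S) (fun x y => E (Quotient.mk _ x) (Quotient.mk _ y))
      (fun x y hxy i => h1 _ _ hxy i) ?_ hxy
    intro x y hxy a ha
    obtain ⟨z, hz1, hz2⟩ := reach_lift h S (h2 _ _ hxy a)
    exact hz1.trans (core_reach (Quotient.exact hz2) ha)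

theorem card_qr [Finite T] (h : Sys r) (S : Set ℤ) {x y : T} (hxy : core r S x y) (hne : x ≠ y) :
    2 * Nat.card (Quotient (coreSetoid h S)) ≤ Nat.card T := by
  have h1 : ∀ z, ∃ z', z' ≠ z ∧ core r S z z' := by
    intro z
    refine (h.trans x z).induct (fun z => ∃ z', z' ≠ z ∧ core r S z z') ⟨y, hne.symm, hxy⟩ ?_
    rintro z ⟨z', h1, h2⟩ i -
    refine ⟨r i z', fun hc => h1 ?_, core_cong h2 i⟩
    have := congrArg (r i) hc
    rwa [h.invol, h.invol] at this
  choose f hf1 hf2 using h1
  let g : Bool × Quotient (coreSetoid h S) → T := fun b => if b.1 then f b.2.out else b.2.out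
  have hg : ∀ b, Quotient.mk (coreSetoid h S) (g b) = b.2 := by
    rintro ⟨b, q⟩
    cases b
    · simp [g]
    · simp only [g, if_true]
      rw [← Quotient.out_eq q, Quotient.out_eq]
      conv_rhs => rw [← Quotient.out_eq q]
      exact (Quotient.sound (hf2 q.out)).symm
  have hinj : Function.Injective g := by
    rintro ⟨b, q⟩ ⟨b', q'⟩ hc
    have h2 : q = q' := by
      have := hg (b, q)
      rw [hc, hg] at this
      exact this.symm
    subst h2
    cases b <;> cases b'
    · rfl
    · exact absurd hc.symm (hf1 _)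
    · exact absurd hc (hf1 _)
    · rfl
  have := Nat.card_le_card_of_injective g hinj
  rw [Nat.card_prod] at this
  simpa using this

end Count

theorem count_le (n : ℕ) : ∀ (T : Type) [Finite T] (r : ℤ → T → T) (_ : Sys r) (N : Finset ℤ),
    (∀ i ∈ N, ∃ x, r i x ≠ x) → (∀ i ∉ N, ∀ x, r i x = x) → Nat.card T = n → N.card ≤ n := by
  classical
  induction n using Nat.strong_induction_on with
  | _ n ih =>
  intro T _ r h N hN1 hN2 hn
  rcases N.eq_empty_or_nonempty with hN | hN
  · simp [hN]
  set u := N.min' hN with hu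
  set w := N.max' hN with hw
  have huN : u ∈ N := N.min'_mem hN
  have hwN : w ∈ N := N.max'_mem hN
  have hb : ∀ i ∈ N, u ≤ i ∧ i ≤ w := fun i hi => ⟨N.min'_le i hi, N.le_max' i hi⟩
  have huw : u ≤ w := (hb u huN).2
  obtain ⟨p, ⟨hp1, hp2⟩, hp3⟩ := Int.exists_least_of_bdd (P := fun j => u < j ∧ LS r j)
    ⟨u, fun z hz => hz.1.le⟩ ⟨w + 1, by omega, fun x => by
      rw [hN2 (w + 1) (fun hc => by have := (hb _ hc).2; omega)]
      exact Reach.refl _ _⟩
  obtain ⟨p', ⟨hp1', hp2'⟩, hp3'⟩ := Int.exists_least_of_bdd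
    (P := fun j => -w < j ∧ LS (rev r) j)
    ⟨-w, fun z hz => hz.1.le⟩ ⟨-u + 1, by omega, fun x => by
      unfold rev
      rw [hN2 (-(-u + 1)) (fun hc => by have := (hb _ hc).1; omega)]
      exact Reach.refl _ _⟩
  have hess : ∀ j, u < j → j < p → ¬ LS r j := fun j h1 h2 hc => by
    have := hp3 j ⟨h1, hc⟩; omega
  have hess' : ∀ j, -w < j → j < p' → ¬ LS (rev r) j := fun j h1 h2 hc => by
    have := hp3' j ⟨h1, hc⟩; omega
  obtain ⟨tu, htu⟩ := hN1 u huN
  obtain ⟨tw, htw⟩ := hN1 w hwN
  by_cases h1 : ∀ x y, Reach r (Iio p) x y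
  · rw [← hn]
    exact h.case_trans N hN1 hN2 huN hwN hb hp1 hess h1
  by_cases h2 : ∀ x y, Reach (rev r) (Iio p') x y
  · rw [← hn, ← Finset.card_image_of_injective N neg_injective]
    refine h.rev.case_trans (u := -w) (w := -u) (p := p') (N.image Neg.neg) ?_ ?_
      (Finset.mem_image_of_mem _ hwN) (Finset.mem_image_of_mem _ huN) ?_ hp1' hess' h2
    · intro i hi
      obtain ⟨j, hj, rfl⟩ := Finset.mem_image.1 hi
      simpa [rev] using hN1 j hj
    · intro i hi
      refine hN2 (-i) (fun hc => hi ?_)
      exact Finset.mem_image.2 ⟨-i, hc, by simp⟩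
    · intro i hi
      obtain ⟨j, hj, rfl⟩ := Finset.mem_image.1 hi
      have := hb j hj
      omega
  by_cases h3 : -p' ≤ p
  · push Not at h1 h2
    obtain ⟨x, y, hxy⟩ := h1
    obtain ⟨x', y', hxy'⟩ := h2
    have a1 := h.block_bound hp1.le hp2 (fun j hj1 hj2 => by
      rcases hj1.eq_or_lt with hj | hj
      · subst hj
        intro hc
        exact htu (reach_triv (hc tu) (fun i hi => hN2 i
          (fun hc => by have := (hb _ hc).1; simp at hi; omega) tu))
      · exact hess j hj hj2) x
    have a2 := h.block_half hp2 x y hxy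
    have a3 := h.rev.block_bound hp1'.le hp2' (fun j hj1 hj2 => by
      rcases hj1.eq_or_lt with hj | hj
      · subst hj
        intro hc
        have := reach_triv (hc tw) (fun i hi => hN2 (-i)
          (fun hc => by have := (hb _ hc).2; simp at hi; omega) tw)
        exact htw (by simpa [rev] using this)
      · exact hess' j hj hj2) x'
    have a4 := h.rev.block_half hp2' x' y' hxy'
    have a5 := card_le_of_Icc N u w huw hb
    omega
  · have c1 : core r (Ici p) tu (r u tu) := by
      refine le_core (Reach r (Iio p)) (fun x y hxy i => h.ls_cong hp2 hxy i) ?_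
        (Reach.step (show u ∈ Iio p from hp1) tu)
      intro x y hxy a ha
      refine hxy.mono ?_
      intro l hl
      simp at hl ha ⊢
      omega
    have hrev : ∀ x y, Reach (rev r) (Iio p') x y ↔ Reach r (Ioi (-p')) x y := by
      intro x y
      refine reach_rev ?_
      intro i
      simp
      omega
    have c2 : core r (Iio p) tw (r w tw) := by
      refine le_core (Reach r (Ioi (-p'))) (fun x y hxy i => ?_) ?_
        (Reach.step (show w ∈ Ioi (-p') by simp; omega) tw)
      · have := h.rev.ls_cong hp2' ((hrev x y).2 hxy) (-i)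
        rw [hrev] at this
        simpa [rev] using this
      · intro x y hxy a ha
        refine hxy.mono ?_
        intro l hl
        simp at hl ha ⊢
        omega
    have d1 := card_qr h (Ici p) c1 htu.symm
    have d2 := card_qr h (Iio p) c2 htw.symm
    have hpos : 0 < n := by
      rw [← hn]
      have : Nonempty T := ⟨tu⟩
      exact Nat.card_pos
    have e1 := ih _ (by omega) (Quotient (coreSetoid h (Ici p))) (qr h (Ici p)) (sys_qr h _)
      (N.filter (fun i => ∃ q, qr h (Ici p) i q ≠ q)) (fun i hi => (Finset.mem_filter.1 hi).2)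
      (by
        intro i hi q
        by_cases hiN : i ∈ N
        · by_contra hc
          exact hi (Finset.mem_filter.2 ⟨hiN, q, hc⟩)
        · induction q using Quotient.inductionOn
          rw [qr_mk, hN2 i hiN]) rfl
    have e2 := ih _ (by omega) (Quotient (coreSetoid h (Iio p))) (qr h (Iio p)) (sys_qr h _)
      (N.filter (fun i => ∃ q, qr h (Iio p) i q ≠ q)) (fun i hi => (Finset.mem_filter.1 hi).2)
      (by
        intro i hi q
        by_cases hiN : i ∈ N
        · by_contra hc
          exact hi (Finset.mem_filter.2 ⟨hiN, q, hc⟩)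
        · induction q using Quotient.inductionOn
          rw [qr_mk, hN2 i hiN]) rfl
    have hsub : N ⊆ N.filter (fun i => ∃ q, qr h (Ici p) i q ≠ q) ∪
        N.filter (fun i => ∃ q, qr h (Iio p) i q ≠ q) := by
      intro i hi
      by_contra hc
      simp only [Finset.mem_union, Finset.mem_filter, not_or, not_and, not_exists, not_not] at hc
      obtain ⟨x, hx⟩ := hN1 i hi
      have f1 : core r (Ici p) (r i x) x := Quotient.exact (hc.1 hi (Quotient.mk _ x))
      have f2 : core r (Iio p) (r i x) x := Quotient.exact (hc.2 hi (Quotient.mk _ x))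
      refine hx (h.rigid (fun x y => core r (Ici p) x y ∧ core r (Iio p) x y)
        (fun x y hxy i => ⟨core_cong hxy.1 i, core_cong hxy.2 i⟩) ?_ _ _ ⟨f1, f2⟩)
      intro x y hxy a
      by_cases ha : p ≤ a
      · exact core_reach hxy.1 ha
      · exact core_reach hxy.2 (by simpa using ha)
    have g1 := Finset.card_le_card hsub
    have g2 := Finset.card_union_le (N.filter (fun i => ∃ q, qr h (Ici p) i q ≠ q))
      (N.filter (fun i => ∃ q, qr h (Iio p) i q ≠ q))
    omega

end Pool.Agent.Lib.MP_727bc7_co
end
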