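import Mathlib

-- part Pool.Agent.Lib.MP_727bc7_co.Faces
section

/-! Face lattice of a finite vector configuration (faces are zero sets of nonnegative
functionals). -/

namespace Pool.Agent.Lib.MP_727bc7_co

open Module Submodule

section Faces

variable {ι U : Type*} [AddCommGroup U] [Module ℝ U]

/-- `φ` is nonnegative on `S` with zero set `A` -/
def Defines (u : ι → U) (S : Finset ι) (φ : U →ₗ[ℝ] ℝ) (A : Finset ι) : Prop :=
  (∀ s ∈ S, 0 ≤ φ (u s)) ∧ ∀ s, s ∈ A ↔ s ∈ S ∧ φ (u s) = 0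

def IsFace (u : ι → U) (S A : Finset ι) : Prop := ∃ φ, Defines u S φ A

/-- linear span of a set of indices -/
def K (u : ι → U) (A : Finset ι) : Submodule ℝ U := span ℝ (u '' A)

/-- rank -/
noncomputable def rk (u : ι → U) (A : Finset ι) : ℕ := finrank ℝ (K u A)

variable {u : ι → U} {S : Finset ι}

theorem mem_K {A : Finset ι} {s : ι} (hs : s ∈ A) : u s ∈ K u A := subset_span ⟨s, hs, rfl⟩

theorem K_mono {A B : Finset ι} (h : A ⊆ B) : K u A ≤ K u B :=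
  span_mono (Set.image_mono h)

theorem K_le_ker {A : Finset ι} {φ : U →ₗ[ℝ] ℝ} (h : ∀ s ∈ A, φ (u s) = 0) :
    ∀ x ∈ K u A, φ x = 0 := by
  have : K u A ≤ LinearMap.ker φ := by
    rw [K, span_le]
    rintro _ ⟨s, hs, rfl⟩
    exact h s hs
  exact fun x hx => this hx

theorem K_le {A : Finset ι} {W : Submodule ℝ U} (h : ∀ s ∈ A, u s ∈ W) : K u A ≤ W := by
  rw [K, span_le]
  rintro _ ⟨s, hs, rfl⟩
  exact h s hs

theorem IsFace.subset {A : Finset ι} (h : IsFace u S A) : A ⊆ S := by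
  obtain ⟨φ, h⟩ := h
  exact fun s hs => ((h.2 s).1 hs).1

theorem Defines.zero {φ : U →ₗ[ℝ] ℝ} {A : Finset ι} (h : Defines u S φ A) {s : ι} (hs : s ∈ A) :
    φ (u s) = 0 := ((h.2 s).1 hs).2

theorem Defines.pos {φ : U →ₗ[ℝ] ℝ} {A : Finset ι} (h : Defines u S φ A) {s : ι} (hs : s ∈ S)
    (hsA : s ∉ A) : 0 < φ (u s) :=
  lt_of_le_of_ne (h.1 s hs) (fun hc => hsA ((h.2 s).2 ⟨hs, hc.symm⟩))

theorem isFace_top : IsFace u S S := ⟨0, fun _ _ => le_rfl, fun s => by simp⟩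

theorem IsFace.inter {A B : Finset ι} (hA : IsFace u S A) (hB : IsFace u S B) :
    ∃ D, IsFace u S D ∧ ∀ s, s ∈ D ↔ s ∈ A ∧ s ∈ B := by
  classical
  obtain ⟨φ, hφ⟩ := hA
  obtain ⟨ψ, hψ⟩ := hB
  refine ⟨A ∩ B, ⟨φ + ψ, fun s hs => add_nonneg (hφ.1 s hs) (hψ.1 s hs), fun s => ?_⟩,
    fun s => Finset.mem_inter⟩
  rw [Finset.mem_inter, hφ.2, hψ.2, LinearMap.add_apply]
  constructor
  · rintro ⟨⟨h1, h2⟩, -, h3⟩
    exact ⟨h1, by rw [h2, h3, add_zero]⟩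
  · rintro ⟨h1, h2⟩
    have a1 := hφ.1 s h1
    have a2 := hψ.1 s h1
    exact ⟨⟨h1, by linarith⟩, h1, by linarith⟩

theorem IsFace.face {B : Finset ι} (hB : IsFace u S B) (ψ : U →ₗ[ℝ] ℝ)
    (hψ : ∀ s ∈ B, 0 ≤ ψ (u s)) : ∃ D, IsFace u S D ∧ ∀ s, s ∈ D ↔ s ∈ B ∧ ψ (u s) = 0 := by
  classical
  obtain ⟨φ, hφ⟩ := hB
  set M := ∑ s ∈ S, |ψ (u s)| / φ (u s) + 1 with hM
  have key : ∀ s ∈ S, s ∉ B → 0 < M * φ (u s) + ψ (u s) := by
    intro s hs hsB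
    have h1 := hφ.pos hs hsB
    have h2 : |ψ (u s)| / φ (u s) ≤ ∑ s ∈ S, |ψ (u s)| / φ (u s) :=
      Finset.single_le_sum (f := fun s => |ψ (u s)| / φ (u s))
        (fun t ht => div_nonneg (abs_nonneg _) (hφ.1 t ht)) hs
    rw [div_le_iff₀ h1] at h2
    have h3 := neg_abs_le (ψ (u s))
    nlinarith
  refine ⟨B.filter (fun s => ψ (u s) = 0), ⟨M • φ + ψ, fun s hs => ?_, fun s => ?_⟩,
    fun s => Finset.mem_filter⟩
  · simp only [LinearMap.add_apply, LinearMap.smul_apply, smul_eq_mul]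
    by_cases hsB : s ∈ B
    · rw [hφ.zero hsB]
      simpa using hψ s hsB
    · exact (key s hs hsB).le
  · simp only [LinearMap.add_apply, LinearMap.smul_apply, smul_eq_mul, Finset.mem_filter]
    constructor
    · rintro ⟨h1, h2⟩
      exact ⟨((hφ.2 s).1 h1).1, by rw [hφ.zero h1, h2]; simp⟩
    · rintro ⟨h1, h2⟩
      by_cases hsB : s ∈ B
      · rw [hφ.zero hsB] at h2
        exact ⟨hsB, by simpa using h2⟩
      · exact absurd h2 (key s h1 hsB).ne'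

theorem IsFace.mem_of_K {A : Finset ι} (h : IsFace u S A) {s : ι} (hs : s ∈ S)
    (hK : u s ∈ K u A) : s ∈ A := by
  obtain ⟨φ, h⟩ := h
  exact (h.2 s).2 ⟨hs, K_le_ker (fun t ht => h.zero ht) _ hK⟩

theorem tilt (B : Finset ι) (φ ψ : U →ₗ[ℝ] ℝ) (hφ : ∀ s ∈ B, 0 ≤ φ (u s))
    (h0 : ∀ s ∈ B, φ (u s) = 0 → ψ (u s) = 0) {b : ι} (hb : b ∈ B) (hneg : ψ (u b) < 0) :
    ∃ t : ℝ, 0 < t ∧ (∀ s ∈ B, 0 ≤ φ (u s) + t * ψ (u s)) ∧
      ∃ b1 ∈ B, ψ (u b1) < 0 ∧ φ (u b1) + t * ψ (u b1) = 0 := by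
  classical
  obtain ⟨b1, hb1, hmin⟩ := Finset.exists_min_image (B.filter (fun s => ψ (u s) < 0))
    (fun s => φ (u s) / (-ψ (u s))) ⟨b, Finset.mem_filter.2 ⟨hb, hneg⟩⟩
  obtain ⟨hb1B, hb1n⟩ := Finset.mem_filter.1 hb1
  have hp : 0 < φ (u b1) := lt_of_le_of_ne (hφ b1 hb1B) (fun hc => hb1n.ne (h0 b1 hb1B hc.symm))
  have ht : 0 < φ (u b1) / (-ψ (u b1)) := div_pos hp (by linarith)
  refine ⟨_, ht, fun s hs => ?_, b1, hb1B, hb1n, ?_⟩
  · by_cases h : ψ (u s) < 0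
    · have := hmin s (Finset.mem_filter.2 ⟨hs, h⟩)
      rw [le_div_iff₀ (by linarith)] at this
      linarith
    · have := hφ s hs
      have h2 : 0 ≤ ψ (u s) := not_lt.1 h
      positivity
  · have : ψ (u b1) ≠ 0 := hb1n.ne
    field_simp
    ring

variable [FiniteDimensional ℝ U]

theorem rk_mono {A B : Finset ι} (h : A ⊆ B) : rk u A ≤ rk u B :=
  Submodule.finrank_mono (K_mono h)

theorem IsFace.rk_lt {A B : Finset ι} (hA : IsFace u S A) (hAB : A ⊆ B) {s : ι} (hs : s ∈ S)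
    (hsB : s ∈ B) (hsA : s ∉ A) : rk u A < rk u B :=
  Submodule.finrank_lt_finrank_of_lt (lt_of_le_of_ne (K_mono hAB) (fun hc =>
    hsA (hA.mem_of_K hs (by rw [hc]; exact mem_K hsB))))

theorem IsFace.eq_of_rk {A B : Finset ι} (hA : IsFace u S A) (hB : B ⊆ S) (hAB : A ⊆ B)
    (h : rk u B ≤ rk u A) : A = B := by
  refine Finset.Subset.antisymm hAB (fun s hs => ?_)
  by_contra hc
  have := hA.rk_lt hAB (hB hs) hs hc
  omega

theorem exists_not_mem {A B : Finset ι} (h : rk u A < rk u B) : ∃ s ∈ B, s ∉ A := by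
  by_contra hc
  push Not at hc
  have := rk_mono (u := u) (show B ⊆ A from hc)
  omega

theorem exists_not_mem_sub {B : Finset ι} {W : Submodule ℝ U} (h : finrank ℝ W < rk u B) :
    ∃ s ∈ B, u s ∉ W := by
  by_contra hc
  push Not at hc
  have := Submodule.finrank_mono (K_le hc)
  unfold rk at h
  omega

theorem IsFace.finrank_sup {A : Finset ι} (hA : IsFace u S A) {s : ι} (hs : s ∈ S) (hsA : s ∉ A) :
    finrank ℝ (K u A ⊔ ℝ ∙ u s : Submodule ℝ U) = rk u A + 1 :=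
  finrank_sup_span_singleton (fun hc => hsA (hA.mem_of_K hs hc))

theorem K_eq_sup {A B : Finset ι} (hAB : A ⊆ B) (h : rk u B = rk u A + 1) {x : U}
    (hx : x ∈ K u B) (hxA : x ∉ K u A) : K u B = K u A ⊔ ℝ ∙ x := by
  symm
  refine Submodule.eq_of_le_of_finrank_le (sup_le (K_mono hAB)
    ((span_singleton_le_iff_mem _ _).2 hx)) ?_
  rw [finrank_sup_span_singleton hxA]
  exact h.le

omit [FiniteDimensional ℝ U] in
theorem zero_of_sup {W : Submodule ℝ U} {x : U} {φ : U →ₗ[ℝ] ℝ} (h1 : ∀ w ∈ W, φ w = 0)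
    (h2 : φ x = 0) : ∀ w ∈ W ⊔ ℝ ∙ x, φ w = 0 := by
  intro w hw
  obtain ⟨a, ha, b, hb, rfl⟩ := Submodule.mem_sup.1 hw
  obtain ⟨t, rfl⟩ := mem_span_singleton.1 hb
  simp [h1 a ha, h2]

theorem IsFace.between {A B : Finset ι} (hA : IsFace u S A) (hB : IsFace u S B) (hAB : A ⊆ B)
    (h : rk u A + 2 ≤ rk u B) :
    ∃ D, IsFace u S D ∧ A ⊆ D ∧ D ⊆ B ∧ rk u A < rk u D ∧ rk u D < rk u B := by
  obtain ⟨b0, hb0, hb0A⟩ := exists_not_mem (u := u) (A := A) (B := B) (by omega)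
  obtain ⟨s, hs, hsW⟩ := exists_not_mem_sub (u := u) (B := B) (W := K u A ⊔ ℝ ∙ u b0)
    (by rw [hA.finrank_sup (hB.subset hb0) hb0A]; omega)
  obtain ⟨ψ, hψ1, hψ2⟩ : ∃ ψ : U →ₗ[ℝ] ℝ, ψ (u s) < 0 ∧ ∀ w ∈ K u A ⊔ ℝ ∙ u b0, ψ w = 0 := by
    obtain ⟨ψ, h1, h2⟩ := Submodule.exists_le_ker_of_notMem hsW
    rcases lt_or_gt_of_ne h1 with h3 | h3
    · exact ⟨ψ, h3, fun w hw => h2 hw⟩
    · exact ⟨-ψ, by simpa using h3, fun w hw => by simpa using h2 hw⟩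
  obtain ⟨φ, hφ⟩ := id hA
  have hψA : ∀ a ∈ A, ψ (u a) = 0 := fun a ha => hψ2 _ (mem_sup_left (mem_K ha))
  obtain ⟨t, ht, h1, b1, hb1, h2, h3⟩ := tilt (u := u) B φ ψ (fun x hx => hφ.1 x (hB.subset hx))
    (fun x hx h0 => hψA x ((hφ.2 x).2 ⟨hB.subset hx, h0⟩)) hs hψ1
  obtain ⟨D, hD, hD'⟩ := hB.face (φ + t • ψ) (by simpa using h1)
  have hAD : A ⊆ D := fun a ha => (hD' a).2 ⟨hAB ha, by simp [hφ.zero ha, hψA a ha]⟩
  have hDB : D ⊆ B := fun a ha => ((hD' a).1 ha).1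
  refine ⟨D, hD, hAD, hDB, hA.rk_lt hAD (hB.subset hb1) ((hD' b1).2 ⟨hb1, by simpa using h3⟩)
    (fun hc => h2.ne (hψA b1 hc)), hD.rk_lt hDB (hB.subset hb0) hb0 (fun hc => ?_)⟩
  have := ((hD' b0).1 hc).2
  simp only [LinearMap.add_apply, LinearMap.smul_apply, smul_eq_mul] at this
  rw [hψ2 _ (mem_sup_right (mem_span_singleton_self _))] at this
  have h4 := hφ.pos (hB.subset hb0) hb0A
  linarith

theorem IsFace.cover {A : Finset ι} (hA : IsFace u S A) (n : ℕ) :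
    ∀ B, IsFace u S B → A ⊆ B → rk u A < rk u B → rk u B = n →
      ∃ D, IsFace u S D ∧ A ⊆ D ∧ D ⊆ B ∧ rk u D = rk u A + 1 := by
  induction n using Nat.strong_induction_on with
  | _ n ih =>
  intro B hB hAB h hn
  by_cases h1 : rk u B = rk u A + 1
  · exact ⟨B, hB, hAB, le_rfl, h1⟩
  obtain ⟨D, hD, h2, h3, h4, h5⟩ := hA.between hB hAB (by omega)
  obtain ⟨E, hE, h6, h7, h8⟩ := ih _ (by omega) D hD h2 h4 rfl
  exact ⟨E, hE, h6, h7.trans h3, h8⟩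

theorem IsFace.atom {A B : Finset ι} (hA : IsFace u S A) (hB : IsFace u S B) (hAB : A ⊆ B)
    (h : rk u A < rk u B) : ∃ D, IsFace u S D ∧ A ⊆ D ∧ D ⊆ B ∧ rk u D = rk u A + 1 :=
  hA.cover _ B hB hAB h rfl

theorem exists_chain (n : ℕ) : ∀ {X Y : Finset ι}, IsFace u S X → IsFace u S Y → X ⊆ Y →
    rk u Y = rk u X + n → ∃ C : ℕ → Finset ι, C (rk u X) = X ∧ C (rk u Y) = Y ∧
      (∀ ρ, rk u X ≤ ρ → ρ ≤ rk u Y → IsFace u S (C ρ) ∧ rk u (C ρ) = ρ) ∧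
      ∀ ρ, rk u X ≤ ρ → ρ < rk u Y → C ρ ⊆ C (ρ + 1) := by
  induction n with
  | zero =>
    intro X Y hX hY hXY h
    have := hX.eq_of_rk hY.subset hXY (by omega)
    subst this
    exact ⟨fun _ => X, rfl, rfl, fun ρ h1 h2 => ⟨hX, le_antisymm h1 h2⟩, fun _ _ _ => le_rfl⟩
  | succ n ih =>
    intro X Y hX hY hXY h
    obtain ⟨D, hD, h1, h2, h3⟩ := hX.atom hY hXY (by omega)
    obtain ⟨C, c1, c2, c3, c4⟩ := ih hD hY h2 (by omega)
    refine ⟨fun ρ => if ρ = rk u X then X else C ρ, by simp, by simp [c2]; omega,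
      fun ρ h4 h5 => ?_, fun ρ h4 h5 => ?_⟩
    · by_cases h6 : ρ = rk u X
      · simp [h6, hX]
      · simpa [h6] using c3 ρ (by omega) h5
    · by_cases h6 : ρ = rk u X
      · simp only [h6, if_true, Nat.succ_ne_self, if_false]
        rw [← h3, c1]
        exact h1
      · simp only [h6, if_false, show ρ + 1 ≠ rk u X by omega]
        exact c4 ρ (by omega) h5

theorem IsFace.exists_rk {A B : Finset ι} (hA : IsFace u S A) (hB : IsFace u S B) (hAB : A ⊆ B)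
    (h : rk u A < rk u B) : ∃ D, IsFace u S D ∧ A ⊆ D ∧ D ⊆ B ∧ rk u D + 1 = rk u B := by
  obtain ⟨C, c1, c2, c3, c4⟩ := exists_chain (rk u B - rk u A) hA hB hAB (by omega)
  have h1 := c3 (rk u B - 1) (by omega) (by omega)
  refine ⟨C (rk u B - 1), h1.1, ?_, ?_, by omega⟩
  · have : ∀ ρ, rk u A ≤ ρ → ρ ≤ rk u B → A ⊆ C ρ := by
      intro ρ h2
      induction ρ, h2 using Nat.le_induction with
      | base => intro _; rw [c1]
      | succ ρ h2 ih => exact fun h3 => (ih (by omega)).trans (c4 ρ h2 (by omega))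
    exact this _ (by omega) (by omega)
  · have := c4 (rk u B - 1) (by omega) (by omega)
    rwa [show rk u B - 1 + 1 = rk u B by omega, c2] at this

theorem eq_of_common {A X Y : Finset ι} (hA : IsFace u S A) (hX : IsFace u S X)
    (hY : IsFace u S Y) (hAX : A ⊆ X) (hAY : A ⊆ Y) (h1 : rk u X = rk u A + 1)
    (h2 : rk u Y = rk u A + 1) {s : ι} (hsX : s ∈ X) (hsY : s ∈ Y) (hsA : s ∉ A) : X = Y := by
  obtain ⟨D, hD, hD'⟩ := hX.inter hY
  have h3 := hA.rk_lt (B := D) (fun a ha => (hD' a).2 ⟨hAX ha, hAY ha⟩) (hX.subset hsX)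
    ((hD' s).2 ⟨hsX, hsY⟩) hsA
  rw [← hD.eq_of_rk hX.subset (fun a ha => ((hD' a).1 ha).1) (by omega),
    ← hD.eq_of_rk hY.subset (fun a ha => ((hD' a).1 ha).2) (by omega)]

theorem IsFace.diamond {A B : Finset ι} (hA : IsFace u S A) (hB : IsFace u S B) (hAB : A ⊆ B)
    (h : rk u B = rk u A + 2) : ∃ D1 D2, D1 ≠ D2 ∧
      (IsFace u S D1 ∧ A ⊆ D1 ∧ D1 ⊆ B ∧ rk u D1 = rk u A + 1) ∧
      (IsFace u S D2 ∧ A ⊆ D2 ∧ D2 ⊆ B ∧ rk u D2 = rk u A + 1) ∧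
      ∀ D, IsFace u S D → A ⊆ D → D ⊆ B → rk u D = rk u A + 1 → D = D1 ∨ D = D2 := by
  classical
  obtain ⟨b0, hb0, hb0A⟩ := exists_not_mem (u := u) (A := A) (B := B) (by omega)
  have hW := hA.finrank_sup (hB.subset hb0) hb0A
  obtain ⟨s1, hs1, hsW⟩ := exists_not_mem_sub (u := u) (B := B) (W := K u A ⊔ ℝ ∙ u b0)
    (by omega)
  obtain ⟨ψ, hψ1, hψ2⟩ := Submodule.exists_le_ker_of_notMem hsW
  have hψA : ∀ a ∈ A, ψ (u a) = 0 := fun a ha => hψ2 (mem_sup_left (mem_K ha))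
  have hψ0 : ψ (u b0) = 0 := hψ2 (mem_sup_right (mem_span_singleton_self _))
  have hs1A : s1 ∉ A := fun hc => hψ1 (hψA s1 hc)
  have hKB : K u B = (K u A ⊔ ℝ ∙ u b0) ⊔ ℝ ∙ u s1 := by
    symm
    refine Submodule.eq_of_le_of_finrank_le (sup_le (sup_le (K_mono hAB)
      ((span_singleton_le_iff_mem _ _).2 (mem_K hb0)))
      ((span_singleton_le_iff_mem _ _).2 (mem_K hs1))) ?_
    rw [finrank_sup_span_singleton hsW, hW]
    exact h.le
  obtain ⟨φ, hφ⟩ := id hA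
  have hp : ∀ s ∈ B \ A, 0 < φ (u s) := fun s hs =>
    hφ.pos (hB.subset (Finset.mem_sdiff.1 hs).1) (Finset.mem_sdiff.1 hs).2
  have m0 : b0 ∈ B \ A := Finset.mem_sdiff.2 ⟨hb0, hb0A⟩
  have m1 : s1 ∈ B \ A := Finset.mem_sdiff.2 ⟨hs1, hs1A⟩
  obtain ⟨b1, hb1, hmin⟩ := Finset.exists_min_image (B \ A) (fun s => ψ (u s) / φ (u s)) ⟨b0, m0⟩
  obtain ⟨b2, hb2, hmax⟩ := Finset.exists_max_image (B \ A) (fun s => ψ (u s) / φ (u s)) ⟨b0, m0⟩
  set μ1 := ψ (u b1) / φ (u b1) with hμ1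
  set μ2 := ψ (u b2) / φ (u b2) with hμ2
  have hlt : μ1 < μ2 := by
    have a1 := hmin b0 m0
    have a2 := hmax b0 m0
    have a3 := hmin s1 m1
    have a4 := hmax s1 m1
    simp only [hψ0, zero_div] at a1 a2
    have a5 : ψ (u s1) / φ (u s1) ≠ 0 := div_ne_zero hψ1 (hp s1 m1).ne'
    rcases lt_or_gt_of_ne a5 with a6 | a6 <;> linarith
  obtain ⟨D1, hD1, hD1'⟩ := hB.face (ψ - μ1 • φ) (by
    intro s hs
    simp only [LinearMap.sub_apply, LinearMap.smul_apply, smul_eq_mul]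
    by_cases hsA : s ∈ A
    · simp [hψA s hsA, hφ.zero hsA]
    · have ms : s ∈ B \ A := Finset.mem_sdiff.2 ⟨hs, hsA⟩
      have := hmin s ms
      rw [le_div_iff₀ (hp s ms)] at this
      linarith)
  obtain ⟨D2, hD2, hD2'⟩ := hB.face (μ2 • φ - ψ) (by
    intro s hs
    simp only [LinearMap.sub_apply, LinearMap.smul_apply, smul_eq_mul]
    by_cases hsA : s ∈ A
    · simp [hψA s hsA, hφ.zero hsA]
    · have ms : s ∈ B \ A := Finset.mem_sdiff.2 ⟨hs, hsA⟩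
      have := hmax s ms
      rw [div_le_iff₀ (hp s ms)] at this
      linarith)
  simp only [LinearMap.sub_apply, LinearMap.smul_apply, smul_eq_mul] at hD1' hD2'
  have e1 : ∀ s ∈ B \ A, s ∈ D1 ↔ ψ (u s) / φ (u s) = μ1 := fun s hs => by
    rw [hD1', div_eq_iff (hp s hs).ne', sub_eq_zero]
    simp [(Finset.mem_sdiff.1 hs).1]
  have e2 : ∀ s ∈ B \ A, s ∈ D2 ↔ ψ (u s) / φ (u s) = μ2 := fun s hs => by
    rw [hD2', div_eq_iff (hp s hs).ne', sub_eq_zero, eq_comm]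
    simp [(Finset.mem_sdiff.1 hs).1]
  have hA1 : A ⊆ D1 := fun a ha => (hD1' a).2 ⟨hAB ha, by simp [hψA a ha, hφ.zero ha]⟩
  have hA2 : A ⊆ D2 := fun a ha => (hD2' a).2 ⟨hAB ha, by simp [hψA a ha, hφ.zero ha]⟩
  have hB1 : D1 ⊆ B := fun a ha => ((hD1' a).1 ha).1
  have hB2 : D2 ⊆ B := fun a ha => ((hD2' a).1 ha).1
  have k1 : b1 ∈ D1 := (e1 b1 hb1).2 rfl
  have k2 : b2 ∈ D2 := (e2 b2 hb2).2 rfl
  have k3 : b2 ∉ D1 := fun hc => hlt.ne' ((e1 b2 hb2).1 hc)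
  have k4 : b1 ∉ D2 := fun hc => hlt.ne ((e2 b1 hb1).1 hc)
  obtain ⟨hb1B, hb1A⟩ := Finset.mem_sdiff.1 hb1
  obtain ⟨hb2B, hb2A⟩ := Finset.mem_sdiff.1 hb2
  have r1 := hA.rk_lt hA1 (hB.subset hb1B) k1 hb1A
  have r2 := hA.rk_lt hA2 (hB.subset hb2B) k2 hb2A
  have r3 := hD1.rk_lt hB1 (hB.subset hb2B) hb2B k3
  have r4 := hD2.rk_lt hB2 (hB.subset hb1B) hb1B k4
  refine ⟨D1, D2, fun hc => k4 (hc ▸ k1), ⟨hD1, hA1, hB1, by omega⟩, ⟨hD2, hA2, hB2, by omega⟩,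
    fun D hD hAD hDB hr => ?_⟩
  obtain ⟨d0, hd0, hd0A⟩ := exists_not_mem (u := u) (A := A) (B := D) (by omega)
  obtain ⟨e, he, heD⟩ := exists_not_mem (u := u) (A := D) (B := B) (by omega)
  obtain ⟨χ, hχ⟩ := id hD
  set a := χ (u b0) / φ (u b0) with ha
  set b := (χ (u s1) - a * φ (u s1)) / ψ (u s1) with hb
  have hcomb : ∀ s ∈ B, χ (u s) = a * φ (u s) + b * ψ (u s) := by
    intro s hs
    have := zero_of_sup (W := K u A ⊔ ℝ ∙ u b0) (x := u s1) (φ := χ - a • φ - b • ψ)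
      (zero_of_sup (K_le_ker (fun x hx => by simp [hχ.zero (hAD hx), hφ.zero hx, hψA x hx]))
        (by
          simp only [LinearMap.sub_apply, LinearMap.smul_apply, smul_eq_mul, hψ0, ha]
          have := (hp b0 m0).ne'
          field_simp
          ring)) (by
        simp only [LinearMap.sub_apply, LinearMap.smul_apply, smul_eq_mul, hb]
        field_simp
        ring) (u s) (by rw [← hKB]; exact mem_K hs)
    simp only [LinearMap.sub_apply, LinearMap.smul_apply, smul_eq_mul] at this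
    linarith
  have md : d0 ∈ B \ A := Finset.mem_sdiff.2 ⟨hDB hd0, hd0A⟩
  have hratio : ∀ s ∈ B \ A, χ (u s) = φ (u s) * (a + b * (ψ (u s) / φ (u s))) := by
    intro s hs
    rw [hcomb s (Finset.mem_sdiff.1 hs).1]
    have := (hp s hs).ne'
    field_simp
  have hd : a + b * (ψ (u d0) / φ (u d0)) = 0 := by
    have := hratio d0 md
    rw [hχ.zero hd0] at this
    exact (mul_eq_zero.1 this.symm).resolve_left (hp d0 md).ne'
  have hge : ∀ s ∈ B \ A, 0 ≤ a + b * (ψ (u s) / φ (u s)) := by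
    intro s hs
    have := hχ.1 s (hB.subset (Finset.mem_sdiff.1 hs).1)
    rw [hratio s hs] at this
    exact (mul_nonneg_iff_of_pos_left (hp s hs)).1 this
  rcases lt_trichotomy b 0 with hb0' | hb0' | hb0'
  · right
    refine eq_of_common hA hD hD2 hAD hA2 hr (by omega) hd0 ((e2 d0 md).2 ?_) hd0A
    have c1 := hge b2 hb2
    have c2 := hmax d0 md
    rw [← hμ2] at c1
    nlinarith
  · exfalso
    have c1 := hχ.pos (hB.subset he) heD
    rw [hcomb e he, hb0'] at c1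
    rw [hb0'] at hd
    have : a = 0 := by linarith
    rw [this] at c1
    simp at c1
  · left
    refine eq_of_common hA hD hD1 hAD hA1 hr (by omega) hd0 ((e1 d0 md).2 ?_) hd0A
    have c1 := hge b1 hb1
    have c2 := hmin d0 md
    rw [← hμ1] at c1
    nlinarith

theorem IsFace.km {A B : Finset ι} (hA : IsFace u S A) (hB : IsFace u S B) (hAB : A ⊆ B)
    (g : U →ₗ[ℝ] ℝ) (hg : ∀ a ∈ A, g (u a) = 0) {b : ι} (hb : b ∈ B) (hgb : 0 < g (u b)) :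
    ∃ X, IsFace u S X ∧ A ⊆ X ∧ X ⊆ B ∧ rk u X = rk u A + 1 ∧ ∃ b' ∈ X, 0 < g (u b') := by
  obtain ⟨φ, hφ⟩ := id hA
  obtain ⟨t, ht, h1, b1, hb1, h2, h3⟩ := tilt (u := u) B φ (-g)
    (fun x hx => hφ.1 x (hB.subset hx))
    (fun x hx h0 => by simp [hg x ((hφ.2 x).2 ⟨hB.subset hx, h0⟩)]) hb (by simpa using hgb)
  obtain ⟨D, hD, hD'⟩ := hB.face (φ + t • (-g)) (by simpa using h1)
  simp only [LinearMap.add_apply, LinearMap.smul_apply, smul_eq_mul, LinearMap.neg_apply] at hD' h2 h3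
  have hAD : A ⊆ D := fun a ha => (hD' a).2 ⟨hAB ha, by simp [hφ.zero ha, hg a ha]⟩
  have hr := hA.rk_lt hAD (hB.subset hb1) ((hD' b1).2 ⟨hb1, h3⟩)
    (fun hc => by rw [hg b1 hc] at h2; simp at h2)
  obtain ⟨X, hX, h4, h5, h6⟩ := hA.atom hD hAD hr
  obtain ⟨b', hb', hb'A⟩ := exists_not_mem (u := u) (A := A) (B := X) (by omega)
  refine ⟨X, hX, h4, fun a ha => ((hD' a).1 (h5 ha)).1, h6, b', hb', ?_⟩
  have c1 := ((hD' b').1 (h5 hb')).2
  have c2 := hφ.pos (hX.subset hb') hb'A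
  by_contra hc
  push Not at hc
  nlinarith

theorem IsFace.atoms_conn {A B X' : Finset ι} (hA : IsFace u S A) (hB : IsFace u S B)
    (h : rk u A + 3 ≤ rk u B) (hX' : IsFace u S X') (hAX' : A ⊆ X') (hX'B : X' ⊆ B)
    (hr' : rk u X' = rk u A + 1) (Q : Finset ι → Prop) (h0 : Q X')
    (hs : ∀ Y Y' D, IsFace u S Y → IsFace u S Y' → IsFace u S D → A ⊆ Y → A ⊆ Y' → Y ⊆ D →
      Y' ⊆ D → D ⊆ B → rk u Y = rk u A + 1 → rk u Y' = rk u A + 1 → rk u D < rk u B →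
      Q Y' → Q Y) :
    ∀ X, IsFace u S X → A ⊆ X → X ⊆ B → rk u X = rk u A + 1 → Q X := by
  classical
  obtain ⟨ε, hε⟩ := id hA
  obtain ⟨φ, hφ⟩ := id hX'
  have key : ∀ n, ∀ b, b ∉ A →
      (S.filter (fun s => φ (u s) / ε (u s) < φ (u b) / ε (u b))).card = n →
      ∀ Y, IsFace u S Y → A ⊆ Y → Y ⊆ B → rk u Y = rk u A + 1 → b ∈ Y → Q Y := by
    intro n
    induction n using Nat.strong_induction_on with
    | _ n ih =>
    intro b hbA hn Y hY hAY hYB hr hbY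
    have hbS := hY.subset hbY
    by_cases hb0 : b ∈ X'
    · rw [eq_of_common hA hY hX' hAY hAX' hr hr' hbY hb0 hbA]
      exact h0
    have hεb := hε.pos hbS hbA
    have hφb := hφ.pos hbS hb0
    set μ := φ (u b) / ε (u b) with hμ
    have hμ0 : 0 < μ := div_pos hφb hεb
    have hgA : ∀ a ∈ A, (μ • ε - φ) (u a) = 0 := fun a ha => by
      simp [hε.zero ha, hφ.zero (hAX' ha)]
    have hgY : ∀ a ∈ Y, (μ • ε - φ) (u a) = 0 := by
      intro a ha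
      refine zero_of_sup (x := u b) (K_le_ker hgA) ?_ _ ?_
      · simp only [LinearMap.sub_apply, LinearMap.smul_apply, smul_eq_mul, hμ]
        field_simp
        ring
      · rw [← K_eq_sup hAY hr (mem_K hbY) (fun hc => hbA (hA.mem_of_K hbS hc))]
        exact mem_K ha
    obtain ⟨b', hb', hb'A⟩ := exists_not_mem (u := u) (A := A) (B := X') (by omega)
    obtain ⟨e, he, h1, h2, h3, b1, hb1, h4⟩ := hY.km hB hYB (μ • ε - φ) hgY (hX'B hb') (by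
      simp only [LinearMap.sub_apply, LinearMap.smul_apply, smul_eq_mul, hφ.zero hb', sub_zero]
      exact mul_pos hμ0 (hε.pos (hX'.subset hb') hb'A))
    obtain ⟨Y', hY', h5, h6, h7, b2, hb2, h8⟩ := hA.km he (hAY.trans h1) (μ • ε - φ) hgA hb1 h4
    have hb2A : b2 ∉ A := fun hc => by rw [hgA b2 hc] at h8; exact lt_irrefl _ h8
    have hb2S := hY'.subset hb2
    have hlt : φ (u b2) / ε (u b2) < μ := by
      rw [div_lt_iff₀ (hε.pos hb2S hb2A)]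
      simp only [LinearMap.sub_apply, LinearMap.smul_apply, smul_eq_mul] at h8
      linarith
    refine hs Y Y' e hY hY' he hAY h5 h1 h6 h2 hr h7 (by omega)
      (ih _ ?_ b2 hb2A rfl Y' hY' h5 (h6.trans h2) h7 hb2)
    rw [← hn]
    refine Finset.card_lt_card ⟨fun s hs => ?_, fun hc => ?_⟩
    · rw [Finset.mem_filter] at hs ⊢
      exact ⟨hs.1, hs.2.trans hlt⟩
    · have := hc (Finset.mem_filter.2 ⟨hb2S, hlt⟩)
      rw [Finset.mem_filter] at this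
      exact lt_irrefl _ this.2
  intro X hX hAX hXB hr
  obtain ⟨b, hb, hbA⟩ := exists_not_mem (u := u) (A := A) (B := X) (by omega)
  exact key _ b hbA rfl X hX hAX hXB hr hb

end Faces

end Pool.Agent.Lib.MP_727bc7_co
end

-- part Pool.Agent.Lib.MP_727bc7_co.Chains
section

/-! Saturated chains of faces, the adjacency operations and connectivity. -/

namespace Pool.Agent.Lib.MP_727bc7_co

open Module Submodule

section Chains

variable {ι : Type} {U : Type*} [AddCommGroup U] [Module ℝ U]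

/-- a saturated chain of faces, indexed by rank -/
@[ext]
structure Chain (u : ι → U) (S : Finset ι) where
  F : ℕ → Finset ι
  face : ∀ ρ, IsFace u S (F ρ)
  rank : ∀ ρ ≤ rk u S, rk u (F ρ) = ρ
  mono : ∀ ρ, F ρ ⊆ F (ρ + 1)
  top : ∀ ρ, rk u S ≤ ρ → F ρ = S

variable {u : ι → U} {S : Finset ι}

theorem Chain.le (Φ : Chain u S) {a b : ℕ} (h : a ≤ b) : Φ.F a ⊆ Φ.F b :=
  monotone_nat_of_le_succ Φ.mono h

variable [FiniteDimensional ℝ U]

theorem Chain.splice (Φ : Chain u S) {a b : ℕ} (hab : a + 2 ≤ b) (hb : b ≤ rk u S)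
    {X Y : Finset ι} (hX : IsFace u S X) (hY : IsFace u S Y) (h1 : Φ.F a ⊆ X) (h2 : X ⊆ Y)
    (h3 : Y ⊆ Φ.F b) (r1 : rk u X = a + 1) (r2 : rk u Y + 1 = b) :
    ∃ Ψ : Chain u S, (∀ ρ, ρ ≤ a ∨ b ≤ ρ → Ψ.F ρ = Φ.F ρ) ∧ Ψ.F (a + 1) = X ∧
      Ψ.F (b - 1) = Y := by
  obtain ⟨C, c1, c2, c3, c4⟩ := exists_chain (rk u Y - rk u X) hX hY h2 (by omega)
  refine ⟨⟨fun ρ => if ρ ≤ a ∨ b ≤ ρ then Φ.F ρ else C ρ, fun ρ => ?_, fun ρ hρ => ?_,
    fun ρ => ?_, fun ρ hρ => ?_⟩, fun ρ hρ => by simp only [hρ, if_true], ?_, ?_⟩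
  · split_ifs with h
    · exact Φ.face ρ
    · exact (c3 ρ (by omega) (by omega)).1
  · split_ifs with h
    · exact Φ.rank ρ hρ
    · exact (c3 ρ (by omega) (by omega)).2
  · split_ifs with h h' h'
    · exact Φ.mono ρ
    · rw [show ρ = a by omega, ← r1, c1]; exact h1
    · rw [show ρ + 1 = b by omega, show ρ = rk u Y by omega, c2]; exact h3
    · exact c4 ρ (by omega) (by omega)
  · rw [if_pos (by omega)]; exact Φ.top ρ hρ
  · simp only
    rw [if_neg (by omega), ← r1, c1]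
  · simp only
    rw [if_neg (by omega), show b - 1 = rk u Y by omega, c2]

theorem Chain.exists_flip (Φ : Chain u S) {i : ℕ} (hi : i + 2 ≤ rk u S) :
    ∃ Ψ : Chain u S, (∀ ρ, ρ ≠ i + 1 → Ψ.F ρ = Φ.F ρ) ∧ Ψ.F (i + 1) ≠ Φ.F (i + 1) ∧
      ∀ D, IsFace u S D → Φ.F i ⊆ D → D ⊆ Φ.F (i + 2) → rk u D = i + 1 →
        D = Φ.F (i + 1) ∨ D = Ψ.F (i + 1) := by
  have r0 := Φ.rank i (by omega)
  have r1 := Φ.rank (i + 1) (by omega)
  have r2 := Φ.rank (i + 2) hi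
  obtain ⟨D1, D2, hne, h1, h2, h3⟩ := (Φ.face i).diamond (Φ.face (i + 2)) (Φ.le (by omega))
    (by omega)
  rw [r0] at h1 h2 h3
  rcases h3 (Φ.F (i + 1)) (Φ.face _) (Φ.mono _) (Φ.mono _) r1 with h | h
  · obtain ⟨Ψ, a1, a2, -⟩ := Φ.splice (a := i) (b := i + 2) le_rfl hi h2.1 h2.1 h2.2.1 le_rfl
      h2.2.2.1 h2.2.2.2 (by omega)
    refine ⟨Ψ, fun ρ hρ => a1 ρ (by omega), by rw [a2, h]; exact hne.symm, ?_⟩
    rw [a2, h]
    exact h3
  · obtain ⟨Ψ, a1, a2, -⟩ := Φ.splice (a := i) (b := i + 2) le_rfl hi h1.1 h1.1 h1.2.1 le_rfl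
      h1.2.2.1 h1.2.2.2 (by omega)
    refine ⟨Ψ, fun ρ hρ => a1 ρ (by omega), by rw [a2, h]; exact hne, ?_⟩
    rw [a2, h]
    exact fun D b1 b2 b3 b4 => (h3 D b1 b2 b3 b4).symm

/-- the `i`-adjacent chain -/
noncomputable def Chain.flip (i : ℕ) (Φ : Chain u S) : Chain u S :=
  if h : i + 2 ≤ rk u S then (Φ.exists_flip h).choose else Φ

theorem Chain.flip_spec (Φ : Chain u S) {i : ℕ} (hi : i + 2 ≤ rk u S) :
    (∀ ρ, ρ ≠ i + 1 → (Φ.flip i).F ρ = Φ.F ρ) ∧ (Φ.flip i).F (i + 1) ≠ Φ.F (i + 1) ∧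
      ∀ D, IsFace u S D → Φ.F i ⊆ D → D ⊆ Φ.F (i + 2) → rk u D = i + 1 →
        D = Φ.F (i + 1) ∨ D = (Φ.flip i).F (i + 1) := by
  unfold Chain.flip
  rw [dif_pos hi]
  exact (Φ.exists_flip hi).choose_spec

/-- reachability by flips -/
def Conn (Φ Ψ : Chain u S) : Prop :=
  Relation.ReflTransGen (fun x y => ∃ i, i + 2 ≤ rk u S ∧ y = x.flip i) Φ Ψ

theorem conn_aux (n : ℕ) : ∀ a, a + n ≤ rk u S → ∀ Φ Ψ : Chain u S,
    (∀ ρ, ρ ≤ a ∨ a + n ≤ ρ → Φ.F ρ = Ψ.F ρ) → Conn Φ Ψ := by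
  induction n using Nat.strong_induction_on with
  | _ n ih =>
  intro a ha Φ Ψ h
  by_cases h1 : n ≤ 1
  · have : Φ = Ψ := Chain.ext (funext fun ρ => h ρ (by omega))
    rw [this]
    exact Relation.ReflTransGen.refl
  by_cases h2 : n = 2
  · subst h2
    obtain ⟨s1, s2, s3⟩ := Φ.flip_spec ha
    rcases s3 (Ψ.F (a + 1)) (Ψ.face _) (by rw [h a (by omega)]; exact Ψ.mono _)
      (by rw [h (a + 2) (by omega)]; exact Ψ.mono _) (Ψ.rank _ (by omega)) with h3 | h3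
    · have : Φ = Ψ := Chain.ext (funext fun ρ => by
        by_cases hρ : ρ = a + 1
        · rw [hρ, h3]
        · exact h ρ (by omega))
      rw [this]
      exact Relation.ReflTransGen.refl
    · have : Ψ = Φ.flip a := Chain.ext (funext fun ρ => by
        by_cases hρ : ρ = a + 1
        · rw [hρ, h3]
        · rw [s1 ρ hρ, h ρ (by omega)])
      exact Relation.ReflTransGen.single ⟨a, ha, this⟩
  have r0 := Ψ.rank a (by omega)
  have r1 := Ψ.rank (a + 1) (by omega)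
  have r2 := Ψ.rank (a + n) ha
  have key := (Ψ.face a).atoms_conn (Ψ.face (a + n)) (by omega) (Ψ.face (a + 1)) (Ψ.mono a)
    (Ψ.le (by omega)) (by omega)
    (fun X => ∀ Θ : Chain u S, (∀ ρ, ρ ≤ a ∨ a + n ≤ ρ → Θ.F ρ = Ψ.F ρ) → Θ.F (a + 1) = X →
      Conn Θ Ψ)
    (fun Θ c1 c2 => ih (n - 1) (by omega) (a + 1) (by omega) Θ Ψ (fun ρ hρ => by
      by_cases hρ' : ρ = a + 1
      · rw [hρ', c2]
      · exact c1 ρ (by omega)))
    (by
      intro Y Y' D hY hY' hD b1 b2 b3 b4 b5 b6 b7 b8 hQ Θ c1 c2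
      obtain ⟨E, hE, e1, e2, e3⟩ := hD.exists_rk (Ψ.face (a + n)) b5 b8
      obtain ⟨G1, g1, g2, g3⟩ := Ψ.splice (a := a) (b := a + n) (by omega) ha hY hE b1
        (b3.trans e1) e2 (by omega) (by omega)
      obtain ⟨G2, g4, g5, g6⟩ := Ψ.splice (a := a) (b := a + n) (by omega) ha hY' hE b2
        (b4.trans e1) e2 (by omega) (by omega)
      have p1 := ih (n - 1) (by omega) (a + 1) (by omega) Θ G1 (fun ρ hρ => by
        by_cases hρ' : ρ = a + 1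
        · rw [hρ', c2, g2]
        · rw [c1 ρ (by omega), g1 ρ (by omega)])
      have p2 := ih (n - 1) (by omega) a (by omega) G1 G2 (fun ρ hρ => by
        by_cases hρ' : ρ = a + n - 1
        · rw [hρ', g3, g6]
        · rw [g4 ρ (by omega), g1 ρ (by omega)])
      exact (p1.trans p2).trans (hQ G2 g4 g5))
  exact key (Φ.F (a + 1)) (Φ.face _) (by rw [← h a (by omega)]; exact Φ.mono _)
    (by rw [← h (a + n) (by omega)]; exact Φ.le (by omega))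
    (by rw [Φ.rank _ (by omega), r0]) Φ h rfl

omit [FiniteDimensional ℝ U] in
theorem rk_empty : rk u (∅ : Finset ι) = 0 := by
  have : K u (∅ : Finset ι) = ⊥ := by simp [K]
  unfold rk
  rw [this, finrank_bot]

theorem Chain.zero (h0 : IsFace u S ∅) (Φ : Chain u S) : Φ.F 0 = ∅ :=
  (h0.eq_of_rk (Φ.face 0).subset (Finset.empty_subset _)
    (by rw [Φ.rank 0 (by omega), rk_empty])).symm

theorem conn_all (h0 : IsFace u S ∅) (Φ Ψ : Chain u S) : Conn Φ Ψ :=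
  conn_aux (rk u S) 0 (by omega) Φ Ψ (fun ρ hρ => by
    rcases hρ with hρ | hρ
    · rw [show ρ = 0 by omega, Φ.zero h0, Ψ.zero h0]
    · rw [Φ.top ρ (by omega), Ψ.top ρ (by omega)])

theorem exists_chain_through (h0 : IsFace u S ∅) {X : Finset ι} (hX : IsFace u S X) :
    ∃ Φ : Chain u S, Φ.F (rk u X) = X := by
  have hle := rk_mono (u := u) hX.subset
  obtain ⟨C, c1, c2, c3, c4⟩ := exists_chain (rk u X) h0 hX (Finset.empty_subset _)
    (by rw [rk_empty]; omega)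
  obtain ⟨D, d1, d2, d3, d4⟩ := exists_chain (rk u S - rk u X) hX isFace_top hX.subset
    (by omega)
  rw [rk_empty] at c1 c3 c4
  refine ⟨⟨fun ρ => if ρ ≤ rk u X then C ρ else if ρ ≤ rk u S then D ρ else S, fun ρ => ?_,
    fun ρ hρ => ?_, fun ρ => ?_, fun ρ hρ => ?_⟩, by simp [c2]⟩
  · split_ifs with h h'
    · exact (c3 ρ (by omega) h).1
    · exact (d3 ρ (by omega) h').1
    · exact isFace_top
  · split_ifs with h
    · exact (c3 ρ (by omega) h).2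
    · exact (d3 ρ (by omega) hρ).2
  · split_ifs with h h' h'' h3 h4 h5 h6 h7
    · exact c4 ρ (by omega) (by omega)
    · rw [show ρ = rk u X by omega, c2]
      have := d4 (rk u X) le_rfl (by omega)
      rwa [d1] at this
    · exact (c3 ρ (by omega) h).1.subset
    · omega
    · exact d4 ρ (by omega) (by omega)
    · exact (d3 ρ (by omega) h3).1.subset
    · omega
    · omega
    · exact le_rfl
  · split_ifs with h h'
    · rw [show ρ = rk u X by omega, c2]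
      exact hX.eq_of_rk le_rfl hX.subset (by omega)
    · rw [show ρ = rk u S by omega, d2]
    · rfl

end Chains

end Pool.Agent.Lib.MP_727bc7_co
end

-- part Pool.Agent.Lib.MP_727bc7_co.Frames
section

/-! Orthonormal frames attached to chains, and rigidity. -/

namespace Pool.Agent.Lib.MP_727bc7_co

open Module Submodule
open scoped RealInnerProductSpace

section Frames

variable {ι : Type} {U : Type*} [NormedAddCommGroup U] [InnerProductSpace ℝ U]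

/-- `e` is the inward unit normal of `A` in `B` -/
def IsFr (u : ι → U) (A B : Finset ι) (e : U) : Prop :=
  ‖e‖ = 1 ∧ e ∈ K u B ∧ (∀ x ∈ K u A, ⟪e, x⟫ = 0) ∧ ∀ s ∈ B, 0 ≤ ⟪e, u s⟫

/-- the inward unit normal -/
noncomputable def fr (u : ι → U) (A B : Finset ι) : U := Classical.epsilon (IsFr u A B)

variable {u : ι → U} {S : Finset ι}

theorem IsFr.inner_self {A B : Finset ι} {e : U} (h : IsFr u A B e) : ⟪e, e⟫ = 1 := by
  rw [real_inner_self_eq_norm_sq, h.1]; norm_num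

theorem IsFr.not_mem {A B : Finset ι} {e : U} (h : IsFr u A B e) : e ∉ K u A := fun hc => by
  have := h.2.2.1 e hc
  rw [h.inner_self] at this
  norm_num at this

variable [FiniteDimensional ℝ U]

theorem IsFr.decomp {A B : Finset ι} {e : U} (h : IsFr u A B e) (hAB : A ⊆ B)
    (hr : rk u B = rk u A + 1) {x : U} (hx : x ∈ K u B) : x - ⟪e, x⟫ • e ∈ K u A := by
  rw [K_eq_sup hAB hr h.2.1 h.not_mem] at hx
  obtain ⟨a, ha, b, hb, rfl⟩ := Submodule.mem_sup.1 hx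
  obtain ⟨t, rfl⟩ := mem_span_singleton.1 hb
  rw [inner_add_right, h.2.2.1 a ha, real_inner_smul_right, h.inner_self]
  simpa using ha

theorem IsFr.pos {A B : Finset ι} {e : U} (h : IsFr u A B e) (hA : IsFace u S A) (hAB : A ⊆ B)
    (hr : rk u B = rk u A + 1) {s : ι} (hs : s ∈ S) (hsB : s ∈ B) (hsA : s ∉ A) :
    0 < ⟪e, u s⟫ := by
  refine lt_of_le_of_ne (h.2.2.2 s hsB) (fun hc => hsA (hA.mem_of_K hs ?_))
  have := h.decomp hAB hr (mem_K hsB)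
  rwa [← hc, zero_smul, sub_zero] at this

theorem exists_fr {A B : Finset ι} (hA : IsFace u S A) (hB : IsFace u S B) (hAB : A ⊆ B)
    (hr : rk u B = rk u A + 1) : ∃ e, IsFr u A B e := by
  obtain ⟨s, hs, hsA⟩ := exists_not_mem (u := u) (A := A) (B := B) (by omega)
  obtain ⟨y, hy, z, hz, hyz⟩ := (K u A).exists_add_mem_mem_orthogonal (u s)
  have hsK : u s ∉ K u A := fun hc => hsA (hA.mem_of_K (hB.subset hs) hc)
  have hz0 : z ≠ 0 := by
    rintro rfl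
    exact hsK (by rw [hyz, add_zero]; exact hy)
  have hzn : 0 < ‖z‖ := norm_pos_iff.2 hz0
  have hzo : ∀ x ∈ K u A, ⟪z, x⟫ = 0 := fun x hx => by
    rw [real_inner_comm]; exact (Submodule.mem_orthogonal _ _).1 hz x hx
  refine ⟨‖z‖⁻¹ • z, by rw [norm_smul, norm_inv, norm_norm, inv_mul_cancel₀ hzn.ne'], ?_,
    fun x hx => by rw [real_inner_smul_left, hzo x hx, mul_zero], fun t ht => ?_⟩
  · refine Submodule.smul_mem _ _ ?_
    have : z = u s - y := by rw [hyz]; simp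
    rw [this]
    exact Submodule.sub_mem _ (mem_K hs) (K_mono hAB hy)
  · have h1 : u t ∈ K u A ⊔ ℝ ∙ u s := by
      rw [← K_eq_sup hAB hr (mem_K hs) hsK]; exact mem_K ht
    obtain ⟨a, ha, b, hb, hab⟩ := Submodule.mem_sup.1 h1
    obtain ⟨l, rfl⟩ := mem_span_singleton.1 hb
    obtain ⟨φ, hφ⟩ := id hA
    have h2 := hφ.1 t (hB.subset ht)
    rw [← hab, map_add, K_le_ker (fun x hx => hφ.zero hx) a ha, map_smul, smul_eq_mul,
      zero_add] at h2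
    have h3 := hφ.pos (hB.subset hs) hsA
    have h4 : 0 ≤ l := by
      by_contra hc
      push Not at hc
      nlinarith
    rw [real_inner_smul_left, ← hab, inner_add_right, hzo a ha, real_inner_smul_right, hyz,
      inner_add_right, hzo y hy, real_inner_self_eq_norm_sq]
    positivity

theorem fr_spec {A B : Finset ι} (hA : IsFace u S A) (hB : IsFace u S B) (hAB : A ⊆ B)
    (hr : rk u B = rk u A + 1) : IsFr u A B (fr u A B) :=
  Classical.epsilon_spec (exists_fr hA hB hAB hr)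

theorem IsFr.unique {A B : Finset ι} {e e' : U} (h : IsFr u A B e) (h' : IsFr u A B e')
    (hA : IsFace u S A) (hB : IsFace u S B) (hAB : A ⊆ B) (hr : rk u B = rk u A + 1) :
    e' = e := by
  have h1 := h.decomp hAB hr h'.2.1
  have h2 : e' - ⟪e, e'⟫ • e = 0 := by
    rw [← inner_self_eq_zero (𝕜 := ℝ)]
    nth_rewrite 1 [inner_sub_left]
    rw [real_inner_smul_left, h.2.2.1 _ h1, h'.2.2.1 _ h1]
    simp
  have h3 : e' = ⟪e, e'⟫ • e := sub_eq_zero.1 h2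
  obtain ⟨s, hs, hsA⟩ := exists_not_mem (u := u) (A := A) (B := B) (by omega)
  have p1 := h.pos hA hAB hr (hB.subset hs) hs hsA
  have p2 := h'.pos hA hAB hr (hB.subset hs) hs hsA
  have h4 := h'.inner_self
  set t := ⟪e, e'⟫
  rw [h3, real_inner_smul_left] at p2
  rw [h3, real_inner_smul_left, real_inner_smul_right, h.inner_self] at h4
  have h5 : 0 < t := by
    by_contra hc
    push Not at hc
    nlinarith
  have h6 : t = 1 := by nlinarith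
  rw [h3, h6, one_smul]

omit [FiniteDimensional ℝ U] in
theorem plane {e f x y : U} (ee : ⟪e, e⟫ = 1) (ff : ⟪f, f⟫ = 1) (ef : ⟪e, f⟫ = 0)
    (hx : x = ⟪e, x⟫ • e + ⟪f, x⟫ • f) (hy : y = ⟪e, y⟫ • e + ⟪f, y⟫ • f) (xx : ⟪x, x⟫ = 1)
    (yy : ⟪y, y⟫ = 1) (xy : ⟪x, y⟫ = 0) (p1 : 0 < ⟪f, x⟫) (p2 : 0 < ⟪e, y⟫) :
    x = ⟪e, x⟫ • e + √(1 - ⟪e, x⟫ ^ 2) • f ∧ y = √(1 - ⟪e, x⟫ ^ 2) • e - ⟪e, x⟫ • f := by
  have fe : ⟪f, e⟫ = 0 := by rw [real_inner_comm, ef]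
  set k := ⟪e, x⟫
  set σ := ⟪f, x⟫
  set p := ⟪e, y⟫
  set q := ⟪f, y⟫
  rw [hx] at xx xy
  rw [hy] at yy xy
  simp only [inner_add_left, inner_add_right, real_inner_smul_left, real_inner_smul_right, ee, ff,
    ef, fe] at xx yy xy
  have h1 : √(1 - k ^ 2) = σ := by
    rw [show 1 - k ^ 2 = σ ^ 2 by nlinarith, Real.sqrt_sq p1.le]
  have h2 : p = σ := by
    have : p ^ 2 = σ ^ 2 := by
      have a1 : k * p = -(σ * q) := by linarith
      have a2 : p ^ 2 = p ^ 2 * (k ^ 2 + σ ^ 2) := by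
        rw [show k ^ 2 + σ ^ 2 = 1 by nlinarith, mul_one]
      have a3 : σ ^ 2 = σ ^ 2 * (p ^ 2 + q ^ 2) := by
        rw [show p ^ 2 + q ^ 2 = 1 by nlinarith, mul_one]
      have a4 : (k * p) ^ 2 = (σ * q) ^ 2 := by rw [a1]; ring
      nlinarith
    exact (pow_left_inj₀ p2.le p1.le (by norm_num)).1 this
  have h3 : q = -k := by
    have : σ * (q + k) = 0 := by rw [h2] at xy; linarith
    have := (mul_eq_zero.1 this).resolve_left p1.ne'
    linarith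
  rw [h1]
  refine ⟨hx, ?_⟩
  rw [hy, h2, h3]
  module

/-- the frame of a chain -/
noncomputable def Chain.e (Φ : Chain u S) (ρ : ℕ) : U := fr u (Φ.F ρ) (Φ.F (ρ + 1))

theorem Chain.e_spec (Φ : Chain u S) {ρ : ℕ} (h : ρ < rk u S) :
    IsFr u (Φ.F ρ) (Φ.F (ρ + 1)) (Φ.e ρ) :=
  fr_spec (Φ.face _) (Φ.face _) (Φ.mono _) (by rw [Φ.rank _ h, Φ.rank _ h.le])

omit [FiniteDimensional ℝ U] in
theorem Chain.rk_succ (Φ : Chain u S) {ρ : ℕ} (h : ρ < rk u S) :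
    rk u (Φ.F (ρ + 1)) = rk u (Φ.F ρ) + 1 := by rw [Φ.rank _ h, Φ.rank _ h.le]

/-- cosine of the dihedral angle -/
noncomputable def Chain.kappa (i : ℕ) (Φ : Chain u S) : ℝ := ⟪Φ.e i, (Φ.flip i).e i⟫

theorem Chain.flip_congr {Φ Ψ : Chain u S} {i : ℕ} (hi : i + 2 ≤ rk u S) (h0 : Ψ.F i = Φ.F i)
    (h1 : Ψ.F (i + 1) = Φ.F (i + 1)) (h2 : Ψ.F (i + 2) = Φ.F (i + 2)) :
    (Ψ.flip i).F (i + 1) = (Φ.flip i).F (i + 1) := by
  obtain ⟨a1, a2, -⟩ := Ψ.flip_spec hi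
  rcases (Φ.flip_spec hi).2.2 ((Ψ.flip i).F (i + 1)) ((Ψ.flip i).face _)
    (by rw [← h0, ← a1 i (by omega)]; exact (Ψ.flip i).mono _)
    (by rw [← h2, ← a1 (i + 2) (by omega)]; exact (Ψ.flip i).mono _)
    ((Ψ.flip i).rank _ (by omega)) with h | h
  · exact absurd (h.trans h1.symm) a2
  · exact h

theorem Chain.flip_flip (Φ : Chain u S) {i : ℕ} (hi : i + 2 ≤ rk u S) :
    ((Φ.flip i).flip i).F (i + 1) = Φ.F (i + 1) := by
  obtain ⟨a1, a2, a3⟩ := (Φ.flip i).flip_spec hi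
  obtain ⟨b1, b2, b3⟩ := Φ.flip_spec hi
  rcases a3 (Φ.F (i + 1)) (Φ.face _) (by rw [b1 i (by omega)]; exact Φ.mono _)
    (by rw [b1 (i + 2) (by omega)]; exact Φ.mono _) (Φ.rank _ (by omega)) with h | h
  · exact absurd h.symm b2
  · exact h.symm

theorem Chain.kappa_flip (Φ : Chain u S) {i j : ℕ} (hi : i + 2 ≤ rk u S) (hj : j + 2 ≤ rk u S)
    (h1 : j + 1 ≠ i) (h2 : j ≠ i + 1) : (Φ.flip j).kappa i = Φ.kappa i := by
  obtain ⟨a1, a2, -⟩ := (Φ.flip j).flip_spec hi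
  obtain ⟨b1, b2, -⟩ := Φ.flip_spec hi
  obtain ⟨c1, c2, -⟩ := Φ.flip_spec hj
  unfold Chain.kappa Chain.e
  by_cases hji : j = i
  · subst hji
    rw [a1 j (by omega), b1 j (by omega), Φ.flip_flip hj, real_inner_comm]
  · rw [a1 i (by omega), b1 i (by omega), c1 i (by omega), c1 (i + 1) (by omega),
      Chain.flip_congr hi (c1 i (by omega)) (c1 (i + 1) (by omega)) (c1 (i + 2) (by omega))]

theorem Chain.e_flip (Φ : Chain u S) {i : ℕ} (hi : i + 2 ≤ rk u S) :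
    (Φ.flip i).e i = Φ.kappa i • Φ.e i + √(1 - Φ.kappa i ^ 2) • Φ.e (i + 1) ∧
    (Φ.flip i).e (i + 1) = √(1 - Φ.kappa i ^ 2) • Φ.e i - Φ.kappa i • Φ.e (i + 1) ∧
    ∀ ρ, ρ ≠ i → ρ ≠ i + 1 → (Φ.flip i).e ρ = Φ.e ρ := by
  obtain ⟨b1, b2, -⟩ := Φ.flip_spec hi
  have he := Φ.e_spec (ρ := i) (by omega)
  have hf := Φ.e_spec (ρ := i + 1) (by omega)
  have hx := (Φ.flip i).e_spec (ρ := i) (by omega)
  have hy := (Φ.flip i).e_spec (ρ := i + 1) (by omega)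
  have r1 := Φ.rk_succ (ρ := i) (by omega)
  have r2 := Φ.rk_succ (ρ := i + 1) (by omega)
  have r3 := (Φ.flip i).rk_succ (ρ := i) (by omega)
  have r4 := (Φ.flip i).rk_succ (ρ := i + 1) (by omega)
  have m1 := Φ.mono i
  have m2 := Φ.mono (i + 1)
  have m3 := (Φ.flip i).mono i
  have m4 := (Φ.flip i).mono (i + 1)
  have f3 := (Φ.flip i).face (i + 1)
  rw [b1 i (by omega)] at hx r3 m3
  rw [b1 (i + 1 + 1) (by omega)] at hy r4 m4
  have ef : ⟪Φ.e i, Φ.e (i + 1)⟫ = 0 := by rw [real_inner_comm]; exact hf.2.2.1 _ he.2.1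
  have hpl : ∀ z ∈ K u (Φ.F (i + 1 + 1)), (∀ w ∈ K u (Φ.F i), ⟪z, w⟫ = 0) →
      z = ⟪Φ.e i, z⟫ • Φ.e i + ⟪Φ.e (i + 1), z⟫ • Φ.e (i + 1) := by
    intro z hz hz'
    have d1 := he.decomp m1 r1 (hf.decomp m2 r2 hz)
    rw [inner_sub_right, real_inner_smul_right, ef, mul_zero, sub_zero] at d1
    have : z - ⟪Φ.e (i + 1), z⟫ • Φ.e (i + 1) - ⟪Φ.e i, z⟫ • Φ.e i = 0 := by
      rw [← inner_self_eq_zero (𝕜 := ℝ)]
      nth_rewrite 1 [inner_sub_left]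
      nth_rewrite 1 [inner_sub_left]
      rw [real_inner_smul_left, real_inner_smul_left, hz' _ d1, he.2.2.1 _ d1,
        hf.2.2.1 _ (K_mono m1 d1)]
      simp
    rw [← sub_eq_zero, ← this]
    module
  have hcross : ∀ {X X' : Finset ι} {x f : U}, IsFace u S X → IsFace u S X' → Φ.F i ⊆ X →
      Φ.F i ⊆ X' → X ⊆ Φ.F (i + 1 + 1) → X' ⊆ Φ.F (i + 1 + 1) → rk u X = rk u (Φ.F i) + 1 →
      rk u X' = rk u (Φ.F i) + 1 → rk u (Φ.F (i + 1 + 1)) = rk u X + 1 → X ≠ X' →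
      IsFr u (Φ.F i) X' x → IsFr u X (Φ.F (i + 1 + 1)) f → 0 < ⟪f, x⟫ := by
    intro X X' x f hX hX' k1 k2 k3 k4 k5 k6 k7 k8 k9 k10
    obtain ⟨s, hs, hsA⟩ := exists_not_mem (u := u) (A := Φ.F i) (B := X') (by omega)
    have hsX : s ∉ X := fun hc => k8 (eq_of_common (Φ.face i) hX hX' k1 k2 k5 k6 hc hs hsA)
    have p1 := k9.pos (Φ.face i) k2 k6 (hX'.subset hs) hs hsA
    have p2 := k10.pos hX k3 k7 (hX'.subset hs) (k4 hs) hsX
    have p3 := k10.2.2.1 _ (K_mono k1 (k9.decomp k2 k6 (mem_K hs)))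
    rw [inner_sub_right, real_inner_smul_right] at p3
    by_contra hc
    push Not at hc
    nlinarith
  have := plane he.inner_self hf.inner_self ef (hpl _ (K_mono m4 hx.2.1) hx.2.2.1)
    (hpl _ hy.2.1 (fun w hw => hy.2.2.1 w (K_mono m3 hw))) hx.inner_self hy.inner_self
    (by rw [real_inner_comm]; exact hy.2.2.1 _ hx.2.1)
    (hcross (Φ.face _) f3 m1 m3 m2 m4 r1 r3 r2 b2.symm hx hf)
    (by rw [real_inner_comm]; exact hcross f3 (Φ.face _) m3 m1 m4 m2 r3 r1 r4 b2 he hy)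
  refine ⟨this.1, this.2, fun ρ h1 h2 => ?_⟩
  unfold Chain.e
  rw [b1 ρ h2, b1 (ρ + 1) (by omega)]

theorem Chain.K_succ (Φ : Chain u S) {ρ : ℕ} (h : ρ < rk u S) :
    K u (Φ.F (ρ + 1)) = K u (Φ.F ρ) ⊔ ℝ ∙ Φ.e ρ :=
  K_eq_sup (Φ.mono ρ) (Φ.rk_succ h) (Φ.e_spec h).2.1 (Φ.e_spec h).not_mem

theorem Chain.K_zero (Φ : Chain u S) : K u (Φ.F 0) = ⊥ := by
  have := Φ.rank 0 (by omega)
  exact Submodule.finrank_eq_zero.1 this

theorem Chain.orthonormal (Φ : Chain u S) : Orthonormal ℝ (fun ρ : Fin (rk u S) => Φ.e ρ) := by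
  refine ⟨fun ρ => (Φ.e_spec ρ.2).1, fun a b hab => ?_⟩
  rcases lt_or_gt_of_ne (Fin.val_injective.ne hab) with h | h
  · rw [real_inner_comm]
    exact (Φ.e_spec b.2).2.2.1 _ (K_mono (Φ.le h) (Φ.e_spec a.2).2.1)
  · exact (Φ.e_spec a.2).2.2.1 _ (K_mono (Φ.le h) (Φ.e_spec b.2).2.1)

theorem Chain.span_e (Φ : Chain u S) (htop : K u S = ⊤) :
    ⊤ ≤ span ℝ (Set.range (fun ρ : Fin (rk u S) => Φ.e ρ)) := by
  have : ∀ ρ ≤ rk u S, K u (Φ.F ρ) ≤ span ℝ (Set.range (fun ρ : Fin (rk u S) => Φ.e ρ)) := by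
    intro ρ
    induction ρ with
    | zero => intro _; rw [Φ.K_zero]; exact bot_le
    | succ ρ ih =>
      intro h
      rw [Φ.K_succ h]
      exact sup_le (ih (by omega))
        ((span_singleton_le_iff_mem _ _).2 (subset_span ⟨⟨ρ, h⟩, rfl⟩))
  have h := this _ le_rfl
  rwa [Φ.top _ le_rfl, htop] at h

theorem rk_single (h0 : IsFace u S ∅) {s : ι} (hs : s ∈ S) : rk u {s} = 1 := by
  have h1 := h0.rk_lt (Finset.empty_subset {s}) hs (Finset.mem_singleton_self s) (by simp)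
  have h2 : rk u {s} ≤ 1 := by
    have : K u {s} = ℝ ∙ u s := by simp [K]
    unfold rk
    rw [this]
    exact (finrank_span_le_card _).trans (by simp)
  rw [rk_empty] at h1
  omega

theorem Chain.vertex (h0 : IsFace u S ∅) (hv : ∀ s ∈ S, IsFace u S {s}) (h1 : 1 ≤ rk u S)
    (Φ : Chain u S) : ∃ v ∈ S, Φ.F 1 = {v} := by
  have r1 := Φ.rank 1 h1
  obtain ⟨v, hv1, -⟩ := exists_not_mem (u := u) (A := ∅) (B := Φ.F 1) (by rw [rk_empty]; omega)
  have hvS := (Φ.face 1).subset hv1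
  exact ⟨v, hvS, ((hv v hvS).eq_of_rk (Φ.face 1).subset (by simpa using hv1)
    (by rw [r1, rk_single h0 hvS])).symm⟩

theorem Chain.vertex_eq (h1 : 1 ≤ rk u S) (Φ : Chain u S) {v : ι} (hv : Φ.F 1 = {v}) :
    u v = ‖u v‖ • Φ.e 0 := by
  have he := Φ.e_spec (ρ := 0) h1
  have hvF : v ∈ Φ.F (0 + 1) := by rw [zero_add, hv]; simp
  have d := he.decomp (Φ.mono 0) (Φ.rk_succ h1) (mem_K hvF)
  rw [Φ.K_zero, Submodule.mem_bot, sub_eq_zero] at d
  have h2 : ‖u v‖ = ⟪Φ.e 0, u v⟫ := by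
    conv_lhs => rw [d, norm_smul, he.1, mul_one, Real.norm_of_nonneg (he.2.2.2 v hvF)]
  rw [h2]
  exact d

theorem rigid_U (h0 : IsFace u S ∅) (hv : ∀ s ∈ S, IsFace u S {s}) (htop : K u S = ⊤)
    (h1 : 1 ≤ rk u S) (E : Chain u S → Chain u S → Prop)
    (hE : ∀ Φ Ψ, E Φ Ψ → ∀ i, i + 2 ≤ rk u S → E (Φ.flip i) (Ψ.flip i))
    (hE' : ∀ Φ Ψ, E Φ Ψ → ‖∑ s ∈ Φ.F 1, u s‖ = ‖∑ s ∈ Ψ.F 1, u s‖ ∧
      ∀ i, i + 2 ≤ rk u S → Φ.kappa i = Ψ.kappa i) {Φ Ψ : Chain u S} (h : E Φ Ψ) :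
    ∃ f : U ≃ₗᵢ[ℝ] U, (∀ s ∈ S, ∃ s' ∈ S, f (u s) = u s') ∧
      ∀ ρ ≤ rk u S, ∀ x, x ∈ K u (Φ.F ρ) ↔ f x ∈ K u (Ψ.F ρ) := by
  let f : U ≃ₗᵢ[ℝ] U := (OrthonormalBasis.mk Φ.orthonormal (Φ.span_e htop)).equiv
    (OrthonormalBasis.mk Ψ.orthonormal (Ψ.span_e htop)) (Equiv.refl _)
  have hf : ∀ ρ < rk u S, f (Φ.e ρ) = Ψ.e ρ := by
    intro ρ hρ
    have := OrthonormalBasis.equiv_apply_basis (OrthonormalBasis.mk Φ.orthonormal (Φ.span_e htop))
      (OrthonormalBasis.mk Ψ.orthonormal (Ψ.span_e htop)) (Equiv.refl _) ⟨ρ, hρ⟩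
    simpa using this
  have key : ∀ Φ', ∃ Ψ', E Φ' Ψ' ∧ ∀ ρ < rk u S, f (Φ'.e ρ) = Ψ'.e ρ := by
    intro Φ'
    have := conn_all h0 Φ Φ'
    induction this with
    | refl => exact ⟨Ψ, h, hf⟩
    | tail _ h2 ih =>
      obtain ⟨i, hi, rfl⟩ := h2
      obtain ⟨Ψ', h3, h4⟩ := ih
      rename_i Φ'' _
      refine ⟨Ψ'.flip i, hE _ _ h3 i hi, fun ρ hρ => ?_⟩
      obtain ⟨a1, a2, a3⟩ := Φ''.e_flip hi
      obtain ⟨b1, b2, b3⟩ := Ψ'.e_flip hi
      have hk := (hE' _ _ h3).2 i hi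
      by_cases c1 : ρ = i
      · rw [c1, a1, b1, map_add, map_smul, map_smul, h4 i (by omega), h4 (i + 1) (by omega), hk]
      by_cases c2 : ρ = i + 1
      · rw [c2, a2, b2, map_sub, map_smul, map_smul, h4 i (by omega), h4 (i + 1) (by omega), hk]
      rw [a3 ρ c1 c2, b3 ρ c1 c2, h4 ρ hρ]
  refine ⟨f, fun s hs => ?_, ?_⟩
  · obtain ⟨Φ', hΦ'⟩ := exists_chain_through h0 (hv s hs)
    rw [rk_single h0 hs] at hΦ'
    obtain ⟨Ψ', h3, h4⟩ := key Φ'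
    obtain ⟨v, hvS, hv'⟩ := Ψ'.vertex h0 hv h1
    have hn := (hE' _ _ h3).1
    rw [hΦ', hv', Finset.sum_singleton, Finset.sum_singleton] at hn
    refine ⟨v, hvS, ?_⟩
    rw [Φ'.vertex_eq h1 hΦ', Ψ'.vertex_eq h1 hv', map_smul, h4 0 h1, hn]
  · have : ∀ ρ ≤ rk u S, (K u (Φ.F ρ)).map f.toLinearEquiv.toLinearMap = K u (Ψ.F ρ) := by
      intro ρ
      induction ρ with
      | zero => intro _; rw [Φ.K_zero, Ψ.K_zero, Submodule.map_bot]
      | succ ρ ih =>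
        intro hρ
        rw [Φ.K_succ hρ, Ψ.K_succ hρ, Submodule.map_sup, ih (by omega), Submodule.map_span,
          Set.image_singleton]
        congr 3
        exact hf ρ hρ
    intro ρ hρ x
    rw [← this ρ hρ]
    constructor
    · intro hx
      exact ⟨x, hx, rfl⟩
    · rintro ⟨y, hy, hxy⟩
      rwa [← f.injective hxy]

omit [FiniteDimensional ℝ U] in
theorem K_map (f : U ≃ₗᵢ[ℝ] U) {A A' : Finset ι} (h : u '' A' = f '' (u '' A)) :
    K u A' = (K u A).map f.toLinearEquiv.toLinearMap := by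
  unfold K
  rw [h, Submodule.map_span]
  rfl

omit [FiniteDimensional ℝ U] in
theorem IsFr.map (f : U ≃ₗᵢ[ℝ] U) {A B A' B' : Finset ι} (hA : u '' A' = f '' (u '' A))
    (hB : u '' B' = f '' (u '' B)) {e : U} (h : IsFr u A B e) : IsFr u A' B' (f e) := by
  refine ⟨by rw [f.norm_map, h.1], by rw [K_map f hB]; exact ⟨e, h.2.1, rfl⟩, fun x hx => ?_,
    fun s hs => ?_⟩
  · rw [K_map f hA] at hx
    obtain ⟨y, hy, rfl⟩ := hx
    exact (f.inner_map_map e y).trans (h.2.2.1 y hy)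
  · have : u s ∈ u '' B' := ⟨s, hs, rfl⟩
    rw [hB] at this
    obtain ⟨_, ⟨t, ht, rfl⟩, h2⟩ := this
    rw [← h2, f.inner_map_map]
    exact h.2.2.2 t ht

theorem Chain.e_map (f : U ≃ₗᵢ[ℝ] U) {Φ Ψ : Chain u S} {ρ : ℕ} (hρ : ρ < rk u S)
    (hA : u '' Ψ.F ρ = f '' (u '' Φ.F ρ)) (hB : u '' Ψ.F (ρ + 1) = f '' (u '' Φ.F (ρ + 1))) :
    f (Φ.e ρ) = Ψ.e ρ :=
  (Ψ.e_spec hρ).unique ((Φ.e_spec hρ).map f hA hB) (Ψ.face _) (Ψ.face _) (Ψ.mono _)
    (Ψ.rk_succ hρ)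

end Frames

end Pool.Agent.Lib.MP_727bc7_co
end
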