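import Pool.Agent.Lib.MP_727bc7_co.Tree
import Pool.Agent.Lib.MP_727bc7_co.Count2
import Pool.Agent.Lib.MP_727bc7_co.Frames

-- part Pool.Agent.Lib.MP_727bc7_co.Tree2
section

namespace Pool.Agent.Lib.MP_727bc7_co

open scoped RealInnerProductSpace

variable {V : Type*} [NormedAddCommGroup V] [InnerProductSpace ℝ V] {F : Type}

namespace Geo

/-- the second child of position `y` sits at position `f` -/
def PF (𝒢 : Geo V F) (R : Set V) (y f : ℕ) (Φ : F) : Prop :=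
  𝒢.Adj R Φ y f ∧ ∀ x, y + 2 ≤ x → x < f → ¬ 𝒢.Adj R Φ y x

/-- the first child of position `y + 1` sits at position `h` (none if `h = d`) -/
def PH (𝒢 : Geo V F) (R : Set V) (y h : ℕ) (Φ : F) : Prop :=
  (h < 𝒢.d → 𝒢.Adj R Φ (y + 1) h) ∧ ∀ x, y + 2 ≤ x → x < h → ¬ 𝒢.Adj R Φ (y + 1) x

variable {𝒢 : Geo V F} {R : Set V}

theorem patterns [Finite (Quotient 𝒢.setoid)]
    (hinv : ∀ Φ Ψ, 𝒢.Eqv Φ Ψ → ∀ i < 𝒢.d, ∀ j < 𝒢.d, 𝒢.Adj R Φ i j → 𝒢.Adj R Ψ i j)
    {y fs : ℕ} (hfs : fs < 𝒢.d) (hy : y + 2 ≤ fs) (Hs : Finset ℕ)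
    (hHs : ∀ h ∈ Hs, y + 2 ≤ h ∧ h ≤ 𝒢.d)
    (h1 : ∀ f, y + 3 ≤ f → f ≤ fs → ∃ Φ, 𝒢.PF R y f Φ)
    (h2 : ∀ h ∈ Hs, ∃ Φ, 𝒢.PF R y (y + 2) Φ ∧ 𝒢.PH R y h Φ) :
    fs + Hs.card ≤ Nat.card (Quotient 𝒢.setoid) + y + 2 := by
  have hF : ∀ f f' Φ Ψ, y + 2 ≤ f → y + 2 ≤ f' → f < 𝒢.d → f' < 𝒢.d → 𝒢.PF R y f Φ →
      𝒢.PF R y f' Ψ → 𝒢.Eqv Φ Ψ → f = f' := by
    intro f f' Φ Ψ a1 a2 a3 a4 p1 p2 he
    rcases lt_trichotomy f f' with h | h | h
    · exact absurd (hinv Φ Ψ he y (by omega) f a3 p1.1) (p2.2 f a1 h)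
    · exact h
    · exact absurd (hinv Ψ Φ he.symm y (by omega) f' a4 p2.1) (p1.2 f' a2 h)
  have := card_ge (𝒢 := 𝒢) ((Finset.Icc (y + 3) fs).disjSum Hs)
    (fun p Φ => p.elim (fun f => 𝒢.PF R y f Φ) (fun h => 𝒢.PF R y (y + 2) Φ ∧ 𝒢.PH R y h Φ))
    (by
      rintro (f | h) hp
      · simp at hp
        exact h1 f hp.1 hp.2
      · simp at hp
        exact h2 h hp) (by
      rintro (f | h) hp (f' | h') hq Φ Ψ p1 p2 he <;> simp at hp hq
      · rw [hF f f' Φ Ψ (by omega) (by omega) (by omega) (by omega) p1 p2 he]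
      · have := hF f (y + 2) Φ Ψ (by omega) (by omega) (by omega) (by omega) p1 p2.1 he
        omega
      · have := hF (y + 2) f' Φ Ψ (by omega) (by omega) (by omega) (by omega) p1.1 p2 he
        omega
      · have a1 := hHs h hp
        have a2 := hHs h' hq
        rcases lt_trichotomy h h' with c | c | c
        · exact absurd (hinv Φ Ψ he _ (by omega) h (by omega) (p1.2.1 (by omega)))
            (p2.2.2 h a1.1 c)
        · rw [c]
        · exact absurd (hinv Ψ Φ he.symm _ (by omega) h' (by omega) (p2.2.1 (by omega)))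
            (p1.2.2 h' a2.1 c))
  rw [Finset.card_disjSum, Nat.card_Icc] at this
  omega

/-- moving a block of `j` positions starting at `fs` to position `u` -/
def blk (u fs j x : ℕ) : ℕ :=
  if x < u then x else if x < u + j then fs + (x - u) else if x < fs + j then x - j else x

theorem Wy.tree_bound (hW : 𝒢.Wy R) [Finite (Quotient 𝒢.setoid)]
    (hinv : ∀ Φ Ψ, 𝒢.Eqv Φ Ψ → ∀ i < 𝒢.d, ∀ j < 𝒢.d, 𝒢.Adj R Φ i j → 𝒢.Adj R Ψ i j)
    {y : ℕ} (hy : y + 2 < 𝒢.d) (hu : ∀ j < y + 2, ∀ Φ, 𝒢.Mir R Φ j) (Φ0 : F)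
    (hΦ0 : ¬ 𝒢.Mir R Φ0 (y + 2)) (hd : 8 ≤ 𝒢.d) (hk4 : 4 ≤ Nat.card (Quotient 𝒢.setoid))
    (hk : Nat.card (Quotient 𝒢.setoid) + 3 ≤ 𝒢.d)
    (h85 : ¬ (𝒢.d = 8 ∧ Nat.card (Quotient 𝒢.setoid) = 5)) : False := by
  classical
  obtain ⟨fs, hfs, hmax⟩ := Finset.exists_max_image
    ((Finset.range 𝒢.d).filter (fun f => y + 2 ≤ f ∧ ∃ Φ, 𝒢.PF R y f Φ)) id ⟨y + 2, by
      obtain ⟨i, hi, ha⟩ := hW.not_mir_exists hy hΦ0
      have : i = y := by
        by_contra hc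
        exact hW.no_early hu (i := i) (by omega) hi hy ha
      subst this
      simp only [Finset.mem_filter, Finset.mem_range]
      exact ⟨hy, le_rfl, Φ0, ha, fun x h1 h2 => by omega⟩⟩
  simp only [Finset.mem_filter, Finset.mem_range, id] at hfs hmax
  obtain ⟨hfd, hfy, τ, hτ⟩ := hfs
  have hmax' : ∀ f Φ, f < 𝒢.d → y + 2 ≤ f → 𝒢.PF R y f Φ → f ≤ fs :=
    fun f Φ a b c => hmax f ⟨a, b, Φ, c⟩
  have b4 : 𝒢.Adj R τ y (y + 1) := hW.path hu τ le_rfl (by omega)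
  have b1 : ∀ x, y + 1 < x → x < fs → ∃ p, y + 1 ≤ p ∧ p < x ∧ 𝒢.Adj R τ p x := by
    intro x h1 h2
    obtain ⟨p, hp, ha⟩ := hW.earlier' (j := x) (by omega) (by omega) τ
    refine ⟨p, ?_, hp, ha⟩
    by_contra hc
    rcases lt_trichotomy p y with h | h | h
    · exact hW.no_early hu h (by omega) (by omega) ha
    · subst h; exact hτ.2 x (by omega) h2 ha
    · omega
  have b2 : ∀ x, fs ≤ x → x < 𝒢.d → ∀ p, y + 1 ≤ p → p < fs → ¬ 𝒢.Adj R τ p x := by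
    intro x h1 h2 p hp1 hp2 ha
    have hnx : ¬ 𝒢.Adj R τ y x := fun hc => by
      have := hW.uniq_parent h2 (by omega) (by omega) ha hc
      omega
    have h3 : x ≠ fs := by rintro rfl; exact hnx hτ.1
    obtain ⟨Ψ, -, -, h⟩ := hW.move hp2 x h1 h2 τ ha
    have e1 : cyc fs x y = y := by unfold cyc; split_ifs <;> omega
    have := hmax' (fs + 1) Ψ (by omega) (by omega) ⟨by
      rw [adj_congr h (by omega) (by omega), e1,
        show cyc fs x (fs + 1) = fs by unfold cyc; split_ifs <;> omega]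
      exact hτ.1, fun z hz1 hz2 => by
      rw [adj_congr h (by omega) (by omega), e1]
      by_cases hz : z = fs
      · rw [show cyc fs x z = x by unfold cyc; split_ifs <;> omega]
        exact hnx
      · rw [show cyc fs x z = z by unfold cyc; split_ifs <;> omega]
        exact hτ.2 z hz1 (by omega)⟩
    omega
  have b3 : ∀ x, fs ≤ x → x < 𝒢.d → ∃ p, p < x ∧ (p = y ∨ fs ≤ p) ∧ 𝒢.Adj R τ p x := by
    intro x h1 h2
    obtain ⟨p, hp, ha⟩ := hW.earlier' (j := x) (by omega) (by omega) τ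
    refine ⟨p, hp, ?_, ha⟩
    by_contra hc
    rcases lt_trichotomy p y with h | h | h
    · exact hW.no_early hu h (by omega) (by omega) ha
    · omega
    · exact b2 x h1 h2 p (by omega) (by omega) ha
  by_cases hn1 : fs = y + 2
  · subst hn1
    have hall : ∀ x, y + 1 ≤ x → x < 𝒢.d → 𝒢.Adj R τ y x := by
      intro x
      induction x using Nat.strong_induction_on with
      | _ x ih =>
      intro h1 h2
      by_cases c1 : x = y + 1
      · rw [c1]; exact b4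
      obtain ⟨p, hp1, hp2, ha⟩ := b3 x (by omega) h2
      rcases hp2 with hp2 | hp2
      · rwa [hp2] at ha
      exfalso
      have hyp := ih p hp1 (by omega) (by omega)
      obtain ⟨Ψ, -, -, h⟩ := hW.move (i := y) (j := y + 1) (by omega) p (by omega) (by omega) τ hyp
      obtain ⟨Θ, -, -, h'⟩ := hW.move (i := y + 1) (j := y + 2) (by omega) x (by omega) h2 Ψ (by
        rw [adj_congr h (by omega) (by omega),
          show cyc (y + 1) p (y + 1) = p by unfold cyc; split_ifs <;> omega,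
          show cyc (y + 1) p x = x by unfold cyc; split_ifs <;> omega]
        exact ha)
      have e1 : cyc (y + 2) x y = y := by unfold cyc; split_ifs <;> omega
      have e2 : cyc (y + 1) p y = y := by unfold cyc; split_ifs <;> omega
      have := hmax' (y + 3) Θ (by omega) (by omega) ⟨by
        rw [adj_congr h' (by omega) (by omega), e1,
          show cyc (y + 2) x (y + 3) = y + 2 by unfold cyc; split_ifs <;> omega,
          adj_congr h (by omega) (by omega), e2,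
          show cyc (y + 1) p (y + 2) = y + 1 by unfold cyc; split_ifs <;> omega]
        exact b4, fun z hz1 hz2 => by
        rw [adj_congr h' (by omega) (by omega), e1,
          show cyc (y + 2) x z = x by unfold cyc; split_ifs <;> omega,
          adj_congr h (by omega) (by omega), e2,
          show cyc (y + 1) p x = x by unfold cyc; split_ifs <;> omega]
        intro hc
        have := hW.uniq_parent h2 (by omega) (by omega) ha hc
        omega⟩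
      omega
    have hA : ∀ x ∈ ({y} : Finset ℕ), (∃ z ∈ ({y} : Finset ℕ), z < x) →
        ∃ z ∈ ({y} : Finset ℕ), z < x ∧ 𝒢.Adj R τ z x := by
      rintro x hx ⟨z, hz, hzx⟩
      simp at hx hz
      omega
    by_cases c0 : y + 4 < 𝒢.d
    · exact hW.four (Φ := τ) {y} (by simp; omega) hA (b1 := y + 1) (b2 := y + 2) (b3 := y + 3)
        (b4 := y + 4) (by omega) (by omega) (by omega) c0 (by simp) (by simp) (by simp) (by simp)
        ⟨y, by simp, hall _ (by omega) (by omega)⟩ ⟨y, by simp, hall _ (by omega) (by omega)⟩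
        ⟨y, by simp, hall _ (by omega) (by omega)⟩ ⟨y, by simp, hall _ (by omega) (by omega)⟩
        (by omega)
    obtain ⟨y', rfl⟩ : ∃ y', y = y' + 1 := ⟨y - 1, by omega⟩
    by_cases c1 : y' + 1 + 3 < 𝒢.d
    · exact hW.four (Φ := τ) {y' + 1} (by simp; omega) hA (b1 := y' + 1 + 1) (b2 := y' + 1 + 2)
        (b3 := y' + 1 + 3) (b4 := y') (by omega) (by omega) (by omega) (by omega) (by simp)
        (by simp) (by simp) (by simp)
        ⟨_, by simp, hall _ (by omega) (by omega)⟩ ⟨_, by simp, hall _ (by omega) (by omega)⟩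
        ⟨_, by simp, hall _ (by omega) (by omega)⟩
        ⟨y' + 1, by simp, (hW.path hu τ (by omega) (by omega)).symm⟩ (by omega)
    obtain ⟨s, -, hs, -⟩ := hW.fork (y := y' + 1) (e := 0) (by omega) hu τ hτ.1
      (fun x h1 h2 => by omega)
    have := (card_le_of_cover s _ hs).2
    omega
  -- the first branch has at least two nodes
  have hfy' : y + 3 ≤ fs := by omega
  have b5 : 𝒢.Adj R τ (y + 1) (y + 2) := by
    obtain ⟨p, h1, h2, ha⟩ := b1 (y + 2) (by omega) (by omega)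
    rwa [show p = y + 1 by omega] at ha
  have F1 : ∀ f, y + 3 ≤ f → f ≤ fs → ∃ Φ, 𝒢.PF R y f Φ := by
    intro f h1 h2
    obtain ⟨Ψ, -, -, h⟩ := hW.move (i := y) (j := f) (by omega) fs h2 hfd τ hτ.1
    have e1 : cyc f fs y = y := by unfold cyc; split_ifs <;> omega
    refine ⟨Ψ, ?_, fun z hz1 hz2 => ?_⟩
    · rw [adj_congr h (by omega) (by omega), e1,
        show cyc f fs f = fs by unfold cyc; split_ifs <;> omega]
      exact hτ.1
    · rw [adj_congr h (by omega) (by omega), e1,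
        show cyc f fs z = z by unfold cyc; split_ifs <;> omega]
      exact hτ.2 z hz1 (by omega)
  have Q : ∀ j, fs + j ≤ 𝒢.d → ∃ Φ, ∀ x < 𝒢.d, 𝒢.m R Φ x = 𝒢.m R τ (blk (y + 2) fs j x) := by
    intro j
    induction j with
    | zero =>
      intro _
      refine ⟨τ, fun x _ => ?_⟩
      congr 1
      unfold blk
      split_ifs <;> omega
    | succ j ih =>
      intro hj
      obtain ⟨Φ, hΦ⟩ := ih (by omega)
      obtain ⟨p, hp1, hp2, ha⟩ := b3 (fs + j) (by omega) (by omega)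
      obtain ⟨q, hq1, hq2⟩ : ∃ q, q < y + 2 + j ∧ blk (y + 2) fs j q = p := by
        rcases hp2 with hp2 | hp2
        · exact ⟨y, by omega, by unfold blk; split_ifs <;> omega⟩
        · exact ⟨y + 2 + (p - fs), by omega, by unfold blk; split_ifs <;> omega⟩
      obtain ⟨Ψ, -, -, h⟩ := hW.move hq1 (fs + j) (by omega) (by omega) Φ (by
        rw [adj_congr hΦ (by omega) (by omega), hq2,
          show blk (y + 2) fs j (fs + j) = fs + j by unfold blk; split_ifs <;> omega]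
        exact ha)
      refine ⟨Ψ, fun x hx => ?_⟩
      rw [h x hx, hΦ _ (by unfold cyc; split_ifs <;> omega)]
      congr 1
      unfold cyc blk
      split_ifs <;> omega
  have F2 : ∀ h ∈ Finset.Icc (y + 3) (y + 2 + (𝒢.d - fs)),
      ∃ Φ, 𝒢.PF R y (y + 2) Φ ∧ 𝒢.PH R y h Φ := by
    intro h hh
    rw [Finset.mem_Icc] at hh
    obtain ⟨j, rfl⟩ : ∃ j, h = y + 2 + j := ⟨h - (y + 2), by omega⟩
    obtain ⟨Φ, hΦ⟩ := Q j (by omega)
    have e1 : blk (y + 2) fs j (y + 1) = y + 1 := by unfold blk; split_ifs <;> omega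
    refine ⟨Φ, ⟨?_, fun x h1 h2 => by omega⟩, fun _ => ?_, fun x h1 h2 => ?_⟩
    · rw [adj_congr hΦ (by omega) (by omega),
        show blk (y + 2) fs j y = y by unfold blk; split_ifs <;> omega,
        show blk (y + 2) fs j (y + 2) = fs by unfold blk; split_ifs <;> omega]
      exact hτ.1
    · rw [adj_congr hΦ (by omega) (by omega), e1,
        show blk (y + 2) fs j (y + 2 + j) = y + 2 by unfold blk; split_ifs <;> omega]
      exact b5
    · rw [adj_congr hΦ (by omega) (by omega), e1,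
        show blk (y + 2) fs j x = fs + (x - (y + 2)) by unfold blk; split_ifs <;> omega]
      exact b2 _ (by omega) (by omega) _ le_rfl (by omega)
  have P1 := patterns hinv hfd hfy (Finset.Icc (y + 3) (y + 2 + (𝒢.d - fs)))
    (fun h hh => by rw [Finset.mem_Icc] at hh; omega) F1 F2
  rw [Nat.card_Icc] at P1
  have P2 : fs + 1 = 𝒢.d → fs + 2 ≤ Nat.card (Quotient 𝒢.setoid) + y + 2 := by
    intro hc
    have := patterns hinv hfd hfy {y + 3, 𝒢.d} (fun h hh => by simp at hh; omega) F1 (by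
      intro h hh
      simp only [Finset.mem_insert, Finset.mem_singleton] at hh
      rcases hh with rfl | rfl
      · exact F2 _ (by rw [Finset.mem_Icc]; omega)
      · obtain ⟨Ψ, -, -, h⟩ := hW.move (i := y) (j := y + 1) (by omega) fs (by omega) hfd τ hτ.1
        refine ⟨Ψ, ⟨?_, fun x h1 h2 => by omega⟩, fun hh => by omega, fun x h1 h2 => ?_⟩
        · rw [adj_congr h (by omega) (by omega),
            show cyc (y + 1) fs y = y by unfold cyc; split_ifs <;> omega,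
            show cyc (y + 1) fs (y + 2) = y + 1 by unfold cyc; split_ifs <;> omega]
          exact b4
        · rw [adj_congr h (by omega) (by omega),
            show cyc (y + 1) fs (y + 1) = fs by unfold cyc; split_ifs <;> omega,
            show cyc (y + 1) fs x = x - 1 by unfold cyc; split_ifs <;> omega]
          exact fun ha => b2 fs le_rfl hfd (x - 1) (by omega) (by omega) ha.symm)
    rwa [Finset.card_pair (by omega)] at this
  obtain ⟨y', rfl⟩ : ∃ y', y = y' + 1 := ⟨y - 1, by omega⟩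
  have cA : ∀ x, x ≤ y' + 1 → 𝒢.Adj R τ (x + 1) x := fun x hx =>
    (hW.path hu τ hx (by omega)).symm
  have cB : ∀ x, y' + 2 ≤ x → x + 1 < fs → 𝒢.Adj R τ x (x + 1) := by
    intro x h1 h2
    obtain ⟨p, hp1, hp2, ha⟩ := b1 (x + 1) (by omega) h2
    by_cases hp : p = x
    · rwa [hp] at ha
    exfalso
    obtain ⟨q, hq1, hq2, hb⟩ := b1 x (by omega) (by omega)
    refine hW.four (Φ := τ) (Finset.Ico (y' + 1) x) (by simp; omega) ?_ (b1 := y') (b2 := x)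
      (b3 := x + 1) (b4 := fs) (by omega) (by omega) (by omega) hfd (by simp) (by simp)
      (by simp) (by simp; omega) ⟨y' + 1, by simp; omega, cA y' (by omega)⟩
      ⟨q, by simp; omega, hb⟩ ⟨p, by simp; omega, ha⟩ ⟨y' + 1, by simp; omega, hτ.1⟩ (by omega)
    rintro z hz ⟨w, hw, hwz⟩
    simp only [Finset.mem_Ico] at hz hw ⊢
    by_cases hz1 : z = y' + 1 + 1
    · exact ⟨y' + 1, by omega, by omega, by rw [hz1]; exact b4⟩
    · obtain ⟨v, hv1, hv2, hv⟩ := b1 z (by omega) (by omega)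
      exact ⟨v, by omega, hv2, hv⟩
  have cC : ∀ x, fs ≤ x → x + 1 < 𝒢.d → 𝒢.Adj R τ x (x + 1) := by
    intro x h1 h2
    obtain ⟨p, hp1, hp2, ha⟩ := b3 (x + 1) (by omega) h2
    by_cases hp : p = x
    · rwa [hp] at ha
    exfalso
    obtain ⟨q, hq1, hq2, hb⟩ := b3 x h1 (by omega)
    refine hW.four (Φ := τ) (insert (y' + 1) (Finset.Ico fs x))
      (fun z hz => by simp only [Finset.mem_insert, Finset.mem_Ico] at hz; omega) ?_ (b1 := y')
      (b2 := x) (b3 := x + 1) (b4 := y' + 1 + 1) (by omega) (by omega) (by omega) (by omega)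
      (by simp; omega) (by simp; omega) (by simp; omega) (by simp; omega)
      ⟨y' + 1, by simp, cA y' (by omega)⟩
      ⟨q, by simp; omega, hb⟩ ⟨p, by simp; omega, ha⟩ ⟨y' + 1, by simp, b4⟩ (by omega)
    rintro z hz ⟨w, hw, hwz⟩
    simp only [Finset.mem_insert, Finset.mem_Ico] at hz hw ⊢
    obtain ⟨v, hv1, hv2, hv⟩ := b3 z (by omega) (by omega)
    exact ⟨v, by omega, hv1, hv⟩
  by_cases c6 : 1 ≤ y' ∧ fs + 2 ≤ 𝒢.d
  · obtain ⟨z, rfl⟩ : ∃ z, y' = z + 1 := ⟨y' - 1, by omega⟩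
    exact hW.e6 (Φ := τ) (z + 1 + 1) (z + 1) z (z + 1 + 1 + 1) (z + 1 + 1 + 2) fs (fs + 1)
      (by simp; omega) (by simp; omega) (cA _ (by omega)) (cA _ (by omega)) b4 b5 hτ.1
      (cC _ le_rfl (by omega))
  by_cases c7 : y' + 1 + 4 ≤ fs ∧ fs + 3 ≤ 𝒢.d
  · exact hW.e7 (Φ := τ) (y' + 1) y' (y' + 1 + 1) (y' + 1 + 2) (y' + 1 + 2 + 1) fs (fs + 1)
      (fs + 1 + 1) (by simp; omega) (by simp; omega) (cA _ (by omega)) b4 b5
      (cB _ (by omega) (by omega)) hτ.1 (cC _ le_rfl (by omega)) (cC _ (by omega) (by omega))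
  by_cases c7' : 2 ≤ y' ∧ y' + 1 + 4 ≤ fs
  · obtain ⟨z, rfl⟩ : ∃ z, y' = z + 1 + 1 := ⟨y' - 2, by omega⟩
    exact hW.e7 (Φ := τ) (z + 1 + 1 + 1) fs (z + 1 + 1 + 1 + 1) (z + 1 + 1 + 1 + 2)
      (z + 1 + 1 + 1 + 2 + 1) (z + 1 + 1) (z + 1) z (by simp; omega) (by simp; omega) hτ.1 b4 b5
      (cB _ (by omega) (by omega)) (cA _ (by omega)) (cA _ (by omega)) (cA _ (by omega))
  by_cases c8 : fs + 5 ≤ 𝒢.d
  · exact hW.e8 (Φ := τ) (y' + 1) y' (y' + 1 + 1) (y' + 1 + 2) fs (fs + 1)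
      (fs + 1 + 1) (fs + 1 + 1 + 1) (fs + 1 + 1 + 1 + 1) (by simp; omega) (by simp; omega)
      (cA _ (by omega)) b4 b5 hτ.1 (cC _ le_rfl (by omega)) (cC _ (by omega) (by omega))
      (cC _ (by omega) (by omega)) (cC _ (by omega) (by omega))
  by_cases c8' : y' + 1 + 6 ≤ fs ∧ fs + 2 ≤ 𝒢.d
  · exact hW.e8 (Φ := τ) (y' + 1) y' fs (fs + 1) (y' + 1 + 1) (y' + 1 + 2) (y' + 1 + 2 + 1)
      (y' + 1 + 2 + 1 + 1) (y' + 1 + 2 + 1 + 1 + 1) (by simp; omega) (by simp; omega)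
      (cA _ (by omega)) hτ.1 (cC _ le_rfl (by omega)) b4 b5 (cB _ (by omega) (by omega))
      (cB _ (by omega) (by omega)) (cB _ (by omega) (by omega))
  by_cases c8'' : 1 ≤ y' ∧ y' + 1 + 6 ≤ fs
  · obtain ⟨z, rfl⟩ : ∃ z, y' = z + 1 := ⟨y' - 1, by omega⟩
    exact hW.e8 (Φ := τ) (z + 1 + 1) fs (z + 1) z (z + 1 + 1 + 1) (z + 1 + 1 + 2)
      (z + 1 + 1 + 2 + 1) (z + 1 + 1 + 2 + 1 + 1) (z + 1 + 1 + 2 + 1 + 1 + 1)
      (by simp; omega) (by simp; omega) hτ.1 (cA _ (by omega)) (cA _ (by omega)) b4 b5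
      (cB _ (by omega) (by omega)) (cB _ (by omega) (by omega)) (cB _ (by omega) (by omega))
  by_cases c9 : 4 ≤ y'
  · obtain ⟨z, rfl⟩ : ∃ z, y' = z + 1 + 1 + 1 + 1 := ⟨y' - 4, by omega⟩
    exact hW.e8 (Φ := τ) (z + 1 + 1 + 1 + 1 + 1) fs (z + 1 + 1 + 1 + 1 + 1 + 1)
      (z + 1 + 1 + 1 + 1 + 1 + 2) (z + 1 + 1 + 1 + 1) (z + 1 + 1 + 1) (z + 1 + 1) (z + 1) z
      (by simp; omega) (by simp; omega) hτ.1 b4 b5 (cA _ (by omega)) (cA _ (by omega))
      (cA _ (by omega)) (cA _ (by omega)) (cA _ (by omega))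
  by_cases c10 : y' = 3 ∧ fs = 7 ∧ 𝒢.d = 8
  · obtain ⟨rfl, rfl, hd8⟩ := c10
    obtain ⟨s, -, hs, -⟩ := hW.fork (y := 3 + 1) (e := 1) (by omega) hu τ hτ.1
      (fun x h1 h2 => by rw [show x = 3 + 1 + 1 by omega]; exact b5)
    have := (card_le_of_cover s _ hs).2
    omega
  by_cases c11 : fs + 1 = 𝒢.d
  · have := P2 c11
    omega
  · omega

end Geo

end Pool.Agent.Lib.MP_727bc7_co
end

-- part Pool.Agent.Lib.MP_727bc7_co.Upper
section

/-! The abstract upper bound. -/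

namespace Pool.Agent.Lib.MP_727bc7_co

open scoped RealInnerProductSpace

variable {V : Type*} [NormedAddCommGroup V] [InnerProductSpace ℝ V] {F : Type}

namespace Geo

/-- all unit normals of reflections in the group -/
def RG (𝒢 : Geo V F) : Set V := {α | ‖α‖ = 1 ∧ ∃ g ∈ 𝒢.G, ∀ v, g v = v - (2 * ⟪α, v⟫) • α}

variable {𝒢 : Geo V F}

theorem rg_map {g : V ≃ₗᵢ[ℝ] V} (hg : g ∈ 𝒢.G) {α : V} (hα : α ∈ 𝒢.RG) : g α ∈ 𝒢.RG := by
  obtain ⟨h1, s, hs, hsv⟩ := hα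
  refine ⟨by rw [g.norm_map, h1], g * s * g⁻¹,
    𝒢.G.mul_mem (𝒢.G.mul_mem hg hs) (𝒢.G.inv_mem hg), fun v => ?_⟩
  have e : (g * s * g⁻¹) v = g (s (g.symm v)) := rfl
  rw [e, hsv, map_sub, map_smul, g.apply_symm_apply, ← g.inner_map_map, g.apply_symm_apply]

theorem roots_rg (𝒢 : Geo V F) : 𝒢.Roots 𝒢.RG where
  norm := fun _ h => h.1
  neg := by
    rintro α ⟨h1, g, hg, hgv⟩
    refine ⟨by rw [norm_neg, h1], g, hg, fun v => ?_⟩
    rw [hgv, inner_neg_left]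
    module
  refl := by
    intro α hα β hβ
    obtain ⟨-, g, hg, hgv⟩ := hα
    rw [← hgv]
    exact rg_map hg hβ
  mem := fun _ h => h.2

theorem mir_of_eqv {Φ : F} {i : ℕ} (hi : i < 𝒢.d) (h : 𝒢.Eqv Φ (𝒢.r i Φ)) :
    𝒢.Mir 𝒢.RG Φ i := by
  obtain ⟨g, hg, h⟩ := h
  have hfix : ∀ j < 𝒢.d, j ≠ i → g (𝒢.c j Φ) = 𝒢.c j Φ := fun j hj hji => by
    rw [← h j hj, 𝒢.c_r i hi j hj hji]
  set x := 𝒢.c i Φ with hx
  have hne : x - g x ≠ 0 := by
    intro hc
    apply 𝒢.c_r_ne i hi Φ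
    rw [h i hi, ← hx]
    exact (sub_eq_zero.1 hc).symm
  have hpos : 0 < ‖x - g x‖ := norm_pos_iff.2 hne
  have horth : ∀ j < 𝒢.d, j ≠ i → ⟪x - g x, 𝒢.c j Φ⟫ = 0 := fun j hj hji => by
    rw [inner_sub_left]
    nth_rewrite 2 [← hfix j hj hji]
    rw [g.inner_map_map, sub_self]
  have h2 : 2 * ⟪x - g x, x⟫ = ‖x - g x‖ ^ 2 := by
    rw [← real_inner_self_eq_norm_sq, inner_sub_right, inner_sub_left, inner_sub_left,
      g.inner_map_map, real_inner_comm x (g x)]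
    ring
  set α := ‖x - g x‖⁻¹ • (x - g x) with hα
  have hn : ‖α‖ = 1 := by
    rw [hα, norm_smul, norm_inv, norm_norm, inv_mul_cancel₀ hpos.ne']
  have hc : ∀ j < 𝒢.d, g (𝒢.c j Φ) = 𝒢.c j Φ - (2 * ⟪α, 𝒢.c j Φ⟫) • α := by
    intro j hj
    by_cases hji : j = i
    · rw [hji, ← hx, hα, real_inner_smul_left, smul_smul]
      have : 2 * (‖x - g x‖⁻¹ * ⟪x - g x, x⟫) * ‖x - g x‖⁻¹ = 1 := by
        field_simp
        linarith
      rw [this]
      simp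
    · rw [hfix j hj hji, hα, real_inner_smul_left, horth j hj hji]
      simp
  have hαα : ⟪α, α⟫ = 1 := by rw [real_inner_self_eq_norm_sq, hn]; norm_num
  have hall : ∀ v, g v = v - (2 * ⟪α, v⟫) • α := by
    intro v
    have key : ∀ w, g.symm w = w - (2 * ⟪α, w⟫) • α := by
      intro w
      rw [← sub_eq_zero]
      refine 𝒢.span Φ _ (fun j hj => ?_)
      rw [inner_sub_left, ← g.inner_map_map, g.apply_symm_apply, hc j hj, inner_sub_right,
        inner_sub_left, real_inner_smul_right, real_inner_smul_left α, real_inner_comm w α]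
      ring
    apply g.symm.injective
    rw [g.symm_apply_apply, key, inner_sub_right, real_inner_smul_right, hαα]
    module
  refine ⟨α, ⟨hn, g, hg, hall⟩, fun j hj => ?_, fun j hj hji => ?_⟩
  · rw [hα, real_inner_smul_left]
    by_cases hji : j = i
    · rw [hji, ← hx]
      have : 0 ≤ ⟪x - g x, x⟫ := by nlinarith
      positivity
    · rw [horth j hj hji]; simp
  · rw [hα, real_inner_smul_left, horth j hj hji]; simp

theorem upper_aux [Finite (Quotient 𝒢.setoid)] (h0 : ∀ Φ, 𝒢.Eqv Φ (𝒢.r 0 Φ))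
    (h1 : ∀ Φ, 𝒢.Eqv Φ (𝒢.r 1 Φ)) (hd : 8 ≤ 𝒢.d) (hk4 : 4 ≤ Nat.card (Quotient 𝒢.setoid))
    (hk : Nat.card (Quotient 𝒢.setoid) + 3 ≤ 𝒢.d)
    (h85 : ¬ (𝒢.d = 8 ∧ Nat.card (Quotient 𝒢.setoid) = 5)) : False := by
  classical
  have hW : 𝒢.Wy 𝒢.RG := ⟨roots_rg 𝒢, fun Φ => mir_of_eqv (by omega) (h0 Φ),
    fun Φ => mir_of_eqv (by omega) (h1 Φ)⟩
  have hex : ∃ u, u < 𝒢.d ∧ ∃ Φ, ¬ 𝒢.Mir 𝒢.RG Φ u := by
    by_contra hc
    push Not at hc
    have hall : ∀ Φ Ψ, 𝒢.Eqv Φ Ψ := by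
      intro Φ Ψ
      have := 𝒢.conn Φ Ψ
      induction this with
      | refl => exact Eqv.refl 𝒢 _
      | tail _ h ih =>
        obtain ⟨j, hj, rfl⟩ := h
        exact ih.trans (hW.roots.mir_eqv hj (hc j hj _))
    have : Subsingleton (Quotient 𝒢.setoid) := ⟨by
      intro x y
      induction x using Quotient.inductionOn
      induction y using Quotient.inductionOn
      exact Quotient.sound (hall _ _)⟩
    have := Finite.card_le_one_iff_subsingleton.2 this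
    omega
  obtain ⟨hu1, Φ0, hΦ0⟩ := Nat.find_spec hex
  have hmin : ∀ j < Nat.find hex, ∀ Φ, 𝒢.Mir 𝒢.RG Φ j := by
    intro j hj Φ
    by_contra hc
    exact Nat.find_min hex hj ⟨by omega, Φ, hc⟩
  have hu0 : Nat.find hex ≠ 0 := fun hc => hΦ0 (by rw [hc]; exact hW.mir0 _)
  have hu1' : Nat.find hex ≠ 1 := fun hc => hΦ0 (by rw [hc]; exact hW.mir1 _)
  obtain ⟨y, hy⟩ : ∃ y, Nat.find hex = y + 2 := ⟨Nat.find hex - 2, by omega⟩
  rw [hy] at hu1 hΦ0 hmin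
  refine hW.tree_bound ?_ hu1 hmin Φ0 hΦ0 hd hk4 hk h85
  rintro Φ Ψ ⟨g, hg, h⟩ i hi j hj ha
  have hm := fun j hj => hW.roots.maps_m hW.mir0 hg (fun α hα => rg_map hg hα)
    (fun α hα => rg_map (𝒢.G.inv_mem hg) hα) h (j := j) hj
  unfold Adj at ha ⊢
  rwa [hm i hi, hm j hj, g.inner_map_map]

/-- the dual flag geometry -/
def dual (𝒢 : Geo V F) : Geo V F where
  d := 𝒢.d
  r := fun i => 𝒢.r (𝒢.d - 1 - i)
  c := fun i => 𝒢.c (𝒢.d - 1 - i)
  G := 𝒢.G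
  c_r := fun i hi j hj hji Φ => 𝒢.c_r _ (by omega) _ (by omega) (by omega) Φ
  c_r_ne := fun i hi Φ => 𝒢.c_r_ne _ (by omega) Φ
  span := fun Φ w h => 𝒢.span Φ w (fun j hj => by
    have := h (𝒢.d - 1 - j) (by omega)
    rwa [show 𝒢.d - 1 - (𝒢.d - 1 - j) = j by omega] at this)
  diamond := fun i hi Φ Ψ h => 𝒢.diamond _ (by omega) Φ Ψ (fun j hj hji => by
    have := h (𝒢.d - 1 - j) (by omega) (by omega)
    rwa [show 𝒢.d - 1 - (𝒢.d - 1 - j) = j by omega] at this)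
  ext := fun Φ Ψ h => 𝒢.ext Φ Ψ (fun j hj => by
    have := h (𝒢.d - 1 - j) (by omega)
    rwa [show 𝒢.d - 1 - (𝒢.d - 1 - j) = j by omega] at this)
  uniq := fun i hi j hj hij => 𝒢.uniq _ (by omega) _ (by omega) (by omega)
  act := fun g hg Φ => by
    obtain ⟨Ψ, h⟩ := 𝒢.act g hg Φ
    exact ⟨Ψ, fun j hj => h _ (by omega)⟩
  sign := fun α h1 h2 Φ i hi j hj => 𝒢.sign α h1 h2 Φ _ (by omega) _ (by omega)
  conn := fun Φ Ψ => by
    have := 𝒢.conn Φ Ψ
    induction this with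
    | refl => exact Relation.ReflTransGen.refl
    | tail _ h ih =>
      obtain ⟨j, hj, rfl⟩ := h
      exact ih.tail ⟨𝒢.d - 1 - j, by omega, by
        rw [show 𝒢.d - 1 - (𝒢.d - 1 - j) = j by omega]⟩

theorem dual_eqv (Φ Ψ : F) : 𝒢.dual.Eqv Φ Ψ ↔ 𝒢.Eqv Φ Ψ := by
  constructor
  · rintro ⟨g, hg, h⟩
    refine ⟨g, hg, fun j hj => ?_⟩
    have := h (𝒢.d - 1 - j) (by change _ < 𝒢.d; omega)
    change 𝒢.c (𝒢.d - 1 - (𝒢.d - 1 - j)) Ψ = g (𝒢.c (𝒢.d - 1 - (𝒢.d - 1 - j)) Φ) at this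
    rwa [show 𝒢.d - 1 - (𝒢.d - 1 - j) = j by omega] at this
  · rintro ⟨g, hg, h⟩
    exact ⟨g, hg, fun j hj => h _ (by change _ < 𝒢.d at hj; omega)⟩

theorem dual_setoid : 𝒢.dual.setoid = 𝒢.setoid := Setoid.ext dual_eqv

/-- rigidity data -/
structure Rig (𝒢 : Geo V F) (κ : ℕ → F → ℝ) (ν : F → ℝ) : Prop where
  κ_eqv : ∀ Φ Ψ, 𝒢.Eqv Φ Ψ → ∀ i < 𝒢.d, κ i Φ = κ i Ψ
  ν_eqv : ∀ Φ Ψ, 𝒢.Eqv Φ Ψ → ν Φ = ν Ψ
  κ_r : ∀ i < 𝒢.d, ∀ j < 𝒢.d, j + 1 ≠ i → j ≠ i + 1 → ∀ Φ, κ i (𝒢.r j Φ) = κ i Φ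
  ν_r : ∀ j < 𝒢.d, j ≠ 0 → ∀ Φ, ν (𝒢.r j Φ) = ν Φ
  rigid : ∀ E : F → F → Prop, (∀ Φ Ψ, E Φ Ψ → ∀ i < 𝒢.d, E (𝒢.r i Φ) (𝒢.r i Ψ)) →
    (∀ Φ Ψ, E Φ Ψ → ν Φ = ν Ψ ∧ ∀ i < 𝒢.d, κ i Φ = κ i Ψ) → ∀ Φ Ψ, E Φ Ψ → 𝒢.Eqv Φ Ψ

/-- the adjacency operations on the set of orbits -/
def rT (𝒢 : Geo V F) (i : ℤ) : Quotient 𝒢.setoid → Quotient 𝒢.setoid :=
  if h : 0 ≤ i ∧ i < 𝒢.d then
    Quotient.map (𝒢.r i.toNat) (fun _ _ hxy => Eqv.r hxy (by omega))
  else id

theorem rT_nat {i : ℕ} (hi : i < 𝒢.d) (Φ : F) :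
    𝒢.rT i (Quotient.mk _ Φ) = Quotient.mk _ (𝒢.r i Φ) := by
  unfold rT
  rw [dif_pos (by omega)]
  simp

theorem rT_out {i : ℤ} (hi : ¬ (0 ≤ i ∧ i < 𝒢.d)) (x : Quotient 𝒢.setoid) : 𝒢.rT i x = x := by
  unfold rT
  rw [dif_neg hi]
  rfl

theorem rT_cases (i : ℤ) : (∃ n : ℕ, n < 𝒢.d ∧ i = n) ∨ ¬ (0 ≤ i ∧ i < 𝒢.d) := by
  by_cases h : 0 ≤ i ∧ i < 𝒢.d
  · exact Or.inl ⟨i.toNat, by omega, by omega⟩
  · exact Or.inr h

theorem Rig.sys {κ : ℕ → F → ℝ} {ν : F → ℝ} (h : 𝒢.Rig κ ν) : Sys 𝒢.rT where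
  invol := by
    intro i x
    induction x using Quotient.inductionOn
    rcases rT_cases (𝒢 := 𝒢) i with ⟨n, hn, rfl⟩ | hi
    · rw [rT_nat hn, rT_nat hn, 𝒢.r_r hn]
    · rw [rT_out hi, rT_out hi]
  comm := by
    intro i j hij x
    induction x using Quotient.inductionOn
    rcases rT_cases (𝒢 := 𝒢) i with ⟨n, hn, rfl⟩ | hi
    · rcases rT_cases (𝒢 := 𝒢) j with ⟨n', hn', rfl⟩ | hj
      · rw [rT_nat hn, rT_nat hn', rT_nat hn, rT_nat hn', 𝒢.r_comm hn hn' (by omega)]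
      · rw [rT_out hj, rT_out hj]
    · rw [rT_out hi, rT_out hi]
  trans := by
    intro x y
    induction x using Quotient.inductionOn
    induction y using Quotient.inductionOn
    rename_i Φ Ψ
    have := 𝒢.conn Φ Ψ
    induction this with
    | refl => exact Reach.refl _ _
    | tail _ h ih =>
      obtain ⟨j, hj, rfl⟩ := h
      rw [← rT_nat hj]
      exact ih.tail trivial
  rigid := by
    intro E h1 h2 x y hxy
    induction x using Quotient.inductionOn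
    induction y using Quotient.inductionOn
    rename_i Φ Ψ
    apply Quotient.sound
    refine h.rigid (fun Φ Ψ => E (Quotient.mk _ Φ) (Quotient.mk _ Ψ)) ?_ ?_ Φ Ψ hxy
    · intro Φ Ψ hE i hi
      rw [← rT_nat hi, ← rT_nat hi]
      exact h1 _ _ hE i
    · intro Φ Ψ hE
      have key : ∀ (K : Set ℤ) (f : F → ℝ), (∀ Φ Ψ, 𝒢.Eqv Φ Ψ → f Φ = f Ψ) →
          (∀ j < 𝒢.d, (j : ℤ) ∈ K → ∀ Φ, f (𝒢.r j Φ) = f Φ) →
          Reach 𝒢.rT K (Quotient.mk _ Φ) (Quotient.mk _ Ψ) → f Φ = f Ψ := by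
        intro K f hf1 hf2 hr
        have := hr.induct (fun q => ∀ Θ, Quotient.mk _ Θ = q → f Φ = f Θ)
          (fun Θ hΘ => (hf1 _ _ (Quotient.exact hΘ)).symm) (by
            intro z hz i hi Θ hΘ
            induction z using Quotient.inductionOn
            rename_i Θ'
            rcases rT_cases (𝒢 := 𝒢) i with ⟨n, hn, rfl⟩ | hi'
            · rw [rT_nat hn] at hΘ
              rw [hz Θ' rfl, hf1 _ _ (Quotient.exact hΘ), hf2 n hn hi]
            · rw [rT_out hi'] at hΘ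
              exact hz Θ hΘ)
        exact this Ψ rfl
      refine ⟨key _ ν h.ν_eqv (fun j hj hK Φ => h.ν_r j hj ?_ Φ) (h2 _ _ hE 0),
        fun i hi => key _ (κ i) (fun Φ Ψ he => h.κ_eqv Φ Ψ he i hi)
          (fun j hj hK Φ => h.κ_r i hi j hj ?_ ?_ Φ) (h2 _ _ hE (i - 1))⟩
      · simp only [Set.mem_ofPred_eq] at hK; omega
      · simp only [Set.mem_ofPred_eq] at hK; omega
      · simp only [Set.mem_ofPred_eq] at hK; omega

theorem Rig.upper {κ : ℕ → F → ℝ} {ν : F → ℝ} (h : 𝒢.Rig κ ν) [Finite (Quotient 𝒢.setoid)]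
    (hd : 8 ≤ 𝒢.d) (hk4 : 4 ≤ Nat.card (Quotient 𝒢.setoid))
    (hk : Nat.card (Quotient 𝒢.setoid) + 3 ≤ 𝒢.d)
    (h85 : ¬ (𝒢.d = 8 ∧ Nat.card (Quotient 𝒢.setoid) = 5)) : False := by
  classical
  have hS := h.sys
  let N : Finset ℤ := (Finset.Ico (0 : ℤ) 𝒢.d).filter (fun i => ∃ x, 𝒢.rT i x ≠ x)
  have hN1 : ∀ i ∈ N, ∃ x, 𝒢.rT i x ≠ x := fun i hi => (Finset.mem_filter.1 hi).2
  have hN2 : ∀ i ∉ N, ∀ x, 𝒢.rT i x = x := by
    intro i hi x
    by_contra hc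
    by_cases h0 : 0 ≤ i ∧ i < 𝒢.d
    · exact hi (Finset.mem_filter.2 ⟨Finset.mem_Ico.2 h0, x, hc⟩)
    · exact hc (rT_out h0 x)
  have hN3 : ∀ i ∈ N, 0 ≤ i ∧ i < 𝒢.d := fun i hi =>
    Finset.mem_Ico.1 (Finset.mem_filter.1 hi).1
  have hcard := count_le _ _ 𝒢.rT hS N hN1 hN2 rfl
  have heqv : ∀ n < 𝒢.d, (n : ℤ) ∉ N → ∀ Φ, 𝒢.Eqv Φ (𝒢.r n Φ) := by
    intro n hn hnN Φ
    have := hN2 n hnN (Quotient.mk _ Φ)
    rw [rT_nat hn] at this
    exact Eqv.symm (Quotient.exact this)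
  have hint : ∀ j ∈ N, ∀ l ∈ N, ∀ i, j < i → i < l → i ∈ N := by
    intro j0 hj0 l0 hl0 i hi1 hi2
    by_contra hi
    obtain ⟨j, ⟨hj1, hj2⟩, hj3⟩ := Int.exists_greatest_of_bdd (P := fun j => j ∈ N ∧ j < i)
      ⟨i, fun z hz => hz.2.le⟩ ⟨j0, hj0, hi1⟩
    obtain ⟨l, ⟨hl1, hl2⟩, hl3⟩ := Int.exists_least_of_bdd (P := fun l => l ∈ N ∧ i < l)
      ⟨i, fun z hz => hz.2.le⟩ ⟨l0, hl0, hi2⟩
    have hmid : ∀ z, j < z → z < l → z ∉ N := by
      intro z h1 h2 hz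
      rcases lt_trichotomy z i with h3 | h3 | h3
      · have := hj3 z ⟨hz, h3⟩; omega
      · exact hi (h3 ▸ hz)
      · have := hl3 z ⟨hz, h3⟩; omega
    obtain ⟨t1, ht1⟩ := hN1 j hj1
    obtain ⟨t2, ht2⟩ := hN1 l hl1
    have hls : LS 𝒢.rT i := fun x => by rw [hN2 i hi]; exact Reach.refl _ _
    obtain ⟨t, h1, h2⟩ := hS.decomp hls t1 t2
    have hinj : ∀ a x y, 𝒢.rT a x = 𝒢.rT a y → x = y := fun a x y hxy => by
      have := congrArg (𝒢.rT a) hxy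
      rwa [hS.invol, hS.invol] at this
    have a1 : 𝒢.rT j t ≠ t := h1.induct (fun z => 𝒢.rT j z ≠ z) ht1 (by
      intro z hz a ha hc
      simp only [Set.mem_Ioi] at ha
      rw [hS.comm j a (by omega)] at hc
      exact hz (hinj a _ _ hc))
    have a2 : 𝒢.rT l t ≠ t := (h2.symm hS.invol).induct (fun z => 𝒢.rT l z ≠ z) ht2 (by
      intro z hz a ha hc
      simp only [Set.mem_Iio] at ha
      rw [← hS.comm a l (by omega)] at hc
      exact hz (hinj a _ _ hc))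
    obtain ⟨j', rfl⟩ := Int.eq_ofNat_of_zero_le (hN3 j hj1).1
    obtain ⟨l', rfl⟩ := Int.eq_ofNat_of_zero_le (hN3 l hl1).1
    have b1 := (hN3 _ hj1).2
    have b2 := (hN3 _ hl1).2
    induction t using Quotient.inductionOn
    rename_i Φ
    rw [rT_nat (by omega)] at a1 a2
    refine (roots_rg 𝒢).interval (j := j') (l := l') (by omega) (by omega) Φ
      (fun z h1 h2 Ψ => mir_of_eqv (by omega)
        (heqv z (by omega) (hmid z (by omega) (by omega)) Ψ)) (fun hc => a1 ?_) (fun hc => a2 ?_)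
    · exact Quotient.sound ((roots_rg 𝒢).mir_eqv (by omega) hc).symm
    · exact Quotient.sound ((roots_rg 𝒢).mir_eqv (by omega) hc).symm
  by_cases hc : (0 : ℤ) ∉ N ∧ (1 : ℤ) ∉ N
  · exact upper_aux (heqv 0 (by omega) hc.1) (heqv 1 (by omega) hc.2) hd hk4 hk h85
  by_cases hc' : ((𝒢.d - 1 : ℕ) : ℤ) ∉ N ∧ ((𝒢.d - 1 - 1 : ℕ) : ℤ) ∉ N
  · have : Finite (Quotient 𝒢.dual.setoid) := by rwa [dual_setoid]
    refine upper_aux (𝒢 := 𝒢.dual) (fun Φ => (dual_eqv _ _).2 (heqv _ (by omega) hc'.1 Φ))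
      (fun Φ => (dual_eqv _ _).2 (heqv _ (by omega) hc'.2 Φ)) hd ?_ ?_ ?_ <;>
      rw [dual_setoid] <;> assumption
  obtain ⟨a, ha, ha'⟩ : ∃ a ∈ N, a ≤ 1 := by
    by_cases h0 : (0 : ℤ) ∈ N
    · exact ⟨0, h0, by omega⟩
    · exact ⟨1, by tauto, le_rfl⟩
  obtain ⟨b, hb, hb'⟩ : ∃ b ∈ N, (𝒢.d : ℤ) - 2 ≤ b := by
    by_cases h0 : ((𝒢.d - 1 : ℕ) : ℤ) ∈ N
    · exact ⟨_, h0, by omega⟩
    · exact ⟨((𝒢.d - 1 - 1 : ℕ) : ℤ), by tauto, by omega⟩
  have hsub : Finset.Icc a b ⊆ N := by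
    intro i hi
    rw [Finset.mem_Icc] at hi
    by_cases h1 : i = a
    · rwa [h1]
    by_cases h2 : i = b
    · rwa [h2]
    exact hint a ha b hb i (by omega) (by omega)
  have := Finset.card_le_card hsub
  rw [Int.card_Icc] at this
  omega

end Geo

end Pool.Agent.Lib.MP_727bc7_co
end

-- part Pool.Agent.Lib.MP_727bc7_co.Config
section

/-! The flag geometry of a centred point configuration in convex position. -/

namespace Pool.Agent.Lib.MP_727bc7_co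

open Module Submodule
open scoped RealInnerProductSpace

section Config

variable {V : Type} [NormedAddCommGroup V] [InnerProductSpace ℝ V]

/-- homogenisation -/
def hom (s : V) : WithLp 2 (V × ℝ) := WithLp.toLp 2 (s, 1)

/-- a centred, spanning configuration in convex position -/
structure Config (S : Finset V) : Prop where
  sum_zero : ∑ s ∈ S, s = 0
  span : K hom S = ⊤
  vert : ∀ s ∈ S, IsFace hom S {s}

/-- the linear symmetry group of a finite set -/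
def symGroup (S : Finset V) : Subgroup (V ≃ₗᵢ[ℝ] V) where
  carrier := {g | ∀ s, g s ∈ S ↔ s ∈ S}
  mul_mem' := fun {a b} ha hb s => (ha (b s)).trans (hb s)
  one_mem' := fun _ => Iff.rfl
  inv_mem' := fun {a} ha s => by
    have := ha (a.symm s)
    rw [a.apply_symm_apply] at this
    exact this.symm

/-- the lift of a linear isometry -/
noncomputable def lift (g : V ≃ₗᵢ[ℝ] V) : WithLp 2 (V × ℝ) ≃ₗᵢ[ℝ] WithLp 2 (V × ℝ) :=
  LinearIsometryEquiv.withLpProdCongr 2 g (LinearIsometryEquiv.refl ℝ ℝ)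

theorem lift_toLp (g : V ≃ₗᵢ[ℝ] V) (x : V) (t : ℝ) :
    lift g (WithLp.toLp 2 (x, t)) = WithLp.toLp 2 (g x, t) := rfl

theorem lift_hom (g : V ≃ₗᵢ[ℝ] V) (s : V) : lift g (hom s) = hom (g s) := rfl

omit [InnerProductSpace ℝ V] in
theorem sum_hom (A : Finset V) :
    ∑ s ∈ A, hom s = WithLp.toLp 2 (∑ s ∈ A, s, (A.card : ℝ)) := by
  classical
  induction A using Finset.induction_on with
  | empty => simp; rfl
  | insert a s ha ih =>
    rw [Finset.sum_insert ha, Finset.sum_insert ha, ih, Finset.card_insert_of_notMem ha]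
    unfold hom
    rw [← WithLp.toLp_add]
    simp [add_comm]

theorem toLp_split (x : V) (t : ℝ) : WithLp.toLp 2 (x, t) =
    WithLp.toLp 2 (x, (0 : ℝ)) + t • WithLp.toLp 2 ((0 : V), (1 : ℝ)) := by
  rw [← WithLp.toLp_smul, ← WithLp.toLp_add]
  simp

variable {S : Finset V}

theorem face_empty : IsFace hom S ∅ :=
  ⟨WithLp.sndₗ 2 ℝ V ℝ, fun s _ => by simp [hom], fun s => by simp [hom]⟩

theorem Defines.sum_nonneg {φ : WithLp 2 (V × ℝ) →ₗ[ℝ] ℝ} {A B : Finset V}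
    (h : Defines hom S φ A) (hB : B ⊆ S) : 0 ≤ φ (∑ s ∈ B, hom s) := by
  rw [map_sum]
  exact Finset.sum_nonneg (fun s hs => h.1 s (hB hs))

theorem Defines.subset_of_sum {φ : WithLp 2 (V × ℝ) →ₗ[ℝ] ℝ} {A B : Finset V}
    (h : Defines hom S φ A) (hB : B ⊆ S) (h0 : φ (∑ s ∈ B, hom s) = 0) : B ⊆ A := by
  rw [map_sum, Finset.sum_eq_zero_iff_of_nonneg (fun s hs => h.1 s (hB hs))] at h0
  exact fun s hs => (h.2 s).2 ⟨hB hs, h0 s hs⟩

theorem Defines.sum_zero {φ : WithLp 2 (V × ℝ) →ₗ[ℝ] ℝ} {A : Finset V}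
    (h : Defines hom S φ A) : φ (∑ s ∈ A, hom s) = 0 := by
  rw [map_sum]
  exact Finset.sum_eq_zero (fun s hs => h.zero hs)

theorem Config.axis_nonneg (hC : Config S) {φ : WithLp 2 (V × ℝ) →ₗ[ℝ] ℝ} {A : Finset V}
    (h : Defines hom S φ A) (hS : S.Nonempty) : 0 ≤ φ (WithLp.toLp 2 ((0 : V), (1 : ℝ))) := by
  have h1 := h.sum_nonneg le_rfl
  rw [sum_hom, hC.sum_zero, toLp_split, map_add, map_smul] at h1
  have h2 : WithLp.toLp 2 ((0 : V), (0 : ℝ)) = 0 := rfl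
  rw [h2, map_zero, zero_add, smul_eq_mul] at h1
  have h3 : (0 : ℝ) < S.card := by exact_mod_cast hS.card_pos
  exact (mul_nonneg_iff_of_pos_left h3).1 h1

theorem image_face {g : V ≃ₗᵢ[ℝ] V} (hg : g ∈ symGroup S) {A : Finset V} (hA : IsFace hom S A) :
    IsFace hom S (A.map g.toEquiv.toEmbedding) := by
  obtain ⟨φ, hφ⟩ := hA
  have hg' : ∀ s, g.symm s ∈ S ↔ s ∈ S := (symGroup S).inv_mem hg
  refine ⟨φ ∘ₗ (lift g.symm).toLinearEquiv.toLinearMap, fun s hs => hφ.1 _ ((hg' s).2 hs),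
    fun s => ?_⟩
  rw [Finset.mem_map_equiv, hφ.2, ← hg' s]
  rfl

theorem image_hom (g : V ≃ₗᵢ[ℝ] V) (A : Finset V) :
    hom '' (A.map g.toEquiv.toEmbedding) = lift g '' (hom '' A) := by
  rw [Finset.coe_map, Set.image_image, Set.image_image]
  rfl

theorem image_rk (g : V ≃ₗᵢ[ℝ] V) (A : Finset V) :
    rk hom (A.map g.toEquiv.toEmbedding) = rk hom A := by
  unfold rk
  rw [K_map (lift g) (image_hom g A)]
  exact LinearEquiv.finrank_map_eq _ _

theorem image_sum (g : V ≃ₗᵢ[ℝ] V) (A : Finset V) :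
    ∑ s ∈ A.map g.toEquiv.toEmbedding, s = g (∑ s ∈ A, s) := by
  rw [Finset.sum_map, map_sum]
  rfl

theorem image_top {g : V ≃ₗᵢ[ℝ] V} (hg : g ∈ symGroup S) : S.map g.toEquiv.toEmbedding = S := by
  ext s
  rw [Finset.mem_map_equiv]
  exact (symGroup S).inv_mem hg s

/-- image of a chain -/
def Chain.map {g : V ≃ₗᵢ[ℝ] V} (hg : g ∈ symGroup S) (Φ : Chain hom S) : Chain hom S where
  F := fun ρ => (Φ.F ρ).map g.toEquiv.toEmbedding
  face := fun ρ => image_face hg (Φ.face ρ)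
  rank := fun ρ hρ => by rw [image_rk, Φ.rank ρ hρ]
  mono := fun ρ => Finset.map_subset_map.2 (Φ.mono ρ)
  top := fun ρ hρ => by rw [Φ.top ρ hρ, image_top hg]

variable [FiniteDimensional ℝ V]

theorem Config.rk_eq (hC : Config S) : rk hom S = finrank ℝ V + 1 := by
  unfold rk
  rw [hC.span, finrank_top, (WithLp.linearEquiv 2 ℝ (V × ℝ)).finrank_eq]
  simp

theorem Config.nonempty (hC : Config S) : S.Nonempty := by
  obtain ⟨s, hs, -⟩ := exists_not_mem (u := hom) (A := ∅) (B := S)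
    (by rw [rk_empty, hC.rk_eq]; omega)
  exact ⟨s, hs⟩

theorem Config.c_inj (hC : Config S) {A B : Finset V} (hA : IsFace hom S A) (hB : IsFace hom S B)
    (hr : rk hom A = rk hom B) (h : ∑ s ∈ A, s = ∑ s ∈ B, s) : A = B := by
  wlog hle : A.card ≤ B.card generalizing A B
  · exact (this hB hA hr.symm h.symm (by omega)).symm
  obtain ⟨φ, hφ⟩ := id hB
  refine hA.eq_of_rk hB.subset (hφ.subset_of_sum hA.subset ?_) hr.ge
  have h1 := hφ.sum_nonneg hA.subset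
  have h2 := hφ.sum_zero
  have h3 := hC.axis_nonneg hφ hC.nonempty
  rw [sum_hom, toLp_split, map_add, map_smul, smul_eq_mul] at h1 h2 ⊢
  rw [h] at h1 ⊢
  have h4 : (A.card : ℝ) ≤ B.card := by exact_mod_cast hle
  nlinarith

theorem sign_aux {g : V ≃ₗᵢ[ℝ] V} (hg : g ∈ symGroup S) {α : V}
    (hα : α ≠ 0) (hgv : ∀ v, g v = v - (2 * ⟪α, v⟫) • α) {A B : Finset V} (hB : IsFace hom S B)
    (hAB : A ⊆ B) : 0 ≤ ⟪α, ∑ s ∈ A, s⟫ * ⟪α, ∑ s ∈ B, s⟫ := by
  by_contra hc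
  push Not at hc
  set a := ⟪α, ∑ s ∈ A, s⟫ with ha
  set b := ⟪α, ∑ s ∈ B, s⟫ with hb
  have hB' := image_face hg hB
  obtain ⟨φ, hφ⟩ := id hB
  obtain ⟨ψ, hψ⟩ := id hB'
  have hx : g (b ^ 2 • ∑ s ∈ A, s + (-(a * b)) • ∑ s ∈ B, s) =
      b ^ 2 • ∑ s ∈ A, s + (-(a * b)) • ∑ s ∈ B, s := by
    rw [hgv, Geo.refl_eq_self_iff hα, inner_add_right, real_inner_smul_right,
      real_inner_smul_right, ← ha, ← hb]
    ring
  have hx' : lift g (b ^ 2 • ∑ s ∈ A, hom s + (-(a * b)) • ∑ s ∈ B, hom s) =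
      b ^ 2 • ∑ s ∈ A, hom s + (-(a * b)) • ∑ s ∈ B, hom s := by
    rw [sum_hom, sum_hom, ← WithLp.toLp_smul, ← WithLp.toLp_smul, ← WithLp.toLp_add,
      Prod.smul_mk, Prod.smul_mk, Prod.mk_add_mk, lift_toLp, hx]
  have hz : ∀ C ⊆ B, ψ (lift g (∑ s ∈ C, hom s)) = 0 := by
    intro C hCB
    rw [map_sum, map_sum]
    refine Finset.sum_eq_zero (fun s hs => ?_)
    rw [lift_hom]
    exact hψ.zero (Finset.mem_map_of_mem _ (hCB hs))
  have h1 := congrArg ψ hx'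
  rw [map_add, map_smul, map_smul, map_add, map_smul, map_smul, hz A hAB, hz B le_rfl, map_add,
    map_smul, map_smul] at h1
  have h2 := hψ.sum_nonneg (hAB.trans hB.subset)
  have h3 := hψ.sum_nonneg hB.subset
  simp only [smul_eq_mul] at h1
  have h4 : ψ (∑ s ∈ B, hom s) = 0 := by
    have : 0 ≤ b ^ 2 * ψ (∑ s ∈ A, hom s) := by positivity
    nlinarith
  have h5 := hB.eq_of_rk hB'.subset (hψ.subset_of_sum hB.subset h4) (image_rk g B).le
  have h6 := image_sum g B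
  rw [← h5, eq_comm, hgv, Geo.refl_eq_self_iff hα, ← hb] at h6
  rw [h6] at hc
  simp at hc

theorem Config.span_c (hC : Config S) (Φ : Chain hom S) (w : V)
    (h : ∀ j < finrank ℝ V, ⟪w, ∑ s ∈ Φ.F (j + 1), s⟫ = 0) : w = 0 := by
  let ψ : WithLp 2 (V × ℝ) →ₗ[ℝ] ℝ := (innerₗ V w) ∘ₗ WithLp.fstₗ 2 ℝ V ℝ
  have hψ : ∀ x t, ψ (WithLp.toLp 2 (x, t)) = ⟪w, x⟫ := fun _ _ => rfl
  have key : ∀ ρ ≤ rk hom S, ∀ x ∈ K hom (Φ.F ρ), ψ x = 0 := by
    intro ρ
    induction ρ with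
    | zero =>
      intro _ x hx
      rw [Φ.K_zero, Submodule.mem_bot] at hx
      rw [hx, map_zero]
    | succ ρ ih =>
      intro hρ
      have hm : ∑ s ∈ Φ.F (ρ + 1), hom s ∈ K hom (Φ.F (ρ + 1)) :=
        Submodule.sum_mem _ (fun s hs => mem_K hs)
      rw [K_eq_sup (Φ.mono ρ) (Φ.rk_succ hρ) hm (fun hc => ?_)]
      · refine zero_of_sup (ih (by omega)) ?_
        rw [sum_hom, hψ]
        by_cases h1 : ρ < finrank ℝ V
        · exact h ρ h1
        · rw [Φ.top _ (by rw [hC.rk_eq]; omega), hC.sum_zero, inner_zero_right]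
      · obtain ⟨φ, hφ⟩ := Φ.face ρ
        have := rk_mono (u := hom) (hφ.subset_of_sum (Φ.face (ρ + 1)).subset
          (K_le_ker (fun s hs => hφ.zero hs) _ hc))
        rw [Φ.rk_succ hρ] at this
        omega
  have := key _ le_rfl (WithLp.toLp 2 (w, 0)) (by rw [Φ.top _ le_rfl, hC.span]; trivial)
  rw [hψ] at this
  exact inner_self_eq_zero.1 this

theorem Config.c_eq (hC : Config S) {Φ Ψ : Chain hom S} {i : ℕ} (hi : i < finrank ℝ V)
    (h : ∑ s ∈ Φ.F (i + 1), s = ∑ s ∈ Ψ.F (i + 1), s) : Φ.F (i + 1) = Ψ.F (i + 1) :=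
  hC.c_inj (Φ.face _) (Ψ.face _) (by
    rw [Φ.rank _ (by rw [hC.rk_eq]; omega), Ψ.rank _ (by rw [hC.rk_eq]; omega)]) h

theorem Config.all_eq (hC : Config S) {Φ Ψ : Chain hom S} {ρ : ℕ}
    (h : ∀ j < finrank ℝ V, ρ = j + 1 → ∑ s ∈ Φ.F (j + 1), s = ∑ s ∈ Ψ.F (j + 1), s) :
    Φ.F ρ = Ψ.F ρ := by
  by_cases h0 : ρ = 0
  · rw [h0, Φ.zero face_empty, Ψ.zero face_empty]
  by_cases h1 : rk hom S ≤ ρ
  · rw [Φ.top ρ h1, Ψ.top ρ h1]
  obtain ⟨j, rfl⟩ : ∃ j, ρ = j + 1 := ⟨ρ - 1, by omega⟩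
  rw [hC.rk_eq] at h1
  exact hC.c_eq (by omega) (h j (by omega) rfl)

/-- the flag geometry of the configuration -/
noncomputable def Config.geo (hC : Config S) : Geo V (Chain hom S) where
  d := finrank ℝ V
  r := Chain.flip
  c := fun i Φ => ∑ s ∈ Φ.F (i + 1), s
  G := symGroup S
  c_r := fun i hi j _ hji Φ => by
    rw [(Φ.flip_spec (by rw [hC.rk_eq]; omega)).1 (j + 1) (by omega)]
  c_r_ne := fun i hi Φ hc =>
    (Φ.flip_spec (by rw [hC.rk_eq]; omega)).2.1 (hC.c_eq hi hc)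
  span := hC.span_c
  diamond := fun i hi Φ Ψ h => by
    have h1 : Ψ.F i = Φ.F i := hC.all_eq (fun j hj hij => h j hj (by omega))
    have h2 : Ψ.F (i + 2) = Φ.F (i + 2) := hC.all_eq (fun j hj hij => h j hj (by omega))
    rcases (Φ.flip_spec (i := i) (by rw [hC.rk_eq]; omega)).2.2 (Ψ.F (i + 1)) (Ψ.face _)
      (by rw [← h1]; exact Ψ.mono _) (by rw [← h2]; exact Ψ.mono _)
      (Ψ.rank _ (by rw [hC.rk_eq]; omega)) with h3 | h3
    · left; rw [h3]
    · right; rw [h3]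
  ext := fun Φ Ψ h => Chain.ext (funext fun ρ => hC.all_eq (fun j hj _ => h j hj))
  uniq := fun i hi j hj hij Φ1 Φ2 Ψ1 Ψ2 h1 h2 h3 h4 h5 => by
    have e1 : Φ1.F (i + 1) ≠ Φ2.F (i + 1) := fun hc => h1 (by rw [hc])
    have e2 := hC.c_eq hj h2
    have e3 := hC.c_eq hi h3
    have e4 := hC.c_eq hi h4
    have e5 := hC.c_eq hj h5
    have r1 := Φ1.rank (i + 1) (by rw [hC.rk_eq]; omega)
    have r2 := Φ2.rank (i + 1) (by rw [hC.rk_eq]; omega)
    have r3 := Φ1.rank (j + 1) (by rw [hC.rk_eq]; omega)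
    have r4 := Ψ1.rank (j + 1) (by rw [hC.rk_eq]; omega)
    suffices Ψ1.F (j + 1) = Φ1.F (j + 1) by rw [this]
    rcases hij with hij | hij
    · subst hij
      obtain ⟨D, hD, hD'⟩ := (Φ1.face (j + 1 + 1)).inter (Φ2.face (j + 1 + 1))
      have hlt : rk hom D ≤ j + 1 := by
        by_contra hc
        have a1 := hD.eq_of_rk (Φ1.face (j + 1 + 1)).subset (fun s hs => ((hD' s).1 hs).1)
          (by omega)
        have a2 := hD.eq_of_rk (Φ2.face (j + 1 + 1)).subset (fun s hs => ((hD' s).1 hs).2)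
          (by omega)
        exact e1 (a1.symm.trans a2)
      rw [(Φ1.face (j + 1)).eq_of_rk hD.subset (fun s hs => (hD' s).2
          ⟨Φ1.mono _ hs, Φ2.mono _ (e2 ▸ hs)⟩) (by omega),
        (Ψ1.face (j + 1)).eq_of_rk hD.subset (fun s hs => (hD' s).2
          ⟨e3 ▸ Ψ1.mono _ hs, e4 ▸ Ψ2.mono _ (e5 ▸ hs)⟩) (by omega)]
    · subst hij
      obtain ⟨D, hD, hD'⟩ := (Φ1.face (i + 1 + 1)).inter (Ψ1.face (i + 1 + 1))
      have s1 : Φ1.F (i + 1) ⊆ D := fun s hs => (hD' s).2 ⟨Φ1.mono _ hs, Ψ1.mono _ (e3 ▸ hs)⟩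
      have s2 : Φ2.F (i + 1) ⊆ D := fun s hs => (hD' s).2
        ⟨e2 ▸ Φ2.mono _ hs, e5 ▸ Ψ2.mono _ (e4 ▸ hs)⟩
      have hlt : i + 2 ≤ rk hom D := by
        by_contra hc
        exact e1 (((Φ1.face _).eq_of_rk hD.subset s1 (by omega)).trans
          ((Φ2.face _).eq_of_rk hD.subset s2 (by omega)).symm)
      rw [← hD.eq_of_rk (Φ1.face (i + 1 + 1)).subset (fun s hs => ((hD' s).1 hs).1) (by omega),
        ← hD.eq_of_rk (Ψ1.face (i + 1 + 1)).subset (fun s hs => ((hD' s).1 hs).2) (by omega)]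
  act := fun g hg Φ => ⟨Φ.map hg, fun j _ => image_sum g _⟩
  sign := fun α h1 h2 Φ i _ j _ => by
    obtain ⟨g, hg, hgv⟩ := h2
    have hα : α ≠ 0 := by rintro rfl; simp at h1
    rcases le_total i j with h | h
    · exact sign_aux hg hα hgv (Φ.face _) (Φ.le (by omega))
    · rw [mul_comm]
      exact sign_aux hg hα hgv (Φ.face _) (Φ.le (by omega))
  conn := fun Φ Ψ => by
    have := conn_all face_empty Φ Ψ
    induction this with
    | refl => exact Relation.ReflTransGen.refl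
    | tail _ h ih =>
      obtain ⟨i, hi, rfl⟩ := h
      exact ih.tail ⟨i, by rw [hC.rk_eq] at hi; omega, rfl⟩

theorem Config.maps_iff (hC : Config S) {g : V ≃ₗᵢ[ℝ] V} (hg : g ∈ symGroup S)
    (Φ Ψ : Chain hom S) :
    hC.geo.Maps g Φ Ψ ↔ ∀ ρ, Ψ.F ρ = (Φ.F ρ).map g.toEquiv.toEmbedding := by
  constructor
  · intro h ρ
    exact hC.all_eq (Φ := Ψ) (Ψ := Φ.map hg) (fun j hj _ => (h j hj).trans (image_sum g _).symm)
  · intro h j _
    change ∑ s ∈ Ψ.F (j + 1), s = _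
    rw [h, image_sum]
    rfl

theorem Config.rig (hC : Config S) :
    hC.geo.Rig Chain.kappa (fun Φ => ‖∑ s ∈ Φ.F 1, hom s‖) where
  κ_eqv := by
    rintro Φ Ψ ⟨g, hg, h⟩ i hi
    have h' := (hC.maps_iff hg _ _).1 (h.r hg hi)
    have h := (hC.maps_iff hg _ _).1 h
    have hi' : i < rk hom S := by rw [hC.rk_eq]; exact Nat.lt_succ_of_lt hi
    unfold Chain.kappa
    rw [← Chain.e_map (Φ := Φ) (Ψ := Ψ) (lift g) hi' (by rw [h, image_hom])
        (by rw [h, image_hom]),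
      ← Chain.e_map (Φ := Φ.flip i) (Ψ := Ψ.flip i) (lift g) hi'
        (by rw [← image_hom]; exact congrArg _ (congrArg _ (h' _)))
        (by rw [← image_hom]; exact congrArg _ (congrArg _ (h' _))),
      (lift g).inner_map_map]
  ν_eqv := by
    rintro Φ Ψ ⟨g, hg, h⟩
    rw [(hC.maps_iff hg _ _).1 h, Finset.sum_map, ← (lift g).norm_map, map_sum]
    rfl
  κ_r := fun i hi j hj h1 h2 Φ => Φ.kappa_flip (by rw [hC.rk_eq]; exact Nat.succ_le_succ hi)
    (by rw [hC.rk_eq]; exact Nat.succ_le_succ hj) h1 h2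
  ν_r := fun j hj h0 Φ => by
    change ‖∑ s ∈ (Φ.flip j).F 1, hom s‖ = _
    rw [(Φ.flip_spec (by rw [hC.rk_eq]; exact Nat.succ_le_succ hj)).1 1 (by omega)]
  rigid := by
    classical
    intro E h1 h2 Φ Ψ h
    obtain ⟨f, hf1, hf2⟩ := rigid_U face_empty hC.vert hC.span (by rw [hC.rk_eq]; omega) E
      (fun Φ Ψ h i hi => h1 Φ Ψ h i (by rw [hC.rk_eq] at hi; exact Nat.le_of_succ_le_succ hi))
      (fun Φ Ψ h => ⟨(h2 Φ Ψ h).1, fun i hi => (h2 Φ Ψ h).2 i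
        (by rw [hC.rk_eq] at hi; exact Nat.le_of_succ_le_succ hi)⟩) h
    choose! σ hσ1 hσ2 using hf1
    have hinj : ∀ a ∈ S, ∀ b ∈ S, σ a = σ b → a = b := by
      intro a ha b hb hab
      have : hom a = hom b := f.injective (by rw [hσ2 a ha, hσ2 b hb, hab])
      exact congrArg (fun x => (WithLp.ofLp x).1) this
    have himg : S.image σ = S := by
      refine Finset.eq_of_subset_of_card_le (fun s hs => ?_) ?_
      · obtain ⟨t, ht, rfl⟩ := Finset.mem_image.1 hs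
        exact hσ1 t ht
      · rw [Finset.card_image_of_injOn (fun a ha b hb => hinj a ha b hb)]
    have hax : f (WithLp.toLp 2 ((0 : V), (1 : ℝ))) = WithLp.toLp 2 ((0 : V), (1 : ℝ)) := by
      have e1 : f (∑ s ∈ S, hom s) = ∑ s ∈ S, hom s := by
        rw [map_sum, Finset.sum_congr rfl hσ2]
        conv_rhs => rw [← himg, Finset.sum_image hinj]
      have e2 : WithLp.toLp 2 ((0 : V), (0 : ℝ)) = 0 := rfl
      rw [sum_hom, hC.sum_zero, toLp_split, e2, zero_add, map_smul] at e1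
      have h3 : (S.card : ℝ) ≠ 0 := by exact_mod_cast hC.nonempty.card_pos.ne'
      exact smul_right_injective _ h3 e1
    have hsnd : ∀ x : V, (WithLp.ofLp (f (WithLp.toLp 2 (x, (0 : ℝ))))).2 = 0 := by
      intro x
      have := f.inner_map_map (WithLp.toLp 2 ((0 : V), (1 : ℝ))) (WithLp.toLp 2 (x, (0 : ℝ)))
      rw [hax] at this
      simpa using this
    let g0 : V →ₗ[ℝ] V := WithLp.fstₗ 2 ℝ V ℝ ∘ₗ f.toLinearEquiv.toLinearMap ∘ₗ
      (WithLp.linearEquiv 2 ℝ (V × ℝ)).symm.toLinearMap ∘ₗ LinearMap.inl ℝ V ℝ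
    have hg0 : ∀ x, f (WithLp.toLp 2 (x, (0 : ℝ))) = WithLp.toLp 2 (g0 x, (0 : ℝ)) := by
      intro x
      conv_rhs => rw [← hsnd x]
      rfl
    let g1 : V →ₗᵢ[ℝ] V := g0.isometryOfInner (fun x y => by
      have := f.inner_map_map (WithLp.toLp 2 (x, (0 : ℝ))) (WithLp.toLp 2 (y, (0 : ℝ)))
      rw [hg0, hg0] at this
      simpa using this)
    let g : V ≃ₗᵢ[ℝ] V := g1.toLinearIsometryEquiv rfl
    have hg1 : ∀ x, f (hom x) = hom (g x) := by
      intro x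
      unfold hom
      rw [toLp_split, map_add, map_smul, hax, hg0, toLp_split (g x)]
      rfl
    have hgσ : ∀ s ∈ S, g s = σ s := fun s hs =>
      congrArg (fun x => (WithLp.ofLp x).1) ((hg1 s).symm.trans (hσ2 s hs))
    have hg : g ∈ symGroup S := by
      intro s
      constructor
      · intro hs
        rw [← himg] at hs
        obtain ⟨t, ht, h3⟩ := Finset.mem_image.1 hs
        rw [← hgσ t ht] at h3
        rwa [← g.injective h3]
      · intro hs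
        rw [hgσ s hs]
        exact hσ1 s hs
    refine ⟨g, hg, (hC.maps_iff hg _ _).2 (fun ρ => ?_)⟩
    by_cases hρ : ρ ≤ rk hom S
    · ext s
      rw [Finset.mem_map_equiv]
      have e1 : hom s = f (hom (g.symm s)) := by rw [hg1, g.apply_symm_apply]
      constructor
      · intro hs
        refine (Φ.face ρ).mem_of_K (((symGroup S).inv_mem hg s).2 ((Ψ.face ρ).subset hs)) ?_
        refine (hf2 ρ hρ _).2 ?_
        change f (hom (g.symm s)) ∈ _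
        rw [← e1]
        exact mem_K hs
      · intro hs
        refine (Ψ.face ρ).mem_of_K (((symGroup S).inv_mem hg s).1 ((Φ.face ρ).subset hs)) ?_
        rw [e1]
        exact (hf2 ρ hρ _).1 (mem_K hs)
    · rw [Φ.top ρ (by omega), Ψ.top ρ (by omega), image_top hg]

omit [FiniteDimensional ℝ V] in
theorem chain_finite (S : Finset V) : Finite (Chain hom S) := by
  refine Finite.of_injective (fun (Φ : Chain hom S) (ρ : Fin (rk hom S)) =>
    (⟨Φ.F ρ, Finset.mem_powerset.2 (Φ.face ρ).subset⟩ : S.powerset)) ?_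
  intro Φ Ψ h
  refine Chain.ext (funext fun ρ => ?_)
  by_cases hρ : ρ < rk hom S
  · exact congrArg Subtype.val (congrFun h ⟨ρ, hρ⟩)
  · rw [Φ.top ρ (by omega), Ψ.top ρ (by omega)]

theorem Config.upper (hC : Config S) (hd : 8 ≤ finrank ℝ V)
    (hk4 : 4 ≤ Nat.card (Quotient hC.geo.setoid))
    (hk : Nat.card (Quotient hC.geo.setoid) + 3 ≤ finrank ℝ V)
    (h85 : ¬ (finrank ℝ V = 8 ∧ Nat.card (Quotient hC.geo.setoid) = 5)) : False := by
  have := chain_finite S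
  exact hC.rig.upper hd hk4 hk h85

end Config

end Pool.Agent.Lib.MP_727bc7_co
end
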