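import Mathlib

/-! Convex polytopes, their faces and flags, and the number of flag orbits. -/

namespace Pool.Agent.Lib.MP_727bc7_co

/-- A convex `d`-polytope: the convex hull of finitely many points, with non-empty interior. -/
def IsPolytope {d : ℕ} (P : Set (EuclideanSpace ℝ (Fin d))) : Prop :=
  (∃ S : Finset (EuclideanSpace ℝ (Fin d)),
    P = convexHull ℝ (S : Set (EuclideanSpace ℝ (Fin d)))) ∧ (interior P).Nonempty

/-- `F` is a face of `P` of dimension `i`. -/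
def IsFaceOfDim {d : ℕ} (P F : Set (EuclideanSpace ℝ (Fin d))) (i : ℕ) : Prop :=
  IsExposed ℝ P F ∧ F.Nonempty ∧ Module.finrank ℝ (vectorSpan ℝ F) = i

/-- A flag of `P`: a chain of faces of dimensions `0, …, d - 1`. -/
def IsFlag {d : ℕ} (P : Set (EuclideanSpace ℝ (Fin d)))
    (Φ : Fin d → Set (EuclideanSpace ℝ (Fin d))) : Prop :=
  (∀ i : Fin d, IsFaceOfDim P (Φ i) i) ∧ ∀ i j : Fin d, i ≤ j → Φ i ⊆ Φ j

/-- The number of orbits of flags of `P` under the isometries mapping `P` onto itself. -/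
noncomputable def flagOrbits {d : ℕ} (P : Set (EuclideanSpace ℝ (Fin d))) : ℕ :=
  Nat.card (Quot fun Φ Ψ : {Φ : Fin d → Set (EuclideanSpace ℝ (Fin d)) // IsFlag P Φ} =>
    ∃ g : EuclideanSpace ℝ (Fin d) ≃ᵢ EuclideanSpace ℝ (Fin d),
      g '' P = P ∧ ∀ i, g '' Φ.1 i = Ψ.1 i)

end Pool.Agent.Lib.MP_727bc7_co
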