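import Pool.Agent.Lib.MP_727bc7_co.Tree

/-! The number of flag orbits of a geometry whose walls form a fork with a leaf. -/

namespace Pool.Agent.Lib.MP_727bc7_co

open scoped RealInnerProductSpace

variable {V : Type*} [NormedAddCommGroup V] [InnerProductSpace ℝ V] {F : Type}

/-- adjacency in the fork diagram -/
def tadj (y e i j : ℕ) : Prop :=
  (j = i + 1 ∧ j ≤ y + 1 + e) ∨ (i = j + 1 ∧ i ≤ y + 1 + e) ∨ (i = y ∧ j = y + 2 + e) ∨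
    (j = y ∧ i = y + 2 + e)

theorem prop_of_orth {d : ℕ} {α : ℕ → V} (hz : ∀ w, (∀ i < d, ⟪α i, w⟫ = 0) → w = 0) {L : ℕ}
    {w c : V} (hw : w ≠ 0) (h1 : ∀ z < d, z ≠ L → ⟪α z, w⟫ = 0)
    (h2 : ∀ z < d, z ≠ L → ⟪α z, c⟫ = 0) : ∃ t : ℝ, c = t • w := by
  have h3 : ⟪α L, w⟫ ≠ 0 := fun hc => hw (hz w (fun i hi => by
    by_cases h : i = L
    · rw [h, hc]
    · exact h1 i hi h))
  refine ⟨⟪α L, c⟫ / ⟪α L, w⟫, sub_eq_zero.1 (hz _ (fun i hi => ?_))⟩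
  rw [inner_sub_right, real_inner_smul_right]
  by_cases h : i = L
  · rw [h]; field_simp; ring
  · rw [h1 i hi h, h2 i hi h]; ring

namespace Geo

variable {𝒢 : Geo V F} {R : Set V}

theorem fork_count (hR : 𝒢.Roots R) (h0 : ∀ Φ, 𝒢.Mir R Φ 0) {y e : ℕ} (he : 𝒢.d = y + 3 + e)
    (α : ℕ → V) (hα : ∀ i < 𝒢.d, α i ∈ R)
    (hinj : ∀ i < 𝒢.d, ∀ j < 𝒢.d, α i = α j → i = j)
    (hadj : ∀ i < 𝒢.d, ∀ j < 𝒢.d, ⟪α i, α j⟫ ≠ 0 ↔ i = j ∨ tadj y e i j)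
    (hz : ∀ w, (∀ i < 𝒢.d, ⟪α i, w⟫ = 0) → w = 0)
    (hwall : ∀ Φ β, (∀ i < 𝒢.d, 𝒢.Pos Φ (α i)) → 𝒢.Wall R Φ β → ∃ i < 𝒢.d, β = α i)
    (hdom : ∀ Φ, ∃ Ψ, (∀ j, 𝒢.Mir R Ψ j → 𝒢.Mir R Φ j) ∧ ∀ i < 𝒢.d, 𝒢.Pos Ψ (α i))
    (Φ0 : F) (v : V) (hv : ∀ Φ, (∀ i < 𝒢.d, 𝒢.Pos Φ (α i)) → 𝒢.c 0 Φ = v)
    (hv0 : ∀ i < 𝒢.d, i ≠ 0 → ⟪α i, v⟫ = 0) (wl wc : V)
    (hwl : ∀ z < 𝒢.d, z ≠ y + 2 + e → ⟪α z, wl⟫ = 0)
    (hwc : ∀ z < 𝒢.d, z ≠ y + 1 + e → ⟪α z, wc⟫ = 0)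
    (hne : ⟪v, wl⟫ ^ 2 * ‖wc‖ ^ 2 ≠ ⟪v, wc⟫ ^ 2 * ‖wl‖ ^ 2) :
    Nat.card (Quotient 𝒢.setoid) = e + 2 := by
  have hsim : ∀ Φ, (∀ i < 𝒢.d, 𝒢.Pos Φ (α i)) → ∀ j < 𝒢.d, ∃ i < 𝒢.d, 𝒢.m R Φ j = α i :=
    fun Φ hΦ j hj => hwall Φ _ hΦ (hR.m_top h0 hj Φ).1
  have hsurj : ∀ Φ, (∀ i < 𝒢.d, 𝒢.Pos Φ (α i)) → ∀ i < 𝒢.d, ∃ l < 𝒢.d, 𝒢.m R Φ l = α i := by
    intro Φ hΦ i hi
    choose f hf1 hf2 using hsim Φ hΦ
    have h1 : Function.Injective (fun j : Fin 𝒢.d => (⟨f j j.2, hf1 j j.2⟩ : Fin 𝒢.d)) := by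
      intro a b hab
      have h2 : f a a.2 = f b b.2 := congrArg Fin.val hab
      exact Fin.ext (hR.m_inj h0 a.2 b.2 (by rw [hf2 a a.2, hf2 b b.2, h2]))
    obtain ⟨l, hl⟩ := Finite.injective_iff_surjective.1 h1 ⟨i, hi⟩
    have h2 : f l l.2 = i := congrArg Fin.val hl
    exact ⟨l, l.2, by rw [hf2 l l.2, h2]⟩
  have hm0 : ∀ Φ, (∀ i < 𝒢.d, 𝒢.Pos Φ (α i)) → 𝒢.m R Φ 0 = α 0 := by
    intro Φ hΦ
    obtain ⟨i, hi, h1⟩ := hsim Φ hΦ 0 (by omega)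
    have h2 := (hR.m_top h0 (show 0 < 𝒢.d by omega) Φ).2.1
    rw [h1, hv Φ hΦ] at h2
    rw [h1, show i = 0 from by_contra (fun hc => h2 (hv0 i hi hc))]
  have hsame : ∀ Φ Ψ, (∀ i < 𝒢.d, 𝒢.Pos Φ (α i)) → 𝒢.Same R Φ Ψ → ∀ i < 𝒢.d, 𝒢.Pos Ψ (α i) :=
    fun Φ Ψ hΦ hs i hi => (hs _ (hα i hi)).1 (hΦ i hi)
  have hW : 𝒢.Wy R := by
    refine ⟨hR, h0, fun Φ => ?_⟩
    obtain ⟨Ψ, h1, h2⟩ := hdom Φ
    refine h1 1 (by_contra fun hc => ?_)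
    have h3 := hR.m_swap h0 (j := 0) (by omega) hc 0 (by omega)
    rw [hm0 _ (hsame _ _ h2 (hR.same_r (by omega) hc)), ← hm0 Ψ h2] at h3
    have := hR.m_inj h0 (by omega) (by unfold sw; simp; omega) h3
    simp [sw] at this
  have hmy : ∀ Φ, (∀ i < 𝒢.d, 𝒢.Pos Φ (α i)) → ∀ j ≤ y, 𝒢.m R Φ j = α j := by
    intro Φ hΦ j
    induction j using Nat.strong_induction_on with
    | _ j ih =>
    intro hj
    by_cases hj0 : j = 0
    · rw [hj0]; exact hm0 Φ hΦ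
    obtain ⟨i, hi, ha⟩ := hW.earlier' (j := j) (by omega) (by omega) Φ
    obtain ⟨t, ht, h1⟩ := hsim Φ hΦ j (by omega)
    unfold Adj at ha
    rw [ih i hi (by omega), h1, hadj i (by omega) t ht] at ha
    have h2 : ¬ t < j := fun hc => by
      have := hR.m_inj h0 (by omega) (by omega) (h1.trans (ih t hc (by omega)).symm)
      omega
    rw [h1, show t = j by unfold tadj at ha; omega]
  have hu : ∀ j < y + 2, ∀ Φ, 𝒢.Mir R Φ j := by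
    intro j hj Φ
    obtain ⟨Ψ, h1, h2⟩ := hdom Φ
    refine h1 j (by_contra fun hc => ?_)
    obtain ⟨i, hi, ha⟩ := hW.not_mir_exists (by omega) hc
    obtain ⟨t, ht, h3⟩ := hsim Ψ h2 j (by omega)
    unfold Adj at ha
    rw [hmy Ψ h2 i (by omega), h3, hadj i (by omega) t ht] at ha
    have h4 : t ≤ i + 1 := by unfold tadj at ha; omega
    have := hR.m_inj h0 (by omega) (by omega) (h3.trans (hmy Ψ h2 t (by omega)).symm)
    omega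
  have hτ : ∀ t ≤ 𝒢.d, ∃ Φ, (∀ i < 𝒢.d, 𝒢.Pos Φ (α i)) ∧ ∀ x < t, 𝒢.m R Φ x = α x := by
    intro t
    induction t with
    | zero =>
      obtain ⟨Ψ, -, h2⟩ := hdom Φ0
      exact fun _ => ⟨Ψ, h2, fun x hx => by omega⟩
    | succ t ih =>
      intro ht
      obtain ⟨Φ, h1, h2⟩ := ih (by omega)
      by_cases ht0 : t = 0
      · exact ⟨Φ, h1, fun x hx => by rw [show x = 0 by omega]; exact hm0 Φ h1⟩
      obtain ⟨l, hl, h3⟩ := hsurj Φ h1 t (by omega)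
      have h4 : t ≤ l := by
        by_contra hc
        have := hinj l hl t (by omega) ((h2 l (by omega)).symm.trans h3)
        omega
      obtain ⟨p, hp, h5⟩ : ∃ p < t, tadj y e p t := by
        by_cases h6 : t = y + 2 + e
        · exact ⟨y, by omega, by unfold tadj; omega⟩
        · exact ⟨t - 1, by omega, by unfold tadj; omega⟩
      obtain ⟨Ψ, a1, -, a2⟩ := hW.move hp l h4 hl Φ (by
        unfold Adj
        rw [h2 p hp, h3, hadj p (by omega) t (by omega)]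
        exact Or.inr h5)
      refine ⟨Ψ, hsame _ _ h1 a1, fun x hx => ?_⟩
      rw [a2 x (by omega)]
      by_cases hxt : x = t
      · rw [hxt, ← h3]
        congr 1
        simp [cyc]
      · rw [← h2 x (by omega)]
        congr 1
        unfold cyc
        rw [if_pos (by omega)]
  obtain ⟨τ, hτ1, hτ2⟩ := hτ _ le_rfl
  obtain ⟨s, s0, s1, s2, s3⟩ := hW.fork he hu τ (by
    unfold Adj
    rw [hτ2 _ (by omega), hτ2 _ (by omega), hadj _ (by omega) _ (by omega)]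
    unfold tadj
    omega) (fun x h1 h2 => by
    unfold Adj
    rw [hτ2 _ (by omega), hτ2 _ (by omega), hadj _ (by omega) _ (by omega)]
    unfold tadj
    omega)
  obtain ⟨hfin, hle⟩ := card_le_of_cover s (e + 1) s1
  have hwl0 : wl ≠ 0 := by rintro rfl; simp at hne
  have hwc0 : wc ≠ 0 := by rintro rfl; simp at hne
  have key : ∀ q, 1 ≤ q → q ≤ e + 1 → ¬ 𝒢.Eqv τ (s q) := by
    rintro q h1 h2 ⟨g, -, hg⟩
    obtain ⟨b1, b2⟩ := s3 q h1 h2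
    obtain ⟨t, ht⟩ := prop_of_orth hz hwl0 hwl (c := 𝒢.c (y + 2 + e) τ) (fun z hz hz' => by
      rw [← hτ2 z hz]
      exact (hR.m_top h0 hz τ).2.2 _ (by omega) (by omega))
    obtain ⟨t', ht'⟩ := prop_of_orth hz hwc0 hwc (c := 𝒢.c (y + 2 + e) (s q)) (fun z hz hz' => by
      rw [← hτ2 z hz]
      exact b2 z hz hz')
    have c0 := hg 0 (by omega)
    have c1 := hg (y + 2 + e) (by omega)
    rw [b1, hv τ hτ1] at c0
    have c2 : t ≠ 0 := by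
      rintro rfl
      have := (hR.m_top h0 (show y + 2 + e < 𝒢.d by omega) τ).2.1
      rw [ht] at this
      simp at this
    have c3 := g.inner_map_map v (𝒢.c (y + 2 + e) τ)
    have c4 := g.norm_map (𝒢.c (y + 2 + e) τ)
    rw [← c1, ht, ht'] at c3 c4
    rw [← c0, real_inner_smul_right, real_inner_smul_right] at c3
    have c5 := congrArg (· ^ 2) c4
    simp only [norm_smul, mul_pow, Real.norm_eq_abs, sq_abs] at c5
    apply hne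
    apply mul_left_cancel₀ (pow_ne_zero 2 c2)
    calc t ^ 2 * (⟪v, wl⟫ ^ 2 * ‖wc‖ ^ 2) = (t * ⟪v, wl⟫) ^ 2 * ‖wc‖ ^ 2 := by ring
      _ = ⟪v, wc⟫ ^ 2 * (t' ^ 2 * ‖wc‖ ^ 2) := by rw [← c3]; ring
      _ = _ := by rw [c5]; ring
  have hge := card_ge (𝒢 := 𝒢) (Finset.range (e + 2)) (fun n Φ => Φ = s n)
    (fun p _ => ⟨_, rfl⟩) (by
      rintro p hp q hq _ _ rfl rfl h
      rw [Finset.mem_range] at hp hq
      rcases lt_trichotomy p q with h1 | h1 | h1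
      · exact absurd (s2 p q h1 (by omega) h) (key q (by omega) (by omega))
      · exact h1
      · exact absurd (s2 q p h1 (by omega) h.symm) (key p (by omega) (by omega)))
  rw [Finset.card_range] at hge
  omega

end Geo

end Pool.Agent.Lib.MP_727bc7_co
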