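import Mathlib

/-! Simple systems of unit vectors and the reflection groups they generate. -/

namespace Pool.Agent.Lib.MP_727bc7_co

open Module Submodule
open scoped RealInnerProductSpace

set_option linter.unusedSectionVars false

variable {V : Type} [NormedAddCommGroup V] [InnerProductSpace ℝ V] [FiniteDimensional ℝ V]
  {ι : Type} [Fintype ι]

/-- the reflection in the hyperplane orthogonal to a vector -/
noncomputable def refl (a : V) : V ≃ₗᵢ[ℝ] V := (ℝ ∙ a)ᗮ.reflection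

theorem refl_apply {a : V} (h : ‖a‖ = 1) (v : V) : refl a v = v - (2 * ⟪a, v⟫) • a := by
  unfold refl
  rw [reflection_orthogonal_apply, reflection_singleton_apply, h]
  simp [two_smul, two_mul, add_smul]

theorem refl_refl (a v : V) : refl a (refl a v) = v := reflection_reflection _ v

theorem refl_conj (g : V ≃ₗᵢ[ℝ] V) {a : V} (h : ‖a‖ = 1) (v : V) :
    refl (g a) (g v) = g (refl a v) := by
  rw [refl_apply (by rw [g.norm_map, h]), refl_apply h, g.inner_map_map, map_sub, map_smul]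

/-- a simple system -/
structure Sim (α : ι → V) (ρ : V) : Prop where
  norm : ∀ i, ‖α i‖ = 1
  int : ∀ i j, ∃ n : ℤ, 2 * ⟪α i, α j⟫ = n
  obt : ∀ i j, i ≠ j → ⟪α i, α j⟫ ≤ 0
  half : ∀ i, 0 < ⟪α i, ρ⟫
  card : Fintype.card ι = finrank ℝ V

/-- the action of a word -/
noncomputable def wact (α : ι → V) (l : List ι) : V ≃ₗᵢ[ℝ] V := (l.map (fun i => refl (α i))).prod

/-- the orbit of a vector -/
def worb (α : ι → V) (v : V) : Set V := {x | ∃ l, x = wact α l v}

/-- the roots -/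
def roots (α : ι → V) : Set V := {β | ∃ i, β ∈ worb α (α i)}

/-- the positive cone -/
def cone (α : ι → V) : Set V := {x | ∃ a : ι → ℝ, (∀ i, 0 ≤ a i) ∧ x = ∑ i, a i • α i}

variable {α : ι → V} {ρ : V}

theorem wact_nil (v : V) : wact α [] v = v := rfl

theorem wact_cons (i : ι) (l : List ι) (v : V) : wact α (i :: l) v = refl (α i) (wact α l v) := rfl

theorem wact_append (l l' : List ι) (v : V) : wact α (l ++ l') v = wact α l (wact α l' v) := by
  simp [wact]

theorem wact_reverse (l : List ι) (v : V) : wact α l.reverse (wact α l v) = v := by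
  induction l with
  | nil => rfl
  | cons i l ih =>
    rw [List.reverse_cons, wact_append, wact_cons, wact_cons, wact_nil, refl_refl, ih]

theorem wact_symm (l : List ι) (v : V) : (wact α l).symm v = wact α l.reverse v := by
  rw [← wact_reverse (α := α) l ((wact α l).symm v), LinearIsometryEquiv.apply_symm_apply]

theorem self_mem_orb (v : V) : v ∈ worb α v := ⟨[], rfl⟩

theorem wact_mem_orb (l : List ι) {v x : V} (h : x ∈ worb α v) : wact α l x ∈ worb α v := by
  obtain ⟨l', rfl⟩ := h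
  exact ⟨l ++ l', (wact_append _ _ _).symm⟩

theorem wact_mem_roots (l : List ι) {x : V} (h : x ∈ roots α) : wact α l x ∈ roots α := by
  obtain ⟨i, h⟩ := h
  exact ⟨i, wact_mem_orb l h⟩

theorem simple_mem_roots (i : ι) : α i ∈ roots α := ⟨i, self_mem_orb _⟩

theorem norm_of_orb {v x : V} (h : x ∈ worb α v) : ‖x‖ = ‖v‖ := by
  obtain ⟨l, rfl⟩ := h
  exact (wact α l).norm_map v

theorem Sim.root_norm (h : Sim α ρ) {β : V} (hβ : β ∈ roots α) : ‖β‖ = 1 := by
  obtain ⟨i, hi⟩ := hβ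
  rw [norm_of_orb hi, h.norm]

theorem Sim.inner_self (h : Sim α ρ) (i : ι) : ⟪α i, α i⟫ = 1 := by
  rw [real_inner_self_eq_norm_sq, h.norm]
  norm_num

theorem Sim.root_refl (h : Sim α ρ) {β : V} (hβ : β ∈ roots α) :
    ∃ l, ∀ v, wact α l v = v - (2 * ⟪β, v⟫) • β := by
  have h1 := h.root_norm hβ
  obtain ⟨i, l, rfl⟩ := hβ
  refine ⟨l ++ i :: l.reverse, fun v => ?_⟩
  rw [wact_append, wact_cons, ← refl_conj _ (h.norm i), ← wact_symm,
    LinearIsometryEquiv.apply_symm_apply, refl_apply h1]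

theorem Sim.root_neg (h : Sim α ρ) {β : V} (hβ : β ∈ roots α) : -β ∈ roots α := by
  obtain ⟨l, hl⟩ := h.root_refl hβ
  have := wact_mem_roots l hβ
  rw [hl, real_inner_self_eq_norm_sq, h.root_norm hβ] at this
  convert this using 1
  module

theorem parts (α : ι → V) (a : ι → ℝ) :
    ∑ i, a i • α i = ∑ i, max (a i) 0 • α i - ∑ i, max (-a i) 0 • α i := by
  rw [← Finset.sum_sub_distrib]
  refine Finset.sum_congr rfl (fun i _ => ?_)
  rw [← sub_smul]
  congr 1
  rcases le_total (a i) 0 with h1 | h1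
  · rw [max_eq_right h1, max_eq_left (by linarith)]; ring
  · rw [max_eq_left h1, max_eq_right (by linarith)]; ring

theorem Sim.parts_inner (h : Sim α ρ) (a : ι → ℝ) :
    ⟪∑ i, max (a i) 0 • α i, ∑ i, max (-a i) 0 • α i⟫ ≤ 0 := by
  rw [sum_inner]
  refine Finset.sum_nonpos (fun i _ => ?_)
  rw [inner_sum]
  refine Finset.sum_nonpos (fun j _ => ?_)
  rw [real_inner_smul_left, real_inner_smul_right]
  by_cases hij : i = j
  · subst hij
    rcases le_total (a i) 0 with h1 | h1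
    · rw [max_eq_right h1]; simp
    · rw [max_eq_right (show -a i ≤ 0 by linarith)]; simp
  · exact mul_nonpos_of_nonneg_of_nonpos (le_max_right _ _)
      (mul_nonpos_of_nonneg_of_nonpos (le_max_right _ _) (h.obt i j hij))

theorem Sim.copos (h : Sim α ρ) (a : ι → ℝ) (ha : ∀ i, 0 ≤ a i) (h0 : ∑ i, a i • α i = 0) (i : ι) :
    a i = 0 := by
  have h1 : ∑ l, a l * ⟪α l, ρ⟫ = 0 := by
    have := congrArg (fun v => ⟪v, ρ⟫) h0
    simpa [sum_inner, real_inner_smul_left] using this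
  rw [Finset.sum_eq_zero_iff_of_nonneg (fun l _ => mul_nonneg (ha l) (h.half l).le)] at h1
  exact (mul_eq_zero.1 (h1 i (Finset.mem_univ _))).resolve_right (h.half i).ne'

theorem Sim.indep (h : Sim α ρ) (a : ι → ℝ) (h0 : ∑ i, a i • α i = 0) (i : ι) : a i = 0 := by
  have h1 := h.parts_inner a
  rw [parts, sub_eq_zero] at h0
  have h2 : ∑ i, max (-a i) 0 • α i = 0 := by
    rw [h0] at h1
    exact real_inner_self_nonpos.1 h1
  have a1 := h.copos _ (fun i => le_max_right _ _) h2 i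
  have a2 := h.copos _ (fun i => le_max_right _ _) (h0.trans h2) i
  have b1 := le_max_left (-a i) 0
  have b2 := le_max_left (a i) 0
  linarith

theorem Sim.eq_zero (h : Sim α ρ) {w : V} (hw : ∀ i, ⟪α i, w⟫ = 0) : w = 0 := by
  have h1 := (Fintype.linearIndependent_iff.2 h.indep).span_eq_top_of_card_eq_finrank' h.card
  obtain ⟨c, hc⟩ := (mem_span_range_iff_exists_fun ℝ (v := α) (x := w)).1 (by rw [h1]; trivial)
  rw [← inner_self_eq_zero (𝕜 := ℝ)]
  conv_lhs => enter [2]; rw [← hc]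
  simp [sum_inner, real_inner_smul_left, hw]

theorem Sim.lat_inner (h : Sim α ρ) {x y : V} (hx : x ∈ span ℤ (Set.range α))
    (hy : y ∈ span ℤ (Set.range α)) : ∃ n : ℤ, 2 * ⟪x, y⟫ = n := by
  obtain ⟨a, rfl⟩ := (mem_span_range_iff_exists_fun ℤ).1 hx
  obtain ⟨b, rfl⟩ := (mem_span_range_iff_exists_fun ℤ).1 hy
  choose n hn using h.int
  refine ⟨∑ i, ∑ j, a i * b j * n i j, ?_⟩
  rw [sum_inner, Finset.mul_sum]
  push_cast
  refine Finset.sum_congr rfl (fun i _ => ?_)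
  rw [inner_sum, Finset.mul_sum]
  refine Finset.sum_congr rfl (fun j _ => ?_)
  rw [← Int.cast_smul_eq_zsmul ℝ, ← Int.cast_smul_eq_zsmul ℝ, real_inner_smul_left,
    real_inner_smul_right, ← hn]
  ring

theorem Sim.lat_norm (h : Sim α ρ) {x : V} (hx : x ∈ span ℤ (Set.range α)) :
    ∃ n : ℤ, ⟪x, x⟫ = n := by
  induction hx using span_induction with
  | mem x hx =>
    obtain ⟨i, rfl⟩ := hx
    refine ⟨1, ?_⟩
    rw [real_inner_self_eq_norm_sq, h.norm]
    norm_num
  | zero => exact ⟨0, by simp⟩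
  | add x y hx hy h1 h2 =>
    obtain ⟨n1, h1⟩ := h1
    obtain ⟨n2, h2⟩ := h2
    obtain ⟨n3, h3⟩ := h.lat_inner hx hy
    refine ⟨n1 + n2 + n3, ?_⟩
    rw [real_inner_add_add_self, h1, h2, h3]
    push_cast
    ring
  | smul a x hx h1 =>
    obtain ⟨n, h1⟩ := h1
    refine ⟨a * a * n, ?_⟩
    rw [← Int.cast_smul_eq_zsmul ℝ, real_inner_smul_left, real_inner_smul_right, h1]
    push_cast
    ring

theorem Sim.lat_ge (h : Sim α ρ) {x : V} (hx : x ∈ span ℤ (Set.range α)) (h0 : x ≠ 0) :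
    1 ≤ ⟪x, x⟫ := by
  obtain ⟨n, hn⟩ := h.lat_norm hx
  have h1 : 0 < ⟪x, x⟫ := real_inner_self_pos.2 h0
  rw [hn] at h1 ⊢
  exact_mod_cast h1

theorem Sim.root_lat (h : Sim α ρ) {β : V} (hβ : β ∈ roots α) : β ∈ span ℤ (Set.range α) := by
  obtain ⟨i, l, rfl⟩ := hβ
  induction l with
  | nil => exact subset_span ⟨i, rfl⟩
  | cons j l ih =>
    have hj : α j ∈ span ℤ (Set.range α) := subset_span ⟨j, rfl⟩
    obtain ⟨n, hn⟩ := h.lat_inner hj ih
    rw [wact_cons, refl_apply (h.norm j), hn, Int.cast_smul_eq_zsmul]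
    exact sub_mem ih (smul_mem _ _ hj)

theorem Sim.root_sign (h : Sim α ρ) {β : V} (hβ : β ∈ roots α) : β ∈ cone α ∨ -β ∈ cone α := by
  obtain ⟨a, ha⟩ := (mem_span_range_iff_exists_fun ℤ).1 (h.root_lat hβ)
  have h1 := h.parts_inner (fun i => (a i : ℝ))
  have h2 := parts α (fun i => (a i : ℝ))
  simp only [Int.cast_smul_eq_zsmul, ha] at h2
  have hp : ∑ i, max (a i : ℝ) 0 • α i ∈ span ℤ (Set.range α) := by
    refine sum_mem (fun i _ => ?_)
    rw [show max (a i : ℝ) 0 = ((max (a i) 0 : ℤ) : ℝ) by push_cast; rfl, Int.cast_smul_eq_zsmul]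
    exact smul_mem _ _ (subset_span ⟨i, rfl⟩)
  have hq : ∑ i, max (-a i : ℝ) 0 • α i ∈ span ℤ (Set.range α) := by
    refine sum_mem (fun i _ => ?_)
    rw [show max (-a i : ℝ) 0 = ((max (-a i) 0 : ℤ) : ℝ) by push_cast; rfl,
      Int.cast_smul_eq_zsmul]
    exact smul_mem _ _ (subset_span ⟨i, rfl⟩)
  by_cases hp0 : ∑ i, max (a i : ℝ) 0 • α i = 0
  · right
    exact ⟨fun i => max (-a i : ℝ) 0, fun i => le_max_right _ _, by rw [h2, hp0]; simp⟩
  by_cases hq0 : ∑ i, max (-a i : ℝ) 0 • α i = 0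
  · left
    exact ⟨fun i => max (a i : ℝ) 0, fun i => le_max_right _ _, by rw [h2, hq0]; simp⟩
  exfalso
  have a1 := h.lat_ge hp hp0
  have a2 := h.lat_ge hq hq0
  have a3 : ⟪β, β⟫ = 1 := by
    rw [real_inner_self_eq_norm_sq, h.root_norm hβ]
    norm_num
  rw [h2, real_inner_sub_sub_self] at a3
  linarith

theorem Sim.finite_of_inner (h : Sim α ρ) (T : Set V) (U : Set ℝ) (hU : U.Finite)
    (hT : ∀ x ∈ T, ∀ i, ⟪α i, x⟫ ∈ U) : T.Finite := by
  refine Set.Finite.of_finite_image (f := fun x i => ⟪α i, x⟫)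
    ((Set.Finite.pi' (fun _ : ι => hU)).subset ?_) (fun x _ y _ hxy => ?_)
  · rintro _ ⟨x, hx, rfl⟩ i
    exact hT x hx i
  · refine sub_eq_zero.1 (h.eq_zero (fun i => ?_))
    rw [inner_sub_right, sub_eq_zero]
    exact congrFun hxy i

theorem Sim.roots_finite (h : Sim α ρ) : (roots α).Finite := by
  refine h.finite_of_inner _ ((fun n : ℤ => (n : ℝ) / 2) '' Set.Icc (-2) 2)
    ((Set.finite_Icc _ _).image _) (fun x hx i => ?_)
  obtain ⟨n, hn⟩ := h.lat_inner (subset_span ⟨i, rfl⟩) (h.root_lat hx)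
  have h1 := abs_real_inner_le_norm (α i) x
  rw [h.norm, h.root_norm hx, abs_le] at h1
  refine ⟨n, ⟨?_, ?_⟩, by simp only [← hn]; ring⟩
  · have : (-2 : ℝ) ≤ n := by linarith
    exact_mod_cast this
  · have : (n : ℝ) ≤ 2 := by linarith
    exact_mod_cast this

theorem Sim.orb_finite (h : Sim α ρ) (v : V) : (worb α v).Finite := by
  refine h.finite_of_inner _ ((fun β => ⟪β, v⟫) '' roots α) (h.roots_finite.image _) ?_
  rintro _ ⟨l, rfl⟩ i
  refine ⟨wact α l.reverse (α i), wact_mem_roots _ (simple_mem_roots i), ?_⟩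
  simp only
  rw [← (wact α l).inner_map_map, ← wact_symm, LinearIsometryEquiv.apply_symm_apply]

theorem Sim.ascend (h : Sim α ρ) {x : V} {i : ι} (hi : ⟪α i, x⟫ < 0) :
    ⟪x, ρ⟫ < ⟪refl (α i) x, ρ⟫ := by
  rw [refl_apply (h.norm i), inner_sub_left, real_inner_smul_left]
  have := h.half i
  nlinarith

theorem Sim.exists_dom (h : Sim α ρ) (v : V) : ∃ l, ∀ i, 0 ≤ ⟪α i, wact α l v⟫ := by
  obtain ⟨x, hx, hmax⟩ := Set.exists_max_image _ (fun x => ⟪x, ρ⟫) (h.orb_finite v)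
    ⟨v, self_mem_orb v⟩
  obtain ⟨l, rfl⟩ := hx
  refine ⟨l, fun i => ?_⟩
  by_contra hc
  exact absurd (hmax _ ⟨i :: l, rfl⟩) (not_le.2 (h.ascend (not_le.1 hc)))

theorem cone_inner {x y : V} (hx : x ∈ cone α) (hy : ∀ i, 0 ≤ ⟪α i, y⟫) : 0 ≤ ⟪x, y⟫ := by
  obtain ⟨a, ha, rfl⟩ := hx
  rw [sum_inner]
  exact Finset.sum_nonneg (fun i _ => by
    rw [real_inner_smul_left]; exact mul_nonneg (ha i) (hy i))

theorem Sim.eq_simple (h : Sim α ρ) {β : V} (hβ : β ∈ roots α) (h1 : β ∈ cone α) {i : ι}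
    (h2 : -refl (α i) β ∈ cone α) : β = α i := by
  classical
  obtain ⟨a, ha, e1⟩ := h1
  obtain ⟨b, hb, e2⟩ := h2
  rw [refl_apply (h.norm i)] at e2
  have h3 := h.indep (fun j => a j + b j - if j = i then 2 * ⟪α i, β⟫ else 0) (by
    simp only [sub_smul, add_smul, Finset.sum_sub_distrib, Finset.sum_add_distrib, ← e1, ← e2,
      ite_smul, zero_smul, Finset.sum_ite_eq', Finset.mem_univ, if_true]
    abel)
  have h4 : β = a i • α i := by
    rw [e1]
    refine Finset.sum_eq_single i (fun j _ hj => ?_) (by simp)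
    have := h3 j
    simp only [hj, if_false] at this
    have h5 : a j = 0 := by linarith [ha j, hb j]
    rw [h5, zero_smul]
  have h5 := h.root_norm hβ
  rw [h4, norm_smul, h.norm, Real.norm_of_nonneg (ha i), mul_one] at h5
  rw [h4, h5, one_smul]

theorem Sim.exchange (h : Sim α ρ) (i : ι) (l : List ι) (hl : -wact α l (α i) ∈ cone α) :
    ∃ l' : List ι, l'.length + 1 = l.length ∧ ∀ v, wact α l (refl (α i) v) = wact α l' v := by
  induction l with
  | nil =>
    have := cone_inner hl (fun j => (h.half j).le)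
    rw [wact_nil, inner_neg_left] at this
    linarith [h.half i]
  | cons j l ih =>
    have hr := wact_mem_roots l (simple_mem_roots (α := α) i)
    rcases h.root_sign hr with h1 | h1
    · refine ⟨l, rfl, fun v => ?_⟩
      rw [wact_cons, ← refl_conj _ (h.norm i), h.eq_simple hr h1 hl, refl_refl]
    · obtain ⟨l', h2, h3⟩ := ih h1
      exact ⟨j :: l', by simp [← h2], fun v => by rw [wact_cons, h3, wact_cons]⟩

theorem Sim.sub_mem_cone (h : Sim α ρ) {v : V} (hv : ∀ i, 0 ≤ ⟪α i, v⟫) (n : ℕ) :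
    ∀ l : List ι, l.length = n → v - wact α l v ∈ cone α := by
  induction n using Nat.strong_induction_on with
  | _ n ih =>
  intro l hl
  rcases List.eq_nil_or_concat l with rfl | ⟨l0, i, rfl⟩
  · exact ⟨0, fun _ => le_rfl, by simp [wact_nil]⟩
  rw [List.concat_eq_append] at hl ⊢
  rw [wact_append, wact_cons, wact_nil]
  simp only [List.length_append, List.length_singleton] at hl
  rcases h.root_sign (wact_mem_roots l0 (simple_mem_roots (α := α) i)) with h1 | h1
  · obtain ⟨a, ha, e1⟩ := ih _ (by omega) l0 rfl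
    obtain ⟨b, hb, e2⟩ := h1
    refine ⟨fun j => a j + 2 * ⟪α i, v⟫ * b j,
      fun j => add_nonneg (ha j) (mul_nonneg (by linarith [hv i]) (hb j)), ?_⟩
    simp only [add_smul, Finset.sum_add_distrib, mul_smul (2 * ⟪α i, v⟫), ← Finset.smul_sum,
      ← e1, ← e2]
    rw [refl_apply (h.norm i), map_sub, map_smul]
    abel
  · obtain ⟨l', h2, h3⟩ := h.exchange i l0 h1
    rw [h3]
    exact ih _ (by omega) l' rfl

theorem Sim.dom_unique (h : Sim α ρ) {v x : V} (hv : ∀ i, 0 ≤ ⟪α i, v⟫) (hx : x ∈ worb α v)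
    (hx' : ∀ i, 0 ≤ ⟪α i, x⟫) : x = v := by
  have h1 := norm_of_orb hx
  obtain ⟨l, rfl⟩ := hx
  have h2 := cone_inner (h.sub_mem_cone hv _ l rfl) hx'
  rw [inner_sub_left, real_inner_self_eq_norm_sq, h1] at h2
  have h3 := norm_sub_sq_real v (wact α l v)
  rw [h1] at h3
  have h4 : ‖v - wact α l v‖ ^ 2 = 0 := le_antisymm (by linarith) (sq_nonneg _)
  exact (sub_eq_zero.1 (norm_eq_zero.1 (pow_eq_zero_iff two_ne_zero |>.1 h4))).symm

theorem Sim.second (h : Sim α ρ) {v : V} {i0 : ι} (hv : ∀ i, 0 ≤ ⟪α i, v⟫)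
    (hv0 : ∀ i, i ≠ i0 → ⟪α i, v⟫ = 0) {y : V} (hy : ∀ i, 0 ≤ ⟪α i, y⟫) {x : V}
    (hx : x ∈ worb α v) (hxv : x ≠ v) : ⟪x, y⟫ ≤ ⟪refl (α i0) v, y⟫ := by
  by_contra hc
  obtain ⟨z, ⟨hz1, hz2, hz3⟩, hmax⟩ := Set.exists_max_image
    {z | z ∈ worb α v ∧ z ≠ v ∧ ⟪refl (α i0) v, y⟫ < ⟪z, y⟫} (fun x => ⟪x, ρ⟫)
    ((h.orb_finite v).subset (fun z hz => hz.1)) ⟨x, hx, hxv, not_le.1 hc⟩
  obtain ⟨i, hi⟩ : ∃ i, ⟪α i, z⟫ < 0 := by
    by_contra h1
    push Not at h1
    exact hz2 (h.dom_unique hv hz1 h1)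
  by_cases h1 : refl (α i) z = v
  · have h2 : z = refl (α i) v := by rw [← h1, refl_refl]
    by_cases h3 : i = i0
    · rw [h2, h3] at hz3
      exact lt_irrefl _ hz3
    · rw [refl_apply (h.norm i), hv0 i h3] at h2
      exact hz2 (by simpa using h2)
  · refine absurd (hmax _ ⟨wact_mem_orb [i] hz1, h1, hz3.trans_le ?_⟩) (not_le.2 (h.ascend hi))
    change _ ≤ ⟪refl (α i) z, y⟫
    rw [refl_apply (h.norm i), inner_sub_left, real_inner_smul_left]
    have := hy i
    nlinarith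

end Pool.Agent.Lib.MP_727bc7_co
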