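import Pool.Agent.Lib.MP_727bc7_co.Config
import Pool.Agent.Lib.MP_727bc7_co.Defs
import Pool.Agent.Lib.MP_727bc7_co.ForkCount
import Pool.Agent.Lib.MP_727bc7_co.Simple

-- part Pool.Agent.Lib.MP_727bc7_co.Bridge
section

/-! From convex hulls to point configurations. -/

namespace Pool.Agent.Lib.MP_727bc7_co

open Module Submodule
open scoped RealInnerProductSpace Pointwise

section Hull

variable {V : Type} [NormedAddCommGroup V] [InnerProductSpace ℝ V] {S : Finset V}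

theorem hom_comb (A : Finset V) (w : V → ℝ) (f : V → V) (hw : ∑ y ∈ A, w y = 1) :
    hom (∑ y ∈ A, w y • f y) = ∑ y ∈ A, w y • hom (f y) := by
  have : ∀ B : Finset V, ∑ y ∈ B, w y • hom (f y) =
      WithLp.toLp 2 (∑ y ∈ B, w y • f y, ∑ y ∈ B, w y) := by
    classical
    intro B
    induction B using Finset.induction_on with
    | empty => simp; rfl
    | insert a s ha ih =>
      rw [Finset.sum_insert ha, Finset.sum_insert ha, Finset.sum_insert ha, ih]
      unfold hom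
      rw [← WithLp.toLp_smul, ← WithLp.toLp_add]
      simp
  rw [this, hw]
  rfl

theorem Defines.hull_nonneg {φ : WithLp 2 (V × ℝ) →ₗ[ℝ] ℝ} {A : Finset V}
    (h : Defines hom S φ A) {x : V} (hx : x ∈ convexHull ℝ (S : Set V)) : 0 ≤ φ (hom x) := by
  obtain ⟨w, h0, h1, rfl⟩ := Finset.mem_convexHull'.1 hx
  rw [hom_comb S w (fun y => y) h1, map_sum]
  refine Finset.sum_nonneg (fun y hy => ?_)
  rw [map_smul, smul_eq_mul]
  exact mul_nonneg (h0 y hy) (h.1 y hy)

theorem Defines.hull {φ : WithLp 2 (V × ℝ) →ₗ[ℝ] ℝ} {A : Finset V}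
    (h : Defines hom S φ A) (x : V) :
    x ∈ convexHull ℝ (A : Set V) ↔ x ∈ convexHull ℝ (S : Set V) ∧ φ (hom x) = 0 := by
  have hAS : A ⊆ S := IsFace.subset ⟨φ, h⟩
  constructor
  · intro hx
    refine ⟨convexHull_mono (by exact_mod_cast hAS) hx, ?_⟩
    obtain ⟨w, h0, h1, rfl⟩ := Finset.mem_convexHull'.1 hx
    rw [hom_comb A w (fun y => y) h1, map_sum]
    exact Finset.sum_eq_zero (fun y hy => by rw [map_smul, h.zero hy, smul_zero])
  · rintro ⟨hx, hφ⟩
    obtain ⟨w, h0, h1, rfl⟩ := Finset.mem_convexHull'.1 hx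
    rw [hom_comb S w (fun y => y) h1, map_sum, Finset.sum_eq_zero_iff_of_nonneg (fun y hy => by
      rw [map_smul, smul_eq_mul]
      exact mul_nonneg (h0 y hy) (h.1 y hy))] at hφ
    have hz : ∀ y ∈ S, y ∉ A → w y = 0 := by
      intro y hy hyA
      have := hφ y hy
      rw [map_smul, smul_eq_mul] at this
      exact (mul_eq_zero.1 this).resolve_right (h.pos hy hyA).ne'
    refine Finset.mem_convexHull'.2 ⟨w, fun y hy => h0 y (hAS hy), ?_, ?_⟩
    · rw [← h1]
      exact Finset.sum_subset hAS hz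
    · exact Finset.sum_subset hAS (fun y hy hyA => by rw [hz y hy hyA, zero_smul])

/-- the inclusion of the hyperplane -/
def inl0 : V →ₗ[ℝ] WithLp 2 (V × ℝ) :=
  (WithLp.linearEquiv 2 ℝ (V × ℝ)).symm.toLinearMap ∘ₗ LinearMap.inl ℝ V ℝ

theorem hom_eq (x : V) : hom x = inl0 x + hom 0 := by
  unfold hom
  rw [toLp_split, one_smul]
  rfl

theorem inl0_inj : Function.Injective (inl0 (V := V)) := fun _ _ h =>
  congrArg (fun x => (WithLp.ofLp x).1) h

/-- an affine functional in homogeneous form -/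
def aff (l : V →ₗ[ℝ] ℝ) (t : ℝ) : WithLp 2 (V × ℝ) →ₗ[ℝ] ℝ :=
  t • WithLp.sndₗ 2 ℝ V ℝ - l ∘ₗ WithLp.fstₗ 2 ℝ V ℝ

theorem aff_hom (l : V →ₗ[ℝ] ℝ) (t : ℝ) (x : V) : aff l t (hom x) = t - l x := by
  simp [aff, hom]

theorem face_of_exposed {F : Set V} (h : IsExposed ℝ (convexHull ℝ (S : Set V)) F)
    (hF : F.Nonempty) : ∃ A, IsFace hom S A ∧ F = convexHull ℝ (A : Set V) := by
  classical
  obtain ⟨l, hl⟩ := h hF
  obtain ⟨x0, hx0⟩ := hF
  rw [hl] at hx0
  have hD : Defines hom S (aff l.toLinearMap (l x0))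
      (S.filter (fun s => aff l.toLinearMap (l x0) (hom s) = 0)) := by
    refine ⟨fun s hs => ?_, fun s => Finset.mem_filter⟩
    rw [aff_hom]
    exact sub_nonneg.2 (hx0.2 s (subset_convexHull ℝ _ hs))
  refine ⟨_, ⟨_, hD⟩, ?_⟩
  ext x
  rw [hD.hull, hl, aff_hom]
  refine and_congr_right (fun hx => ⟨fun h1 => ?_, fun h1 y hy => ?_⟩)
  · exact sub_eq_zero.2 (le_antisymm (h1 x0 hx0.1) (hx0.2 x hx))
  · have h2 : l x0 = l x := sub_eq_zero.1 h1
    rw [← h2]
    exact hx0.2 y hy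

theorem hull_subset {A B : Finset V} (hA : A ⊆ S) (hB : IsFace hom S B)
    (h : convexHull ℝ (A : Set V) ⊆ convexHull ℝ (B : Set V)) : A ⊆ B := by
  obtain ⟨φ, hφ⟩ := hB
  intro s hs
  exact (hφ.2 s).2 ⟨hA hs, ((hφ.hull s).1 (h (subset_convexHull ℝ _ hs))).2⟩

theorem isometry_comb (g : V ≃ᵢ V) (A : Finset V) (w : V → ℝ) (hw : ∑ y ∈ A, w y = 1) :
    g (∑ y ∈ A, w y • y) = ∑ y ∈ A, w y • g y := by
  have h : ∀ x, g x = g.toRealLinearIsometryEquiv x + g 0 := fun x => by simp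
  rw [h, map_sum]
  conv_rhs => rw [Finset.sum_congr rfl (fun y _ => by rw [h y, smul_add]), Finset.sum_add_distrib,
    ← Finset.sum_smul, hw, one_smul]
  simp only [map_smul]

theorem Config.isometry_mem (hC : Config S) (g : V ≃ᵢ V)
    (hg : g '' convexHull ℝ (S : Set V) = convexHull ℝ (S : Set V)) {s : V} (hs : s ∈ S) :
    g s ∈ S := by
  by_contra hc
  obtain ⟨φ, hφ⟩ := hC.vert s hs
  have h1 : g s ∈ convexHull ℝ (S : Set V) := by
    rw [← hg]
    exact ⟨s, subset_convexHull ℝ _ hs, rfl⟩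
  obtain ⟨w, h0, hw, h2⟩ := Finset.mem_convexHull'.1 h1
  have h3 : s = ∑ y ∈ S, w y • g.symm y := by
    rw [← isometry_comb g.symm S w hw, h2, g.symm_apply_apply]
  have hpos : ∀ y ∈ S, 0 < φ (hom (g.symm y)) := by
    intro y hy
    have h4 : g.symm y ∈ convexHull ℝ (S : Set V) := by
      have : y ∈ g '' convexHull ℝ (S : Set V) := by rw [hg]; exact subset_convexHull ℝ _ hy
      obtain ⟨z, hz, rfl⟩ := this
      rwa [g.symm_apply_apply]
    refine lt_of_le_of_ne (hφ.hull_nonneg h4) (fun h5 => hc ?_)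
    have h6 := (hφ.hull _).2 ⟨h4, h5.symm⟩
    rw [Finset.coe_singleton, convexHull_singleton, Set.mem_singleton_iff] at h6
    rw [← h6, g.apply_symm_apply]
    exact hy
  have h4 := hφ.zero (Finset.mem_singleton_self s)
  rw [h3, hom_comb S w _ hw, map_sum, Finset.sum_eq_zero_iff_of_nonneg (fun y hy => by
      rw [map_smul, smul_eq_mul]
      exact mul_nonneg (h0 y hy) (hpos y hy).le)] at h4
  have h5 : ∑ y ∈ S, w y = 0 := Finset.sum_eq_zero (fun y hy => by
    have := h4 y hy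
    rw [map_smul, smul_eq_mul] at this
    exact (mul_eq_zero.1 this).resolve_right (hpos y hy).ne')
  rw [hw] at h5
  exact one_ne_zero h5

theorem image_hull (g : V ≃ₗᵢ[ℝ] V) (A : Finset V) :
    g '' convexHull ℝ (A : Set V) = convexHull ℝ (A.map g.toEquiv.toEmbedding : Set V) := by
  rw [Finset.coe_map]
  exact g.toLinearEquiv.toLinearMap.image_convexHull _

variable [FiniteDimensional ℝ V]

theorem Config.isometry (hC : Config S) (g : V ≃ᵢ V)
    (hg : g '' convexHull ℝ (S : Set V) = convexHull ℝ (S : Set V)) :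
    ∃ g' ∈ symGroup S, ∀ x, g x = g' x := by
  classical
  have hg' : g.symm '' convexHull ℝ (S : Set V) = convexHull ℝ (S : Set V) := by
    conv_lhs => rw [← hg]
    rw [Set.image_image]
    simp
  have himg : S.image g = S := by
    refine Finset.eq_of_subset_of_card_le (fun s hs => ?_) ?_
    · obtain ⟨t, ht, rfl⟩ := Finset.mem_image.1 hs
      exact hC.isometry_mem g hg ht
    · rw [Finset.card_image_of_injective _ g.injective]
  have h3 : (S.card : ℝ) ≠ 0 := by exact_mod_cast hC.nonempty.card_pos.ne'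
  have h0 : g 0 = 0 := by
    have := isometry_comb g S (fun _ => (S.card : ℝ)⁻¹) (by simp [h3])
    rw [← Finset.smul_sum, ← Finset.smul_sum, hC.sum_zero, smul_zero] at this
    rw [this, ← Finset.sum_image (f := fun x => x) (fun a _ b _ h => g.injective h), himg,
      hC.sum_zero, smul_zero]
  have h1 : ∀ x, g x = g.toRealLinearIsometryEquiv x := fun x => by simp [h0]
  refine ⟨_, fun s => ?_, h1⟩
  rw [← h1]
  refine ⟨fun hs => ?_, hC.isometry_mem g hg⟩
  simpa using hC.isometry_mem g.symm hg' hs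

theorem exposed_of_face {A : Finset V} (h : IsFace hom S A) :
    IsExposed ℝ (convexHull ℝ (S : Set V)) (convexHull ℝ (A : Set V)) := by
  obtain ⟨φ, hφ⟩ := h
  rintro ⟨x0, hx0⟩
  refine ⟨LinearMap.toContinuousLinearMap (-(φ ∘ₗ inl0)), ?_⟩
  ext x
  have e : ∀ y, LinearMap.toContinuousLinearMap (-(φ ∘ₗ inl0)) y = φ (hom 0) - φ (hom y) := by
    intro y
    rw [hom_eq y, map_add]
    simp
  rw [hφ.hull]
  refine and_congr_right (fun hx => ⟨fun h1 y hy => ?_, fun h1 => ?_⟩)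
  · rw [e, e, h1]
    have := hφ.hull_nonneg hy
    linarith
  · have h2 := (hφ.hull x0).1 hx0
    have h3 := h1 x0 h2.1
    rw [e, e, h2.2] at h3
    have := hφ.hull_nonneg hx
    linarith

theorem rk_hull {A : Finset V} (hA : A.Nonempty) :
    finrank ℝ (vectorSpan ℝ (convexHull ℝ (A : Set V))) + 1 = rk hom A := by
  obtain ⟨a, ha⟩ := hA
  have h1 : vectorSpan ℝ (convexHull ℝ (A : Set V)) = vectorSpan ℝ (A : Set V) := by
    rw [← direction_affineSpan, affineSpan_convexHull, direction_affineSpan]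
  have h2 : K hom A = (vectorSpan ℝ (A : Set V)).map inl0 ⊔ ℝ ∙ hom a := by
    have e : ∀ s : V, hom s = inl0 (s - a) + hom a := fun s => by
      rw [hom_eq s, hom_eq a, map_sub]; abel
    refine le_antisymm (K_le (fun s hs => ?_)) (sup_le ?_ ?_)
    · rw [e s]
      exact add_mem (mem_sup_left (mem_map_of_mem (vsub_mem_vectorSpan ℝ hs ha)))
        (mem_sup_right (mem_span_singleton_self _))
    · rw [vectorSpan_eq_span_vsub_set_right ℝ (Finset.mem_coe.2 ha), map_span_le]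
      rintro _ ⟨s, hs, rfl⟩
      have : inl0 (s -ᵥ a) = hom s - hom a := by rw [e s]; simp
      simp only [this]
      exact sub_mem (mem_K hs) (mem_K ha)
    · exact (span_singleton_le_iff_mem _ _).2 (mem_K ha)
  unfold rk
  rw [h1, h2, finrank_sup_span_singleton,
    (Submodule.equivMapOfInjective _ inl0_inj (vectorSpan ℝ (A : Set V))).finrank_eq]
  rintro ⟨x, -, hx⟩
  have := congrArg (fun x => (WithLp.ofLp x).2) hx
  simp [inl0, hom] at this

theorem Config.interior (hC : Config S) : (interior (convexHull ℝ (S : Set V))).Nonempty := by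
  have hne : (convexHull ℝ (S : Set V)).Nonempty :=
    convexHull_nonempty_iff.2 (by exact_mod_cast hC.nonempty)
  rw [(convex_convexHull ℝ _).interior_nonempty_iff_affineSpan_eq_top,
    ← AffineSubspace.direction_eq_top_iff_of_nonempty ((affineSpan_nonempty ℝ).2 hne),
    direction_affineSpan]
  apply Submodule.eq_top_of_finrank_eq
  have := rk_hull hC.nonempty
  rw [hC.rk_eq] at this
  omega

theorem exists_config {P : Set V} (h1 : ∃ T : Finset V, P = convexHull ℝ (T : Set V))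
    (h2 : (interior P).Nonempty) :
    ∃ (o : V) (S : Finset V), Config S ∧ P = o +ᵥ convexHull ℝ (S : Set V) := by
  classical
  have hex : ∃ n, ∃ T : Finset V, P = convexHull ℝ (T : Set V) ∧ T.card = n := by
    obtain ⟨T, hT⟩ := h1
    exact ⟨_, T, hT, rfl⟩
  obtain ⟨T, hT, hcard⟩ := Nat.find_spec hex
  have hmin : ∀ s ∈ T, s ∉ convexHull ℝ (T.erase s : Set V) := by
    intro s hs hc
    refine Nat.find_min hex (m := (T.erase s).card) (by
      rw [← hcard]; exact Finset.card_erase_lt_of_mem hs) ⟨T.erase s, ?_, rfl⟩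
    rw [hT]
    refine le_antisymm (convexHull_min (fun t ht => ?_) (convex_convexHull ℝ _))
      (convexHull_mono (by exact_mod_cast Finset.erase_subset s T))
    by_cases hts : t = s
    · rw [hts]; exact hc
    · exact subset_convexHull ℝ _ (Finset.mem_coe.2 (Finset.mem_erase.2 ⟨hts, ht⟩))
  have hne : T.Nonempty := by
    have := h2.mono interior_subset
    rw [hT, convexHull_nonempty_iff] at this
    exact_mod_cast this
  have h3 : (T.card : ℝ) ≠ 0 := by exact_mod_cast hne.card_pos.ne'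
  set o : V := (T.card : ℝ)⁻¹ • ∑ s ∈ T, s with ho
  have hP : P = o +ᵥ convexHull ℝ (T.image (fun s => s - o) : Set V) := by
    rw [← convexHull_vadd, hT, Finset.coe_image, ← Set.image_vadd, Set.image_image]
    simp
  have hne' : (T.image (fun s => s - o)).Nonempty := hne.image _
  refine ⟨o, T.image (fun s => s - o), ⟨?_, ?_, ?_⟩, hP⟩
  · rw [Finset.sum_image (fun a _ b _ h => sub_left_injective h), Finset.sum_sub_distrib,
      Finset.sum_const, ho, ← Nat.cast_smul_eq_nsmul ℝ, smul_smul, mul_inv_cancel₀ h3, one_smul,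
      sub_self]
  · apply Submodule.eq_top_of_finrank_eq
    have h4 := rk_hull hne'
    have hPc : Convex ℝ P := by rw [hT]; exact convex_convexHull ℝ _
    rw [hPc.interior_nonempty_iff_affineSpan_eq_top] at h2
    have h5 := congrArg AffineSubspace.direction h2
    rw [direction_affineSpan, hP, vectorSpan_vadd, AffineSubspace.direction_top] at h5
    rw [h5, finrank_top] at h4
    rw [(WithLp.linearEquiv 2 ℝ (V × ℝ)).finrank_eq]
    simp only [finrank_prod, finrank_self]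
    exact h4.symm
  · intro s' hs'
    obtain ⟨s, hs, rfl⟩ := Finset.mem_image.1 hs'
    obtain ⟨l, u, hl1, hl2⟩ := geometric_hahn_banach_point_closed (convex_convexHull ℝ _)
      ((T.erase s).finite_toSet.isClosed_convexHull ℝ) (hmin s hs)
    have key : ∀ t ∈ T, t ≠ s → 0 < aff (-l.toLinearMap) (-l (s - o)) (hom (t - o)) := by
      intro t ht hts
      have := hl2 t (subset_convexHull ℝ _ (Finset.mem_coe.2 (Finset.mem_erase.2 ⟨hts, ht⟩)))
      rw [aff_hom]
      simp only [map_sub, LinearMap.neg_apply, ContinuousLinearMap.coe_coe]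
      linarith
    have key0 : aff (-l.toLinearMap) (-l (s - o)) (hom (s - o)) = 0 := by
      rw [aff_hom]
      simp
    refine ⟨aff (-l.toLinearMap) (-l (s - o)), fun t' ht' => ?_, fun t' => ?_⟩
    · obtain ⟨t, ht, rfl⟩ := Finset.mem_image.1 ht'
      by_cases hts : t = s
      · rw [hts, key0]
      · exact (key t ht hts).le
    · rw [Finset.mem_singleton]
      refine ⟨fun h => ?_, fun h => ?_⟩
      · rw [h]; exact ⟨hs', key0⟩
      · obtain ⟨t, ht, rfl⟩ := Finset.mem_image.1 h.1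
        by_contra hc
        exact (key t ht (fun h' => hc (by rw [h']))).ne' h.2

end Hull

end Pool.Agent.Lib.MP_727bc7_co
end

-- part Pool.Agent.Lib.MP_727bc7_co.Bridge2
section

/-! Flag orbits of a polytope and of its vertex configuration. -/

namespace Pool.Agent.Lib.MP_727bc7_co

open Module Submodule
open scoped RealInnerProductSpace Pointwise

variable {d : ℕ}

theorem IsFaceOfDim.vadd {P F : Set (EuclideanSpace ℝ (Fin d))} {i : ℕ} (h : IsFaceOfDim P F i)
    (o : EuclideanSpace ℝ (Fin d)) : IsFaceOfDim (o +ᵥ P) (o +ᵥ F) i := by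
  obtain ⟨h1, h2, h3⟩ := h
  refine ⟨fun _ => ?_, h2.vadd_set, by rw [vectorSpan_vadd, h3]⟩
  obtain ⟨l, hl⟩ := h1 h2
  refine ⟨l, ?_⟩
  ext x
  rw [Set.mem_vadd_set_iff_neg_vadd_mem, hl, Set.mem_ofPred_eq, Set.mem_ofPred_eq,
    Set.mem_vadd_set_iff_neg_vadd_mem]
  refine and_congr_right (fun _ => ⟨fun h y hy => ?_, fun h y hy => ?_⟩)
  · have := h _ (Set.mem_vadd_set_iff_neg_vadd_mem.1 hy)
    simp only [vadd_eq_add, map_add] at this
    linarith
  · have := h (o +ᵥ y) (Set.vadd_mem_vadd_set hy)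
    simp only [vadd_eq_add, map_add, map_neg] at this ⊢
    linarith

theorem IsFlag.vadd {P : Set (EuclideanSpace ℝ (Fin d))}
    {Φ : Fin d → Set (EuclideanSpace ℝ (Fin d))} (h : IsFlag P Φ) (o : EuclideanSpace ℝ (Fin d)) :
    IsFlag (o +ᵥ P) (fun i => o +ᵥ Φ i) :=
  ⟨fun i => (h.1 i).vadd o, fun i j hij => Set.vadd_set_mono (h.2 i j hij)⟩

theorem conj_image (g : EuclideanSpace ℝ (Fin d) ≃ᵢ EuclideanSpace ℝ (Fin d))
    (o : EuclideanSpace ℝ (Fin d)) (A : Set (EuclideanSpace ℝ (Fin d))) :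
    (((IsometryEquiv.addLeft (-o)).trans g).trans (IsometryEquiv.addLeft o)) '' (o +ᵥ A) =
      o +ᵥ (g '' A) := by
  rw [← Set.image_vadd, ← Set.image_vadd, Set.image_image, Set.image_image]
  simp

theorem flagOrbits_vadd (P : Set (EuclideanSpace ℝ (Fin d))) (o : EuclideanSpace ℝ (Fin d)) :
    flagOrbits (o +ᵥ P) = flagOrbits P := by
  symm
  let e : {Φ : Fin d → Set (EuclideanSpace ℝ (Fin d)) // IsFlag P Φ} ≃
      {Φ : Fin d → Set (EuclideanSpace ℝ (Fin d)) // IsFlag (o +ᵥ P) Φ} :=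
    { toFun := fun Φ => ⟨fun i => o +ᵥ Φ.1 i, Φ.2.vadd o⟩
      invFun := fun Φ => ⟨fun i => (-o) +ᵥ Φ.1 i, by simpa using Φ.2.vadd (-o)⟩
      left_inv := fun Φ => by ext i; simp
      right_inv := fun Φ => by ext i; simp }
  refine Nat.card_congr (Quot.congr e (fun Φ Ψ => ⟨?_, ?_⟩))
  · rintro ⟨g, h1, h2⟩
    refine ⟨((IsometryEquiv.addLeft (-o)).trans g).trans (IsometryEquiv.addLeft o), ?_,
      fun i => ?_⟩
    · rw [conj_image, h1]
    · change _ '' (o +ᵥ Φ.1 i) = o +ᵥ Ψ.1 i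
      rw [conj_image, h2]
  · rintro ⟨g, h1, h2⟩
    refine ⟨((IsometryEquiv.addLeft (- -o)).trans g).trans (IsometryEquiv.addLeft (-o)), ?_,
      fun i => ?_⟩
    · have := conj_image g (-o) (o +ᵥ P)
      rw [h1] at this
      simpa using this
    · have := conj_image g (-o) (o +ᵥ Φ.1 i)
      have h3 : g '' (o +ᵥ Φ.1 i) = o +ᵥ Ψ.1 i := h2 i
      rw [h3] at this
      simpa using this

variable {S : Finset (EuclideanSpace ℝ (Fin d))}

theorem Config.rk_eq' (hC : Config S) : rk hom S = d + 1 := by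
  rw [hC.rk_eq, finrank_euclideanSpace_fin]

theorem Config.isFlag (hC : Config S) (Φ : Chain hom S) :
    IsFlag (convexHull ℝ (S : Set (EuclideanSpace ℝ (Fin d))))
      (fun i => convexHull ℝ (Φ.F (i + 1) : Set (EuclideanSpace ℝ (Fin d)))) := by
  refine ⟨fun i => ?_, fun i j hij => convexHull_mono (by
    exact_mod_cast Φ.le (Nat.succ_le_succ hij))⟩
  have h1 := Φ.rank (i + 1) (by rw [hC.rk_eq']; omega)
  obtain ⟨s, hs, -⟩ := exists_not_mem (u := hom) (A := ∅) (B := Φ.F (i + 1))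
    (by rw [rk_empty, h1]; omega)
  refine ⟨exposed_of_face (Φ.face _), ⟨s, subset_convexHull ℝ _ hs⟩, ?_⟩
  have := rk_hull ⟨s, hs⟩
  simp only
  omega

theorem Config.chain_ext (hC : Config S) {A : ℕ → Finset (EuclideanSpace ℝ (Fin d))}
    (hA : ∀ ρ, IsFace hom S (A ρ)) (h0 : A 0 = ∅) (htop : ∀ ρ, d + 1 ≤ ρ → A ρ = S)
    {Ψ : Chain hom S}
    (h : ∀ i : Fin d, convexHull ℝ (A (i + 1) : Set (EuclideanSpace ℝ (Fin d))) =
      convexHull ℝ (Ψ.F (i + 1) : Set (EuclideanSpace ℝ (Fin d)))) (ρ : ℕ) : Ψ.F ρ = A ρ := by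
  by_cases h1 : ρ = 0
  · rw [h1, h0, Ψ.zero face_empty]
  by_cases h2 : d + 1 ≤ ρ
  · rw [htop ρ h2, Ψ.top ρ (by rw [hC.rk_eq']; exact h2)]
  have h3 := h ⟨ρ - 1, by omega⟩
  simp only [show ρ - 1 + 1 = ρ by omega] at h3
  exact Finset.Subset.antisymm (hull_subset (Ψ.face ρ).subset (hA ρ) h3.ge)
    (hull_subset (hA ρ).subset (Ψ.face ρ) h3.le)

theorem Config.flagOrbits (hC : Config S) :
    flagOrbits (convexHull ℝ (S : Set (EuclideanSpace ℝ (Fin d)))) =
      Nat.card (Quotient hC.geo.setoid) := by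
  symm
  let f : Chain hom S → {Φ : Fin d → Set (EuclideanSpace ℝ (Fin d)) //
      IsFlag (convexHull ℝ (S : Set (EuclideanSpace ℝ (Fin d)))) Φ} :=
    fun Φ => ⟨_, hC.isFlag Φ⟩
  have hf : Function.Bijective f := by
    constructor
    · intro Φ Ψ h
      refine Chain.ext (funext fun ρ => (hC.chain_ext Φ.face (Φ.zero face_empty)
        (fun ρ hρ => Φ.top ρ (by rw [hC.rk_eq']; exact hρ)) (fun i => ?_) ρ).symm)
      exact congrFun (congrArg Subtype.val h) i
    · rintro ⟨Ψ, h1, h2⟩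
      choose A hA1 hA2 using fun i => face_of_exposed (h1 i).1 (h1 i).2.1
      have hA3 : ∀ i, rk hom (A i) = i + 1 := by
        intro i
        have h3 := (h1 i).2.1
        have h4 := (h1 i).2.2
        rw [hA2] at h3 h4
        rw [← rk_hull (by exact_mod_cast convexHull_nonempty_iff.1 h3), h4]
      refine ⟨⟨fun ρ => if ρ = 0 then ∅ else if h : ρ - 1 < d then A ⟨ρ - 1, h⟩ else S,
        fun ρ => ?_, fun ρ hρ => ?_, fun ρ => ?_, fun ρ hρ => ?_⟩, ?_⟩
      · split_ifs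
        · exact face_empty
        · exact hA1 _
        · exact isFace_top
      · rw [hC.rk_eq'] at hρ
        split_ifs with h3 h4
        · rw [rk_empty, h3]
        · rw [hA3]; simp only; omega
        · rw [hC.rk_eq']; omega
      · rw [if_neg (Nat.succ_ne_zero ρ)]
        split_ifs with h3 h4 h5 h6 h7
        any_goals exact Finset.empty_subset _
        any_goals exact le_rfl
        any_goals omega
        · refine hull_subset (hA1 _).subset (hA1 _) ?_
          rw [← hA2, ← hA2]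
          exact h2 _ _ (by simp only [Fin.mk_le_mk]; omega)
        · exact (hA1 _).subset
      · rw [hC.rk_eq'] at hρ
        rw [if_neg (by omega), dif_neg (by omega)]
      · refine Subtype.ext (funext fun i => ?_)
        simp only [f]
        rw [if_neg (by omega), dif_pos (by simp), hA2]
        rfl
  refine Nat.card_congr (Quot.congr (Equiv.ofBijective f hf) (fun Φ Ψ => ⟨?_, ?_⟩))
  · rintro ⟨g, hg, h⟩
    have h := (hC.maps_iff hg _ _).1 h
    refine ⟨g.toIsometryEquiv, ?_, fun i => ?_⟩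
    · exact (image_hull g S).trans (by rw [image_top hg])
    · exact (image_hull g _).trans (by rw [← h]; rfl)
  · rintro ⟨g, h1, h2⟩
    obtain ⟨g', hg', h3⟩ := hC.isometry g h1
    refine ⟨g', hg', (hC.maps_iff hg' _ _).2 (hC.chain_ext (fun ρ => image_face hg' (Φ.face ρ))
      (by rw [Φ.zero face_empty]; rfl)
      (fun ρ hρ => by rw [Φ.top ρ (by rw [hC.rk_eq']; exact hρ), image_top hg']) (fun i => ?_))⟩
    rw [← image_hull, ← funext h3]
    exact h2 i

theorem polytope_upper {P : Set (EuclideanSpace ℝ (Fin d))} (hP : IsPolytope P) (hd : 8 ≤ d)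
    (hk4 : 4 ≤ flagOrbits P) (hk : flagOrbits P + 3 ≤ d) (h85 : ¬ (d = 8 ∧ flagOrbits P = 5)) :
    False := by
  obtain ⟨o, S, hC, rfl⟩ := exists_config hP.1 hP.2
  rw [flagOrbits_vadd, hC.flagOrbits] at hk4 hk h85
  refine hC.upper ?_ hk4 ?_ ?_ <;> rw [finrank_euclideanSpace_fin] <;> assumption

theorem Config.polytope (hC : Config S) :
    IsPolytope (convexHull ℝ (S : Set (EuclideanSpace ℝ (Fin d)))) :=
  ⟨⟨S, rfl⟩, hC.interior⟩

end Pool.Agent.Lib.MP_727bc7_co
end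

-- part Pool.Agent.Lib.MP_727bc7_co.Wythoff
section

/-! Wythoffian polytopes of a fork with a leaf. -/

namespace Pool.Agent.Lib.MP_727bc7_co

open Module Submodule
open scoped RealInnerProductSpace

set_option linter.unusedSectionVars false

section

variable {V : Type} [NormedAddCommGroup V] [InnerProductSpace ℝ V] [FiniteDimensional ℝ V]
  {ι : Type} [Fintype ι] {α : ι → V} {ρ v : V} {X : Finset V}

theorem exists_aff (φ : WithLp 2 (V × ℝ) →ₗ[ℝ] ℝ) :
    ∃ (l : V) (t : ℝ), ∀ x, φ (hom x) = t - ⟪x, l⟫ := by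
  refine ⟨(InnerProductSpace.toDual ℝ V).symm (LinearMap.toContinuousLinearMap (-(φ ∘ₗ inl0))),
    φ (hom 0), fun x => ?_⟩
  rw [real_inner_comm, InnerProductSpace.toDual_symm_apply, hom_eq x, map_add]
  simp
  ring

theorem wact_mem_sym (hX : ∀ x, x ∈ X ↔ x ∈ worb α v) (l : List ι) : wact α l ∈ symGroup X := by
  intro s
  rw [hX, hX]
  refine ⟨fun h => ?_, wact_mem_orb l⟩
  have := wact_mem_orb l.reverse h
  rwa [wact_reverse] at this

theorem Sim.config (h : Sim α ρ) (hX : ∀ x, x ∈ X ↔ x ∈ worb α v)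
    (hex : ∀ i, ∃ x ∈ worb α v, ⟪α i, x⟫ ≠ 0) : Config X := by
  refine ⟨h.eq_zero (fun i => ?_), ?_, fun s hs => ?_⟩
  · have h1 := image_sum (wact α [i]) X
    rw [image_top (wact_mem_sym hX [i]), wact_cons, wact_nil, refl_apply (h.norm i), eq_comm,
      Geo.refl_eq_self_iff (by intro hc; have := h.norm i; rw [hc] at this; simp at this)] at h1
    exact h1
  · by_contra hc
    obtain ⟨φ, h1, h2⟩ := Submodule.exists_le_ker_of_lt_top _ (lt_top_iff_ne_top.2 hc)
    obtain ⟨l, t, hl⟩ := exists_aff φ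
    have h3 : ∀ x ∈ worb α v, t - ⟪x, l⟫ = 0 := fun x hx => by
      rw [← hl]
      exact h2 (mem_K ((hX x).2 hx))
    have h4 : l = 0 := h.eq_zero (fun i => by
      obtain ⟨x, hx, h5⟩ := hex i
      have a1 := h3 x hx
      have a2 := h3 _ (wact_mem_orb [i] hx)
      rw [wact_cons, wact_nil, refl_apply (h.norm i), inner_sub_left, real_inner_smul_left] at a2
      have a3 : ⟪α i, x⟫ * ⟪α i, l⟫ = 0 := by linarith
      exact (mul_eq_zero.1 a3).resolve_left h5)
    have h5 := h3 v (self_mem_orb v)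
    rw [h4, inner_zero_right, sub_zero] at h5
    simp only [h4, h5, inner_zero_right, sub_zero] at hl
    apply h1
    ext ⟨x, r⟩
    have h6 : φ (inl0 x) = 0 := by
      have := hl x
      rwa [hom_eq, map_add, hl, add_zero] at this
    rw [toLp_split, map_add, map_smul]
    change φ (inl0 x) + r • φ (hom 0) = 0
    rw [h6, hl]
    simp
  · have hn : ∀ x ∈ X, ‖x‖ = ‖s‖ := fun x hx => by
      rw [norm_of_orb ((hX x).1 hx), norm_of_orb ((hX s).1 hs)]
    have key : ∀ x ∈ X, aff (innerₗ V s) (‖s‖ ^ 2) (hom x) = ‖s - x‖ ^ 2 / 2 := by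
      intro x hx
      rw [aff_hom, norm_sub_sq_real, hn x hx, innerₗ_apply_apply]
      ring
    refine ⟨aff (innerₗ V s) (‖s‖ ^ 2), fun x hx => by rw [key x hx]; positivity, fun x => ?_⟩
    rw [Finset.mem_singleton]
    refine ⟨fun hx => ?_, fun hx => ?_⟩
    · rw [hx, key s hs]
      simpa using hs
    · have := hx.2
      rw [key x hx.1, div_eq_zero_iff] at this
      simp only [ne_eq, OfNat.ofNat_ne_zero, not_false_eq_true, pow_eq_zero_iff, norm_eq_zero,
        or_false] at this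
      exact (sub_eq_zero.1 this).symm

theorem Sim.geo_roots (h : Sim α ρ) (hX : ∀ x, x ∈ X ↔ x ∈ worb α v) (hC : Config X) :
    hC.geo.Roots (roots α) := by
  refine ⟨fun β hβ => h.root_norm hβ, fun β hβ => h.root_neg hβ, fun β hβ γ hγ => ?_,
    fun β hβ => ?_⟩
  · obtain ⟨l, hl⟩ := h.root_refl hβ
    rw [← hl]
    exact wact_mem_roots l hγ
  · obtain ⟨l, hl⟩ := h.root_refl hβ
    exact ⟨wact α l, wact_mem_sym hX l, hl⟩

theorem Sim.edge (h : Sim α ρ) (hX : ∀ x, x ∈ X ↔ x ∈ worb α v) {i0 : ι}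
    (hv : 0 < ⟪α i0, v⟫) (hv0 : ∀ i, i ≠ i0 → ⟪α i, v⟫ = 0) {A : Finset V}
    (hA : IsFace hom X A) (hr : 2 ≤ rk hom A) :
    ∃ β ∈ roots α, ∃ x ∈ A, ⟪β, x⟫ ≠ 0 ∧ x - (2 * ⟪β, x⟫) • β ∈ A := by
  have hv' : ∀ i, 0 ≤ ⟪α i, v⟫ := fun i => by
    by_cases hi : i = i0
    · rw [hi]; exact hv.le
    · rw [hv0 i hi]
  obtain ⟨φ, hφ⟩ := id hA
  obtain ⟨y, t, hy⟩ := exists_aff φ
  obtain ⟨l, hl⟩ := h.exists_dom y
  have hv1 : (wact α l).symm v ∈ X := by
    rw [hX, wact_symm]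
    exact wact_mem_orb _ (self_mem_orb v)
  have hv2 : (wact α l).symm (refl (α i0) v) ∈ X := by
    rw [hX, wact_symm]
    exact wact_mem_orb _ (wact_mem_orb [i0] (self_mem_orb v))
  obtain ⟨x, hx, hxv⟩ := exists_not_mem (u := hom) (A := {(wact α l).symm v}) (B := A)
    (by rw [rk_single face_empty hv1]; omega)
  have h1 := h.second hv' hv0 hl (wact_mem_orb l ((hX x).1 (hA.subset hx))) (fun hc => hxv (by
    rw [← hc, LinearIsometryEquiv.symm_apply_apply]
    exact Finset.mem_singleton_self _))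
  have h2 : ⟪refl (α i0) v, wact α l y⟫ ≤ ⟪v, wact α l y⟫ := by
    rw [refl_apply (h.norm i0), inner_sub_left, real_inner_smul_left]
    have := hl i0
    nlinarith
  have e : ∀ z, ⟪z, wact α l y⟫ = ⟪(wact α l).symm z, y⟫ := fun z => by
    rw [← (wact α l).inner_map_map _ y, LinearIsometryEquiv.apply_symm_apply]
  rw [e, e] at h1 h2
  rw [LinearIsometryEquiv.symm_apply_apply] at h1
  have a0 := hφ.zero hx
  have a1 := hφ.1 _ hv1
  have a2 := hφ.1 _ hv2
  rw [hy] at a0 a1 a2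
  refine ⟨(wact α l).symm (α i0), ?_, (wact α l).symm v, (hφ.2 _).2 ⟨hv1, ?_⟩, ?_, ?_⟩
  · rw [wact_symm]
    exact wact_mem_roots _ (simple_mem_roots _)
  · rw [hy]
    linarith
  · rw [LinearIsometryEquiv.inner_map_map]
    exact hv.ne'
  · rw [LinearIsometryEquiv.inner_map_map, ← map_smul, ← map_sub, ← refl_apply (h.norm i0)]
    refine (hφ.2 _).2 ⟨hv2, ?_⟩
    rw [hy]
    linarith

theorem fix_face {g : V ≃ₗᵢ[ℝ] V} (hg : g ∈ symGroup X) {β : V} (hβ : β ≠ 0)
    (hgv : ∀ x, g x = x - (2 * ⟪β, x⟫) • β) {A : Finset V} (hA : IsFace hom X A) {x : V}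
    (hx : x ∈ A) (h1 : ⟪β, x⟫ ≠ 0) (h2 : x - (2 * ⟪β, x⟫) • β ∈ A) : ⟪β, ∑ s ∈ A, s⟫ = 0 := by
  obtain ⟨φ, hφ⟩ := id hA
  obtain ⟨y, t, hy⟩ := exists_aff φ
  have a1 := hφ.zero hx
  have a2 := hφ.zero h2
  rw [hy] at a1 a2
  rw [inner_sub_left, real_inner_smul_left] at a2
  have a3 : ⟪β, x⟫ * ⟪β, y⟫ = 0 := by linarith
  have a4 := (mul_eq_zero.1 a3).resolve_left h1
  have h3 : A.map g.toEquiv.toEmbedding = A := by
    refine Finset.eq_of_subset_of_card_le (fun s hs => ?_) (by rw [Finset.card_map])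
    obtain ⟨z, hz, rfl⟩ := Finset.mem_map.1 hs
    refine (hφ.2 _).2 ⟨(hg z).2 (hA.subset hz), ?_⟩
    change φ (hom (g z)) = 0
    rw [hy, hgv, inner_sub_left, real_inner_smul_left, a4, mul_zero, sub_zero, ← hy]
    exact hφ.zero hz
  have h4 := image_sum g A
  rwa [h3, hgv, eq_comm, Geo.refl_eq_self_iff hβ] at h4

theorem Sim.mir0 (h : Sim α ρ) (hX : ∀ x, x ∈ X ↔ x ∈ worb α v) (hC : Config X) {i0 : ι}
    (hv : 0 < ⟪α i0, v⟫) (hv0 : ∀ i, i ≠ i0 → ⟪α i, v⟫ = 0) (hd : 1 ≤ finrank ℝ V)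
    (Φ : Chain hom X) : hC.geo.Mir (roots α) Φ 0 := by
  have hR := h.geo_roots hX hC
  obtain ⟨β, hβ, x, hx, h1, h2⟩ := h.edge hX hv hv0 (Φ.face 2)
    (by rw [Φ.rank 2 (by rw [hC.rk_eq]; omega)])
  obtain ⟨g, hg, hgv⟩ := hR.mem β hβ
  have key : ∀ j < hC.geo.d, j ≠ 0 → ⟪β, hC.geo.c j Φ⟫ = 0 := fun j _ hj =>
    fix_face hg (hR.ne_zero hβ) hgv (Φ.face (j + 1)) (Φ.le (by omega) hx) h1
      (Φ.le (by omega) h2)
  rcases hR.pos_or hβ Φ with h3 | h3
  · exact ⟨β, hβ, h3, key⟩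
  · exact ⟨-β, hR.neg β hβ, h3, fun j hj hj0 => by rw [inner_neg_left, key j hj hj0, neg_zero]⟩

theorem Sim.wall {F : Type} {𝒢 : Geo V F} (h : Sim α ρ) (hR : 𝒢.Roots (roots α)) {Φ : F} {β : V}
    (hΦ : ∀ i, 𝒢.Pos Φ (α i)) (hβ : 𝒢.Wall (roots α) Φ β) : ∃ i, β = α i := by
  by_contra hc
  push Not at hc
  have key : ∀ γ ∈ cone α, (∀ y, ⟪β, y⟫ = 0 → ⟪γ, y⟫ = 0) → γ = 0 := by
    rintro _ ⟨a, ha, rfl⟩ h1
    refine Finset.sum_eq_zero (fun i _ => ?_)
    obtain ⟨y, a1, a2, a3⟩ := hR.wit hβ (simple_mem_roots i) (hΦ i) (hc i).symm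
    have h2 := h1 y a2
    simp only [sum_inner, real_inner_smul_left] at h2
    rw [Finset.sum_eq_zero_iff_of_nonneg (fun j _ =>
      mul_nonneg (ha j) (a1 _ (simple_mem_roots j) (hΦ j)))] at h2
    rw [(mul_eq_zero.1 (h2 i (Finset.mem_univ _))).resolve_right a3.ne', zero_smul]
  rcases h.root_sign hβ.mem with h1 | h1
  · exact hR.ne_zero hβ.mem (key _ h1 (fun _ h => h))
  · exact hR.ne_zero hβ.mem (neg_eq_zero.1 (key _ h1 (fun _ h => by
      rw [inner_neg_left, h, neg_zero])))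

theorem Sim.dom {F : Type} {𝒢 : Geo V F} (h : Sim α ρ) (hR : 𝒢.Roots (roots α))
    (hG : ∀ l, wact α l ∈ 𝒢.G) (Φ : F) :
    ∃ Ψ, (∀ j, 𝒢.Mir (roots α) Ψ j → 𝒢.Mir (roots α) Φ j) ∧ ∀ i, 𝒢.Pos Ψ (α i) := by
  obtain ⟨l, hl⟩ := h.exists_dom (∑ j ∈ Finset.range 𝒢.d, 𝒢.c j Φ)
  obtain ⟨Ψ, hΨ⟩ := 𝒢.act _ (hG l) Φ
  have e : ∀ z, ∀ j < 𝒢.d, ⟪(wact α l).symm z, 𝒢.c j Φ⟫ = ⟪z, 𝒢.c j Ψ⟫ := fun z j hj => by
    rw [← (wact α l).inner_map_map, LinearIsometryEquiv.apply_symm_apply, hΨ j hj]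
  refine ⟨Ψ, ?_, fun i => ?_⟩
  · rintro j ⟨β, h1, h2, h3⟩
    refine ⟨(wact α l).symm β, ?_, fun x hx => ?_, fun x hx hxj => ?_⟩
    · rw [wact_symm]
      exact wact_mem_roots _ h1
    · rw [e β x hx]
      exact h2 x hx
    · rw [e β x hx]
      exact h3 x hx hxj
  · rcases hR.pos_or (simple_mem_roots i) Ψ with h1 | h1
    · exact h1
    have h2 := hl i
    rw [map_sum, inner_sum, Finset.sum_congr rfl (fun j hj => by
      rw [← hΨ j (Finset.mem_range.1 hj)])] at h2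
    have h3 : ∀ j ∈ Finset.range 𝒢.d, ⟪α i, 𝒢.c j Ψ⟫ ≤ 0 := fun j hj => by
      have := h1 j (Finset.mem_range.1 hj)
      rw [inner_neg_left] at this
      linarith
    have h4 := (Finset.sum_eq_zero_iff_of_nonpos h3).1 (le_antisymm (Finset.sum_nonpos h3) h2)
    exact fun j hj => (h4 j (Finset.mem_range.2 hj)).ge

end

instance tadjDec (y e i j : ℕ) : Decidable (tadj y e i j) :=
  inferInstanceAs (Decidable (_ ∨ _ ∨ _ ∨ _))

/-- the Cartan matrix of the fork -/
def cart (y e i j : ℕ) : ℤ := if i = j then 2 else if tadj y e i j then -1 else 0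

theorem wythoff {y e d : ℕ} (hd : d = y + 3 + e) (α : ℕ → EuclideanSpace ℝ (Fin d))
    (ρ v wl wc : EuclideanSpace ℝ (Fin d))
    (gram : ∀ i < d, ∀ j < d, 2 * ⟪α i, α j⟫ = cart y e i j)
    (half : ∀ i < d, 0 < ⟪α i, ρ⟫) (hv : 0 < ⟪α 0, v⟫) (hv0 : ∀ i < d, i ≠ 0 → ⟪α i, v⟫ = 0)
    (hwl : ∀ z < d, z ≠ y + 2 + e → ⟪α z, wl⟫ = 0) (hwc : ∀ z < d, z ≠ y + 1 + e → ⟪α z, wc⟫ = 0)
    (hne : ⟪v, wl⟫ ^ 2 * ‖wc‖ ^ 2 ≠ ⟪v, wc⟫ ^ 2 * ‖wl‖ ^ 2) :
    ∃ P : Set (EuclideanSpace ℝ (Fin d)), IsPolytope P ∧ flagOrbits P = e + 2 := by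
  have hS : Sim (fun i : Fin d => α i) ρ := by
    refine ⟨fun i => ?_, fun i j => ⟨_, gram i i.2 j j.2⟩, fun i j hij => ?_,
      fun i => half i i.2, by simp⟩
    · have := gram i i.2 i i.2
      rw [real_inner_self_eq_norm_sq, cart, if_pos rfl] at this
      have h1 : ‖α i‖ ^ 2 = 1 := by push_cast at this; linarith
      exact (pow_eq_one_iff_of_nonneg (norm_nonneg _) two_ne_zero).1 h1
    · have := gram i i.2 j j.2
      rw [cart, if_neg (fun hc => hij (Fin.ext hc))] at this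
      split_ifs at this <;> push_cast at this <;> linarith
  have hadj : ∀ i < d, ∀ j < d, ⟪α i, α j⟫ ≠ 0 ↔ i = j ∨ tadj y e i j := by
    intro i hi j hj
    have := gram i hi j hj
    unfold cart at this
    split_ifs at this with h1 h2 <;> push_cast at this
    · simp only [h1, true_or, iff_true] at this ⊢
      linarith
    · simp only [h2, or_true, iff_true]
      linarith
    · simp only [h1, h2, or_false, iff_false, not_not]
      linarith
  have hX : ∀ x, x ∈ (hS.orb_finite v).toFinset ↔ x ∈ worb (fun i : Fin d => α i) v :=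
    fun x => Set.Finite.mem_toFinset _
  have hex : ∀ t < d, ∃ x ∈ worb (fun i : Fin d => α i) v, ⟪α t, x⟫ ≠ 0 := by
    intro t
    induction t using Nat.strong_induction_on with
    | _ t ih =>
    intro ht
    by_cases ht0 : t = 0
    · exact ⟨v, self_mem_orb v, by rw [ht0]; exact hv.ne'⟩
    obtain ⟨p, hp, h5⟩ : ∃ p < t, tadj y e t p := by
      by_cases h6 : t = y + 2 + e
      · exact ⟨y, by omega, by unfold tadj; omega⟩
      · exact ⟨t - 1, by omega, by unfold tadj; omega⟩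
    obtain ⟨x, hx, h1⟩ := ih p hp (by omega)
    by_cases h2 : ⟪α t, x⟫ = 0
    · refine ⟨_, wact_mem_orb [⟨p, by omega⟩] hx, ?_⟩
      rw [wact_cons, wact_nil, refl_apply (hS.norm _), inner_sub_right, real_inner_smul_right, h2,
        zero_sub, neg_ne_zero]
      exact mul_ne_zero (mul_ne_zero two_ne_zero h1) ((hadj t ht p (by omega)).2 (Or.inr h5))
    · exact ⟨x, hx, h2⟩
  have hC := hS.config hX (fun i => hex i i.2)
  have hR := hS.geo_roots hX hC
  have hdd : hC.geo.d = d := finrank_euclideanSpace_fin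
  have hv0' : ∀ i : Fin d, i ≠ ⟨0, by omega⟩ → ⟪α i, v⟫ = 0 :=
    fun i hi => hv0 i i.2 (fun hc => hi (Fin.ext hc))
  obtain ⟨Φ0, -⟩ := exists_chain_through (u := hom) (S := (hS.orb_finite v).toFinset)
    face_empty face_empty
  refine ⟨_, hC.polytope, ?_⟩
  rw [hC.flagOrbits]
  refine Geo.fork_count hR (hS.mir0 hX hC (i0 := ⟨0, by omega⟩) hv hv0' (by simp; omega))
    (hdd.trans hd) α (fun i hi => simple_mem_roots (α := fun i : Fin d => α i) ⟨i, hdd ▸ hi⟩)
    (fun i hi j hj hij => ?_) (by rw [hdd]; exact hadj)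
    (fun w hw => hS.eq_zero (fun i => hw i (by rw [hdd]; exact i.2)))
    (fun Φ β hΦ hβ => ?_) (fun Φ => ?_) Φ0 v (fun Φ hΦ => ?_) (by rw [hdd]; exact hv0) wl wc
    (by rw [hdd]; exact hwl) (by rw [hdd]; exact hwc) hne
  · rw [hdd] at hi hj
    have h1 := gram i hi j hj
    have h2 := gram j hj j hj
    rw [hij, h2] at h1
    unfold cart at h1
    by_contra hc
    rw [if_pos rfl, if_neg hc] at h1
    split_ifs at h1 <;> norm_num at h1
  · obtain ⟨i, hi⟩ := hS.wall hR (fun i => hΦ i (by rw [hdd]; exact i.2)) hβ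
    exact ⟨i, by rw [hdd]; exact i.2, hi⟩
  · obtain ⟨Ψ, h1, h2⟩ := hS.dom hR (wact_mem_sym hX) Φ
    exact ⟨Ψ, h1, fun i hi => h2 ⟨i, hdd ▸ hi⟩⟩
  · obtain ⟨x, hx, h1⟩ := Φ.vertex face_empty hC.vert (by rw [hC.rk_eq]; omega)
    have h2 : hC.geo.c 0 Φ = x := by
      change ∑ s ∈ Φ.F 1, s = x
      rw [h1, Finset.sum_singleton]
    rw [h2]
    refine hS.dom_unique (fun i => ?_) ((hX x).1 hx) (fun i => ?_)
    · by_cases hi : i = ⟨0, by omega⟩
      · rw [hi]; exact hv.le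
      · exact (hv0' i hi).ge
    · rw [← h2]
      exact hΦ i (by rw [hdd]; exact i.2) 0 (by omega)

end Pool.Agent.Lib.MP_727bc7_co
end

-- part Pool.Agent.Lib.MP_727bc7_co.Examples
section

/-! The demicubes and the polytopes with 126 and 2160 vertices. -/

namespace Pool.Agent.Lib.MP_727bc7_co

open scoped RealInnerProductSpace

/-- a vector with weighted integer coordinates -/
noncomputable def vec (d : ℕ) (q : ℕ → ℕ) (N : ℕ) (b : ℕ → ℤ) : EuclideanSpace ℝ (Fin d) :=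
  WithLp.toLp 2 (fun k : Fin d => √(q k / N) * b k)

/-- the weighted integer inner product -/
def ip (d : ℕ) (q : ℕ → ℕ) (a b : ℕ → ℤ) : ℤ := ∑ k ∈ Finset.range d, q k * a k * b k

theorem inner_vec (d : ℕ) (q : ℕ → ℕ) (N : ℕ) (a b : ℕ → ℤ) :
    ⟪vec d q N a, vec d q N b⟫ = ip d q a b / N := by
  rw [ip, ← Fin.sum_univ_eq_sum_range (fun k => (q k : ℤ) * a k * b k), PiLp.inner_apply]
  push_cast
  rw [Finset.sum_div]
  refine Finset.sum_congr rfl (fun k _ => ?_)
  have h : √((q k : ℝ) / N) * √((q k : ℝ) / N) = q k / N := Real.mul_self_sqrt (by positivity)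
  simp only [vec, RCLike.inner_apply, conj_trivial]
  calc _ = (√((q k : ℝ) / N) * √((q k : ℝ) / N)) * a k * b k := by ring
    _ = _ := by rw [h]; ring

theorem wythoff_int {y e d : ℕ} (hd : d = y + 3 + e) (q : ℕ → ℕ) (N : ℕ) (hN : 0 < N)
    (B : ℕ → ℕ → ℤ) (r v wl wc : ℕ → ℤ)
    (gram : ∀ i < d, ∀ j < d, 2 * ip d q (B i) (B j) = N * cart y e i j)
    (half : ∀ i < d, 0 < ip d q (B i) r) (hv : 0 < ip d q (B 0) v)
    (hv0 : ∀ i < d, i ≠ 0 → ip d q (B i) v = 0)
    (hwl : ∀ z < d, z ≠ y + 2 + e → ip d q (B z) wl = 0)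
    (hwc : ∀ z < d, z ≠ y + 1 + e → ip d q (B z) wc = 0)
    (hne : ip d q v wl ^ 2 * ip d q wc wc ≠ ip d q v wc ^ 2 * ip d q wl wl) :
    ∃ P : Set (EuclideanSpace ℝ (Fin d)), IsPolytope P ∧ flagOrbits P = e + 2 := by
  have hN' : (0 : ℝ) < N := by exact_mod_cast hN
  refine wythoff hd (fun i => vec d q N (B i)) (vec d q N r) (vec d q N v) (vec d q N wl)
    (vec d q N wc) (fun i hi j hj => ?_) (fun i hi => ?_) ?_ (fun i hi h => ?_)
    (fun i hi h => ?_) (fun i hi h => ?_) (fun hc => hne ?_)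
  · rw [inner_vec, ← mul_div_assoc, div_eq_iff hN'.ne', mul_comm _ (N : ℝ)]
    exact_mod_cast gram i hi j hj
  · rw [inner_vec]
    exact div_pos (by exact_mod_cast half i hi) hN'
  · rw [inner_vec]
    exact div_pos (by exact_mod_cast hv) hN'
  · rw [inner_vec, hv0 i hi h]; simp
  · rw [inner_vec, hwl i hi h]; simp
  · rw [inner_vec, hwc i hi h]; simp
  · rw [← real_inner_self_eq_norm_sq, ← real_inner_self_eq_norm_sq] at hc
    simp only [inner_vec] at hc
    field_simp at hc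
    exact_mod_cast hc

theorem ex_e7 : ∃ P : Set (EuclideanSpace ℝ (Fin 7)), IsPolytope P ∧ flagOrbits P = 4 :=
  wythoff_int (y := 2) (e := 2) rfl (fun k => if k = 6 then 2 else 1) 8 (by norm_num)
    (fun i k => ([[1, -1, -1, -1, -1, -1, 1], [-2, 2], [0, -2, 2], [0, 0, -2, 2],
      [0, 0, 0, -2, 2], [0, 0, 0, 0, -2, 2], [2, 2]].getD i []).getD k 0)
    (fun k => [0, 1, 2, 3, 4, 5, 8].getD k 0) (fun k => [0, 0, 0, 0, 0, 0, 1].getD k 0)
    (fun k => [1, 1, 1, 1, 1, 1, 2].getD k 0) (fun k => [0, 0, 0, 0, 0, 2, 1].getD k 0)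
    (by decide) (by decide) (by decide) (by decide) (by decide) (by decide) (by decide)

theorem ex_e8 : ∃ P : Set (EuclideanSpace ℝ (Fin 8)), IsPolytope P ∧ flagOrbits P = 5 :=
  wythoff_int (y := 2) (e := 3) rfl (fun _ => 1) 8 (by norm_num)
    (fun i k => ([[1, -1, -1, -1, -1, -1, -1, 1], [-2, 2], [0, -2, 2], [0, 0, -2, 2],
      [0, 0, 0, -2, 2], [0, 0, 0, 0, -2, 2], [0, 0, 0, 0, 0, -2, 2], [2, 2]].getD i []).getD k 0)
    (fun k => [0, 1, 2, 3, 4, 5, 6, 23].getD k 0) (fun k => [0, 0, 0, 0, 0, 0, 0, 1].getD k 0)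
    (fun k => [1, 1, 1, 1, 1, 1, 1, 5].getD k 0) (fun k => [0, 0, 0, 0, 0, 0, 1, 1].getD k 0)
    (by decide) (by decide) (by decide) (by decide) (by decide) (by decide) (by decide)

theorem ip_two {d a b : ℕ} (ha : a < d) (hb : b < d) (s : ℤ) (f : ℕ → ℤ) :
    ip d (fun _ => 1) (fun k => (if k = a then 1 else 0) + s * (if k = b then 1 else 0)) f =
      f a + s * f b := by
  simp [ip, add_mul, Finset.sum_add_distrib, ha, hb]

set_option maxHeartbeats 1000000 in
theorem ex_demi (e : ℕ) (he : 1 ≤ e) :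
    ∃ P : Set (EuclideanSpace ℝ (Fin (e + 4))), IsPolytope P ∧ flagOrbits P = e + 2 := by
  obtain ⟨a, b, s, h⟩ : ∃ (a b : ℕ → ℕ) (s : ℕ → ℤ), ∀ i,
      (i = 0 ∧ a i = 1 ∧ b i = 0 ∧ s i = 1) ∨ (i = e + 3 ∧ a i = 1 ∧ b i = 0 ∧ s i = -1) ∨
        (i ≠ 0 ∧ i ≠ e + 3 ∧ a i = i + 1 ∧ b i = i ∧ s i = -1) := by
    refine ⟨fun i => if i = 0 ∨ i = e + 3 then 1 else i + 1,
      fun i => if i = 0 ∨ i = e + 3 then 0 else i, fun i => if i = 0 then 1 else -1, fun i => ?_⟩
    simp only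
    split_ifs <;> omega
  have key : ∀ i < e + 4, ∀ f : ℕ → ℤ, ip (e + 4) (fun _ => 1)
      (fun k => (if k = a i then 1 else 0) + s i * (if k = b i then 1 else 0)) f =
      f (a i) + s i * f (b i) :=
    fun i hi f => ip_two (by have := h i; omega) (by have := h i; omega) _ f
  refine wythoff_int (y := 1) (e := e) (by omega) (fun _ => 1) 2 (by norm_num)
    (fun i k => (if k = a i then 1 else 0) + s i * (if k = b i then 1 else 0))
    (fun k => k) (fun _ => 1) (fun k => if k = 0 then -1 else 1)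
    (fun k => if k = e + 3 then 1 else 0) (fun i hi j hj => ?_) (fun i hi => ?_) ?_
    (fun i hi h' => ?_) (fun i hi h' => ?_) (fun i hi h' => ?_) ?_
  · rw [key i hi]
    unfold cart tadj
    rcases h i with ⟨h1, h2, h3, h4⟩ | ⟨h1, h2, h3, h4⟩ | ⟨h0, h1, h2, h3, h4⟩ <;>
    rcases h j with ⟨g1, g2, g3, g4⟩ | ⟨g1, g2, g3, g4⟩ | ⟨g0, g1, g2, g3, g4⟩ <;>
    rw [h2, h3, h4] <;> simp only [g2, g3, g4] <;> split_ifs <;>
    first | contradiction | omega
  · rw [key i hi]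
    rcases h i with ⟨h1, h2, h3, h4⟩ | ⟨h1, h2, h3, h4⟩ | ⟨h0, h1, h2, h3, h4⟩ <;>
    rw [h2, h3, h4] <;> omega
  · rw [key 0 (by omega)]
    have := h 0
    omega
  · rw [key i hi]
    have := h i
    omega
  · rw [key i hi]
    rcases h i with ⟨h1, h2, h3, h4⟩ | ⟨h1, h2, h3, h4⟩ | ⟨h0, h1, h2, h3, h4⟩ <;>
    rw [h2, h3, h4] <;> split_ifs <;> first | contradiction | omega
  · rw [key i hi]
    rcases h i with ⟨h1, h2, h3, h4⟩ | ⟨h1, h2, h3, h4⟩ | ⟨h0, h1, h2, h3, h4⟩ <;>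
    rw [h2, h3, h4] <;> split_ifs <;> first | contradiction | omega
  · have h1 : ip (e + 4) (fun _ => 1) (fun _ => 1) (fun k => if k = 0 then -1 else 1) = e + 2 := by
      rw [ip, Finset.sum_range_succ']
      simp
      ring
    have h2 : ip (e + 4) (fun _ => 1) (fun k => if k = 0 then -1 else 1)
        (fun k => if k = 0 then -1 else 1) = e + 4 := by
      rw [ip, Finset.sum_range_succ']
      simp
      ring
    have h3 : ip (e + 4) (fun _ => 1) (fun _ => 1) (fun k => if k = e + 3 then 1 else 0) = 1 := by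
      simp [ip]
    have h4 : ip (e + 4) (fun _ => 1) (fun k => if k = e + 3 then 1 else 0)
        (fun k => if k = e + 3 then 1 else 0) = 1 := by
      simp [ip]
    rw [h1, h2, h3, h4]
    have : (1 : ℤ) ≤ e := by exact_mod_cast he
    nlinarith

end Pool.Agent.Lib.MP_727bc7_co
end
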