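import Mathlib

-- part Pool.Agent.Lib.MP_727bc7_co.Geo
section

/-! Abstract flag geometries, roots and walls. -/

namespace Pool.Agent.Lib.MP_727bc7_co

open scoped RealInnerProductSpace

/-- The data and properties of the flags of a convex polytope that the argument uses. -/
structure Geo (V : Type*) [NormedAddCommGroup V] [InnerProductSpace ℝ V] (F : Type) where
  d : ℕ
  r : ℕ → F → F
  c : ℕ → F → V
  G : Subgroup (V ≃ₗᵢ[ℝ] V)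
  c_r : ∀ i < d, ∀ j < d, j ≠ i → ∀ Φ, c j (r i Φ) = c j Φ
  c_r_ne : ∀ i < d, ∀ Φ, c i (r i Φ) ≠ c i Φ
  span : ∀ Φ w, (∀ j < d, ⟪w, c j Φ⟫ = 0) → w = 0
  diamond : ∀ i < d, ∀ Φ Ψ, (∀ j < d, j + 1 = i ∨ j = i + 1 → c j Ψ = c j Φ) →
    c i Ψ = c i Φ ∨ c i Ψ = c i (r i Φ)
  ext : ∀ Φ Ψ, (∀ j < d, c j Φ = c j Ψ) → Φ = Ψ
  uniq : ∀ i < d, ∀ j < d, j + 1 = i ∨ j = i + 1 → ∀ Φ1 Φ2 Ψ1 Ψ2, c i Φ1 ≠ c i Φ2 →
    c j Φ1 = c j Φ2 → c i Ψ1 = c i Φ1 → c i Ψ2 = c i Φ2 → c j Ψ1 = c j Ψ2 → c j Ψ1 = c j Φ1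
  act : ∀ g ∈ G, ∀ Φ, ∃ Ψ, ∀ j < d, c j Ψ = g (c j Φ)
  sign : ∀ α, ‖α‖ = 1 → (∃ g ∈ G, ∀ v, g v = v - (2 * ⟪α, v⟫) • α) →
    ∀ Φ, ∀ i < d, ∀ j < d, 0 ≤ ⟪α, c i Φ⟫ * ⟪α, c j Φ⟫
  conn : ∀ Φ Ψ, Relation.ReflTransGen (fun x y => ∃ i < d, y = r i x) Φ Ψ

variable {V : Type*} [NormedAddCommGroup V] [InnerProductSpace ℝ V] {F : Type}

namespace Geo

variable (𝒢 : Geo V F)

theorem c_r_congr {i : ℕ} (hi : i < 𝒢.d) {Φ Ψ : F}
    (h : ∀ j < 𝒢.d, j + 1 = i ∨ j = i + 1 → 𝒢.c j Ψ = 𝒢.c j Φ) (h0 : 𝒢.c i Ψ = 𝒢.c i Φ) :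
    𝒢.c i (𝒢.r i Ψ) = 𝒢.c i (𝒢.r i Φ) := by
  rcases 𝒢.diamond i hi Φ (𝒢.r i Ψ) (fun j hj hij => by
    rw [𝒢.c_r i hi j hj (by omega), h j hj hij]) with h1 | h1
  · exact absurd (h1.trans h0.symm) (𝒢.c_r_ne i hi Ψ)
  · exact h1

theorem r_r {i : ℕ} (hi : i < 𝒢.d) (Φ : F) : 𝒢.r i (𝒢.r i Φ) = Φ := by
  refine 𝒢.ext _ _ (fun j hj => ?_)
  by_cases hji : j = i
  · subst hji
    rcases 𝒢.diamond j hj Φ (𝒢.r j (𝒢.r j Φ)) (fun l hl hjl => by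
      rw [𝒢.c_r j hj l hl (by omega), 𝒢.c_r j hj l hl (by omega)]) with h1 | h1
    · exact h1
    · exact absurd h1 (𝒢.c_r_ne j hj _)
  · rw [𝒢.c_r i hi j hj hji, 𝒢.c_r i hi j hj hji]

theorem r_comm {i j : ℕ} (hi : i < 𝒢.d) (hj : j < 𝒢.d) (hij : i + 2 ≤ j) (Φ : F) :
    𝒢.r i (𝒢.r j Φ) = 𝒢.r j (𝒢.r i Φ) := by
  refine 𝒢.ext _ _ (fun l hl => ?_)
  by_cases hli : l = i
  · subst hli
    rw [𝒢.c_r j hj l hl (by omega)]
    exact 𝒢.c_r_congr hl (fun x hx hxl => 𝒢.c_r j hj x hx (by omega) _)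
      (𝒢.c_r j hj l hl (by omega) _)
  by_cases hlj : l = j
  · subst hlj
    rw [𝒢.c_r i hi l hl (by omega)]
    exact (𝒢.c_r_congr hl (fun x hx hxl => 𝒢.c_r i hi x hx (by omega) _)
      (𝒢.c_r i hi l hl (by omega) _)).symm
  rw [𝒢.c_r i hi l hl hli, 𝒢.c_r j hj l hl hlj, 𝒢.c_r j hj l hl hlj, 𝒢.c_r i hi l hl hli]

/-- `g` carries the flag `Φ` to the flag `Ψ` -/
def Maps (g : V ≃ₗᵢ[ℝ] V) (Φ Ψ : F) : Prop := ∀ j < 𝒢.d, 𝒢.c j Ψ = g (𝒢.c j Φ)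

variable {𝒢}

theorem Maps.r {g : V ≃ₗᵢ[ℝ] V} (hg : g ∈ 𝒢.G) {Φ Ψ : F} (h : 𝒢.Maps g Φ Ψ) {i : ℕ}
    (hi : i < 𝒢.d) : 𝒢.Maps g (𝒢.r i Φ) (𝒢.r i Ψ) := by
  obtain ⟨Θ, hΘ⟩ := 𝒢.act g hg (𝒢.r i Φ)
  intro j hj
  by_cases hji : j = i
  · subst hji
    rcases 𝒢.diamond j hj Ψ Θ (fun l hl hjl => by
      rw [hΘ l hl, h l hl, 𝒢.c_r j hj l hl (by omega)]) with h1 | h1
    · rw [hΘ j hj, h j hj] at h1
      exact absurd (g.injective h1) (𝒢.c_r_ne j hj _)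
    · rw [← h1, hΘ j hj]
  · rw [𝒢.c_r i hi j hj hji, 𝒢.c_r i hi j hj hji, h j hj]

variable (𝒢)

/-- equivalence of flags under the group -/
def Eqv (Φ Ψ : F) : Prop := ∃ g ∈ 𝒢.G, 𝒢.Maps g Φ Ψ

theorem Eqv.refl (Φ : F) : 𝒢.Eqv Φ Φ := ⟨1, 𝒢.G.one_mem, fun _ _ => rfl⟩

variable {𝒢}

theorem Eqv.symm {Φ Ψ : F} (h : 𝒢.Eqv Φ Ψ) : 𝒢.Eqv Ψ Φ := by
  obtain ⟨g, hg, h⟩ := h
  refine ⟨g⁻¹, 𝒢.G.inv_mem hg, fun j hj => ?_⟩
  rw [h j hj]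
  exact (g.symm_apply_apply _).symm

theorem Eqv.trans {Φ Ψ Θ : F} (h : 𝒢.Eqv Φ Ψ) (h' : 𝒢.Eqv Ψ Θ) : 𝒢.Eqv Φ Θ := by
  obtain ⟨g, hg, h⟩ := h
  obtain ⟨g', hg', h'⟩ := h'
  refine ⟨g' * g, 𝒢.G.mul_mem hg' hg, fun j hj => ?_⟩
  rw [h' j hj, h j hj]
  rfl

theorem Eqv.r {Φ Ψ : F} (h : 𝒢.Eqv Φ Ψ) {i : ℕ} (hi : i < 𝒢.d) :
    𝒢.Eqv (𝒢.r i Φ) (𝒢.r i Ψ) := by
  obtain ⟨g, hg, h⟩ := h
  exact ⟨g, hg, h.r hg hi⟩

variable (𝒢)

/-- a set of unit roots whose reflections lie in the group -/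
structure Roots (R : Set V) : Prop where
  norm : ∀ α ∈ R, ‖α‖ = 1
  neg : ∀ α ∈ R, -α ∈ R
  refl : ∀ α ∈ R, ∀ β ∈ R, β - (2 * ⟪α, β⟫) • α ∈ R
  mem : ∀ α ∈ R, ∃ g ∈ 𝒢.G, ∀ v, g v = v - (2 * ⟪α, v⟫) • α

def Pos (Φ : F) (α : V) : Prop := ∀ j < 𝒢.d, 0 ≤ ⟪α, 𝒢.c j Φ⟫

def Same (R : Set V) (Φ Ψ : F) : Prop := ∀ α ∈ R, 𝒢.Pos Φ α ↔ 𝒢.Pos Ψ α

def IsN (R : Set V) (Φ : F) (i : ℕ) (α : V) : Prop :=
  α ∈ R ∧ 𝒢.Pos Φ α ∧ ∀ j < 𝒢.d, j ≠ i → ⟪α, 𝒢.c j Φ⟫ = 0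

def Mir (R : Set V) (Φ : F) (i : ℕ) : Prop := ∃ α, 𝒢.IsN R Φ i α

def Wall (R : Set V) (Φ : F) (α : V) : Prop :=
  ∃ Ψ, 𝒢.Same R Φ Ψ ∧ ∃ i < 𝒢.d, 𝒢.IsN R Ψ i α

variable {𝒢} {R : Set V}

theorem Same.refl (Φ : F) : 𝒢.Same R Φ Φ := fun _ _ => Iff.rfl

theorem Same.symm {Φ Ψ : F} (h : 𝒢.Same R Φ Ψ) : 𝒢.Same R Ψ Φ := fun α hα => (h α hα).symm

theorem Same.trans {Φ Ψ Θ : F} (h : 𝒢.Same R Φ Ψ) (h' : 𝒢.Same R Ψ Θ) : 𝒢.Same R Φ Θ :=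
  fun α hα => (h α hα).trans (h' α hα)

theorem Wall.of_same {Φ Ψ : F} (h : 𝒢.Same R Φ Ψ) {α : V} (hα : 𝒢.Wall R Ψ α) :
    𝒢.Wall R Φ α := by
  obtain ⟨Θ, h1, h2⟩ := hα
  exact ⟨Θ, h.trans h1, h2⟩

theorem IsN.wall {Φ : F} {i : ℕ} (hi : i < 𝒢.d) {α : V} (h : 𝒢.IsN R Φ i α) : 𝒢.Wall R Φ α :=
  ⟨Φ, Same.refl Φ, i, hi, h⟩

theorem Wall.mem {Φ : F} {α : V} (h : 𝒢.Wall R Φ α) : α ∈ R := by
  obtain ⟨_, _, _, _, h⟩ := h
  exact h.1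

theorem Wall.pos {Φ : F} {α : V} (h : 𝒢.Wall R Φ α) : 𝒢.Pos Φ α := by
  obtain ⟨Ψ, h1, _, _, h⟩ := h
  exact (h1 α h.1).2 h.2.1

theorem Roots.ne_zero (hR : 𝒢.Roots R) {α : V} (hα : α ∈ R) : α ≠ 0 := by
  intro h
  have := hR.norm α hα
  rw [h] at this
  simp at this

theorem Roots.inner_self (hR : 𝒢.Roots R) {α : V} (hα : α ∈ R) : ⟪α, α⟫ = 1 := by
  rw [real_inner_self_eq_norm_sq, hR.norm α hα]
  norm_num

theorem Roots.exists_ne (hR : 𝒢.Roots R) {α : V} (hα : α ∈ R) (Φ : F) :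
    ∃ j < 𝒢.d, ⟪α, 𝒢.c j Φ⟫ ≠ 0 := by
  by_contra hc
  push Not at hc
  exact hR.ne_zero hα (𝒢.span Φ α hc)

theorem Roots.pos_or (hR : 𝒢.Roots R) {α : V} (hα : α ∈ R) (Φ : F) :
    𝒢.Pos Φ α ∨ 𝒢.Pos Φ (-α) := by
  obtain ⟨j, hj, hne⟩ := hR.exists_ne hα Φ
  have hs := 𝒢.sign α (hR.norm α hα) (hR.mem α hα) Φ j hj
  rcases lt_or_gt_of_ne hne with h | h
  · right
    intro i hi
    rw [inner_neg_left]
    have := hs i hi
    nlinarith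
  · left
    intro i hi
    have := hs i hi
    nlinarith

theorem Roots.same_r (hR : 𝒢.Roots R) {Φ : F} {j : ℕ} (hj : j < 𝒢.d) (h : ¬ 𝒢.Mir R Φ j) :
    𝒢.Same R Φ (𝒢.r j Φ) := by
  intro α hα
  constructor
  · intro h1
    rcases hR.pos_or hα (𝒢.r j Φ) with h2 | h2
    · exact h2
    · exfalso
      refine h ⟨α, hα, h1, fun i hi hij => ?_⟩
      have a1 := h1 i hi
      have a2 := h2 i hi
      rw [𝒢.c_r j hj i hi hij, inner_neg_left] at a2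
      linarith
  · intro h1
    rcases hR.pos_or hα Φ with h2 | h2
    · exact h2
    · exfalso
      refine h ⟨-α, hR.neg α hα, h2, fun i hi hij => ?_⟩
      have a1 := h1 i hi
      have a2 := h2 i hi
      rw [𝒢.c_r j hj i hi hij] at a1
      rw [inner_neg_left] at a2 ⊢
      linarith

theorem Roots.isN_pos (hR : 𝒢.Roots R) {Φ : F} {i : ℕ} {α : V} (h : 𝒢.IsN R Φ i α) :
    0 < ⟪α, 𝒢.c i Φ⟫ := by
  obtain ⟨j, hj, hne⟩ := hR.exists_ne h.1 Φ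
  have hji : j = i := by
    by_contra hc
    exact hne (h.2.2 j hj hc)
  subst hji
  exact lt_of_le_of_ne (h.2.1 j hj) hne.symm

theorem refl_eq_self_iff {α : V} (hα : α ≠ 0) (v : V) :
    v - (2 * ⟪α, v⟫) • α = v ↔ ⟪α, v⟫ = 0 := by
  constructor
  · intro h
    have h1 : (2 * ⟪α, v⟫) • α = 0 := by simpa using h
    rcases smul_eq_zero.1 h1 with h2 | h2
    · linarith
    · exact absurd h2 hα
  · intro h
    simp [h]

theorem Roots.isN_maps (hR : 𝒢.Roots R) {Φ : F} {i : ℕ} (hi : i < 𝒢.d) {α : V}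
    (h : 𝒢.IsN R Φ i α) :
    ∀ j < 𝒢.d, 𝒢.c j (𝒢.r i Φ) = 𝒢.c j Φ - (2 * ⟪α, 𝒢.c j Φ⟫) • α := by
  obtain ⟨g, hg, hgv⟩ := hR.mem α h.1
  obtain ⟨Ψ, hΨ⟩ := 𝒢.act g hg Φ
  intro j hj
  by_cases hji : j = i
  · subst hji
    rcases 𝒢.diamond j hj Φ Ψ (fun l hl hjl => by
      rw [hΨ l hl, hgv, h.2.2 l hl (by omega)]; simp) with h1 | h1
    · rw [hΨ j hj, hgv, refl_eq_self_iff (hR.ne_zero h.1)] at h1
      exact absurd h1 (hR.isN_pos h).ne'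
    · rw [← h1, hΨ j hj, hgv]
  · rw [𝒢.c_r i hi j hj hji, h.2.2 j hj hji]
    simp

theorem Roots.mir_eqv (hR : 𝒢.Roots R) {Φ : F} {i : ℕ} (hi : i < 𝒢.d) (h : 𝒢.Mir R Φ i) :
    𝒢.Eqv Φ (𝒢.r i Φ) := by
  obtain ⟨α, h⟩ := h
  obtain ⟨g, hg, hgv⟩ := hR.mem α h.1
  exact ⟨g, hg, fun j hj => by rw [hR.isN_maps hi h j hj, hgv]⟩

theorem Roots.mir_r (hR : 𝒢.Roots R) {Φ : F} {i : ℕ} (hi : i < 𝒢.d) (h : 𝒢.Mir R Φ i) :
    𝒢.Mir R (𝒢.r i Φ) i := by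
  obtain ⟨α, h⟩ := h
  refine ⟨-α, hR.neg α h.1, fun j hj => ?_, fun j hj hji => ?_⟩
  · rw [hR.isN_maps hi h j hj, inner_neg_left, inner_sub_right, inner_smul_right,
      hR.inner_self h.1]
    have := h.2.1 j hj
    linarith
  · rw [𝒢.c_r i hi j hj hji, inner_neg_left, h.2.2 j hj hji]
    simp

theorem Roots.not_mir_r (hR : 𝒢.Roots R) {Φ : F} {i : ℕ} (hi : i < 𝒢.d) (h : ¬ 𝒢.Mir R Φ i) :
    ¬ 𝒢.Mir R (𝒢.r i Φ) i := by
  intro hc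
  have := hR.mir_r hi hc
  rw [𝒢.r_r hi] at this
  exact h this

theorem Roots.wit (hR : 𝒢.Roots R) {Φ : F} {α β : V} (hα : 𝒢.Wall R Φ α) (hβ : β ∈ R)
    (hβp : 𝒢.Pos Φ β) (hne : β ≠ α) :
    ∃ y, (∀ γ ∈ R, 𝒢.Pos Φ γ → 0 ≤ ⟪γ, y⟫) ∧ ⟪α, y⟫ = 0 ∧ 0 < ⟪β, y⟫ := by
  obtain ⟨Ψ, hs, i, hi, hN⟩ := hα
  have hβp' : 𝒢.Pos Ψ β := (hs β hβ).1 hβp
  by_contra hc
  have h0 : ∀ j < 𝒢.d, j ≠ i → ⟪β, 𝒢.c j Ψ⟫ = 0 := by
    intro j hj hji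
    by_contra hc2
    exact hc ⟨𝒢.c j Ψ, fun γ hγ hγp => (hs γ hγ).1 hγp j hj, hN.2.2 j hj hji,
      lt_of_le_of_ne (hβp' j hj) (Ne.symm hc2)⟩
  have ha := hR.isN_pos hN
  have hb := hβp' i hi
  have h1 := 𝒢.span Ψ (⟪α, 𝒢.c i Ψ⟫ • β - ⟪β, 𝒢.c i Ψ⟫ • α) (by
    intro j hj
    rw [inner_sub_left, real_inner_smul_left, real_inner_smul_left]
    by_cases hji : j = i
    · subst hji; ring
    · rw [h0 j hj hji, hN.2.2 j hj hji]; ring)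
  have h2 : ⟪α, 𝒢.c i Ψ⟫ • β = ⟪β, 𝒢.c i Ψ⟫ • α := sub_eq_zero.1 h1
  have h3 := congrArg (fun v : V => ‖v‖) h2
  rw [norm_smul, norm_smul, hR.norm β hβ, hR.norm α hN.1, Real.norm_of_nonneg ha.le,
    Real.norm_of_nonneg hb] at h3
  have h4 : ⟪β, 𝒢.c i Ψ⟫ = ⟪α, 𝒢.c i Ψ⟫ := by linarith
  rw [h4] at h2
  exact hne (smul_right_injective V ha.ne' h2)

theorem Roots.comb_sign (hR : 𝒢.Roots R) {Φ : F} {α β : V} (hα : 𝒢.Wall R Φ α)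
    (hβ : 𝒢.Wall R Φ β) (hne : α ≠ β) {x y : ℝ} (hγ : x • α + y • β ∈ R) :
    (0 ≤ x ∧ 0 ≤ y) ∨ (x ≤ 0 ∧ y ≤ 0) := by
  obtain ⟨p, hp1, hp2, hp3⟩ := hR.wit hα hβ.mem hβ.pos hne.symm
  obtain ⟨q, hq1, hq2, hq3⟩ := hR.wit hβ hα.mem hα.pos hne
  rcases hR.pos_or hγ Φ with h | h
  · left
    have a1 := hp1 _ hγ h
    have a2 := hq1 _ hγ h
    rw [inner_add_left, real_inner_smul_left, real_inner_smul_left] at a1 a2
    rw [hp2] at a1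
    rw [hq2] at a2
    constructor <;> nlinarith
  · right
    have a1 := hp1 _ (hR.neg _ hγ) h
    have a2 := hq1 _ (hR.neg _ hγ) h
    rw [inner_neg_left, inner_add_left, real_inner_smul_left, real_inner_smul_left] at a1 a2
    rw [hp2] at a1
    rw [hq2] at a2
    constructor <;> nlinarith

theorem Roots.wall_inner (hR : 𝒢.Roots R) {Φ : F} {α β : V} (hα : 𝒢.Wall R Φ α)
    (hβ : 𝒢.Wall R Φ β) (hne : α ≠ β) : ⟪α, β⟫ = 0 ∨ ⟪α, β⟫ ≤ -1 / 2 := by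
  have h1 := hR.refl α hα.mem β hβ.mem
  have h2 := hR.refl _ h1 α hα.mem
  set c := ⟪α, β⟫ with hc
  have e1 : β - (2 * c) • α = (-(2 * c)) • α + (1 : ℝ) • β := by module
  have e2 : ⟪β - (2 * c) • α, α⟫ = -c := by
    rw [inner_sub_left, real_inner_smul_left, hR.inner_self hα.mem, real_inner_comm]
    ring
  rw [e2] at h2
  have e3 : α - (2 * -c) • (β - (2 * c) • α) = (1 - 4 * c ^ 2) • α + (2 * c) • β := by module
  rw [e3] at h2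
  rw [e1] at h1
  have a1 := hR.comb_sign hα hβ hne h1
  have a2 := hR.comb_sign hα hβ hne h2
  by_cases hc0 : c = 0
  · exact Or.inl hc0
  right
  have hneg : c < 0 := by
    rcases a1 with a1 | a1
    · exact lt_of_le_of_ne (by linarith [a1.1]) hc0
    · linarith [a1.2]
  rcases a2 with a2 | a2
  · linarith [a2.2]
  · nlinarith [a2.1]

theorem Roots.wall_inner_le (hR : 𝒢.Roots R) {Φ : F} {α β : V} (hα : 𝒢.Wall R Φ α)
    (hβ : 𝒢.Wall R Φ β) (hne : α ≠ β) : ⟪α, β⟫ ≤ 0 := by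
  rcases hR.wall_inner hα hβ hne with h | h <;> linarith

theorem Roots.copos (hR : 𝒢.Roots R) {Φ : F} {ι : Type*} (s : Finset ι) (f : ι → V) (a : ι → ℝ)
    (hf : ∀ i ∈ s, 𝒢.Wall R Φ (f i)) (ha : ∀ i ∈ s, 0 ≤ a i) (h : ∑ i ∈ s, a i • f i = 0) :
    ∀ i ∈ s, a i = 0 := by
  intro i hi
  obtain ⟨j, hj, hne⟩ := hR.exists_ne (hf i hi).mem Φ
  have h1 : ∑ l ∈ s, a l * ⟪f l, 𝒢.c j Φ⟫ = 0 := by
    have := congrArg (fun v => ⟪v, 𝒢.c j Φ⟫) h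
    simpa [sum_inner, real_inner_smul_left] using this
  rw [Finset.sum_eq_zero_iff_of_nonneg
    (fun l hl => mul_nonneg (ha l hl) ((hf l hl).pos j hj))] at h1
  rcases mul_eq_zero.1 (h1 i hi) with h2 | h2
  · exact h2
  · exact absurd h2 hne

theorem Roots.indep (hR : 𝒢.Roots R) {Φ : F} {ι : Type*} [Fintype ι] (f : ι → V)
    (hinj : Function.Injective f) (hf : ∀ i, 𝒢.Wall R Φ (f i)) (a : ι → ℝ)
    (h : ∑ i, a i • f i = 0) : ∀ i, a i = 0 := by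
  have e : ∑ i, max (a i) 0 • f i = ∑ i, max (-a i) 0 • f i := by
    rw [← sub_eq_zero, ← Finset.sum_sub_distrib, ← h]
    refine Finset.sum_congr rfl (fun i _ => ?_)
    rw [← sub_smul]
    congr 1
    rcases le_total (a i) 0 with h1 | h1
    · rw [max_eq_right h1, max_eq_left (by linarith)]; ring
    · rw [max_eq_left h1, max_eq_right (by linarith)]; ring
  have h1 : ⟪∑ i, max (a i) 0 • f i, ∑ i, max (-a i) 0 • f i⟫ ≤ 0 := by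
    rw [sum_inner]
    refine Finset.sum_nonpos (fun i _ => ?_)
    rw [inner_sum]
    refine Finset.sum_nonpos (fun j _ => ?_)
    rw [real_inner_smul_left, real_inner_smul_right]
    by_cases hij : i = j
    · subst hij
      rcases le_total (a i) 0 with h1 | h1
      · rw [max_eq_right h1]; simp
      · rw [max_eq_right (show -a i ≤ 0 by linarith)]; simp
    · have := hR.wall_inner_le (hf i) (hf j) (fun hc => hij (hinj hc))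
      exact mul_nonpos_of_nonneg_of_nonpos (le_max_right _ _)
        (mul_nonpos_of_nonneg_of_nonpos (le_max_right _ _) this)
  have h2 : ∑ i, max (-a i) 0 • f i = 0 := by
    rw [e] at h1
    exact real_inner_self_nonpos.1 h1
  have h3 : ∑ i, max (a i) 0 • f i = 0 := by rw [e, h2]
  intro i
  have a1 := hR.copos Finset.univ f _ (fun i _ => hf i) (fun i _ => le_max_right _ _) h2 i
    (Finset.mem_univ _)
  have a2 := hR.copos Finset.univ f _ (fun i _ => hf i) (fun i _ => le_max_right _ _) h3 i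
    (Finset.mem_univ _)
  have b1 := le_max_left (-a i) 0
  have b2 := le_max_left (a i) 0
  linarith

theorem Roots.card_le (hR : 𝒢.Roots R) {Φ : F} {ι : Type*} [Fintype ι] (f : ι → V)
    (hinj : Function.Injective f) (hf : ∀ i, 𝒢.Wall R Φ (f i)) (J : Finset ℕ)
    (hJ : ∀ i, ∀ j < 𝒢.d, j ∉ J → ⟪f i, 𝒢.c j Φ⟫ = 0) : Fintype.card ι ≤ J.card := by
  classical
  let g : ι → (J → ℝ) := fun i j => ⟪f i, 𝒢.c j Φ⟫
  have hg : LinearIndependent ℝ g := by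
    rw [Fintype.linearIndependent_iff]
    intro a ha
    refine hR.indep f hinj hf a (𝒢.span Φ _ (fun j hj => ?_))
    rw [sum_inner]
    by_cases hjJ : j ∈ J
    · have := congrFun ha ⟨j, hjJ⟩
      simpa [g, real_inner_smul_left] using this
    · refine Finset.sum_eq_zero (fun i _ => ?_)
      rw [real_inner_smul_left, hJ i j hj hjJ, mul_zero]
  have := hg.fintype_card_le_finrank
  simpa using this

end Geo

end Pool.Agent.Lib.MP_727bc7_co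
end

-- part Pool.Agent.Lib.MP_727bc7_co.Geo2
section

/-! Forbidden configurations of walls, and the interval lemma. -/

namespace Pool.Agent.Lib.MP_727bc7_co

open scoped RealInnerProductSpace

variable {V : Type*} [NormedAddCommGroup V] [InnerProductSpace ℝ V] {F : Type}

namespace Geo

variable {𝒢 : Geo V F} {R : Set V}

theorem Roots.wall_adj (hR : 𝒢.Roots R) {Φ : F} {α β : V} (hα : 𝒢.Wall R Φ α)
    (hβ : 𝒢.Wall R Φ β) (hne : α ≠ β) (h : ⟪α, β⟫ ≠ 0) : ⟪α, β⟫ ≤ -1 / 2 := by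
  rcases hR.wall_inner hα hβ hne with h1 | h1
  · exact absurd h1 h
  · exact h1

theorem Roots.inner_sum_le (hR : 𝒢.Roots R) {Φ : F} (A : Finset ℕ) (f : ℕ → V)
    (hf : ∀ x ∈ A, 𝒢.Wall R Φ (f x)) {β : V} (hβ : 𝒢.Wall R Φ β) (hne : ∀ x ∈ A, f x ≠ β)
    {y : ℕ} (hy : y ∈ A) (hadj : ⟪f y, β⟫ ≠ 0) : ⟪∑ x ∈ A, f x, β⟫ ≤ -1 / 2 := by
  classical
  rw [sum_inner, ← Finset.add_sum_erase A _ hy]
  have h1 := hR.wall_adj (hf y hy) hβ (hne y hy) hadj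
  have h2 : ∑ x ∈ A.erase y, ⟪f x, β⟫ ≤ 0 := Finset.sum_nonpos (fun x hx =>
    hR.wall_inner_le (hf x (Finset.mem_of_mem_erase hx)) hβ (hne x (Finset.mem_of_mem_erase hx)))
  linarith

theorem Roots.sum_norm_le (hR : 𝒢.Roots R) {Φ : F} (f : ℕ → V) (A : Finset ℕ) :
    (∀ x ∈ A, 𝒢.Wall R Φ (f x)) → (∀ x ∈ A, ∀ y ∈ A, f x = f y → x = y) →
    (∀ x ∈ A, (∃ y ∈ A, y < x) → ∃ y ∈ A, y < x ∧ ⟪f y, f x⟫ ≠ 0) →
    ⟪∑ x ∈ A, f x, ∑ x ∈ A, f x⟫ ≤ 1 := by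
  classical
  induction A using Finset.induction_on_max with
  | empty => simp
  | insert a s ha ih =>
    intro h1 h2 h3
    have has : a ∉ s := fun hc => lt_irrefl _ (ha a hc)
    have hwa := h1 a (Finset.mem_insert_self _ _)
    rw [Finset.sum_insert has]
    rcases s.eq_empty_or_nonempty with hs | ⟨z, hz⟩
    · subst hs
      simp [hR.norm _ hwa.mem]
    have ih' := ih (fun x hx => h1 x (Finset.mem_insert_of_mem hx))
      (fun x hx y hy => h2 x (Finset.mem_insert_of_mem hx) y (Finset.mem_insert_of_mem hy))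
      (by
        rintro x hx ⟨y, hy, hyx⟩
        obtain ⟨w, hw1, hw2, hw3⟩ := h3 x (Finset.mem_insert_of_mem hx)
          ⟨y, Finset.mem_insert_of_mem hy, hyx⟩
        rcases Finset.mem_insert.1 hw1 with rfl | hw1
        · exact absurd (ha x hx) (by omega)
        · exact ⟨w, hw1, hw2, hw3⟩)
    obtain ⟨w, hw1, hw2, hw3⟩ := h3 a (Finset.mem_insert_self _ _)
      ⟨z, Finset.mem_insert_of_mem hz, ha z hz⟩
    have hws : w ∈ s := by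
      rcases Finset.mem_insert.1 hw1 with rfl | hw1
      · omega
      · exact hw1
    have h4 := hR.inner_sum_le s f (fun x hx => h1 x (Finset.mem_insert_of_mem hx)) hwa
      (fun x hx hc => has (by
        rw [← h2 x (Finset.mem_insert_of_mem hx) a (Finset.mem_insert_self _ _) hc]; exact hx))
      hws hw3
    rw [inner_add_left, inner_add_right, inner_add_right, hR.inner_self hwa.mem,
      real_inner_comm]
    linarith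

theorem pos_sum {Φ : F} (A : Finset ℕ) (f : ℕ → V) (hf : ∀ x ∈ A, 𝒢.Pos Φ (f x)) :
    𝒢.Pos Φ (∑ x ∈ A, f x) := by
  intro j hj
  rw [sum_inner]
  exact Finset.sum_nonneg (fun x hx => hf x hx j hj)

theorem Pos.add {Φ : F} {a b : V} (ha : 𝒢.Pos Φ a) (hb : 𝒢.Pos Φ b) : 𝒢.Pos Φ (a + b) := by
  intro j hj
  rw [inner_add_left]
  exact add_nonneg (ha j hj) (hb j hj)

theorem Roots.not_nonpos (hR : 𝒢.Roots R) {Φ : F} {u b : V} (hu : 𝒢.Pos Φ u)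
    (hb : 𝒢.Wall R Φ b) (h : ⟪u + b, u + b⟫ ≤ 0) : False := by
  have h0 : u + b = 0 := real_inner_self_nonpos.1 h
  obtain ⟨j, hj, hne⟩ := hR.exists_ne hb.mem Φ
  have h1 : ⟪u + b, 𝒢.c j Φ⟫ = 0 := by rw [h0]; simp
  rw [inner_add_left] at h1
  have h2 := hu j hj
  have h3 := hb.pos j hj
  exact hne (by linarith)

/-- no cycles -/
theorem Roots.no_two (hR : 𝒢.Roots R) {Φ : F} (f : ℕ → V) (A : Finset ℕ)
    (h1 : ∀ x ∈ A, 𝒢.Wall R Φ (f x)) (h2 : ∀ x ∈ A, ∀ y ∈ A, f x = f y → x = y)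
    (h3 : ∀ x ∈ A, (∃ y ∈ A, y < x) → ∃ y ∈ A, y < x ∧ ⟪f y, f x⟫ ≠ 0)
    {β : V} (hβ : 𝒢.Wall R Φ β) (hne : ∀ x ∈ A, f x ≠ β) {y z : ℕ} (hy : y ∈ A) (hz : z ∈ A)
    (hyz : y ≠ z) (ay : ⟪f y, β⟫ ≠ 0) (az : ⟪f z, β⟫ ≠ 0) : False := by
  classical
  have a1 := hR.sum_norm_le f A h1 h2 h3
  have a2 : ⟪∑ x ∈ A, f x, β⟫ ≤ -1 := by
    rw [← Finset.add_sum_erase A _ hy, inner_add_left]
    have b1 := hR.wall_adj (h1 y hy) hβ (hne y hy) ay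
    have b2 := hR.inner_sum_le (A.erase y) f (fun x hx => h1 x (Finset.mem_of_mem_erase hx)) hβ
      (fun x hx => hne x (Finset.mem_of_mem_erase hx)) (Finset.mem_erase.2 ⟨hyz.symm, hz⟩) az
    linarith
  refine hR.not_nonpos (pos_sum A f (fun x hx => (h1 x hx).pos)) hβ ?_
  rw [inner_add_left, inner_add_right, inner_add_right, hR.inner_self hβ.mem,
    real_inner_comm _ β]
  linarith

/-- a connected set of walls has at most three outside neighbours -/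
theorem Roots.no_four (hR : 𝒢.Roots R) {Φ : F} (f : ℕ → V) (A : Finset ℕ)
    (h1 : ∀ x ∈ A, 𝒢.Wall R Φ (f x)) (h2 : ∀ x ∈ A, ∀ y ∈ A, f x = f y → x = y)
    (h3 : ∀ x ∈ A, (∃ y ∈ A, y < x) → ∃ y ∈ A, y < x ∧ ⟪f y, f x⟫ ≠ 0)
    {b1 b2 b3 b4 : V} (w1 : 𝒢.Wall R Φ b1) (w2 : 𝒢.Wall R Φ b2) (w3 : 𝒢.Wall R Φ b3)
    (w4 : 𝒢.Wall R Φ b4) (n1 : ∀ x ∈ A, f x ≠ b1) (n2 : ∀ x ∈ A, f x ≠ b2)
    (n3 : ∀ x ∈ A, f x ≠ b3) (n4 : ∀ x ∈ A, f x ≠ b4)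
    (e1 : ∃ y ∈ A, ⟪f y, b1⟫ ≠ 0) (e2 : ∃ y ∈ A, ⟪f y, b2⟫ ≠ 0) (e3 : ∃ y ∈ A, ⟪f y, b3⟫ ≠ 0)
    (e4 : ∃ y ∈ A, ⟪f y, b4⟫ ≠ 0) (d12 : b1 ≠ b2) (d13 : b1 ≠ b3) (d14 : b1 ≠ b4)
    (d23 : b2 ≠ b3) (d24 : b2 ≠ b4) (d34 : b3 ≠ b4) : False := by
  have a0 := hR.sum_norm_le f A h1 h2 h3
  obtain ⟨y1, hy1, e1⟩ := e1
  obtain ⟨y2, hy2, e2⟩ := e2
  obtain ⟨y3, hy3, e3⟩ := e3
  obtain ⟨y4, hy4, e4⟩ := e4
  have a1 := hR.inner_sum_le A f h1 w1 n1 hy1 e1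
  have a2 := hR.inner_sum_le A f h1 w2 n2 hy2 e2
  have a3 := hR.inner_sum_le A f h1 w3 n3 hy3 e3
  have a4 := hR.inner_sum_le A f h1 w4 n4 hy4 e4
  have c12 := hR.wall_inner_le w1 w2 d12
  have c13 := hR.wall_inner_le w1 w3 d13
  have c14 := hR.wall_inner_le w1 w4 d14
  have c23 := hR.wall_inner_le w2 w3 d23
  have c24 := hR.wall_inner_le w2 w4 d24
  have c34 := hR.wall_inner_le w3 w4 d34
  have s1 := hR.inner_self w1.mem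
  have s2 := hR.inner_self w2.mem
  have s3 := hR.inner_self w3.mem
  have s4 := hR.inner_self w4.mem
  have hp := pos_sum A f (fun x hx => (h1 x hx).pos)
  set w := ∑ x ∈ A, f x
  refine hR.not_nonpos (u := w + w + b1 + b2 + b3)
    ((((hp.add hp).add w1.pos).add w2.pos).add w3.pos) w4 ?_
  simp only [inner_add_left, inner_add_right, real_inner_comm w b1, real_inner_comm w b2,
    real_inner_comm w b3, real_inner_comm w b4, real_inner_comm b1 b2, real_inner_comm b1 b3,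
    real_inner_comm b1 b4, real_inner_comm b2 b3, real_inner_comm b2 b4, real_inner_comm b3 b4]
  linarith

/-- general positivity test -/
theorem Roots.no_graph (hR : 𝒢.Roots R) {Φ : F} {n : ℕ} (f : Fin n → V)
    (hinj : Function.Injective f) (hf : ∀ i, 𝒢.Wall R Φ (f i)) (ed : Fin n → Fin n → Bool)
    (hed : ∀ i j, ed i j = true → ⟪f i, f j⟫ ≠ 0) (a : Fin n → ℕ)
    (h : ∑ i, ∑ j, (if i = j then 2 * (a i * a j : ℤ) else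
      if (ed i j || ed j i) = true then -(a i * a j : ℤ) else 0) ≤ 0) : ∀ i, a i = 0 := by
  have h1 : ⟪∑ i, (a i : ℝ) • f i, ∑ i, (a i : ℝ) • f i⟫ ≤ 0 := by
    have h2 : (∑ i, ∑ j, (if i = j then 2 * (a i * a j : ℝ) else
      if (ed i j || ed j i) = true then -(a i * a j : ℝ) else 0)) ≤ 0 := by
      exact_mod_cast h
    have h3 : 2 * ⟪∑ i, (a i : ℝ) • f i, ∑ i, (a i : ℝ) • f i⟫ ≤
        ∑ i, ∑ j, (if i = j then 2 * (a i * a j : ℝ) else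
        if (ed i j || ed j i) = true then -(a i * a j : ℝ) else 0) := by
      rw [sum_inner, Finset.mul_sum]
      refine Finset.sum_le_sum (fun i _ => ?_)
      rw [inner_sum, Finset.mul_sum]
      refine Finset.sum_le_sum (fun j _ => ?_)
      rw [real_inner_smul_left, real_inner_smul_right]
      have hp : (0 : ℝ) ≤ a i * a j := by positivity
      split_ifs with hij he
      · subst hij
        rw [hR.inner_self (hf i).mem]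
        linarith
      · have hne : ⟪f i, f j⟫ ≠ 0 := by
          rcases Bool.or_eq_true_iff.1 he with he | he
          · exact hed i j he
          · rw [real_inner_comm]; exact hed j i he
        have := hR.wall_adj (hf i) (hf j) (fun hc => hij (hinj hc)) hne
        nlinarith
      · have := hR.wall_inner_le (hf i) (hf j) (fun hc => hij (hinj hc))
        nlinarith
    linarith
  intro i
  have := hR.indep f hinj hf (fun i => (a i : ℝ)) (real_inner_self_nonpos.1 h1) i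
  exact_mod_cast this

theorem Roots.exists_refl (hR : 𝒢.Roots R) {α : V} (hα : α ∈ R) :
    ∃ g ∈ 𝒢.G, (∀ v, g v = v - (2 * ⟪α, v⟫) • α) ∧ ∀ v, g v = v ↔ ⟪α, v⟫ = 0 := by
  obtain ⟨g, hg, hgv⟩ := hR.mem α hα
  exact ⟨g, hg, hgv, fun v => by rw [hgv, refl_eq_self_iff (hR.ne_zero hα)]⟩

theorem Roots.fix_r (hR : 𝒢.Roots R) {α : V} (hα : α ∈ R) {Φ : F} {j : ℕ} (hj : j < 𝒢.d)
    (h : ∀ x < 𝒢.d, x + 1 = j ∨ x = j + 1 → ⟪α, 𝒢.c x Φ⟫ = 0) (h0 : ⟪α, 𝒢.c j Φ⟫ = 0) :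
    ⟪α, 𝒢.c j (𝒢.r j Φ)⟫ = 0 := by
  obtain ⟨g, hg, -, hgv⟩ := hR.exists_refl hα
  obtain ⟨Ψ, hΨ⟩ := 𝒢.act g hg Φ
  have h1 := Maps.r hg hΨ hj j hj
  rw [← hgv, ← h1]
  exact 𝒢.c_r_congr hj (fun x hx hxj => by rw [hΨ x hx, (hgv _).2 (h x hx hxj)])
    (by rw [hΨ j hj, (hgv _).2 h0])

theorem Roots.fix_meet (hR : 𝒢.Roots R) {α : V} (hα : α ∈ R) {Φ : F} {i j : ℕ} (hi : i < 𝒢.d)
    (hj : j < 𝒢.d) (hij : j + 1 = i ∨ j = i + 1) (h1 : ⟪α, 𝒢.c i Φ⟫ = 0)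
    (h2 : ⟪α, 𝒢.c i (𝒢.r i Φ)⟫ = 0) : ⟪α, 𝒢.c j Φ⟫ = 0 := by
  obtain ⟨g, hg, -, hgv⟩ := hR.exists_refl hα
  obtain ⟨Ψ, hΨ⟩ := 𝒢.act g hg Φ
  have h3 := Maps.r hg hΨ hi
  rw [← hgv, ← hΨ j hj]
  exact 𝒢.uniq i hi j hj hij Φ (𝒢.r i Φ) Ψ (𝒢.r i Ψ) (𝒢.c_r_ne i hi Φ).symm
    (𝒢.c_r i hi j hj (by omega) Φ).symm (by rw [hΨ i hi, (hgv _).2 h1])
    (by rw [h3 i hi, (hgv _).2 h2]) (𝒢.c_r i hi j hj (by omega) Ψ).symm

theorem Roots.adj_of_isN (hR : 𝒢.Roots R) {α n : V} (hα : α ∈ R) {Φ : F} {i j : ℕ} (hi : i < 𝒢.d)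
    (hj : j < 𝒢.d) (hij : j + 1 = i ∨ j = i + 1) (hn : 𝒢.IsN R Φ j n) (h1 : ⟪α, 𝒢.c i Φ⟫ ≠ 0)
    (h2 : ⟪α, 𝒢.c j Φ⟫ = 0) : ⟪α, n⟫ ≠ 0 := by
  intro h0
  obtain ⟨g, hg, hg', hgv⟩ := hR.exists_refl hα
  obtain ⟨s, hs, -, hsv⟩ := hR.exists_refl hn.1
  obtain ⟨Φ2, hΦ2⟩ := 𝒢.act g hg Φ
  obtain ⟨Ψ1, hΨ1⟩ := 𝒢.act s hs Φ
  obtain ⟨Ψ2, hΨ2⟩ := 𝒢.act s hs Φ2
  have hni : ⟪n, 𝒢.c i Φ⟫ = 0 := hn.2.2 i hi (by omega)
  have := 𝒢.uniq i hi j hj hij Φ Φ2 Ψ1 Ψ2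
    (by rw [hΦ2 i hi]; intro hc; exact h1 ((hgv _).1 hc.symm))
    (by rw [hΦ2 j hj, (hgv _).2 h2]) (by rw [hΨ1 i hi, (hsv _).2 hni])
    (by
      rw [hΨ2 i hi, hsv, hΦ2 i hi, hg', inner_sub_right, real_inner_smul_right, hni,
        real_inner_comm α n, h0]
      simp)
    (by rw [hΨ1 j hj, hΨ2 j hj, hΦ2 j hj, (hgv _).2 h2])
  rw [hΨ1 j hj, hsv] at this
  exact (hR.isN_pos hn).ne' this

theorem Roots.isN_adj (hR : 𝒢.Roots R) {α β : V} {Φ : F} {i : ℕ} (hi : i + 1 < 𝒢.d)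
    (hα : 𝒢.IsN R Φ i α) (hβ : 𝒢.IsN R Φ (i + 1) β) : ⟪α, β⟫ ≠ 0 :=
  hR.adj_of_isN hα.1 (i := i) (by omega) hi (Or.inr rfl) hβ (hR.isN_pos hα).ne'
    (hα.2.2 _ hi (by omega))

theorem Roots.isN_far (hR : 𝒢.Roots R) {α : V} {Φ : F} {i j : ℕ} (hj : j < 𝒢.d)
    (hij : i + 2 ≤ j ∨ j + 2 ≤ i) (hα : 𝒢.IsN R Φ i α) : 𝒢.IsN R (𝒢.r j Φ) i α := by
  have h0 := hR.fix_r hα.1 hj (fun x hx hxj => hα.2.2 x hx (by omega)) (hα.2.2 j hj (by omega))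
  refine ⟨hα.1, fun x hx => ?_, fun x hx hxi => ?_⟩
  · by_cases hxj : x = j
    · rw [hxj, h0]
    · rw [𝒢.c_r j hj x hx hxj]; exact hα.2.1 x hx
  · by_cases hxj : x = j
    · rw [hxj, h0]
    · rw [𝒢.c_r j hj x hx hxj]; exact hα.2.2 x hx hxi

theorem Roots.not_mir_far (hR : 𝒢.Roots R) {Φ : F} {i j : ℕ} (hj : j < 𝒢.d)
    (hij : i + 2 ≤ j ∨ j + 2 ≤ i) (h : ¬ 𝒢.Mir R Φ i) : ¬ 𝒢.Mir R (𝒢.r j Φ) i := by
  rintro ⟨α, hα⟩
  have := hR.isN_far hj hij hα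
  rw [𝒢.r_r hj] at this
  exact h ⟨α, this⟩

theorem Roots.interval (hR : 𝒢.Roots R) {j l : ℕ} (hjl : j + 2 ≤ l) (hl : l < 𝒢.d) (Φ : F)
    (hmid : ∀ i, j < i → i < l → ∀ Ψ, 𝒢.Mir R Ψ i) (h1 : ¬ 𝒢.Mir R Φ j) (h2 : ¬ 𝒢.Mir R Φ l) :
    False := by
  have hj : j < 𝒢.d := by omega
  have hN : ∀ Ψ i, ∃ α, j < i → i < l → 𝒢.IsN R Ψ i α := by
    intro Ψ i
    by_cases h : j < i ∧ i < l
    · obtain ⟨α, hα⟩ := hmid i h.1 h.2 Ψ
      exact ⟨α, fun _ _ => hα⟩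
    · exact ⟨0, fun a b => absurd ⟨a, b⟩ h⟩
  choose N hN using hN
  have s1 := hR.same_r hj h1
  have s2 := hR.same_r hl h2
  have s3 := s1.trans (hR.same_r hl (hR.not_mir_far hj (Or.inr hjl) h2))
  have hcomm := 𝒢.r_comm hj hl hjl Φ
  obtain ⟨l', rfl⟩ : ∃ l', l = l' + 1 := ⟨l - 1, by omega⟩
  have ha := hN Φ (j + 1) (by omega) (by omega)
  have ha' := hN (𝒢.r j Φ) (j + 1) (by omega) (by omega)
  have hb := hN Φ l' (by omega) (by omega)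
  have hb' := hN (𝒢.r (l' + 1) Φ) l' (by omega) (by omega)
  have pa := hR.isN_pos ha
  have pa' := hR.isN_pos ha'
  have pb := hR.isN_pos hb
  have pb' := hR.isN_pos hb'
  rw [𝒢.c_r j hj _ (by omega) (by omega)] at pa'
  rw [𝒢.c_r _ hl _ (by omega) (by omega)] at pb'
  have wa := ha.wall (by omega)
  have wa' := Wall.of_same s1 (ha'.wall (by omega))
  have wb := hb.wall (by omega)
  have wb' := Wall.of_same s2 (hb'.wall (by omega))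
  have left : ∀ α ∈ R, ⟪α, 𝒢.c j Φ⟫ = 0 → ⟪α, 𝒢.c j (𝒢.r j Φ)⟫ = 0 →
      ⟪α, 𝒢.c (j + 1) Φ⟫ = 0 := fun α hα e1 e2 =>
    hR.fix_meet hα hj (by omega) (Or.inr rfl) e1 e2
  have right : ∀ α ∈ R, ⟪α, 𝒢.c (l' + 1) Φ⟫ = 0 → ⟪α, 𝒢.c (l' + 1) (𝒢.r (l' + 1) Φ)⟫ = 0 →
      ⟪α, 𝒢.c l' Φ⟫ = 0 := fun α hα e1 e2 =>
    hR.fix_meet hα hl (by omega) (Or.inl rfl) e1 e2
  have za := ha.2.2 j hj (by omega)
  have za' := ha'.2.2 j hj (by omega)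
  have zb := hb.2.2 _ hl (by omega)
  have zb' := hb'.2.2 _ hl (by omega)
  have daa : N Φ (j + 1) ≠ N (𝒢.r j Φ) (j + 1) := fun hc =>
    pa.ne' (left _ ha.1 za (by rw [hc]; exact za'))
  have dbb : N Φ l' ≠ N (𝒢.r (l' + 1) Φ) l' := fun hc =>
    pb.ne' (right _ hb.1 zb (by rw [hc]; exact zb'))
  by_cases hc1 : l' = j + 1
  · subst hc1
    have hd := hN (𝒢.r (j + 1 + 1) (𝒢.r j Φ)) (j + 1) (by omega) (by omega)
    have wd := Wall.of_same s3 (hd.wall (by omega))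
    have zd1 := hd.2.2 j hj (by omega)
    have zd2 := hd.2.2 _ hl (by omega)
    rw [𝒢.c_r _ hl _ hj (by omega)] at zd1
    have e0 : 𝒢.c (j + 1 + 1) (𝒢.r (j + 1 + 1) (𝒢.r j Φ)) =
        𝒢.c (j + 1 + 1) (𝒢.r (j + 1 + 1) Φ) := by
      rw [← hcomm, 𝒢.c_r _ hj _ hl (by omega)]
    rw [e0] at zd2
    have za2 := ha'.2.2 _ hl (by omega)
    rw [𝒢.c_r _ hj _ hl (by omega)] at za2
    have zb2 := hb'.2.2 _ hj (by omega)
    rw [𝒢.c_r _ hl _ hj (by omega)] at zb2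
    have d14 : N Φ (j + 1) ≠ N (𝒢.r (j + 1 + 1) (𝒢.r j Φ)) (j + 1) := fun hc =>
      pa.ne' (left _ ha.1 za (by rw [hc]; exact zd1))
    have d23 : N (𝒢.r j Φ) (j + 1) ≠ N (𝒢.r (j + 1 + 1) Φ) (j + 1) := fun hc =>
      pa'.ne' (left _ ha'.1 (by rw [hc]; exact zb2) za')
    have d24 : N (𝒢.r j Φ) (j + 1) ≠ N (𝒢.r (j + 1 + 1) (𝒢.r j Φ)) (j + 1) := fun hc =>
      pa'.ne' (right _ ha'.1 za2 (by rw [hc]; exact zd2))
    have d34 : N (𝒢.r (j + 1 + 1) Φ) (j + 1) ≠ N (𝒢.r (j + 1 + 1) (𝒢.r j Φ)) (j + 1) := fun hc =>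
      pb'.ne' (left _ hb'.1 zb2 (by rw [hc]; exact zd1))
    have := hR.card_le (Φ := Φ) ![N Φ (j + 1), N (𝒢.r j Φ) (j + 1), N (𝒢.r (j + 1 + 1) Φ) (j + 1),
      N (𝒢.r (j + 1 + 1) (𝒢.r j Φ)) (j + 1)] (by
        intro x y hxy
        fin_cases x <;> fin_cases y <;> simp at hxy ⊢ <;> first
          | exact daa hxy | exact daa hxy.symm | exact dbb hxy | exact dbb hxy.symm
          | exact d14 hxy | exact d14 hxy.symm | exact d23 hxy | exact d23 hxy.symm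
          | exact d24 hxy | exact d24 hxy.symm | exact d34 hxy | exact d34 hxy.symm)
      (by
        intro x
        fin_cases x
        · exact wa
        · exact wa'
        · exact wb'
        · exact wd) {j, j + 1, j + 1 + 1} (by
        intro x y hy hyJ
        simp only [Finset.mem_insert, Finset.mem_singleton, not_or] at hyJ
        fin_cases x
        · exact ha.2.2 y hy hyJ.2.1
        · have := ha'.2.2 y hy hyJ.2.1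
          rwa [𝒢.c_r _ hj _ hy hyJ.1] at this
        · have := hb'.2.2 y hy hyJ.2.1
          rwa [𝒢.c_r _ hl _ hy hyJ.2.2] at this
        · have := hd.2.2 y hy hyJ.2.1
          rwa [𝒢.c_r _ hl _ hy hyJ.2.2, 𝒢.c_r _ hj _ hy hyJ.1] at this)
    have h3 : ({j, j + 1, j + 1 + 1} : Finset ℕ).card ≤ 3 := Finset.card_le_three
    simp only [Fintype.card_fin] at this
    omega
  have zb3 := hb.2.2 (j + 1) (by omega) (by omega)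
  have zb3' := hb'.2.2 (j + 1) (by omega) (by omega)
  rw [𝒢.c_r _ hl _ (by omega) (by omega)] at zb3'
  have dab : N Φ (j + 1) ≠ N Φ l' := fun hc => pa.ne' (by rw [hc]; exact zb3)
  have dab' : N Φ (j + 1) ≠ N (𝒢.r (l' + 1) Φ) l' := fun hc => pa.ne' (by rw [hc]; exact zb3')
  have da'b : N (𝒢.r j Φ) (j + 1) ≠ N Φ l' := fun hc => pa'.ne' (by rw [hc]; exact zb3)
  have da'b' : N (𝒢.r j Φ) (j + 1) ≠ N (𝒢.r (l' + 1) Φ) l' := fun hc =>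
    pa'.ne' (by rw [hc]; exact zb3')
  by_cases hc2 : l' = j + 2
  · subst hc2
    have e1 := hR.isN_adj (by omega) ha hb
    have e2 := hR.isN_adj (by omega) ha' (hR.isN_far hj (Or.inr (by omega)) hb)
    have e3 := hR.isN_adj (by omega) (hR.isN_far hl (Or.inl (by omega)) ha) hb'
    have e4 := hR.isN_adj (by omega) (hR.isN_far hl (Or.inl (by omega)) ha')
      (by rw [← hcomm]; exact hR.isN_far hj (Or.inr (by omega)) hb')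
    let f : ℕ → V := fun x => if x = 0 then N Φ (j + 1) else if x = 1 then N Φ (j + 2) else
      N (𝒢.r j Φ) (j + 1)
    refine hR.no_two f {0, 1, 2} ?_ ?_ ?_ wb' ?_ (y := 0) (z := 2) (by simp) (by simp) (by simp)
      e3 e4
    · intro x hx
      simp only [Finset.mem_insert, Finset.mem_singleton] at hx
      rcases hx with rfl | rfl | rfl
      · exact wa
      · exact wb
      · exact wa'
    · intro x hx y hy hxy
      simp only [Finset.mem_insert, Finset.mem_singleton] at hx hy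
      rcases hx with rfl | rfl | rfl <;> rcases hy with rfl | rfl | rfl <;> first
        | rfl | exact absurd hxy daa | exact absurd hxy.symm daa | exact absurd hxy dab
        | exact absurd hxy.symm dab | exact absurd hxy da'b | exact absurd hxy.symm da'b
    · rintro x hx ⟨y, -, hy⟩
      simp only [Finset.mem_insert, Finset.mem_singleton] at hx
      rcases hx with rfl | rfl | rfl
      · omega
      · exact ⟨0, by simp, by omega, e1⟩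
      · exact ⟨1, by simp, by omega, by rw [real_inner_comm]; exact e2⟩
    · intro x hx
      simp only [Finset.mem_insert, Finset.mem_singleton] at hx
      rcases hx with rfl | rfl | rfl
      · exact dab'
      · exact dbb
      · exact da'b'
  · obtain ⟨l'', rfl⟩ : ∃ l'', l' = l'' + 1 := ⟨l' - 1, by omega⟩
    have hm : ∀ x ∈ Finset.Icc (j + 2) l'', 𝒢.IsN R Φ x (N Φ x) := fun x hx => by
      rw [Finset.mem_Icc] at hx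
      exact hN Φ x (by omega) (by omega)
    have m1 : j + 2 ∈ Finset.Icc (j + 2) l'' := by rw [Finset.mem_Icc]; omega
    have m2 : l'' ∈ Finset.Icc (j + 2) l'' := by rw [Finset.mem_Icc]; omega
    have z1 : ∀ x ∈ Finset.Icc (j + 2) l'', ⟪N Φ x, 𝒢.c (j + 1) Φ⟫ = 0 := fun x hx =>
      (hm x hx).2.2 _ (by omega) (by rw [Finset.mem_Icc] at hx; omega)
    have z2 : ∀ x ∈ Finset.Icc (j + 2) l'', ⟪N Φ x, 𝒢.c (l'' + 1) Φ⟫ = 0 := fun x hx =>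
      (hm x hx).2.2 _ (by omega) (by rw [Finset.mem_Icc] at hx; omega)
    refine hR.no_four (N Φ) (Finset.Icc (j + 2) l'')
      (fun x hx => (hm x hx).wall (by rw [Finset.mem_Icc] at hx; omega)) ?_ ?_ wa wa' wb wb'
      (fun x hx hc => pa.ne' (by rw [← hc]; exact z1 x hx))
      (fun x hx hc => pa'.ne' (by rw [← hc]; exact z1 x hx))
      (fun x hx hc => pb.ne' (by rw [← hc]; exact z2 x hx))
      (fun x hx hc => pb'.ne' (by rw [← hc]; exact z2 x hx))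
      ⟨j + 2, m1, by rw [real_inner_comm]; exact hR.isN_adj (by omega) ha (hm _ m1)⟩
      ⟨j + 2, m1, by
        rw [real_inner_comm]
        exact hR.isN_adj (by omega) ha' (hR.isN_far hj (Or.inr (by omega)) (hm _ m1))⟩
      ⟨l'', m2, hR.isN_adj (by omega) (hm _ m2) hb⟩
      ⟨l'', m2, hR.isN_adj (by omega) (hR.isN_far hl (Or.inl (by omega)) (hm _ m2)) hb'⟩
      daa dab dab' da'b da'b' dbb
    · intro x hx y hy hxy
      by_contra hc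
      have p1 := hR.isN_pos (hm x hx)
      rw [hxy] at p1
      exact p1.ne' ((hm y hy).2.2 x (by rw [Finset.mem_Icc] at hx; omega) hc)
    · rintro x hx ⟨y, hy, hyx⟩
      obtain ⟨x', rfl⟩ : ∃ x', x = x' + 1 := ⟨x - 1, by omega⟩
      have hx' : x' ∈ Finset.Icc (j + 2) l'' := by
        rw [Finset.mem_Icc] at hx hy ⊢
        omega
      exact ⟨x', hx', by omega, hR.isN_adj (by rw [Finset.mem_Icc] at hx; omega) (hm _ hx')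
        (hm _ hx)⟩

end Geo

end Pool.Agent.Lib.MP_727bc7_co
end

-- part Pool.Agent.Lib.MP_727bc7_co.Geo3
section

/-! Wythoff orderings of the walls attached to a flag. -/

namespace Pool.Agent.Lib.MP_727bc7_co

open scoped RealInnerProductSpace

variable {V : Type*} [NormedAddCommGroup V] [InnerProductSpace ℝ V] {F : Type}

namespace Geo

/-- `α` is a wall whose last nonzero value on the flag is at position `j` -/
def Top (𝒢 : Geo V F) (R : Set V) (Φ : F) (j : ℕ) (α : V) : Prop :=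
  𝒢.Wall R Φ α ∧ ⟪α, 𝒢.c j Φ⟫ ≠ 0 ∧ ∀ i < 𝒢.d, j < i → ⟪α, 𝒢.c i Φ⟫ = 0

/-- the wall at position `j` -/
noncomputable def m (𝒢 : Geo V F) (R : Set V) (Φ : F) (j : ℕ) : V :=
  Classical.epsilon (𝒢.Top R Φ j)

/-- adjacency of positions -/
def Adj (𝒢 : Geo V F) (R : Set V) (Φ : F) (i j : ℕ) : Prop := ⟪𝒢.m R Φ i, 𝒢.m R Φ j⟫ ≠ 0

variable {𝒢 : Geo V F} {R : Set V}

theorem Roots.isN_top (hR : 𝒢.Roots R) {Φ : F} {j : ℕ} (hj : j < 𝒢.d) {α : V}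
    (h : 𝒢.IsN R Φ j α) : 𝒢.Top R Φ j α :=
  ⟨h.wall hj, (hR.isN_pos h).ne', fun i hi hij => h.2.2 i hi (by omega)⟩

theorem Roots.top_step (hR : 𝒢.Roots R) {Φ : F} {j : ℕ} (hj : j + 1 < 𝒢.d)
    (h : ¬ 𝒢.Mir R Φ (j + 1)) {α : V} (hα : 𝒢.Top R (𝒢.r (j + 1) Φ) j α) :
    𝒢.Top R Φ (j + 1) α := by
  refine ⟨Wall.of_same (hR.same_r hj h) hα.1, fun hc => ?_, fun i hi hij => ?_⟩
  · have := hR.fix_meet hα.1.mem (j := j) hj (by omega) (Or.inl rfl) hc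
      (hα.2.2 _ hj (by omega))
    apply hα.2.1
    rw [𝒢.c_r _ hj _ (by omega) (by omega), this]
  · have := hα.2.2 i hi (by omega)
    rwa [𝒢.c_r _ hj _ hi (by omega)] at this

theorem Roots.exists_top (hR : 𝒢.Roots R) (h0 : ∀ Φ, 𝒢.Mir R Φ 0) (j : ℕ) :
    j < 𝒢.d → ∀ Φ, ∃ α, 𝒢.Top R Φ j α := by
  induction j with
  | zero =>
    intro hj Φ
    obtain ⟨α, hα⟩ := h0 Φ
    exact ⟨α, hR.isN_top hj hα⟩
  | succ j ih =>
    intro hj Φ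
    by_cases h : 𝒢.Mir R Φ (j + 1)
    · obtain ⟨α, hα⟩ := h
      exact ⟨α, hR.isN_top hj hα⟩
    · obtain ⟨α, hα⟩ := ih (by omega) (𝒢.r (j + 1) Φ)
      exact ⟨α, hR.top_step hj h hα⟩

theorem Roots.m_top (hR : 𝒢.Roots R) (h0 : ∀ Φ, 𝒢.Mir R Φ 0) {j : ℕ} (hj : j < 𝒢.d) (Φ : F) :
    𝒢.Top R Φ j (𝒢.m R Φ j) := Classical.epsilon_spec (hR.exists_top h0 j hj Φ)

theorem Top.inj {Φ : F} {i j : ℕ} (hi : i < 𝒢.d) (hj : j < 𝒢.d) {α : V} (h1 : 𝒢.Top R Φ i α)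
    (h2 : 𝒢.Top R Φ j α) : i = j := by
  rcases lt_trichotomy i j with h | h | h
  · exact absurd (h1.2.2 j hj h) h2.2.1
  · exact h
  · exact absurd (h2.2.2 i hi h) h1.2.1

theorem Roots.m_inj (hR : 𝒢.Roots R) (h0 : ∀ Φ, 𝒢.Mir R Φ 0) {i j : ℕ} (hi : i < 𝒢.d)
    (hj : j < 𝒢.d) {Φ : F} (h : 𝒢.m R Φ i = 𝒢.m R Φ j) : i = j :=
  Top.inj hi hj (hR.m_top h0 hi Φ) (by rw [h]; exact hR.m_top h0 hj Φ)

theorem Roots.wall_eq_m (hR : 𝒢.Roots R) (h0 : ∀ Φ, 𝒢.Mir R Φ 0) {Φ : F} {β : V}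
    (hβ : 𝒢.Wall R Φ β) : ∃ j < 𝒢.d, β = 𝒢.m R Φ j := by
  by_contra hc
  push Not at hc
  have := hR.card_le (Φ := Φ) (ι := Option (Fin 𝒢.d))
    (fun o => o.elim β (fun j => 𝒢.m R Φ j)) (by
      rintro (_ | x) (_ | y) hxy
      · rfl
      · exact absurd hxy (hc y y.2)
      · exact absurd hxy.symm (hc x x.2)
      · rw [Fin.ext (hR.m_inj h0 x.2 y.2 hxy)]) (by
      rintro (_ | x)
      · exact hβ
      · exact (hR.m_top h0 x.2 Φ).1) (Finset.range 𝒢.d) (by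
      intro i j hj hj'
      exact absurd (Finset.mem_range.2 hj) hj')
  simp at this

theorem Roots.top_unique (hR : 𝒢.Roots R) (h0 : ∀ Φ, 𝒢.Mir R Φ 0) {Φ : F} {β : V} {j : ℕ}
    (hj : j < 𝒢.d) (hβ : 𝒢.Top R Φ j β) : β = 𝒢.m R Φ j := by
  obtain ⟨i, hi, h⟩ := hR.wall_eq_m h0 hβ.1
  have : j = i := Top.inj hj hi hβ (by rw [h]; exact hR.m_top h0 hi Φ)
  rw [this]
  exact h

/-- transposition of the positions `j` and `j + 1` -/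
def sw (j x : ℕ) : ℕ := if x = j then j + 1 else if x = j + 1 then j else x

theorem Roots.m_swap (hR : 𝒢.Roots R) (h0 : ∀ Φ, 𝒢.Mir R Φ 0) {Φ : F} {j : ℕ}
    (hj : j + 1 < 𝒢.d) (h : ¬ 𝒢.Mir R Φ (j + 1)) :
    ∀ x < 𝒢.d, 𝒢.m R (𝒢.r (j + 1) Φ) x = 𝒢.m R Φ (sw j x) := by
  intro x hx
  have hs := hR.same_r hj h
  unfold sw
  split_ifs with h1 h2
  · subst h1
    exact hR.top_unique h0 hj (hR.top_step hj h (hR.m_top h0 hx _))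
  · subst h2
    symm
    refine hR.top_unique h0 hj (hR.top_step hj (hR.not_mir_r hj h) ?_)
    rw [𝒢.r_r hj]
    exact hR.m_top h0 (by omega) _
  · symm
    have ht := hR.m_top h0 hx Φ
    refine hR.top_unique h0 hx ⟨Wall.of_same hs.symm ht.1, ?_, fun i hi hxi => ?_⟩
    · rw [𝒢.c_r _ hj _ hx h2]; exact ht.2.1
    · by_cases hij : i = j + 1
      · subst hij
        exact hR.fix_r ht.1.mem hj (fun z hz hzj => ht.2.2 z hz (by omega)) (ht.2.2 _ hj hxi)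
      · rw [𝒢.c_r _ hj _ hi hij]; exact ht.2.2 i hi hxi

theorem Roots.mir_orth (hR : 𝒢.Roots R) (h0 : ∀ Φ, 𝒢.Mir R Φ 0) {Φ : F} {i j : ℕ}
    (hj : j < 𝒢.d) (hij : i + 1 < j) (h : 𝒢.Mir R Φ j) : ¬ 𝒢.Adj R Φ i j := by
  obtain ⟨n, hn⟩ := h
  have ht := hR.m_top h0 (show i < 𝒢.d by omega) Φ
  have h1 := hR.fix_r ht.1.mem hj (fun z hz hzj => ht.2.2 z hz (by omega))
    (ht.2.2 _ hj (by omega))
  rw [hR.isN_maps hj hn j hj, inner_sub_right, ht.2.2 j hj (by omega),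
    real_inner_smul_right] at h1
  have h2 := hR.isN_pos hn
  unfold Adj
  rw [← hR.top_unique h0 hj (hR.isN_top hj hn), not_not]
  have h3 : 2 * ⟪n, 𝒢.c j Φ⟫ * ⟪𝒢.m R Φ i, n⟫ = 0 := by linarith
  rcases mul_eq_zero.1 h3 with h4 | h4
  · linarith
  · exact h4

theorem Roots.mir_adj (hR : 𝒢.Roots R) (h0 : ∀ Φ, 𝒢.Mir R Φ 0) {Φ : F} {j : ℕ}
    (hj : j + 1 < 𝒢.d) (h : 𝒢.Mir R Φ (j + 1)) : 𝒢.Adj R Φ j (j + 1) := by
  obtain ⟨n, hn⟩ := h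
  have ht := hR.m_top h0 (show j < 𝒢.d by omega) Φ
  unfold Adj
  rw [← hR.top_unique h0 hj (hR.isN_top hj hn)]
  exact hR.adj_of_isN ht.1.mem (i := j) (by omega) hj (Or.inr rfl) hn ht.2.1
    (ht.2.2 _ hj (by omega))

theorem maps_wall {g : V ≃ₗᵢ[ℝ] V} (hg : g ∈ 𝒢.G) (h1 : ∀ α ∈ R, g α ∈ R)
    (h2 : ∀ α ∈ R, g.symm α ∈ R) {Φ Ψ : F} (h : 𝒢.Maps g Φ Ψ) {α : V} (hα : 𝒢.Wall R Φ α) :
    𝒢.Wall R Ψ (g α) := by
  have hpos : ∀ {Φ Ψ : F}, 𝒢.Maps g Φ Ψ → ∀ β, 𝒢.Pos Ψ (g β) ↔ 𝒢.Pos Φ β := by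
    intro Φ Ψ h β
    refine forall_congr' (fun j => forall_congr' (fun hj => ?_))
    rw [h j hj, g.inner_map_map]
  obtain ⟨Θ, hs, i, hi, hN⟩ := hα
  obtain ⟨Θ', hΘ⟩ := 𝒢.act g hg Θ
  refine ⟨Θ', fun β hβ => ?_, i, hi, h1 α hN.1, (hpos hΘ α).2 hN.2.1, fun j hj hji => ?_⟩
  · rw [← g.apply_symm_apply β, hpos h, hpos hΘ]
    exact hs _ (h2 β hβ)
  · rw [hΘ j hj, g.inner_map_map]
    exact hN.2.2 j hj hji

theorem Roots.maps_m (hR : 𝒢.Roots R) (h0 : ∀ Φ, 𝒢.Mir R Φ 0) {g : V ≃ₗᵢ[ℝ] V} (hg : g ∈ 𝒢.G)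
    (h1 : ∀ α ∈ R, g α ∈ R) (h2 : ∀ α ∈ R, g.symm α ∈ R) {Φ Ψ : F} (h : 𝒢.Maps g Φ Ψ) {j : ℕ}
    (hj : j < 𝒢.d) : 𝒢.m R Ψ j = g (𝒢.m R Φ j) := by
  have ht := hR.m_top h0 hj Φ
  symm
  refine hR.top_unique h0 hj ⟨maps_wall hg h1 h2 h ht.1, ?_, fun i hi hji => ?_⟩
  · rw [h j hj, g.inner_map_map]; exact ht.2.1
  · rw [h i hi, g.inner_map_map]; exact ht.2.2 i hi hji

/-- the colours `0` and `1` are mirrors at every flag -/
structure Wy (𝒢 : Geo V F) (R : Set V) : Prop where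
  roots : 𝒢.Roots R
  mir0 : ∀ Φ, 𝒢.Mir R Φ 0
  mir1 : ∀ Φ, 𝒢.Mir R Φ 1

theorem Adj.symm {Φ : F} {i j : ℕ} (h : 𝒢.Adj R Φ i j) : 𝒢.Adj R Φ j i := by
  unfold Adj at h ⊢
  rwa [real_inner_comm]

theorem adj_congr {Φ Ψ : F} {π : ℕ → ℕ} (h : ∀ x < 𝒢.d, 𝒢.m R Ψ x = 𝒢.m R Φ (π x)) {i j : ℕ}
    (hi : i < 𝒢.d) (hj : j < 𝒢.d) : 𝒢.Adj R Ψ i j ↔ 𝒢.Adj R Φ (π i) (π j) := by
  unfold Adj
  rw [h i hi, h j hj]

theorem Wy.earlier (hW : 𝒢.Wy R) (j : ℕ) : j + 1 < 𝒢.d → ∀ Φ, ∃ i ≤ j, 𝒢.Adj R Φ i (j + 1) := by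
  induction j with
  | zero => exact fun hj Φ => ⟨0, le_rfl, hW.roots.mir_adj hW.mir0 hj (hW.mir1 Φ)⟩
  | succ j ih =>
    intro hj Φ
    by_cases h : 𝒢.Mir R Φ (j + 1 + 1)
    · exact ⟨j + 1, le_rfl, hW.roots.mir_adj hW.mir0 hj h⟩
    · obtain ⟨i, hi, ha⟩ := ih (by omega) (𝒢.r (j + 1 + 1) Φ)
      rw [adj_congr (hW.roots.m_swap hW.mir0 hj h) (by omega) (by omega)] at ha
      refine ⟨i, by omega, ?_⟩
      have e1 : sw (j + 1) i = i := by unfold sw; split_ifs <;> omega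
      have e2 : sw (j + 1) (j + 1) = j + 1 + 1 := by unfold sw; split_ifs <;> omega
      rwa [e1, e2] at ha

theorem Wy.earlier' (hW : 𝒢.Wy R) {j : ℕ} (h1 : 1 ≤ j) (hj : j < 𝒢.d) (Φ : F) :
    ∃ i < j, 𝒢.Adj R Φ i j := by
  obtain ⟨j', rfl⟩ : ∃ j', j = j' + 1 := ⟨j - 1, by omega⟩
  obtain ⟨i, hi, h⟩ := hW.earlier j' hj Φ
  exact ⟨i, by omega, h⟩

theorem Wy.not_mir_exists (hW : 𝒢.Wy R) {j : ℕ} (hj : j < 𝒢.d) {Φ : F} (h : ¬ 𝒢.Mir R Φ j) :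
    ∃ i, i + 1 < j ∧ 𝒢.Adj R Φ i j := by
  have h0 : j ≠ 0 := by rintro rfl; exact h (hW.mir0 Φ)
  have h1 : j ≠ 1 := by rintro rfl; exact h (hW.mir1 Φ)
  obtain ⟨j', rfl⟩ : ∃ j', j = j' + 1 + 1 := ⟨j - 2, by omega⟩
  obtain ⟨i, hi, ha⟩ := hW.earlier j' (by omega) (𝒢.r (j' + 1 + 1) Φ)
  rw [adj_congr (hW.roots.m_swap hW.mir0 hj h) (by omega) (by omega)] at ha
  refine ⟨i, by omega, ?_⟩
  have e1 : sw (j' + 1) i = i := by unfold sw; split_ifs <;> omega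
  have e2 : sw (j' + 1) (j' + 1) = j' + 1 + 1 := by unfold sw; split_ifs <;> omega
  rwa [e1, e2] at ha

theorem Wy.wall (hW : 𝒢.Wy R) {j : ℕ} (hj : j < 𝒢.d) (Φ : F) : 𝒢.Wall R Φ (𝒢.m R Φ j) :=
  (hW.roots.m_top hW.mir0 hj Φ).1

theorem Wy.uniq_parent (hW : 𝒢.Wy R) {Φ : F} {i i' l : ℕ} (hl : l < 𝒢.d) (hi : i < l)
    (hi' : i' < l) (h : 𝒢.Adj R Φ i l) (h' : 𝒢.Adj R Φ i' l) : i = i' := by
  by_contra hc
  refine hW.roots.no_two (𝒢.m R Φ) (Finset.range l)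
    (fun x hx => hW.wall (by simp at hx; omega) Φ)
    (fun x hx y hy hxy => hW.roots.m_inj hW.mir0 (by simp at hx; omega) (by simp at hy; omega) hxy)
    ?_ (hW.wall hl Φ) (fun x hx hxl => ?_) (Finset.mem_range.2 hi) (Finset.mem_range.2 hi') hc
    h h'
  · rintro x hx ⟨y, -, hy⟩
    simp at hx
    obtain ⟨z, hz, ha⟩ := hW.earlier' (j := x) (by omega) (by omega) Φ
    exact ⟨z, by simp; omega, hz, ha⟩
  · simp at hx
    have := hW.roots.m_inj hW.mir0 (by omega) hl hxl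
    omega

theorem Wy.four (hW : 𝒢.Wy R) {Φ : F} (A : Finset ℕ) (hA : ∀ x ∈ A, x < 𝒢.d)
    (h3 : ∀ x ∈ A, (∃ y ∈ A, y < x) → ∃ y ∈ A, y < x ∧ 𝒢.Adj R Φ y x) {b1 b2 b3 b4 : ℕ}
    (l1 : b1 < 𝒢.d) (l2 : b2 < 𝒢.d) (l3 : b3 < 𝒢.d) (l4 : b4 < 𝒢.d) (n1 : b1 ∉ A) (n2 : b2 ∉ A)
    (n3 : b3 ∉ A) (n4 : b4 ∉ A) (e1 : ∃ y ∈ A, 𝒢.Adj R Φ y b1) (e2 : ∃ y ∈ A, 𝒢.Adj R Φ y b2)
    (e3 : ∃ y ∈ A, 𝒢.Adj R Φ y b3) (e4 : ∃ y ∈ A, 𝒢.Adj R Φ y b4)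
    (hd : b1 ≠ b2 ∧ b1 ≠ b3 ∧ b1 ≠ b4 ∧ b2 ≠ b3 ∧ b2 ≠ b4 ∧ b3 ≠ b4) : False := by
  have hi : ∀ {x y}, x < 𝒢.d → y < 𝒢.d → x ≠ y → 𝒢.m R Φ x ≠ 𝒢.m R Φ y :=
    fun hx hy hxy hc => hxy (hW.roots.m_inj hW.mir0 hx hy hc)
  exact hW.roots.no_four (𝒢.m R Φ) A (fun x hx => hW.wall (hA x hx) Φ)
    (fun x hx y hy hxy => hW.roots.m_inj hW.mir0 (hA x hx) (hA y hy) hxy) h3
    (hW.wall l1 Φ) (hW.wall l2 Φ) (hW.wall l3 Φ) (hW.wall l4 Φ)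
    (fun x hx => hi (hA x hx) l1 (by rintro rfl; exact n1 hx))
    (fun x hx => hi (hA x hx) l2 (by rintro rfl; exact n2 hx))
    (fun x hx => hi (hA x hx) l3 (by rintro rfl; exact n3 hx))
    (fun x hx => hi (hA x hx) l4 (by rintro rfl; exact n4 hx)) e1 e2 e3 e4
    (hi l1 l2 hd.1) (hi l1 l3 hd.2.1) (hi l1 l4 hd.2.2.1) (hi l2 l3 hd.2.2.2.1)
    (hi l2 l4 hd.2.2.2.2.1) (hi l3 l4 hd.2.2.2.2.2)

theorem Wy.graph (hW : 𝒢.Wy R) {Φ : F} {n : ℕ} (p : Fin n → ℕ) (hp : ∀ i, p i < 𝒢.d)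
    (hinj : Function.Injective p) (ed : Fin n → Fin n → Bool)
    (hed : ∀ i j, ed i j = true → 𝒢.Adj R Φ (p i) (p j)) (a : Fin n → ℕ)
    (h : ∑ i, ∑ j, (if i = j then 2 * (a i * a j : ℤ) else
      if (ed i j || ed j i) = true then -(a i * a j : ℤ) else 0) ≤ 0) : ∀ i, a i = 0 :=
  hW.roots.no_graph (Φ := Φ) (fun i => 𝒢.m R Φ (p i))
    (fun _ _ hij => hinj (hW.roots.m_inj hW.mir0 (hp _) (hp _) hij))
    (fun i => hW.wall (hp i) Φ) ed hed a h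

/-- moving position `l` to position `j` -/
def cyc (j l x : ℕ) : ℕ := if x < j then x else if x = j then l else if x ≤ l then x - 1 else x

theorem Wy.move (hW : 𝒢.Wy R) {i j : ℕ} (hij : i < j) (l : ℕ) (hjl : j ≤ l) :
    l < 𝒢.d → ∀ Φ, 𝒢.Adj R Φ i l → ∃ Ψ, 𝒢.Same R Φ Ψ ∧ 𝒢.c 0 Ψ = 𝒢.c 0 Φ ∧
      ∀ x < 𝒢.d, 𝒢.m R Ψ x = 𝒢.m R Φ (cyc j l x) := by
  induction l, hjl using Nat.le_induction with
  | base =>
    intro _ Φ _
    refine ⟨Φ, Same.refl Φ, rfl, fun x _ => ?_⟩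
    congr 1
    unfold cyc
    split_ifs <;> omega
  | succ l hjl ih =>
    intro hl Φ ha
    have hm : ¬ 𝒢.Mir R Φ (l + 1) := fun hc => hW.roots.mir_orth hW.mir0 hl (by omega) hc ha
    have hs := hW.roots.m_swap hW.mir0 hl hm
    obtain ⟨Ψ, h1, h1', h2⟩ := ih (by omega) (𝒢.r (l + 1) Φ) (by
      rw [adj_congr hs (by omega) (by omega)]
      have e1 : sw l i = i := by unfold sw; split_ifs <;> omega
      have e2 : sw l l = l + 1 := by unfold sw; split_ifs <;> omega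
      rwa [e1, e2])
    refine ⟨Ψ, (hW.roots.same_r hl hm).trans h1,
      by rw [h1', 𝒢.c_r _ hl _ (by omega) (by omega)], fun x hx => ?_⟩
    rw [h2 x hx, hs _ (by unfold cyc; split_ifs <;> omega)]
    congr 1
    unfold cyc sw
    split_ifs <;> omega

end Geo

end Pool.Agent.Lib.MP_727bc7_co
end

-- part Pool.Agent.Lib.MP_727bc7_co.Tree
section

/-! Counting the Wythoff orderings of a rooted tree. -/

namespace Pool.Agent.Lib.MP_727bc7_co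

open scoped RealInnerProductSpace

variable {V : Type*} [NormedAddCommGroup V] [InnerProductSpace ℝ V] {F : Type}

namespace Geo

/-- the orbit relation on flags as a setoid -/
def setoid (𝒢 : Geo V F) : Setoid F := ⟨𝒢.Eqv, ⟨Eqv.refl 𝒢, Eqv.symm, Eqv.trans⟩⟩

variable {𝒢 : Geo V F} {R : Set V}

theorem card_ge [Finite (Quotient 𝒢.setoid)] {ι : Type*} (I : Finset ι) (P : ι → F → Prop)
    (hex : ∀ p ∈ I, ∃ Φ, P p Φ)
    (hu : ∀ p ∈ I, ∀ q ∈ I, ∀ Φ Ψ, P p Φ → P q Ψ → 𝒢.Eqv Φ Ψ → p = q) :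
    I.card ≤ Nat.card (Quotient 𝒢.setoid) := by
  choose t ht using hex
  have := Nat.card_le_card_of_injective
    (fun p : I => Quotient.mk 𝒢.setoid (t p.1 p.2)) (by
      rintro ⟨p, hp⟩ ⟨q, hq⟩ h
      exact Subtype.ext (hu p hp q hq _ _ (ht p hp) (ht q hq) (Quotient.exact h)))
  simpa using this

theorem card_le_of_cover (s : ℕ → F) (N : ℕ) (h : ∀ Φ, ∃ n ≤ N, 𝒢.Eqv (s n) Φ) :
    Finite (Quotient 𝒢.setoid) ∧ Nat.card (Quotient 𝒢.setoid) ≤ N + 1 := by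
  have hs : Function.Surjective (fun n : Fin (N + 1) => Quotient.mk 𝒢.setoid (s n)) := by
    intro q
    induction q using Quotient.inductionOn
    rename_i Φ
    obtain ⟨n, hn, h⟩ := h Φ
    exact ⟨⟨n, by omega⟩, Quotient.sound h⟩
  refine ⟨Finite.of_surjective _ hs, ?_⟩
  simpa using Nat.card_le_card_of_surjective _ hs

theorem Wy.no_early (hW : 𝒢.Wy R) {y : ℕ} (hu : ∀ j < y + 2, ∀ Φ, 𝒢.Mir R Φ j) {Φ : F}
    {i l : ℕ} (hi : i < y) (hil : i + 1 < l) (hl : l < 𝒢.d) : ¬ 𝒢.Adj R Φ i l := by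
  intro ha
  obtain ⟨Ψ, -, -, h⟩ := hW.move (i := i) (j := i + 2) (by omega) l (by omega) hl Φ ha
  refine hW.roots.mir_orth hW.mir0 (i := i) (j := i + 2) (by omega) (by omega)
    (hu _ (by omega) Ψ) ?_
  rw [adj_congr h (by omega) (by omega)]
  have e1 : cyc (i + 2) l i = i := by unfold cyc; split_ifs <;> omega
  have e2 : cyc (i + 2) l (i + 2) = l := by unfold cyc; split_ifs <;> omega
  rwa [e1, e2]

theorem Wy.path (hW : 𝒢.Wy R) {y : ℕ} (hu : ∀ j < y + 2, ∀ Φ, 𝒢.Mir R Φ j) (Φ : F) {x : ℕ}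
    (hx : x ≤ y) (hl : x + 1 < 𝒢.d) : 𝒢.Adj R Φ x (x + 1) :=
  hW.roots.mir_adj hW.mir0 hl (hu _ (by omega) Φ)

/-- the orbits of a fork with a leaf -/
theorem Wy.fork (hW : 𝒢.Wy R) {y e : ℕ} (he : 𝒢.d = y + 3 + e)
    (hu : ∀ j < y + 2, ∀ Φ, 𝒢.Mir R Φ j) (τ : F) (h1 : 𝒢.Adj R τ y (y + 2 + e))
    (h2 : ∀ x, y + 1 ≤ x → x + 1 < y + 2 + e → 𝒢.Adj R τ x (x + 1)) :
    ∃ s : ℕ → F, s 0 = τ ∧ (∀ Φ, ∃ n ≤ e + 1, 𝒢.Eqv (s n) Φ) ∧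
      (∀ n n', n < n' → n' ≤ e + 1 → 𝒢.Eqv (s n) (s n') → 𝒢.Eqv τ (s n')) ∧
      (∀ n, 1 ≤ n → n ≤ e + 1 → 𝒢.c 0 (s n) = 𝒢.c 0 τ ∧
        ∀ z < 𝒢.d, z ≠ y + 1 + e → ⟪𝒢.m R τ z, 𝒢.c (y + 2 + e) (s n)⟫ = 0) := by
  let s : ℕ → F := fun n => Nat.rec τ (fun n Φ => 𝒢.r (y + 2 + e - n) Φ) n
  have s0 : s 0 = τ := rfl
  have ss : ∀ n, s (n + 1) = 𝒢.r (y + 2 + e - n) (s n) := fun _ => rfl
  have hm : ∀ n ≤ e + 1, 𝒢.c 0 (s n) = 𝒢.c 0 τ ∧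
      ∀ x < 𝒢.d, 𝒢.m R (s n) x = 𝒢.m R τ (cyc (y + 2 + e - n) (y + 2 + e) x) := by
    intro n
    induction n with
    | zero =>
      intro _
      refine ⟨rfl, fun x hx => ?_⟩
      rw [s0]
      congr 1
      unfold cyc
      split_ifs <;> omega
    | succ n ih =>
      intro hn
      obtain ⟨ih0, ih⟩ := ih (by omega)
      have hj : y + 2 + e - n = (y + 1 + e - n) + 1 := by omega
      have hnm : ¬ 𝒢.Mir R (s n) (y + 1 + e - n + 1) := by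
        intro hc
        refine hW.roots.mir_orth hW.mir0 (i := y) (by omega) (by omega) hc ?_
        rw [adj_congr ih (by omega) (by omega)]
        have e1 : cyc (y + 2 + e - n) (y + 2 + e) y = y := by unfold cyc; split_ifs <;> omega
        have e2 : cyc (y + 2 + e - n) (y + 2 + e) (y + 1 + e - n + 1) = y + 2 + e := by
          unfold cyc; split_ifs <;> omega
        rwa [e1, e2]
      refine ⟨by rw [ss, 𝒢.c_r _ (by omega) _ (by omega) (by omega), ih0], fun x hx => ?_⟩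
      rw [ss, hj, hW.roots.m_swap hW.mir0 (by omega) hnm x hx,
        ih _ (by unfold sw; split_ifs <;> omega)]
      congr 1
      unfold cyc sw
      split_ifs <;> omega
  have hmir : ∀ n ≤ e + 1, ∀ j < 𝒢.d, j ≠ y + 2 + e - n → j ≠ y + 3 + e - n →
      𝒢.Mir R (s n) j := by
    intro n hn j hj hj1 hj2
    by_contra hc
    have hjy : y + 2 ≤ j := by
      by_contra h
      exact hc (hu j (by omega) _)
    obtain ⟨i, hi, ha⟩ := hW.not_mir_exists hj hc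
    have : 𝒢.Adj R (s n) (j - 1) j := by
      rw [adj_congr (hm n hn).2 (by omega) hj]
      by_cases hlt : j < y + 2 + e - n
      · have e1 : cyc (y + 2 + e - n) (y + 2 + e) (j - 1) = j - 1 := by
          unfold cyc; split_ifs <;> omega
        have e2 : cyc (y + 2 + e - n) (y + 2 + e) j = j - 1 + 1 := by
          unfold cyc; split_ifs <;> omega
        rw [e1, e2]
        exact h2 _ (by omega) (by omega)
      · have e1 : cyc (y + 2 + e - n) (y + 2 + e) (j - 1) = j - 2 := by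
          unfold cyc; split_ifs <;> omega
        have e2 : cyc (y + 2 + e - n) (y + 2 + e) j = j - 2 + 1 := by
          unfold cyc; split_ifs <;> omega
        rw [e1, e2]
        exact h2 _ (by omega) (by omega)
    have := hW.uniq_parent hj (by omega) (by omega) ha this
    omega
  refine ⟨s, s0, fun Φ => ?_, ?_, ?_⟩
  · have := 𝒢.conn τ Φ
    induction this with
    | refl => exact ⟨0, by omega, Eqv.refl 𝒢 _⟩
    | tail _ h ih =>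
      obtain ⟨j, hj, rfl⟩ := h
      obtain ⟨n, hn, ih⟩ := ih
      have h3 := ih.r hj
      by_cases c1 : j = y + 2 + e - n
      · by_cases c3 : n = e + 1
        · exact ⟨n, hn, (hW.roots.mir_eqv hj (hu j (by omega) _)).trans h3⟩
        · refine ⟨n + 1, by omega, ?_⟩
          rw [ss, ← c1]
          exact h3
      by_cases c2 : j = y + 3 + e - n
      · obtain ⟨n', rfl⟩ : ∃ n', n = n' + 1 := ⟨n - 1, by omega⟩
        refine ⟨n', by omega, ?_⟩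
        rw [ss, show y + 2 + e - n' = j by omega, 𝒢.r_r hj] at h3
        exact h3
      · exact ⟨n, hn, (hW.roots.mir_eqv hj (hmir n hn j hj c1 c2)).trans h3⟩
  · intro n
    induction n with
    | zero => exact fun n' _ _ h => h
    | succ n ih =>
      intro n' h1 h2 h
      refine ih n' (by omega) h2 ?_
      have hj : y + 2 + e - n < 𝒢.d := by omega
      have h3 := h.r hj
      rw [ss, 𝒢.r_r hj] at h3
      exact h3.trans (hW.roots.mir_eqv hj (hmir n' h2 _ hj (by omega) (by omega))).symm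
  · intro n h1 h2
    refine ⟨(hm n h2).1, fun z hz hz' => ?_⟩
    obtain ⟨x, hx, hxz⟩ : ∃ x < y + 2 + e, cyc (y + 2 + e - n) (y + 2 + e) x = z := by
      by_cases c1 : z < y + 2 + e - n
      · exact ⟨z, by omega, by unfold cyc; split_ifs <;> omega⟩
      by_cases c2 : z = y + 2 + e
      · exact ⟨y + 2 + e - n, by omega, by unfold cyc; split_ifs <;> omega⟩
      · exact ⟨z + 1, by omega, by unfold cyc; split_ifs <;> omega⟩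
    rw [← hxz, ← (hm n h2).2 x (by omega)]
    exact (hW.roots.m_top hW.mir0 (by omega) _).2.2 _ (by omega) hx

theorem Wy.e6 (hW : 𝒢.Wy R) {Φ : F} (y a1 a2 b1 b2 c1 c2 : ℕ)
    (hl : ∀ x ∈ [y, a1, a2, b1, b2, c1, c2], x < 𝒢.d) (hn : [y, a1, a2, b1, b2, c1, c2].Nodup)
    (e1 : 𝒢.Adj R Φ y a1) (e2 : 𝒢.Adj R Φ a1 a2) (e3 : 𝒢.Adj R Φ y b1) (e4 : 𝒢.Adj R Φ b1 b2)
    (e5 : 𝒢.Adj R Φ y c1) (e6 : 𝒢.Adj R Φ c1 c2) : False := by
  have := hW.graph (Φ := Φ) ![y, a1, a2, b1, b2, c1, c2]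
    (fun i => hl _ (by fin_cases i <;> simp)) (List.nodup_ofFn.1 (by simpa using hn))
    (fun i j => (i.val, j.val) ∈ [(0, 1), (1, 2), (0, 3), (3, 4), (0, 5), (5, 6)])
    (by
      intro i j hij
      simp only [List.mem_cons, Prod.mk.injEq, List.not_mem_nil, or_false,
        decide_eq_true_eq] at hij
      rcases i with ⟨i, hi⟩
      rcases j with ⟨j, hj⟩
      rcases hij with h | h | h | h | h | h <;> obtain ⟨rfl, rfl⟩ := h <;> assumption)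
    ![3, 2, 1, 2, 1, 2, 1] (by decide) 0
  simp at this

theorem Wy.e7 (hW : 𝒢.Wy R) {Φ : F} (y a1 b1 b2 b3 c1 c2 c3 : ℕ)
    (hl : ∀ x ∈ [y, a1, b1, b2, b3, c1, c2, c3], x < 𝒢.d)
    (hn : [y, a1, b1, b2, b3, c1, c2, c3].Nodup)
    (e1 : 𝒢.Adj R Φ y a1) (e2 : 𝒢.Adj R Φ y b1) (e3 : 𝒢.Adj R Φ b1 b2) (e4 : 𝒢.Adj R Φ b2 b3)
    (e5 : 𝒢.Adj R Φ y c1) (e6 : 𝒢.Adj R Φ c1 c2) (e7 : 𝒢.Adj R Φ c2 c3) : False := by
  have := hW.graph (Φ := Φ) ![y, a1, b1, b2, b3, c1, c2, c3]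
    (fun i => hl _ (by fin_cases i <;> simp)) (List.nodup_ofFn.1 (by simpa using hn))
    (fun i j => (i.val, j.val) ∈ [(0, 1), (0, 2), (2, 3), (3, 4), (0, 5), (5, 6), (6, 7)])
    (by
      intro i j hij
      simp only [List.mem_cons, Prod.mk.injEq, List.not_mem_nil, or_false,
        decide_eq_true_eq] at hij
      rcases i with ⟨i, hi⟩
      rcases j with ⟨j, hj⟩
      rcases hij with h | h | h | h | h | h | h <;> obtain ⟨rfl, rfl⟩ := h <;> assumption)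
    ![4, 2, 3, 2, 1, 3, 2, 1] (by decide) 0
  simp at this

theorem Wy.e8 (hW : 𝒢.Wy R) {Φ : F} (y a1 b1 b2 c1 c2 c3 c4 c5 : ℕ)
    (hl : ∀ x ∈ [y, a1, b1, b2, c1, c2, c3, c4, c5], x < 𝒢.d)
    (hn : [y, a1, b1, b2, c1, c2, c3, c4, c5].Nodup)
    (e1 : 𝒢.Adj R Φ y a1) (e2 : 𝒢.Adj R Φ y b1) (e3 : 𝒢.Adj R Φ b1 b2) (e4 : 𝒢.Adj R Φ y c1)
    (e5 : 𝒢.Adj R Φ c1 c2) (e6 : 𝒢.Adj R Φ c2 c3) (e7 : 𝒢.Adj R Φ c3 c4)
    (e8 : 𝒢.Adj R Φ c4 c5) : False := by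
  have := hW.graph (Φ := Φ) ![y, a1, b1, b2, c1, c2, c3, c4, c5]
    (fun i => hl _ (by fin_cases i <;> simp)) (List.nodup_ofFn.1 (by simpa using hn))
    (fun i j => (i.val, j.val) ∈ [(0, 1), (0, 2), (2, 3), (0, 4), (4, 5), (5, 6), (6, 7), (7, 8)])
    (by
      intro i j hij
      simp only [List.mem_cons, Prod.mk.injEq, List.not_mem_nil, or_false,
        decide_eq_true_eq] at hij
      rcases i with ⟨i, hi⟩
      rcases j with ⟨j, hj⟩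
      rcases hij with h | h | h | h | h | h | h | h <;> obtain ⟨rfl, rfl⟩ := h <;> assumption)
    ![6, 3, 4, 2, 5, 4, 3, 2, 1] (by decide) 0
  simp at this

end Geo

end Pool.Agent.Lib.MP_727bc7_co
end
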